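import Pool.Agent.N571.SS.D.Stm
import Pool.Agent.N571.EX.TR

/-!
# SS/D/AU: adding a unitary of the normalizer (helper866)
-/

set_option autoImplicit false

namespace Pool.Agent.N571.SS.D

open Filter Topology
open scoped InnerProductSpace ComplexOrder
open Pool.Agent.H494R3.GT (L2 dl)
open Pool.Agent.N557.QW (lam rgt LG LK cf rc)

namespace AUx

set_option linter.unusedSectionVars false

variable {G : Type} [Group G]

/-- a positive functional is bounded -/
theorem bound {φ : B G →ₗ[ℂ] ℂ} (hφ : St φ) : ∃ C : ℝ, 0 ≤ C ∧ ∀ T : B G, ‖φ T‖ ≤ C * ‖T‖ := by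
  have hpos : ∀ x : B G, 0 ≤ x → 0 ≤ φ x := by
    intro x hx
    rw [StarOrderedRing.nonneg_iff] at hx
    induction hx using AddSubmonoid.closure_induction with
    | mem x hx =>
      obtain ⟨s, rfl⟩ := hx
      exact hφ.nonneg s
    | zero => rw [map_zero]
    | add x y _ _ h1 h2 => rw [map_add]; exact add_nonneg h1 h2
  obtain ⟨C, hC⟩ := PositiveLinearMap.exists_norm_apply_le (PositiveLinearMap.mk₀ φ hpos)
  exact ⟨C, C.2, fun T => hC T⟩

/-- conjugation by `u` -/
noncomputable def cu (u : B G) (T : B G) : B G := u * T * star u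

theorem cu_add (u T S : B G) : cu u (T + S) = cu u T + cu u S := by
  unfold cu; rw [mul_add, add_mul]

theorem cu_smul (u : B G) (c : ℂ) (T : B G) : cu u (c • T) = c • cu u T := by
  unfold cu; rw [mul_smul_comm, smul_mul_assoc]

theorem cu_mul {u : B G} (h : star u * u = 1) (T S : B G) : cu u (T * S) = cu u T * cu u S := by
  unfold cu
  calc u * (T * S) * star u = u * T * (1 : B G) * S * star u := by
        rw [mul_one]; simp only [mul_assoc]
    _ = u * T * (star u * u) * S * star u := by rw [h]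
    _ = u * T * star u * (u * S * star u) := by simp only [mul_assoc]

theorem cu_star (u T : B G) : cu u (star T) = star (cu u T) := by
  unfold cu; rw [star_mul, star_mul, star_star, mul_assoc]

theorem it_add (u T S : B G) (j : ℕ) : (cu u)^[j] (T + S) = (cu u)^[j] T + (cu u)^[j] S := by
  induction j generalizing T S with
  | zero => rfl
  | succ j ih => rw [Function.iterate_succ_apply, Function.iterate_succ_apply,
      Function.iterate_succ_apply, cu_add, ih]

theorem it_smul (u : B G) (c : ℂ) (T : B G) (j : ℕ) : (cu u)^[j] (c • T) = c • (cu u)^[j] T := by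
  induction j generalizing T with
  | zero => rfl
  | succ j ih => rw [Function.iterate_succ_apply, Function.iterate_succ_apply, cu_smul, ih]

theorem it_mul {u : B G} (h : star u * u = 1) (T S : B G) (j : ℕ) :
    (cu u)^[j] (T * S) = (cu u)^[j] T * (cu u)^[j] S := by
  induction j generalizing T S with
  | zero => rfl
  | succ j ih => rw [Function.iterate_succ_apply, Function.iterate_succ_apply,
      Function.iterate_succ_apply, cu_mul h, ih]

theorem it_star (u T : B G) (j : ℕ) : (cu u)^[j] (star T) = star ((cu u)^[j] T) := by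
  induction j generalizing T with
  | zero => rfl
  | succ j ih => rw [Function.iterate_succ_apply, Function.iterate_succ_apply, cu_star, ih]

theorem norm_u {u : B G} (h : star u * u = 1) : ‖u‖ ≤ 1 := by
  have h1 : ‖u‖ * ‖u‖ ≤ 1 := by
    rw [← CStarRing.norm_star_mul_self, h]
    exact ContinuousLinearMap.norm_id_le
  nlinarith [norm_nonneg u]

theorem cu_norm {u : B G} (h : star u * u = 1) (T : B G) : ‖cu u T‖ ≤ ‖T‖ := by
  unfold cu
  have h1 := norm_u h
  have h2 : ‖star u‖ ≤ 1 := (_root_.norm_star u).le.trans h1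
  calc ‖u * T * star u‖ ≤ ‖u * T‖ * ‖star u‖ := norm_mul_le _ _
    _ ≤ (‖u‖ * ‖T‖) * ‖star u‖ := by
        exact mul_le_mul_of_nonneg_right (norm_mul_le _ _) (norm_nonneg _)
    _ ≤ (1 * ‖T‖) * 1 := by
        apply mul_le_mul _ h2 (norm_nonneg _) (by positivity)
        exact mul_le_mul_of_nonneg_right h1 (norm_nonneg _)
    _ = ‖T‖ := by ring

theorem it_norm {u : B G} (h : star u * u = 1) (T : B G) (j : ℕ) : ‖(cu u)^[j] T‖ ≤ ‖T‖ := by
  induction j with
  | zero => exact le_rfl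
  | succ j ih => rw [Function.iterate_succ_apply']; exact (cu_norm h _).trans ih

/-- the averages -/
noncomputable def av (φ : B G →ₗ[ℂ] ℂ) (u : B G) (T : B G) (m : ℕ) : ℂ :=
  ((m : ℂ) + 1)⁻¹ * ∑ j ∈ Finset.range (m + 1), φ ((cu u)^[j] T)

theorem av_norm {φ : B G →ₗ[ℂ] ℂ} {u : B G} (h : star u * u = 1) {C : ℝ}
    (hC : ∀ T : B G, ‖φ T‖ ≤ C * ‖T‖) (h0 : 0 ≤ C) (T : B G) (m : ℕ) :
    ‖av φ u T m‖ ≤ C * ‖T‖ := by
  have hm : (0 : ℝ) < (m : ℝ) + 1 := by positivity
  have h1 : ‖∑ j ∈ Finset.range (m + 1), φ ((cu u)^[j] T)‖ ≤ ((m : ℝ) + 1) * (C * ‖T‖) := by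
    refine (norm_sum_le _ _).trans ?_
    calc ∑ j ∈ Finset.range (m + 1), ‖φ ((cu u)^[j] T)‖
        ≤ ∑ _j ∈ Finset.range (m + 1), C * ‖T‖ := by
          refine Finset.sum_le_sum fun j _ => (hC _).trans ?_
          exact mul_le_mul_of_nonneg_left (it_norm h T j) h0
      _ = ((m : ℝ) + 1) * (C * ‖T‖) := by
          rw [Finset.sum_const, Finset.card_range, nsmul_eq_mul]; push_cast; ring
  have h2 : ‖((m : ℂ) + 1)⁻¹‖ = ((m : ℝ) + 1)⁻¹ := by
    rw [norm_inv]
    congr 1
    have h3 : ((m : ℂ) + 1) = (((m : ℝ) + 1 : ℝ) : ℂ) := by push_cast; ring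
    rw [h3, Complex.norm_real, Real.norm_of_nonneg hm.le]
  unfold av
  rw [norm_mul, h2]
  calc ((m : ℝ) + 1)⁻¹ * ‖∑ j ∈ Finset.range (m + 1), φ ((cu u)^[j] T)‖
      ≤ ((m : ℝ) + 1)⁻¹ * (((m : ℝ) + 1) * (C * ‖T‖)) :=
        mul_le_mul_of_nonneg_left h1 (by positivity)
    _ = C * ‖T‖ := by field_simp

theorem av_lim {φ : B G →ₗ[ℂ] ℂ} {u : B G} (h : star u * u = 1) {C : ℝ}
    (hC : ∀ T : B G, ‖φ T‖ ≤ C * ‖T‖) (h0 : 0 ≤ C) (T : B G) :
    ∃ z : ℂ, Tendsto (av φ u T) (hyperfilter ℕ : Filter ℕ) (𝓝 z) := by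
  have h1 : (Metric.closedBall (0 : ℂ) (C * ‖T‖)) ∈ (Ultrafilter.map (av φ u T) (hyperfilter ℕ)) := by
    rw [Ultrafilter.mem_map]
    apply Filter.univ_mem'
    intro m
    change av φ u T m ∈ Metric.closedBall (0 : ℂ) (C * ‖T‖)
    rw [mem_closedBall_zero_iff]
    exact av_norm h hC h0 T m
  obtain ⟨z, -, hz⟩ := (isCompact_closedBall (0 : ℂ) (C * ‖T‖)).ultrafilter_le_nhds' _ h1
  exact ⟨z, hz⟩

theorem av_add (φ : B G →ₗ[ℂ] ℂ) (u T S : B G) (m : ℕ) :
    av φ u (T + S) m = av φ u T m + av φ u S m := by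
  unfold av
  rw [← mul_add, ← Finset.sum_add_distrib]
  congr 1
  refine Finset.sum_congr rfl fun j _ => ?_
  rw [it_add, map_add]

theorem av_smul (φ : B G →ₗ[ℂ] ℂ) (u : B G) (c : ℂ) (T : B G) (m : ℕ) :
    av φ u (c • T) m = c * av φ u T m := by
  unfold av
  have h1 : ∑ j ∈ Finset.range (m + 1), φ ((cu u)^[j] (c • T)) =
      c * ∑ j ∈ Finset.range (m + 1), φ ((cu u)^[j] T) := by
    rw [Finset.mul_sum]
    refine Finset.sum_congr rfl fun j _ => ?_
    rw [it_smul, map_smul, smul_eq_mul]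
  rw [h1]
  ring

theorem av_cu (φ : B G →ₗ[ℂ] ℂ) (u : B G) (T : B G) (m : ℕ) :
    av φ u (cu u T) m - av φ u T m =
      ((m : ℂ) + 1)⁻¹ * (φ ((cu u)^[m + 1] T) - φ T) := by
  have h1 := Finset.sum_range_sub (fun j => φ ((cu u)^[j] T)) (m + 1)
  have h2 : ∑ j ∈ Finset.range (m + 1), φ ((cu u)^[j] (cu u T)) -
      ∑ j ∈ Finset.range (m + 1), φ ((cu u)^[j] T) = φ ((cu u)^[m + 1] T) - φ T := by
    rw [← Finset.sum_sub_distrib]
    refine Eq.trans ?_ h1
    refine Finset.sum_congr rfl fun j _ => ?_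
    rw [Function.iterate_succ_apply]
  unfold av
  rw [← mul_sub, h2]

end AUx

open AUx

theorem t_au : S_AU := by
  intro G _ A hA φ hφ hc u hu
  obtain ⟨C, h0, hC⟩ := bound hφ
  have hl := hu.left
  have hr := hu.right
  choose L hL using fun T : B G => av_lim hl hC h0 T
  have hat : (hyperfilter ℕ : Filter ℕ) ≤ atTop := by
    rw [← Nat.cofinite_eq_atTop]
    exact hyperfilter_le_cofinite
  let ψ : B G →ₗ[ℂ] ℂ :=
    { toFun := L
      map_add' := fun T S => by
        refine tendsto_nhds_unique (hL (T + S)) (((hL T).add (hL S)).congr fun m => ?_)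
        rw [av_add]
      map_smul' := fun c T => by
        refine tendsto_nhds_unique (hL (c • T)) (((hL T).const_mul c).congr fun m => ?_)
        rw [av_smul] }
  have hψ : ∀ T, ψ T = L T := fun T => rfl
  -- invariance
  have hinv : ∀ T : B G, ψ (cu u T) = ψ T := by
    intro T
    rw [hψ, hψ]
    have h1 : Tendsto (fun m => av φ u (cu u T) m - av φ u T m) (hyperfilter ℕ : Filter ℕ)
        (𝓝 (L (cu u T) - L T)) := (hL (cu u T)).sub (hL T)
    have h2 : Tendsto (fun m => av φ u (cu u T) m - av φ u T m) atTop (𝓝 (0 : ℂ)) := by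
      rw [tendsto_zero_iff_norm_tendsto_zero]
      have h3 : Tendsto (fun m : ℕ => (1 / ((m : ℝ) + 1)) * (2 * (C * ‖T‖))) atTop (𝓝 (0 * (2 * (C * ‖T‖)))) :=
        tendsto_one_div_add_atTop_nhds_zero_nat.mul_const _
      rw [zero_mul] at h3
      refine squeeze_zero (fun m => norm_nonneg _) (fun m => ?_) h3
      rw [av_cu, norm_mul]
      have hm : (0 : ℝ) < (m : ℝ) + 1 := by positivity
      have h4 : ‖((m : ℂ) + 1)⁻¹‖ = 1 / ((m : ℝ) + 1) := by
        rw [norm_inv, one_div]
        congr 1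
        have h3 : ((m : ℂ) + 1) = (((m : ℝ) + 1 : ℝ) : ℂ) := by push_cast; ring
        rw [h3, Complex.norm_real, Real.norm_of_nonneg hm.le]
      rw [h4]
      apply mul_le_mul_of_nonneg_left _ (by positivity)
      refine (norm_sub_le _ _).trans ?_
      have h5 : ‖φ ((cu u)^[m + 1] T)‖ ≤ C * ‖T‖ :=
        (hC _).trans (mul_le_mul_of_nonneg_left (it_norm hl T _) h0)
      linarith [hC T]
    have h3 := tendsto_nhds_unique h1 (h2.mono_left hat)
    exact sub_eq_zero.1 h3
  have huL : u ∈ LG G := hu.mem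
  have hsL : star u ∈ LG G := star_mem huL
  -- iterates
  have hitL : ∀ x ∈ LG G, ∀ j, (cu u)^[j] x ∈ LG G := by
    intro x hx j
    induction j with
    | zero => exact hx
    | succ j ih =>
      rw [Function.iterate_succ_apply']
      exact mul_mem (mul_mem huL ih) hsL
  have hitA : ∀ x ∈ A, ∀ j, (cu u)^[j] x ∈ A := by
    intro x hx j
    induction j with
    | zero => exact hx
    | succ j ih =>
      rw [Function.iterate_succ_apply']
      exact hu.conj _ ih
  have htr : ∀ x ∈ LG G, ∀ j, tau ((cu u)^[j] x) = tau x := by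
    intro x hx j
    induction j with
    | zero => rfl
    | succ j ih =>
      rw [Function.iterate_succ_apply', ← ih]
      have h1 := Pool.Agent.N571.EX.TRx.tracial (mul_mem huL (hitL x hx j)) hsL
      unfold tau
      refine Eq.trans h1 ?_
      rw [← mul_assoc, hl, one_mul]
  refine ⟨ψ, ⟨?_, ?_⟩, ?_, ⟨huL, ?_⟩, ⟨hsL, ?_⟩⟩
  · intro T
    rw [hψ]
    refine ge_of_tendsto' (hL (star T * T)) fun m => ?_
    unfold av
    have h1 : (0 : ℂ) ≤ ((m : ℂ) + 1)⁻¹ := by
      have h3 : ((m : ℂ) + 1)⁻¹ = ((((m : ℝ) + 1)⁻¹ : ℝ) : ℂ) := by push_cast; ring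
      rw [h3]
      exact Complex.zero_le_real.2 (by positivity)
    refine mul_nonneg h1 (Finset.sum_nonneg fun j _ => ?_)
    rw [it_mul hl, it_star]
    exact hφ.nonneg _
  · intro x hx
    rw [hψ]
    refine tendsto_nhds_unique (hL x) ((tendsto_const_nhds (x := tau x)).congr fun m => ?_)
    unfold av
    have h1 : ∑ j ∈ Finset.range (m + 1), φ ((cu u)^[j] x) =
        ∑ _j ∈ Finset.range (m + 1), tau x := by
      refine Finset.sum_congr rfl fun j _ => ?_
      rw [hφ.trace _ (hitL x hx j), htr x hx j]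
    rw [h1, Finset.sum_const, Finset.card_range, nsmul_eq_mul]
    have h2 : ((m : ℂ) + 1) ≠ 0 := Nat.cast_add_one_ne_zero m
    push_cast
    rw [← mul_assoc, inv_mul_cancel₀ h2, one_mul]
  · intro x hx
    refine ⟨hA x hx, fun T => ?_⟩
    rw [hψ, hψ]
    refine tendsto_nhds_unique (hL (x * T)) ((hL (T * x)).congr fun m => ?_)
    unfold av
    congr 1
    refine Finset.sum_congr rfl fun j _ => ?_
    rw [it_mul hl, it_mul hl]
    exact ((hc _ (hitA x hx j)).2 _).symm
  · intro T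
    have h1 : cu u (T * u) = u * T := by
      unfold cu
      rw [mul_assoc, mul_assoc, hr, mul_one]
    rw [← h1, hinv]
  · intro T
    have h1 : cu u (star u * T) = T * star u := by
      unfold cu
      rw [← mul_assoc, hr, one_mul]
    rw [← h1, hinv]

end Pool.Agent.N571.SS.D
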