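import Pool.Agent.N571.SS.D.Stm2

/-!
# Project SS/D: strong solidity, the plain definition
-/

set_option autoImplicit false

namespace Pool.Agent.N571.SS.D

open Filter Topology
open scoped InnerProductSpace ComplexOrder
open Pool.Agent.H494R3.GT (L2 dl)
open Pool.Agent.N557.QW (lam rgt LG LK cf rc)

section

variable {H : Type} [NormedAddCommGroup H] [InnerProductSpace ℂ H] [CompleteSpace H]

/-- `N` is strongly solid: for every diffuse amenable von Neumann subalgebra `A ⊆ N`, the von
Neumann algebra generated by the normalizer of `A` in `N` is amenable. Amenability is the existence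
of a hypertrace. -/
structure Solid (N : VonNeumannAlgebra H) (Ω : H) : Prop where
  solid : ∀ A : VonNeumannAlgebra H, (∀ x ∈ A, x ∈ N) → Dif A → (∃ φ, Hypertrace A Ω φ) →
    ∃ P : VonNeumannAlgebra H, GenNor A N P ∧ ∃ φ, Hypertrace P Ω φ

end

/-- TRN2: transport from `ℓ²(Γ)` to `ℓ²(Z/2 ≀ Γ)`. -/
def S_TRN2 : Prop :=
  ∀ (Γ : Type) [Group Γ], Solid (LG Γ) (dl (1 : Γ)) → Solid (LK (emb Γ).range) (dl (1 : WR Γ))

end Pool.Agent.N571.SS.D
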