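import Pool.Agent.N571.SS.Asm
import Pool.Agent.N571.SS.D.Stm3

/-!
# Project SS/D: assembly
-/

set_option autoImplicit false

namespace Pool.Agent.N571.SS.D

open Filter Topology
open scoped InnerProductSpace ComplexOrder
open Pool.Agent.H494R3.GT (L2 dl inner_dl)
open Pool.Agent.N557.QW (lam rgt LG LK cf rc lam_dl star_lam lam_one lam_mul lam_mem mem_LG_iff)
open Pool.Agent.N571.EX.Plain (Tracial IIOneFactor UltraEmb)

theorem nor_one {G : Type} [Group G] (A : VonNeumannAlgebra (L2 G)) : Nor A (1 : B G) where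
  mem := (LG G).one_mem
  left := by simp
  right := by simp
  conj a ha := by simpa using ha
  conj' a ha := by simpa using ha

theorem nor_star {G : Type} [Group G] {A : VonNeumannAlgebra (L2 G)} {u : B G} (h : Nor A u) :
    Nor A (star u) where
  mem := star_mem h.mem
  left := by simpa using h.right
  right := by simpa using h.left
  conj a ha := by simpa using h.conj' a ha
  conj' a ha := by simpa using h.conj a ha

theorem nor_mul {G : Type} [Group G] {A : VonNeumannAlgebra (L2 G)} {u v : B G} (h : Nor A u)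
    (h' : Nor A v) : Nor A (u * v) where
  mem := (LG G).mul_mem h.mem h'.mem
  left := by
    rw [star_mul, mul_assoc, ← mul_assoc (star u), h.left, one_mul, h'.left]
  right := by
    rw [star_mul, mul_assoc, ← mul_assoc v, h'.right, one_mul, h.right]
  conj a ha := by
    have := h.conj _ (h'.conj a ha)
    rw [star_mul]
    simpa [mul_assoc] using this
  conj' a ha := by
    have := h'.conj' _ (h.conj' a ha)
    rw [star_mul]
    simpa [mul_assoc] using this

theorem gen_of (hWC : S_WC) (hFIN : S_FIN) (hCEN : S_CEN) (G : Type) [Group G] [Countable G]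
    (hb : BiExact G) (hc : CMAP G) (A : VonNeumannAlgebra (L2 G)) (hA : Am A) (hD : Dif A) :
    ∃ P : VonNeumannAlgebra (L2 G), GenNor A (LG G) P ∧
      ∃ φ : B G →ₗ[ℂ] ℂ, St φ ∧ ∀ x ∈ P, x ∈ Cen φ := by
  obtain ⟨ξ, hξ, hinv⟩ := hWC G hc A hA hD
  obtain ⟨φ, hφ, hcen⟩ := hFIN G hb hc ξ hξ
  obtain ⟨P, hP1, hP2, hP3⟩ := hCEN G φ hφ {u | Nor A u} (nor_one A)
    (fun u hu => ⟨hcen u hu.mem ⟨hu.left, hu.right⟩ (hinv u hu) (hinv _ (nor_star hu)),
      nor_star hu⟩) (fun u hu v hv => nor_mul hu hv)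
  refine ⟨P, ⟨?_, ?_⟩, φ, hφ, hP1⟩
  · intro u hu h1 h2 h3 h4
    exact hP2 u ⟨hu, h1, h2, h3, h4⟩
  · intro P' h
    exact hP3 P' (fun u hu => h u hu.mem hu.left hu.right hu.conj hu.conj')

theorem stronglySolid_of (hWC : S_WC) (hFIN : S_FIN) (hCEN : S_CEN) (G : Type) [Group G]
    [Countable G] (hb : BiExact G) (hc : CMAP G) : StronglySolid (LG G) (dl (1 : G)) where
  solid A hA hD hAm := by
    obtain ⟨φ, h1, h2, h3⟩ := hAm.ex
    obtain ⟨P, hP, ψ, hψ, hc⟩ := gen_of hWC hFIN hCEN G hb hc A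
      ⟨hA, φ, ⟨h1, h2⟩, fun x hx => ⟨hA x hx, h3 x hx⟩⟩ hD
    exact ⟨P, hP, ψ, hψ.nonneg, hψ.trace, fun x hx => (hc x hx).2⟩

theorem solid_of (hWC : S_WC) (hFIN : S_FIN) (hCEN : S_CEN) (hHYP : S_HYP) (G : Type) [Group G]
    [Countable G] (hb : BiExact G) (hc : CMAP G) : Solid (LG G) (dl (1 : G)) where
  solid A hA hD hAm := by
    obtain ⟨P, hP, ψ, hψ, hc⟩ := gen_of hWC hFIN hCEN G hb hc A (hHYP G A hA hAm) hD
    exact ⟨P, hP, ψ, hψ.nonneg, fun x hx => hψ.trace x (hc x hx).1, fun x hx => (hc x hx).2⟩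

theorem wr_icc {Γ : Type} [Group Γ] [Infinite Γ] : Pool.Agent.N571.EX.ICC (WR Γ) := by
  intro g hg
  by_cases h : g ∈ SS.Asm.Lamps Γ
  · rw [SS.Asm.mem_Lamps] at h
    obtain ⟨a, ha⟩ : g.lamp.Nonempty := by
      rw [Finset.nonempty_iff_ne_empty]
      intro h'
      exact hg (WR.ext h' h)
    intro hfin
    have h2 : (Set.univ : Set Γ) ⊆ ⋃ x ∈ {x : WR Γ | ∃ h : WR Γ, x = h * g * h⁻¹},
        {k : Γ | k * a ∈ x.lamp} := by
      intro k _
      refine Set.mem_biUnion (x := emb Γ k * g * (emb Γ k)⁻¹) ⟨_, rfl⟩ ?_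
      change k * a ∈ (emb Γ k * g * (emb Γ k)⁻¹).lamp
      have e1 : (emb Γ k).lamp = ∅ := rfl
      have e2 : (emb Γ k).pos = k := rfl
      simp only [WR.mem_mul, WR.mem_inv, WR.mul_pos, e1, e2, Finset.notMem_empty, h, mul_one,
        inv_mul_cancel_left, ha]
      simp
    have h3 : (Set.univ : Set Γ).Finite := by
      refine (hfin.biUnion fun x _ => ?_).subset h2
      exact Set.Finite.preimage ((mul_left_injective a).injOn) x.lamp.finite_toSet
    exact Set.infinite_univ h3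
  · refine (SS.Asm.lamps_inf g h).mono ?_
    rintro x ⟨d, _, hx⟩
    exact ⟨d, hx⟩

/-- `N` is a non-amenable strongly solid `II₁` factor; `M ⊇ N` is a `II₁` factor with the same trace
and with the Cartan subalgebra `A`, and the inclusion `N ⊆ M` is existential for every non-principal
ultrafilter on `ℕ`. -/
structure IsAnswer {H : Type} [NormedAddCommGroup H] [InnerProductSpace ℂ H]
    [CompleteSpace H] (N M A : VonNeumannAlgebra H) (Ω : H) : Prop where
  factor : IIOneFactor N Ω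
  nonamenable : ∀ φ, ¬ Hypertrace N Ω φ
  solid : Solid N Ω
  sub : ∀ x ∈ N, x ∈ M
  factorM : IIOneFactor M Ω
  cartan : IsCartan A M
  existential : ∀ U : Ultrafilter ℕ, (U : Filter ℕ) ≤ cofinite → ∃ π, UltraEmb N M Ω U π

/-- The final statement. -/
def Final2 : Prop :=
  ∃ (Γ : Type) (_ : Group Γ) (H : Type) (_ : NormedAddCommGroup H) (_ : InnerProductSpace ℂ H)
    (_ : CompleteSpace H) (_ : TopologicalSpace.SeparableSpace H) (u : Γ → (H →L[ℂ] H))
    (N M A : VonNeumannAlgebra H) (Ω : H),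
    GoodGroup Γ ∧ IsGroupVN u N Ω ∧ IsAnswer N M A Ω

theorem final2_of (hTR : Pool.Agent.N571.EX.S_TR) (hFAC : Pool.Agent.N571.EX.S_FAC)
    (hEXI : Pool.Agent.N571.EX.W.S_EXI) (hPRP : S_PRP)
    (hXCM : S_XCM) (hXEX : S_XEX) (hXBE : S_XBE) (hGLB : S_GLB) (hCHN : S_CHN) (hUN1 : S_UN1)
    (hUN2 : S_UN2) (hCIC : S_CIC) (hEXG : S_EXG) (hCOM : S_COM) (hCAR : S_CAR) (hNAM : S_NAM)
    (hSOL : ∀ (Γ : Type) [Group Γ] [Countable Γ], BiExact Γ → CMAP Γ →
      Solid (LK (emb Γ).range) (dl (1 : WR Γ))) :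
    Final2 := by
  obtain ⟨Γ, _, K, c, hch⟩ := hCHN
  obtain ⟨hicc, hinf⟩ := hCIC Γ K c hch
  obtain ⟨θ, hθ⟩ := hEXG Γ K c hch
  have hcm : ∀ n, CMAP (K n) := fun n => by
    obtain ⟨V, _, T, hT⟩ := hch.tree n
    exact hXCM _ V T hT
  have hex : ∀ n, Exact (K n) := fun n => by
    obtain ⟨V, _, T, hT⟩ := hch.tree n
    exact hXEX _ V T hT
  have hbe : ∀ n, BELoc (K n) := fun n => by
    obtain ⟨V, _, T, hT⟩ := hch.tree n
    exact hXBE _ V T hT
  have hcount : ∀ n, Countable (K n) := fun n => by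
    obtain ⟨V, _, T, hT⟩ := hch.tree n
    exact (hPRP _ V T hT).2.2.2
  have hcΓ : Countable Γ := by
    have h1 : (Set.univ : Set Γ) ⊆ ⋃ n, (K n : Set Γ) := by
      intro x _
      obtain ⟨n, hn⟩ := hch.top x
      exact Set.mem_iUnion.2 ⟨n, hn⟩
    exact Set.countable_univ_iff.1
      ((Set.countable_iUnion fun n => Set.countable_coe_iff.1 (hcount n)).mono h1)
  have hcW : Countable (WR Γ) := by
    have : Function.Injective (fun w : WR Γ => (w.lamp, w.pos)) := by
      intro a b h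
      exact WR.ext (congrArg Prod.fst h) (congrArg Prod.snd h)
    exact this.countable
  have hbx : BiExact Γ := hGLB Γ ((hUN1 Γ K hch.mono hch.top).2 hex)
    (hUN2 Γ K hch.mono hch.top hch.mal hbe)
  let R : Subgroup (WR Γ) := (emb Γ).range
  let e : Γ ≃* R := MonoidHom.ofInjective (SS.Asm.emb_inj Γ)
  have hiR : Pool.Agent.N571.EX.ICC R :=
    Pool.Agent.N571.EX.icc_congr e (fun g hg => hicc g hg)
  have hinfR : Infinite R := Infinite.of_injective e e.injective
  obtain ⟨hLK, htG, htK, -, -, -⟩ := hTR (WR Γ) R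
  have hfac : Pool.Agent.N571.EX.IsIIOne (LK R) (dl (1 : WR Γ)) := (hFAC (WR Γ) R).2 hiR hinfR
  have hsub : ∀ x ∈ LK R, x ∈ LG (WR Γ) := fun x hx => ((hLK x).1 hx).1
  have hlam : ∀ g : Γ, lam (emb Γ g) ∈ LK R := by
    intro g
    rw [hLK]
    refine ⟨lam_mem _, fun k hk => ?_⟩
    classical
    rw [cf, lam_dl, mul_one, Pool.Agent.H494R3.GT.dl_inner, if_neg]
    rintro rfl
    exact hk ⟨g, rfl⟩
  have hExi : ∀ U : Ultrafilter ℕ, (U : Filter ℕ) ≤ cofinite →
      ∃ π, UltraEmb (LK R) (LG (WR Γ)) (dl (1 : WR Γ)) U π := by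
    intro U hU
    refine Pool.Agent.N571.EX.Plain.exi hsub (hEXI (WR Γ) R (fun _ => R) θ ?_ U hU)
    exact
      { mono := fun _ _ _ => le_rfl
        mem := fun x => ⟨fun h => ⟨0, h⟩, fun ⟨_, h⟩ => h⟩
        val := hθ.val
        mul := hθ.mul
        ne := hθ.ne
        id := hθ.id }
  obtain ⟨f, hf⟩ := hch.free
  refine ⟨Γ, inferInstance, L2 (WR Γ), inferInstance, inferInstance, inferInstance,
    Pool.Agent.N571.EX.sep (WR Γ), fun g => lam (emb Γ g), LK R, LG (WR Γ), LK (SS.Asm.Lamps Γ), dl 1,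
    ?_, ?_, ?_⟩
  · exact
      { countable := hcΓ
        biexact := hbx
        cmap := (hUN1 Γ K hch.mono hch.top).1 hcm
        icc := hicc
        free := ⟨f, hf⟩ }
  · refine
      { mem := hlam, one := ?_, mul := ?_, adj := ?_, trace := ?_, generates := ?_ }
    · rw [map_one, lam_one]
    · intro g h
      rw [map_mul, lam_mul]
    · intro g
      rw [star_lam, map_inv]
    · intro g hg
      classical
      rw [lam_dl, mul_one, Pool.Agent.H494R3.GT.dl_inner, if_neg]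
      intro h
      apply hg
      apply SS.Asm.emb_inj Γ
      rw [map_one, ← h]
    · intro P hP x hx
      refine SS.Asm.generates hCOM R P ?_ hx
      rintro _ ⟨g, rfl⟩
      exact hP g
  · refine
      { factor := Pool.Agent.N571.EX.Plain.iione hfac, nonamenable := ?_, solid := ?_,
        sub := hsub, factorM := ?_, cartan := ?_, existential := hExi }
    · intro φ hφ
      exact hNAM (WR Γ) R ((emb Γ).comp f) ((SS.Asm.emb_inj Γ).comp hf) (fun x => ⟨f x, rfl⟩) ⟨φ, hφ⟩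
    · exact hSOL Γ hbx ((hUN1 Γ K hch.mono hch.top).1 hcm)
    · have hinfW : Infinite (WR Γ) := Infinite.of_injective (emb Γ) (SS.Asm.emb_inj Γ)
      exact Pool.Agent.N571.EX.Plain.iione ((hFAC (WR Γ) R).1 wr_icc hinfW)
    · exact hCAR (WR Γ) (SS.Asm.Lamps Γ) SS.Asm.lamps_comm SS.Asm.lamps_normal SS.Asm.lamps_inf

end Pool.Agent.N571.SS.D
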