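import Pool.Agent.N571.SS.D.Stm

/-!
# Project SS/D (helper571), BAS (helper853): first properties of `cj`, `a1`, `a2`, `Rm`
-/

set_option autoImplicit false

namespace Pool.Agent.N571.SS.D

namespace BAS

open Filter Topology
open scoped InnerProductSpace ComplexOrder
open Pool.Agent.H494R3.GT (L2 dl UU UU_dl dl_inner inner_dl op_ext op_ext_inner vec_ext mul_ap)
open Pool.Agent.N557.QW (lam rgt LG LK cf rc mem_LG mem_LG_iff lam_dl rgt_dl star_lam)
open Pool.Agent.H812R3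

noncomputable section

theorem dl_eq {X : Type} (x : X) : KP.dl x = dl x := by
  classical
  unfold dl
  exact (KP.dl_eq_single x).symm

theorem ent_eq {X : Type} (T : B X) (x y : X) : KP.ent T x y = ⟪dl x, T (dl y)⟫_ℂ := by
  rw [KP.ent_eq_inner, dl_eq, dl_eq]

theorem ent_st {X : Type} (T : B X) (x y : X) :
    ⟪dl x, (star T) (dl y)⟫_ℂ = (starRingEnd ℂ) ⟪dl y, T (dl x)⟫_ℂ := by
  rw [← ent_eq, KP.ent_star, ent_eq]

/-! ### conjugation -/

theorem cj_apply {X : Type} (T : B X) (v : L2 X) : cj T v = star (T (star v)) := rfl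

theorem star_dl {X : Type} (x : X) : star (dl x : L2 X) = dl x := by
  classical
  apply vec_ext
  intro y
  rw [lp.star_apply]
  by_cases h : y = x
  · subst h
    rw [Pool.Agent.H494R3.GT.dl_apply_self, star_one]
  · rw [Pool.Agent.H494R3.GT.dl_apply_ne h, star_zero]

theorem cj_add {X : Type} (x y : B X) : cj (x + y) = cj x + cj y := by
  ext1 v
  rw [cj_apply, add_apply, add_apply, star_add]
  rfl

theorem cj_smul {X : Type} (c : ℂ) (x : B X) : cj (c • x) = (starRingEnd ℂ) c • cj x := by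
  ext1 v
  rw [cj_apply, smul_apply, smul_apply, star_smul]
  rfl

theorem cj_mul {X : Type} (x y : B X) : cj (x * y) = cj x * cj y := by
  ext1 v
  rw [cj_apply, mul_ap, mul_ap, cj_apply, cj_apply, star_star]

theorem cj_one {X : Type} : cj (1 : B X) = 1 := by
  ext1 v
  rw [cj_apply]
  exact star_star v

theorem cj_cj {X : Type} (x : B X) : cj (cj x) = x := by
  ext1 v
  rw [cj_apply, cj_apply, star_star, star_star]

theorem cj_ent {X : Type} (x : B X) (s t : X) :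
    ⟪dl s, cj x (dl t)⟫_ℂ = (starRingEnd ℂ) ⟪dl s, x (dl t)⟫_ℂ := by
  rw [cj_apply, star_dl, inner_dl, inner_dl, lp.star_apply]
  rfl

theorem cj_star {X : Type} (x : B X) : cj (star x) = star (cj x) := by
  apply op_ext_inner
  intro s t
  rw [cj_ent, ent_st, ent_st, cj_ent]

theorem cj_le {X : Type} (x : B X) : ‖cj x‖ ≤ ‖x‖ :=
  LinearMap.mkContinuous_norm_le _ (norm_nonneg _) _

theorem cj_norm {X : Type} (x : B X) : ‖cj x‖ = ‖x‖ := by
  apply le_antisymm (cj_le x)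
  have h := cj_le (cj x)
  rwa [cj_cj] at h

theorem cj_UU {X : Type} (τ : Equiv.Perm X) : cj (UU τ) = UU τ := by
  apply op_ext
  intro x
  rw [cj_apply, star_dl, UU_dl, star_dl]

/-! ### tensor products -/

section

variable {X : Type}

theorem a1_ent (x : B X) (s t s' t' : X) : ⟪dl (s, s'), a1 x (dl (t, t'))⟫_ℂ =
    ⟪dl s, x (dl t)⟫_ℂ * ⟪dl s', dl t'⟫_ℂ := by
  classical
  have h := KP.ent_amp (Equiv.refl (X × X)) x s t s' t'
  rw [ent_eq, ent_eq] at h
  change ⟪dl (s, s'), a1 x (dl (t, t'))⟫_ℂ = _ at h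
  rw [h, dl_inner]
  split_ifs <;> simp

theorem a2_ent (x : B X) (s t s' t' : X) : ⟪dl (s, s'), a2 x (dl (t, t'))⟫_ℂ =
    ⟪dl s, dl t⟫_ℂ * ⟪dl s', x (dl t')⟫_ℂ := by
  classical
  have h := KP.ent_amp (Equiv.prodComm X X) x s' t' s t
  rw [ent_eq, ent_eq] at h
  change ⟪dl (s, s'), a2 x (dl (t, t'))⟫_ℂ = _ at h
  rw [h, dl_inner]
  split_ifs <;> simp

theorem a12_ent (x y : B X) (s t s' t' : X) : ⟪dl (s, s'), (a1 x * a2 y) (dl (t, t'))⟫_ℂ =
    ⟪dl s, x (dl t)⟫_ℂ * ⟪dl s', y (dl t')⟫_ℂ := by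
  classical
  have h1 := KP.ent_mul (a1 x) (a2 y) (s, s') (t, t')
  have h2 := hasSum_single (f := fun z => KP.ent (a1 x) (s, s') z * KP.ent (a2 y) z (t, t'))
    (t, s') (by
      rintro ⟨r, r'⟩ hr
      rw [ent_eq, ent_eq, a1_ent, a2_ent, dl_inner, dl_inner]
      by_cases h3 : r = t
      · by_cases h4 : s' = r'
        · exact absurd (by rw [h3, h4]) hr
        · rw [if_neg h4]; ring
      · rw [if_neg h3]; ring)
  have h3 := h1.unique h2
  simp only [ent_eq] at h3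
  rw [h3, a1_ent, a2_ent, dl_inner, dl_inner, if_pos rfl, if_pos rfl]
  ring

theorem a21_ent (x y : B X) (s t s' t' : X) : ⟪dl (s, s'), (a2 y * a1 x) (dl (t, t'))⟫_ℂ =
    ⟪dl s, x (dl t)⟫_ℂ * ⟪dl s', y (dl t')⟫_ℂ := by
  classical
  have h1 := KP.ent_mul (a2 y) (a1 x) (s, s') (t, t')
  have h2 := hasSum_single (f := fun z => KP.ent (a2 y) (s, s') z * KP.ent (a1 x) z (t, t'))
    (s, t') (by
      rintro ⟨r, r'⟩ hr
      rw [ent_eq, ent_eq, a1_ent, a2_ent, dl_inner, dl_inner]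
      by_cases h3 : s = r
      · by_cases h4 : r' = t'
        · exact absurd (by rw [h3, h4]) hr
        · rw [if_neg h4]; ring
      · rw [if_neg h3]; ring)
  have h3 := h1.unique h2
  simp only [ent_eq] at h3
  rw [h3, a1_ent, a2_ent, dl_inner, dl_inner, if_pos rfl, if_pos rfl]
  ring

theorem comm (x y : B X) : a1 x * a2 y = a2 y * a1 x := by
  apply op_ext_inner
  rintro ⟨s, s'⟩ ⟨t, t'⟩
  rw [a12_ent, a21_ent]

theorem a1_mul (x y : B X) : a1 (x * y) = a1 x * a1 y := KP.amp_mul _ x y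

theorem a2_mul (x y : B X) : a2 (x * y) = a2 x * a2 y := KP.amp_mul _ x y

end

section grp

variable {G : Type} [Group G]

theorem rgt_prod (g h : G) : rgt ((g, h) : G × G) = a1 (rgt g) * a2 (rgt h) := by
  classical
  apply op_ext_inner
  rintro ⟨s, s'⟩ ⟨t, t'⟩
  rw [a12_ent, rgt_dl, rgt_dl, rgt_dl, dl_inner, dl_inner, dl_inner]
  by_cases h1 : s = t * g
  · by_cases h2 : s' = t' * h
    · rw [if_pos (Prod.ext h1 h2), if_pos h1, if_pos h2, one_mul]
    · rw [if_neg fun h3 => h2 (congrArg Prod.snd h3), if_neg h2, mul_zero]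
  · rw [if_neg fun h3 => h1 (congrArg Prod.fst h3), if_neg h1, zero_mul]

theorem a1_mem (x : B G) (hx : x ∈ LG G) : a1 x ∈ LG (G × G) := by
  rw [mem_LG] at hx ⊢
  rintro ⟨g, h⟩
  rw [rgt_prod, mul_assoc, ← comm, ← mul_assoc, ← a1_mul, hx, a1_mul, mul_assoc]

theorem a2_mem (x : B G) (hx : x ∈ LG G) : a2 x ∈ LG (G × G) := by
  rw [mem_LG] at hx ⊢
  rintro ⟨g, h⟩
  rw [rgt_prod, mul_assoc, ← a2_mul, hx, a2_mul, ← mul_assoc, comm, mul_assoc]

theorem cj_mem (x : B G) (hx : x ∈ LG G) : cj x ∈ LG G := by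
  rw [mem_LG] at hx ⊢
  intro g
  have h1 : cj (rgt g) = rgt g := cj_UU _
  rw [← h1, ← cj_mul, hx, cj_mul]

/-! ### right multiplications -/

theorem fl_dl (s : G) : fl (dl s) = dl s⁻¹ := by
  rw [fl, ← dl_eq, KP.perm_dl, dl_eq]
  rfl

theorem fl_fl : (fl : B G) * fl = 1 := by
  apply op_ext
  intro s
  rw [mul_ap, fl_dl, fl_dl, inv_inv]
  rfl

theorem star_fl : star (fl : B G) = fl := by
  classical
  apply op_ext_inner
  intro s t
  rw [ent_st, fl_dl, fl_dl, dl_inner, dl_inner]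
  by_cases h : t = s⁻¹
  · rw [if_pos h, if_pos (by rw [h, inv_inv]), map_one]
  · rw [if_neg h, if_neg (fun h1 => h (by rw [h1, inv_inv])), map_zero]

theorem fl_norm : ‖(fl : B G)‖ ≤ 1 := KP.norm_pull_le _ _

theorem Rm_ent (x : B G) (t s : G) : ⟪dl t, Rm x (dl s)⟫_ℂ = ⟪dl s⁻¹, x (dl t⁻¹)⟫_ℂ := by
  unfold Rm
  rw [mul_ap, mul_ap, fl_dl]
  have h1 : ⟪dl t, fl (cj (star x) (dl s⁻¹))⟫_ℂ = ⟪(star fl) (dl t), cj (star x) (dl s⁻¹)⟫_ℂ :=
    (ContinuousLinearMap.adjoint_inner_left fl (cj (star x) (dl s⁻¹)) (dl t)).symm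
  rw [h1, star_fl, fl_dl, cj_ent, ent_st, Complex.conj_conj]

theorem Rm_mul (x y : B G) : Rm (x * y) = Rm y * Rm x := by
  unfold Rm
  rw [star_mul, cj_mul]
  have : fl * cj (star y) * fl * (fl * cj (star x) * fl) =
      fl * cj (star y) * (fl * fl) * cj (star x) * fl := by
    simp only [mul_assoc]
  rw [this, fl_fl, mul_one]
  simp only [mul_assoc]

theorem nst (x : B G) : ‖star x‖ = ‖x‖ := ContinuousLinearMap.adjoint.norm_map x

theorem Rm_le (x : B G) : ‖Rm x‖ ≤ ‖x‖ := by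
  unfold Rm
  calc ‖fl * cj (star x) * fl‖ ≤ ‖fl * cj (star x)‖ * ‖(fl : B G)‖ := norm_mul_le _ _
    _ ≤ (‖(fl : B G)‖ * ‖cj (star x)‖) * ‖(fl : B G)‖ :=
        mul_le_mul_of_nonneg_right (norm_mul_le _ _) (norm_nonneg _)
    _ ≤ (1 * ‖cj (star x)‖) * 1 := by
        gcongr
        · exact fl_norm
        · exact fl_norm
    _ = ‖x‖ := by rw [one_mul, mul_one, cj_norm, nst]

theorem le_Rm (x : B G) : ‖x‖ ≤ ‖Rm x‖ := by
  have h1 : fl * Rm x * fl = cj (star x) := by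
    unfold Rm
    have : fl * (fl * cj (star x) * fl) * fl = fl * fl * cj (star x) * (fl * fl) := by
      simp only [mul_assoc]
    rw [this, fl_fl, one_mul, mul_one]
  have h2 : ‖x‖ = ‖fl * Rm x * fl‖ := by rw [h1, cj_norm, nst]
  rw [h2]
  calc ‖fl * Rm x * fl‖ ≤ ‖fl * Rm x‖ * ‖(fl : B G)‖ := norm_mul_le _ _
    _ ≤ (‖(fl : B G)‖ * ‖Rm x‖) * ‖(fl : B G)‖ :=
        mul_le_mul_of_nonneg_right (norm_mul_le _ _) (norm_nonneg _)
    _ ≤ (1 * ‖Rm x‖) * 1 := by
        gcongr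
        · exact fl_norm
        · exact fl_norm
    _ = ‖Rm x‖ := by rw [one_mul, mul_one]

theorem Rm_comm (x : B G) (hx : x ∈ LG G) (y : B G) (hy : y ∈ LG G) : Rm x * y = y * Rm x := by
  apply op_ext_inner
  intro t s
  rw [mem_LG_iff] at hx hy
  have h1 := KP.ent_mul (Rm x) y t s
  have h2 := KP.ent_mul y (Rm x) t s
  rw [ent_eq] at h1 h2
  simp only [ent_eq, Rm_ent, hx, hy, inv_inv] at h1 h2
  let τ : G ≃ G :=
    { toFun := fun r => s * r⁻¹ * t
      invFun := fun r => t * r⁻¹ * s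
      left_inv := fun r => by group
      right_inv := fun r => by group }
  have h3 := (Equiv.hasSum_iff τ).2 h2
  refine h1.unique ?_
  convert h3 using 1
  funext r
  change cf x (r⁻¹ * t) * cf y (r * s⁻¹) =
    cf y (t * (s * r⁻¹ * t)⁻¹) * cf x (s⁻¹ * (s * r⁻¹ * t))
  have e1 : t * (s * r⁻¹ * t)⁻¹ = r * s⁻¹ := by group
  have e2 : s⁻¹ * (s * r⁻¹ * t) = r⁻¹ * t := by group
  rw [e1, e2, mul_comm]

end grp

end

end BAS

open BAS in
/-- BAS -/
theorem t_bas : S_BAS := by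
  intro G _
  exact
  { cj_add := cj_add
    cj_smul := cj_smul
    cj_mul := cj_mul
    cj_one := cj_one
    cj_star := cj_star
    cj_cj := cj_cj
    cj_norm := cj_norm
    cj_lam := fun g => cj_UU _
    cj_ent := cj_ent
    cj_mem := cj_mem
    a1_add := fun x y => map_add _ x y
    a1_smul := fun c x => map_smul _ c x
    a1_mul := a1_mul
    a1_one := Pool.Agent.H812R3.KP.amp_one _
    a1_star := fun x => Pool.Agent.H812R3.KP.amp_star _ x
    a1_norm := fun x => Pool.Agent.H812R3.KP.norm_ampF_le _ x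
    a1_ent := a1_ent
    a2_add := fun x y => map_add _ x y
    a2_smul := fun c x => map_smul _ c x
    a2_mul := a2_mul
    a2_one := Pool.Agent.H812R3.KP.amp_one _
    a2_star := fun x => Pool.Agent.H812R3.KP.amp_star _ x
    a2_norm := fun x => Pool.Agent.H812R3.KP.norm_ampF_le _ x
    a2_ent := a2_ent
    comm := comm
    a12_ent := a12_ent
    a1_mem := a1_mem
    a2_mem := a2_mem
    Rm_add := fun x y => by
      unfold Rm
      rw [star_add, cj_add, mul_add, add_mul]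
    Rm_smul := fun c x => by
      unfold Rm
      rw [star_smul, cj_smul, mul_smul_comm, smul_mul_assoc]
      congr 1
      exact Complex.conj_conj c
    Rm_mul := Rm_mul
    Rm_one := by
      unfold Rm
      rw [star_one, cj_one, mul_one, fl_fl]
    Rm_star := fun x => by
      unfold Rm
      rw [star_mul, star_mul, star_fl, ← cj_star, mul_assoc]
    Rm_norm := fun x => le_antisymm (Rm_le x) (le_Rm x)
    Rm_lam := fun g => by
      apply Pool.Agent.H494R3.GT.op_ext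
      intro s
      unfold Rm
      rw [Pool.Agent.H494R3.GT.mul_ap, Pool.Agent.H494R3.GT.mul_ap, fl_dl,
        Pool.Agent.N557.QW.star_lam, cj_apply, star_dl, Pool.Agent.N557.QW.lam_dl, star_dl, fl_dl,
        Pool.Agent.N557.QW.rgt_dl, mul_inv_rev, inv_inv, inv_inv]
    Rm_comm := Rm_comm
    Rm_dl := fun x hx => by
      apply Pool.Agent.H494R3.GT.vec_ext
      intro t
      rw [← Pool.Agent.H494R3.GT.inner_dl, ← Pool.Agent.H494R3.GT.inner_dl, Rm_ent,
        Pool.Agent.N557.QW.mem_LG_iff.1 hx, Pool.Agent.N557.QW.mem_LG_iff.1 hx, inv_one, inv_inv,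
        one_mul, mul_one] }

end Pool.Agent.N571.SS.D
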