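import Pool.Agent.N571.SS.D.Stm
import Pool.Agent.N571.EX.TR

/-!
# CE: the conditional expectation onto a von Neumann subalgebra of `L(G)`

For `b ∈ A` there is `c ∈ A` in the unit ball with `|⟪b O, x O⟫| ≤ ‖x‖ (Re ⟪b O, c O⟫ + δ)` for all
`x ∈ L(G)` (continuous functional calculus of `b* b`). So, by Hahn-Banach, the projection `η` of
`x O` to the closure of `A O` is a limit of vectors `a O` with `a ∈ A`, `‖a‖ ≤ ‖x‖`; hence
`‖h η‖ ≤ ‖x‖ ‖h O‖` for `h ∈ A'`, and `h O ↦ h η` extends to an element of `A'' = A`.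
-/

set_option autoImplicit false

namespace Pool.Agent.N571.SS.D.CEx

open Filter Topology
open scoped InnerProductSpace ComplexOrder
open Pool.Agent.H494R3.GT (L2 dl inner_dl vec_ext op_ext op_ext_inner mul_ap)
open Pool.Agent.N557.QW (lam rgt LG LK cf rc mem_LG star_rgt rgt_dl)

section

variable {H : Type} [NormedAddCommGroup H] [InnerProductSpace ℂ H] [CompleteSpace H]

noncomputable def uf (δ : ℝ) (t : ℝ) : ℝ := √(|t| + δ ^ 2)

lemma uf_pos {δ : ℝ} (hδ : 0 < δ) (t : ℝ) : 0 < uf δ t :=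
  Real.sqrt_pos.2 (by positivity)

lemma uf_sq {δ : ℝ} (t : ℝ) : uf δ t * uf δ t = |t| + δ ^ 2 :=
  Real.mul_self_sqrt (by positivity)

lemma uf_cont (δ : ℝ) : Continuous (uf δ) := by
  unfold uf
  fun_prop

lemma ui_cont {δ : ℝ} (hδ : 0 < δ) : Continuous fun t => (uf δ t)⁻¹ :=
  (uf_cont δ).inv₀ fun t => (uf_pos hδ t).ne'

lemma uw_cont (δ : ℝ) : Continuous fun t => √(uf δ t) := (uf_cont δ).sqrt

lemma cfc_mem (A : VonNeumannAlgebra H) {y : H →L[ℂ] H} (hy : y ∈ A) (f : ℝ → ℝ) :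
    cfc f y ∈ A := by
  rw [← A.commutant_commutant, VonNeumannAlgebra.mem_commutant_iff]
  intro g hg
  have h1 : Commute y g := (VonNeumannAlgebra.mem_commutant_iff.1 hg) y hy
  exact (h1.cfc_real f).eq.symm

theorem key (A : VonNeumannAlgebra H) {b : H →L[ℂ] H} (hb : b ∈ A) {δ : ℝ} (hδ : 0 < δ) :
    ∃ s ∈ A, ∃ r ∈ A, ∃ q ∈ A, star q = q ∧ star r = r ∧ q * q = s ∧ s * r = 1 ∧
      star b * b * r = s - (δ ^ 2 : ℝ) • r ∧ ‖(δ ^ 2 : ℝ) • r‖ ≤ δ ∧ ‖b * r‖ ≤ 1 := by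
  have hy : star b * b ∈ A := mul_mem (star_mem hb) hb
  set y := star b * b with hyd
  have hsa : IsSelfAdjoint y := IsSelfAdjoint.star_mul_self b
  have cu : ContinuousOn (uf δ) (spectrum ℝ y) := (uf_cont δ).continuousOn
  have ci : ContinuousOn (fun t => (uf δ t)⁻¹) (spectrum ℝ y) := (ui_cont hδ).continuousOn
  have cw : ContinuousOn (fun t => √(uf δ t)) (spectrum ℝ y) := (uw_cont δ).continuousOn
  have cid : ContinuousOn (fun t : ℝ => t) (spectrum ℝ y) := continuousOn_id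
  have hpos : ∀ x ∈ spectrum ℝ y, 0 ≤ x := spectrum_star_mul_self_nonneg
  refine ⟨cfc (uf δ) y, cfc_mem A hy _, cfc (fun t => (uf δ t)⁻¹) y, cfc_mem A hy _,
    cfc (fun t => √(uf δ t)) y, cfc_mem A hy _, ?_, ?_, ?_, ?_, ?_, ?_, ?_⟩
  · exact (cfc_predicate (R := ℝ) _ y : IsSelfAdjoint _).star_eq
  · exact (cfc_predicate (R := ℝ) _ y : IsSelfAdjoint _).star_eq
  · rw [← cfc_mul _ _ y cw cw]
    refine cfc_congr fun t _ => ?_
    exact Real.mul_self_sqrt (uf_pos hδ t).le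
  · rw [← cfc_mul _ _ y cu ci, ← cfc_one ℝ y]
    refine cfc_congr fun t _ => ?_
    exact mul_inv_cancel₀ (uf_pos hδ t).ne'
  · have h1 : y * cfc (fun t => (uf δ t)⁻¹) y = cfc (fun t => t * (uf δ t)⁻¹) y := by
      rw [cfc_mul _ _ y cid ci, cfc_id' ℝ y]
    rw [h1, ← cfc_smul (δ ^ 2) (fun t => (uf δ t)⁻¹) y ci, ← cfc_sub _ _ y cu (by
      exact ci.const_smul (δ ^ 2))]
    refine cfc_congr fun t ht => ?_
    have h2 := uf_pos hδ t
    have h3 := uf_sq (δ := δ) t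
    rw [abs_of_nonneg (hpos t ht)] at h3
    change t * (uf δ t)⁻¹ = uf δ t - δ ^ 2 • (uf δ t)⁻¹
    rw [smul_eq_mul]
    field_simp
    nlinarith
  · rw [norm_smul, Real.norm_of_nonneg (by positivity)]
    have h1 : ‖cfc (fun t => (uf δ t)⁻¹) y‖ ≤ δ⁻¹ := by
      refine norm_cfc_le (by positivity) fun t _ => ?_
      rw [Real.norm_of_nonneg (inv_nonneg.2 (uf_pos hδ t).le)]
      refine inv_anti₀ hδ ?_
      refine Real.le_sqrt_of_sq_le ?_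
      have := abs_nonneg t
      linarith
    calc δ ^ 2 * ‖cfc (fun t => (uf δ t)⁻¹) y‖ ≤ δ ^ 2 * δ⁻¹ :=
          mul_le_mul_of_nonneg_left h1 (by positivity)
      _ = δ := by field_simp
  · have hr : star (cfc (fun t => (uf δ t)⁻¹) y) = cfc (fun t => (uf δ t)⁻¹) y :=
      (cfc_predicate (R := ℝ) _ y : IsSelfAdjoint _).star_eq
    have h1 : star (b * cfc (fun t => (uf δ t)⁻¹) y) * (b * cfc (fun t => (uf δ t)⁻¹) y) =
        cfc (fun t => (uf δ t)⁻¹ * (t * (uf δ t)⁻¹)) y := by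
      have ct : ContinuousOn (fun t : ℝ => t * (uf δ t)⁻¹) (spectrum ℝ y) := cid.mul ci
      rw [cfc_mul (fun t => (uf δ t)⁻¹) (fun t => t * (uf δ t)⁻¹) y ci ct,
        cfc_mul (fun t => t) _ y cid ci, cfc_id' ℝ y, star_mul, hr]
      simp only [hyd, mul_assoc]
    have h2 : ‖cfc (fun t => (uf δ t)⁻¹ * (t * (uf δ t)⁻¹)) y‖ ≤ 1 := by
      refine norm_cfc_le zero_le_one fun t _ => ?_
      have h3 := uf_pos hδ t
      have h4 := uf_sq (δ := δ) t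
      rw [norm_mul, norm_mul, norm_inv, Real.norm_of_nonneg h3.le, Real.norm_eq_abs]
      have h5 : (uf δ t)⁻¹ * (|t| * (uf δ t)⁻¹) = |t| / (uf δ t * uf δ t) := by
        field_simp
      rw [h5, h4]
      refine (div_le_one (by positivity)).2 ?_
      nlinarith
    rw [← h1, CStarRing.norm_star_mul_self] at h2
    nlinarith [norm_nonneg (b * cfc (fun t => (uf δ t)⁻¹) y)]

end

section

variable {G : Type} [Group G]


theorem step1 (A : VonNeumannAlgebra (L2 G)) (hA : ∀ x ∈ A, x ∈ LG G) {b : B G} (hb : b ∈ A)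
    {δ : ℝ} (hδ : 0 < δ) : ∃ c ∈ A, ‖c‖ ≤ 1 ∧ ∀ x ∈ LG G,
      ‖⟪b (dl (1 : G) : L2 G), x (dl (1 : G) : L2 G)⟫_ℂ‖ ≤ ‖x‖ * ((⟪b (dl (1 : G) : L2 G), c (dl (1 : G) : L2 G)⟫_ℂ).re + δ) := by
  obtain ⟨s, hs, r, hr, q, hq, hqs, hrs, hqq, hsr, hyr, hrn, hbr⟩ := key A hb hδ
  refine ⟨b * r, mul_mem hb hr, hbr, fun x hx => ?_⟩
  have hbx : star b * x ∈ LG G := mul_mem (star_mem (hA b hb)) hx
  have hz : r * (star b * x) ∈ LG G := mul_mem (hA r hr) hbx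
  have h0 : ⟪b (dl (1 : G) : L2 G), x (dl (1 : G) : L2 G)⟫_ℂ = ⟪(dl (1 : G) : L2 G), (star b * x) (dl (1 : G) : L2 G)⟫_ℂ := by
    rw [mul_ap, ContinuousLinearMap.star_eq_adjoint, ContinuousLinearMap.adjoint_inner_right]
  have h1 : star b * x = q * (q * (r * (star b * x))) := by
    rw [← mul_assoc, hqq, ← mul_assoc, hsr, one_mul]
  have h2 : ⟪b (dl (1 : G) : L2 G), x (dl (1 : G) : L2 G)⟫_ℂ = ⟪q (dl (1 : G) : L2 G), (r * (star b * x)) (q (dl (1 : G) : L2 G))⟫_ℂ := by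
    have h3 : ⟪(dl (1 : G) : L2 G), (q * (q * (r * (star b * x)))) (dl (1 : G) : L2 G)⟫_ℂ =
        ⟪q (dl (1 : G) : L2 G), (r * (star b * x)) (q (dl (1 : G) : L2 G))⟫_ℂ := by
      rw [Pool.Agent.N571.EX.TRx.tracial (hA q hq) (mul_mem (hA q hq) hz), mul_assoc, mul_ap,
        ← mul_ap (r * (star b * x)) q (dl (1 : G) : L2 G)]
      calc ⟪(dl (1 : G) : L2 G), q ((r * (star b * x) * q) (dl (1 : G) : L2 G))⟫_ℂ = ⟪(dl (1 : G) : L2 G), star q ((r * (star b * x) * q) (dl (1 : G) : L2 G))⟫_ℂ := by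
            rw [hqs]
        _ = ⟪q (dl (1 : G) : L2 G), (r * (star b * x) * q) (dl (1 : G) : L2 G)⟫_ℂ := by
            rw [ContinuousLinearMap.star_eq_adjoint, ContinuousLinearMap.adjoint_inner_right]
    rw [h0, ← h3, ← h1]
  have h3 : ‖r * (star b * x)‖ ≤ ‖x‖ := by
    have h4 : r * (star b * x) = star (b * r) * x := by
      rw [star_mul, hrs, mul_assoc]
    rw [h4]
    calc ‖star (b * r) * x‖ ≤ ‖star (b * r)‖ * ‖x‖ := norm_mul_le _ _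
      _ ≤ 1 * ‖x‖ :=
        mul_le_mul_of_nonneg_right ((_root_.norm_star (b * r)).le.trans hbr) (norm_nonneg _)
      _ = ‖x‖ := one_mul _
  have h5 : ‖⟪b (dl (1 : G) : L2 G), x (dl (1 : G) : L2 G)⟫_ℂ‖ ≤ ‖x‖ * ‖q (dl (1 : G) : L2 G)‖ ^ 2 := by
    rw [h2]
    calc ‖⟪q (dl (1 : G) : L2 G), (r * (star b * x)) (q (dl (1 : G) : L2 G))⟫_ℂ‖ ≤ ‖q (dl (1 : G) : L2 G)‖ * ‖(r * (star b * x)) (q (dl (1 : G) : L2 G))‖ :=
          norm_inner_le_norm _ _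
      _ ≤ ‖q (dl (1 : G) : L2 G)‖ * (‖x‖ * ‖q (dl (1 : G) : L2 G)‖) := by
        refine mul_le_mul_of_nonneg_left ?_ (norm_nonneg _)
        exact ((r * (star b * x)).le_opNorm _).trans
          (mul_le_mul_of_nonneg_right h3 (norm_nonneg _))
      _ = ‖x‖ * ‖q (dl (1 : G) : L2 G)‖ ^ 2 := by ring
  have h6 : ‖q (dl (1 : G) : L2 G)‖ ^ 2 = (⟪(dl (1 : G) : L2 G), s (dl (1 : G) : L2 G)⟫_ℂ).re := by
    have h61 : ⟪(dl (1 : G) : L2 G), s (dl (1 : G) : L2 G)⟫_ℂ = ⟪q (dl (1 : G) : L2 G), q (dl (1 : G) : L2 G)⟫_ℂ := by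
      calc ⟪(dl (1 : G) : L2 G), s (dl (1 : G) : L2 G)⟫_ℂ = ⟪(dl (1 : G) : L2 G), star q (q (dl (1 : G) : L2 G))⟫_ℂ := by rw [hqs, ← mul_ap, hqq]
        _ = ⟪q (dl (1 : G) : L2 G), q (dl (1 : G) : L2 G)⟫_ℂ := by
            rw [ContinuousLinearMap.star_eq_adjoint, ContinuousLinearMap.adjoint_inner_right]
    rw [h61]
    exact (inner_self_eq_norm_sq (𝕜 := ℂ) (q (dl (1 : G) : L2 G))).symm
  have h7 : s = star b * (b * r) + (δ ^ 2 : ℝ) • r := by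
    rw [← mul_assoc, hyr]
    exact (sub_add_cancel s _).symm
  have h8 : (⟪(dl (1 : G) : L2 G), s (dl (1 : G) : L2 G)⟫_ℂ).re ≤ (⟪b (dl (1 : G) : L2 G), (b * r) (dl (1 : G) : L2 G)⟫_ℂ).re + δ := by
    have h9 : ⟪(dl (1 : G) : L2 G), s (dl (1 : G) : L2 G)⟫_ℂ = ⟪b (dl (1 : G) : L2 G), (b * r) (dl (1 : G) : L2 G)⟫_ℂ + ⟪(dl (1 : G) : L2 G), ((δ ^ 2 : ℝ) • r) (dl (1 : G) : L2 G)⟫_ℂ := by
      rw [h7, add_apply, inner_add_right, mul_ap (star b),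
        ContinuousLinearMap.star_eq_adjoint, ContinuousLinearMap.adjoint_inner_right]
    rw [h9, Complex.add_re]
    have hO : ‖(dl (1 : G) : L2 G)‖ = 1 := Pool.Agent.N571.EX.TRx.norm_dl 1
    have h10 : (⟪(dl (1 : G) : L2 G), ((δ ^ 2 : ℝ) • r) (dl (1 : G) : L2 G)⟫_ℂ).re ≤ δ := by
      calc (⟪(dl (1 : G) : L2 G), ((δ ^ 2 : ℝ) • r) (dl (1 : G) : L2 G)⟫_ℂ).re ≤ ‖⟪(dl (1 : G) : L2 G), ((δ ^ 2 : ℝ) • r) (dl (1 : G) : L2 G)⟫_ℂ‖ := Complex.re_le_norm _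
        _ ≤ ‖(dl (1 : G) : L2 G)‖ * ‖((δ ^ 2 : ℝ) • r) (dl (1 : G) : L2 G)‖ := norm_inner_le_norm _ _
        _ ≤ ‖(dl (1 : G) : L2 G)‖ * (‖(δ ^ 2 : ℝ) • r‖ * ‖(dl (1 : G) : L2 G)‖) :=
          mul_le_mul_of_nonneg_left (ContinuousLinearMap.le_opNorm _ _) (norm_nonneg _)
        _ = ‖(δ ^ 2 : ℝ) • r‖ := by rw [hO]; ring
        _ ≤ δ := hrn
    linarith
  calc ‖⟪b (dl (1 : G) : L2 G), x (dl (1 : G) : L2 G)⟫_ℂ‖ ≤ ‖x‖ * ‖q (dl (1 : G) : L2 G)‖ ^ 2 := h5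
    _ ≤ ‖x‖ * ((⟪b (dl (1 : G) : L2 G), (b * r) (dl (1 : G) : L2 G)⟫_ℂ).re + δ) := by
      rw [h6]
      exact mul_le_mul_of_nonneg_left h8 (norm_nonneg _)

/-- the closed convex set of the vectors `a (dl (1 : G) : L2 G)` with `a ∈ A` in the ball of radius `C` -/
def ball (A : VonNeumannAlgebra (L2 G)) (C : ℝ) : Set (L2 G) :=
  closure {v | ∃ a ∈ A, ‖a‖ ≤ C ∧ v = a (dl (1 : G) : L2 G)}

theorem ball_closed (A : VonNeumannAlgebra (L2 G)) (C : ℝ) : IsClosed (ball A C) :=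
  isClosed_closure

omit [Group G] in
theorem smul_mem' (A : VonNeumannAlgebra (L2 G)) {a : B G} (ha : a ∈ A) (t : ℂ) : t • a ∈ A := by
  have : t • a ∈ A.toStarSubalgebra := A.toStarSubalgebra.smul_mem ha t
  exact this

theorem ball_convex (A : VonNeumannAlgebra (L2 G)) (C : ℝ) : Convex ℝ (ball A C) := by
  refine Convex.closure ?_
  rintro v ⟨a, ha, han, rfl⟩ w ⟨b, hb, hbn, rfl⟩ s t hs ht hst
  refine ⟨(s : ℂ) • a + (t : ℂ) • b, add_mem (smul_mem' A ha _) (smul_mem' A hb _), ?_, ?_⟩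
  · calc ‖(s : ℂ) • a + (t : ℂ) • b‖ ≤ ‖(s : ℂ) • a‖ + ‖(t : ℂ) • b‖ := norm_add_le _ _
      _ = s * ‖a‖ + t * ‖b‖ := by
        rw [norm_smul, norm_smul, Complex.norm_real, Complex.norm_real, Real.norm_of_nonneg hs,
          Real.norm_of_nonneg ht]
      _ ≤ s * C + t * C := add_le_add (mul_le_mul_of_nonneg_left han hs)
          (mul_le_mul_of_nonneg_left hbn ht)
      _ = C := by rw [← add_mul, hst, one_mul]
  · simp only [add_apply, Complex.coe_smul]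
    rfl

/-- the closure of `A (dl (1 : G) : L2 G)` -/
noncomputable def KK (A : VonNeumannAlgebra (L2 G)) : Submodule ℂ (L2 G) :=
  (Submodule.map ((ContinuousLinearMap.apply ℂ (L2 G) (dl (1 : G) : L2 G)).toLinearMap)
    (Subalgebra.toSubmodule A.toStarSubalgebra.toSubalgebra)).topologicalClosure

theorem mem_KK (A : VonNeumannAlgebra (L2 G)) {a : B G} (ha : a ∈ A) : a (dl (1 : G) : L2 G) ∈ KK A :=
  Submodule.le_topologicalClosure _ (Submodule.mem_map.2 ⟨a, ha, rfl⟩)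

theorem app_KK (A : VonNeumannAlgebra (L2 G)) {v : L2 G} (hv : v ∈ KK A) {ε : ℝ} (hε : 0 < ε) :
    ∃ a ∈ A, ‖v - a (dl (1 : G) : L2 G)‖ < ε := by
  have h1 : v ∈ closure ((Submodule.map ((ContinuousLinearMap.apply ℂ (L2 G) (dl (1 : G) : L2 G)).toLinearMap)
      (Subalgebra.toSubmodule A.toStarSubalgebra.toSubalgebra) : Submodule ℂ (L2 G)) :
      Set (L2 G)) := by
    rw [← Submodule.topologicalClosure_coe]
    exact hv
  obtain ⟨w, hw, hvw⟩ := Metric.mem_closure_iff.1 h1 ε hε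
  obtain ⟨a, ha, rfl⟩ := Submodule.mem_map.1 hw
  exact ⟨a, ha, by rw [dist_eq_norm] at hvw; exact hvw⟩

instance instProj (A : VonNeumannAlgebra (L2 G)) : (KK A).HasOrthogonalProjection := by
  have : CompleteSpace (KK A) := (Submodule.isClosed_topologicalClosure _).completeSpace_coe
  infer_instance

theorem step2 (A : VonNeumannAlgebra (L2 G)) (hA : ∀ x ∈ A, x ∈ LG G) {x : B G} (hx : x ∈ LG G) :
    (KK A).starProjection (x (dl (1 : G) : L2 G)) ∈ ball A ‖x‖ := by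
  set η := (KK A).starProjection (x (dl (1 : G) : L2 G)) with hη
  by_contra hn
  obtain ⟨f, u, hfu, huf⟩ := RCLike.geometric_hahn_banach_closed_point (𝕜 := ℂ)
    (ball_convex A ‖x‖) (ball_closed A ‖x‖) hn
  set v := (InnerProductSpace.toDual ℂ (L2 G)).symm f with hv
  have hf : ∀ w, f w = ⟪v, w⟫_ℂ := fun w => by
    rw [hv, InnerProductSpace.toDual_symm_apply]
  set v' := (KK A).starProjection v with hv'
  have hfK : ∀ w ∈ KK A, f w = ⟪v', w⟫_ℂ := fun w hw => by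
    rw [hf, hv', Submodule.inner_starProjection_left_eq_right,
      Submodule.starProjection_eq_self_iff.2 hw]
  have hηK : η ∈ KK A := Submodule.starProjection_apply_mem _ _
  have hv'K : v' ∈ KK A := Submodule.starProjection_apply_mem _ _
  -- choose `δ`
  set d : ℝ := (f η).re - u with hd
  have hdpos : 0 < d := sub_pos.2 huf
  set M : ℝ := ‖x‖ + ‖η‖ + ‖x‖ + 1 with hM
  have hMpos : 0 < M := by positivity
  set δ : ℝ := d / M with hδ
  have hδpos : 0 < δ := div_pos hdpos hMpos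
  obtain ⟨b, hb, hvb⟩ := app_KK A hv'K hδpos
  obtain ⟨c, hc, hcn, hcx⟩ := step1 A hA hb hδpos
  have h1 := hcx x hx
  -- the element `‖x‖ c`
  have h2 : (‖x‖ : ℂ) • c (dl (1 : G) : L2 G) ∈ ball A ‖x‖ := by
    refine subset_closure ⟨(‖x‖ : ℂ) • c, smul_mem' A hc _, ?_, rfl⟩
    rw [norm_smul, Complex.norm_real, norm_norm]
    calc ‖x‖ * ‖c‖ ≤ ‖x‖ * 1 := mul_le_mul_of_nonneg_left hcn (norm_nonneg _)
      _ = ‖x‖ := mul_one _
  have h3 := hfu _ h2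
  have h4 : (‖x‖ : ℂ) • c (dl (1 : G) : L2 G) ∈ KK A := (KK A).smul_mem _ (mem_KK A hc)
  change (f ((‖x‖ : ℂ) • c (dl (1 : G) : L2 G))).re < u at h3
  rw [hfK _ h4, inner_smul_right, Complex.re_ofReal_mul] at h3
  have hO : ‖(dl (1 : G) : L2 G)‖ = 1 := Pool.Agent.N571.EX.TRx.norm_dl 1
  have h5 : |(⟪v' - b (dl (1 : G) : L2 G), c (dl (1 : G) : L2 G)⟫_ℂ).re| ≤ δ := by
    calc |(⟪v' - b (dl (1 : G) : L2 G), c (dl (1 : G) : L2 G)⟫_ℂ).re| ≤ ‖⟪v' - b (dl (1 : G) : L2 G), c (dl (1 : G) : L2 G)⟫_ℂ‖ := Complex.abs_re_le_norm _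
      _ ≤ ‖v' - b (dl (1 : G) : L2 G)‖ * ‖c (dl (1 : G) : L2 G)‖ := norm_inner_le_norm _ _
      _ ≤ δ * 1 := by
        refine mul_le_mul hvb.le ?_ (norm_nonneg _) hδpos.le
        calc ‖c (dl (1 : G) : L2 G)‖ ≤ ‖c‖ * ‖(dl (1 : G) : L2 G)‖ := c.le_opNorm _
          _ ≤ 1 := by rw [hO, mul_one]; exact hcn
      _ = δ := mul_one _
  have h6 : |(⟪v' - b (dl (1 : G) : L2 G), η⟫_ℂ).re| ≤ δ * ‖η‖ := by
    calc |(⟪v' - b (dl (1 : G) : L2 G), η⟫_ℂ).re| ≤ ‖⟪v' - b (dl (1 : G) : L2 G), η⟫_ℂ‖ := Complex.abs_re_le_norm _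
      _ ≤ ‖v' - b (dl (1 : G) : L2 G)‖ * ‖η‖ := norm_inner_le_norm _ _
      _ ≤ δ * ‖η‖ := mul_le_mul_of_nonneg_right hvb.le (norm_nonneg _)
  have h7 : ⟪b (dl (1 : G) : L2 G), η⟫_ℂ = ⟪b (dl (1 : G) : L2 G), x (dl (1 : G) : L2 G)⟫_ℂ := by
    rw [hη, ← Submodule.inner_starProjection_left_eq_right,
      Submodule.starProjection_eq_self_iff.2 (mem_KK A hb)]
  rw [inner_sub_left, Complex.sub_re] at h5 h6
  have h8 : (f η).re = (⟪v', η⟫_ℂ).re := by rw [hfK _ hηK]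
  have h9 : (⟪b (dl (1 : G) : L2 G), η⟫_ℂ).re ≤ ‖x‖ * ((⟪b (dl (1 : G) : L2 G), c (dl (1 : G) : L2 G)⟫_ℂ).re + δ) := by
    rw [h7]
    exact (Complex.re_le_norm _).trans h1
  have h10 := (abs_le.1 h5).1
  have h11 := (abs_le.1 h6).2
  have h12 : d = δ * M := by rw [hδ]; field_simp
  have h13 : ‖x‖ * (⟪b (dl (1 : G) : L2 G), c (dl (1 : G) : L2 G)⟫_ℂ).re ≤ ‖x‖ * ((⟪v', c (dl (1 : G) : L2 G)⟫_ℂ).re + δ) :=
    mul_le_mul_of_nonneg_left (by linarith) (norm_nonneg _)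
  nlinarith [norm_nonneg x]

theorem step3 (A : VonNeumannAlgebra (L2 G)) (hA : ∀ x ∈ A, x ∈ LG G) {x : B G} (hx : x ∈ LG G)
    {h : B G} (hh : h ∈ A.commutant) :
    ‖h ((KK A).starProjection (x (dl (1 : G) : L2 G)))‖ ≤ ‖x‖ * ‖h (dl (1 : G) : L2 G)‖ := by
  have h1 : ball A ‖x‖ ⊆ {v | ‖h v‖ ≤ ‖x‖ * ‖h (dl (1 : G) : L2 G)‖} := by
    refine closure_minimal ?_ (isClosed_le (by fun_prop) continuous_const)
    rintro v ⟨a, ha, han, rfl⟩
    have h2 : h (a (dl (1 : G) : L2 G)) = a (h (dl (1 : G) : L2 G)) := by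
      rw [← mul_ap, ← mul_ap, VonNeumannAlgebra.mem_commutant_iff.1 hh a ha]
    change ‖h (a (dl (1 : G) : L2 G))‖ ≤ _
    rw [h2]
    exact (a.le_opNorm _).trans (mul_le_mul_of_nonneg_right han (norm_nonneg _))
  exact h1 (step2 A hA hx)

theorem step4 (A : VonNeumannAlgebra (L2 G)) (hA : ∀ x ∈ A, x ∈ LG G) {x : B G} (hx : x ∈ LG G) :
    ∃ e ∈ A, e (dl (1 : G) : L2 G) = (KK A).starProjection (x (dl (1 : G) : L2 G)) := by
  set η := (KK A).starProjection (x (dl (1 : G) : L2 G)) with hη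
  set E := Subalgebra.toSubmodule A.commutant.toStarSubalgebra.toSubalgebra with hE
  let f : E →ₗ[ℂ] L2 G := ((ContinuousLinearMap.apply ℂ (L2 G) η).toLinearMap).comp E.subtype
  let g : E →ₗ[ℂ] L2 G := ((ContinuousLinearMap.apply ℂ (L2 G) (dl (1 : G) : L2 G)).toLinearMap).comp E.subtype
  have hf : ∀ (h : B G) (hh : h ∈ A.commutant), f ⟨h, hh⟩ = h η := fun h hh => rfl
  have hg : ∀ (h : B G) (hh : h ∈ A.commutant), g ⟨h, hh⟩ = h (dl (1 : G) : L2 G) := fun h hh => rfl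
  have hrg : ∀ s : G, rgt s ∈ A.commutant := fun s => by
    rw [VonNeumannAlgebra.mem_commutant_iff]
    intro a ha
    exact (mem_LG.1 (hA a ha) s).symm
  have hdense : DenseRange g := by
    have h1 : (LinearMap.range g).topologicalClosure = ⊤ := by
      rw [eq_top_iff, ← Pool.Agent.N571.EX.TRx.dense_span]
      refine Submodule.topologicalClosure_mono (Submodule.span_le.2 ?_)
      rintro _ ⟨s, rfl⟩
      refine ⟨⟨rgt s, hrg s⟩, ?_⟩
      rw [hg, rgt_dl, one_mul]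
    exact Submodule.dense_iff_topologicalClosure_eq_top.2 h1
  have hnorm : ∀ h : E, ‖f h‖ ≤ ‖x‖ * ‖g h‖ := by
    rintro ⟨h, hh⟩
    exact step3 A hA hx hh
  let e : L2 G →L[ℂ] L2 G := f.extendOfNorm g
  have he : ∀ (h : B G) (_ : h ∈ A.commutant), e (h (dl (1 : G) : L2 G)) = h η := fun h hh =>
    LinearMap.extendOfNorm_eq hdense ⟨‖x‖, hnorm⟩ ⟨h, hh⟩
  refine ⟨e, ?_, ?_⟩
  · rw [← A.commutant_commutant, VonNeumannAlgebra.mem_commutant_iff]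
    intro k hk
    apply op_ext
    intro s
    have h1 : (dl s : L2 G) = rgt s (dl (1 : G) : L2 G) := by rw [rgt_dl, one_mul]
    rw [mul_ap, mul_ap, h1, he _ (hrg s), ← mul_ap k (rgt s) η, ← mul_ap k (rgt s) (dl (1 : G) : L2 G),
      he _ (mul_mem hk (hrg s))]
  · have h1 := he 1 (one_mem _)
    simpa using h1

end

end Pool.Agent.N571.SS.D.CEx

namespace Pool.Agent.N571.SS.D

open Pool.Agent.H494R3.GT (L2 dl)
open Pool.Agent.N557.QW (LG)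
open scoped InnerProductSpace ComplexOrder

/-- **CE.** -/
theorem t_ce : S_CE := by
  intro G _ A hA x hx
  obtain ⟨e, he, heO⟩ := CEx.step4 A hA hx
  refine ⟨e, he, fun a ha => ?_⟩
  unfold tau
  rw [Pool.Agent.N571.EX.TRx.tracial (hA e he) (hA a ha),
    Pool.Agent.N571.EX.TRx.tracial hx (hA a ha)]
  have h1 : ∀ y : B G, ⟪dl (1 : G), (a * y) (dl 1)⟫_ℂ = ⟪(star a) (dl 1), y (dl 1)⟫_ℂ := by
    intro y
    rw [Pool.Agent.H494R3.GT.mul_ap, ContinuousLinearMap.star_eq_adjoint,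
      ContinuousLinearMap.adjoint_inner_left]
  rw [h1, h1, heO, ← Submodule.inner_starProjection_left_eq_right,
    Submodule.starProjection_eq_self_iff.2 (CEx.mem_KK A (star_mem ha))]

end Pool.Agent.N571.SS.D
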