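import Pool.Agent.N571.SS.D.Stm
import Pool.Agent.N571.EX.TR

/-!
# SS/D/CEN (helper374, project SS/D of helper571): the centralizer is a von Neumann algebra
-/

set_option autoImplicit false

namespace Pool.Agent.N571.SS.D

open Filter Topology
open scoped InnerProductSpace ComplexOrder
open Pool.Agent.H494R3.GT (L2 dl)
open Pool.Agent.N557.QW (lam rgt LG LK cf rc)

noncomputable section

namespace CENx

section cs

variable {H : Type} [NormedAddCommGroup H] [InnerProductSpace ℂ H] [CompleteSpace H]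

theorem herm (φ : (H →L[ℂ] H) →ₗ[ℂ] ℂ) (h : ∀ T, 0 ≤ φ (star T * T)) (a b : H →L[ℂ] H) :
    (starRingEnd ℂ) (φ (star b * a)) = φ (star a * b) := by
  have key : ∀ c : ℂ, (c * φ (star a * b) + (starRingEnd ℂ) c * φ (star b * a)).im = 0 := by
    intro c
    have h0 := h (a + c • b)
    have h1 := h a
    have h2 := h b
    have he : star (a + c • b) * (a + c • b) = star a * a + c • (star a * b) +
        (starRingEnd ℂ) c • (star b * a) + ((starRingEnd ℂ) c * c) • (star b * b) := by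
      rw [star_add, star_smul, add_mul, mul_add, mul_add, mul_smul_comm, smul_mul_assoc,
        smul_mul_assoc, mul_smul_comm, smul_smul]
      simp only [RCLike.star_def]
      abel
    rw [he, map_add, map_add, map_add, map_smul, map_smul, map_smul] at h0
    have h0' := (Complex.le_def.1 h0).2
    have h1' := (Complex.le_def.1 h1).2
    have h2' := (Complex.le_def.1 h2).2
    have hc : ((starRingEnd ℂ) c * c).im = 0 := by
      rw [mul_comm, Complex.mul_conj]
      exact Complex.ofReal_im _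
    have hc2 : (((starRingEnd ℂ) c * c) * φ (star b * b)).im = 0 := by
      rw [Complex.mul_im, hc, ← h2']
      simp
    simp only [Complex.add_im, smul_eq_mul, Complex.zero_im] at h0' h1' ⊢
    rw [hc2] at h0'
    linarith
  have k1 := key 1
  have k2 := key Complex.I
  apply Complex.ext
  · simp only [map_one, one_mul, Complex.conj_I, neg_mul, Complex.add_im, Complex.neg_im,
      Complex.mul_im, Complex.I_re, Complex.I_im, zero_mul, one_mul, zero_add] at k1 k2
    rw [Complex.conj_re]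
    linarith
  · simp only [map_one, one_mul, Complex.add_im] at k1
    rw [Complex.conj_im]
    linarith

/-- the positive form -/
@[reducible] def core (φ : (H →L[ℂ] H) →ₗ[ℂ] ℂ) (h : ∀ T, 0 ≤ φ (star T * T)) :
    PreInnerProductSpace.Core ℂ (H →L[ℂ] H) where
  inner a b := φ (star a * b)
  conj_inner_symm a b := herm φ h a b
  re_inner_nonneg a := (Complex.le_def.1 (h a)).1
  add_left a b c := by
    rw [star_add, add_mul, map_add]
  smul_left a b r := by
    rw [star_smul, smul_mul_assoc, map_smul]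
    rfl

theorem cs (φ : (H →L[ℂ] H) →ₗ[ℂ] ℂ) (h : ∀ T, 0 ≤ φ (star T * T)) (a b : H →L[ℂ] H) :
    ‖φ (star a * b)‖ * ‖φ (star a * b)‖ ≤ (φ (star a * a)).re * (φ (star b * b)).re := by
  have := @InnerProductSpace.Core.inner_mul_inner_self_le ℂ (H →L[ℂ] H) _ _ _ (core φ h) a b
  have h2 : ‖φ (star b * a)‖ = ‖φ (star a * b)‖ := by
    rw [← herm φ h a b, RCLike.norm_conj]
  change ‖φ (star a * b)‖ * ‖φ (star b * a)‖ ≤ _ at this
  rw [h2] at this
  exact this

theorem bound (φ : (H →L[ℂ] H) →ₗ[ℂ] ℂ) (h : ∀ T, 0 ≤ φ (star T * T)) (T : H →L[ℂ] H) :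
    (φ (star T * T)).re ≤ ‖T‖ ^ 2 * (φ 1).re := by
  have h1 : star T * T ≤ algebraMap ℝ (H →L[ℂ] H) (‖T‖ ^ 2) :=
    CStarAlgebra.star_mul_le_algebraMap_norm_sq
  have h2 := sub_nonneg.2 h1
  obtain ⟨R, hR⟩ := CStarAlgebra.nonneg_iff_eq_star_mul_self.1 h2
  have h3 := h R
  rw [← hR, map_sub] at h3
  have h4 : φ (algebraMap ℝ (H →L[ℂ] H) (‖T‖ ^ 2)) = ((‖T‖ ^ 2 : ℝ) : ℂ) * φ 1 := by
    rw [Algebra.algebraMap_eq_smul_one]
    have : ((‖T‖ ^ 2 : ℝ)) • (1 : H →L[ℂ] H) = ((‖T‖ ^ 2 : ℝ) : ℂ) • (1 : H →L[ℂ] H) := rfl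
    rw [this, map_smul, smul_eq_mul]
  rw [h4] at h3
  have h5 := (Complex.le_def.1 h3).1
  rw [Complex.sub_re, Complex.re_ofReal_mul, Complex.zero_re] at h5
  linarith

end cs

section proj

variable {H : Type} [NormedAddCommGroup H] [InnerProductSpace ℂ H] [CompleteSpace H]

/-- the closure of `(span S) Ω` -/
def KK (S : Set (H →L[ℂ] H)) (Ω : H) : Submodule ℂ H :=
  (Submodule.span ℂ ((fun u : H →L[ℂ] H => u Ω) '' S)).topologicalClosure

instance (S : Set (H →L[ℂ] H)) (Ω : H) : CompleteSpace (KK S Ω) :=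
  (Submodule.isClosed_topologicalClosure _).completeSpace_coe

omit [CompleteSpace H] in
theorem KK_inv (S : Set (H →L[ℂ] H)) (Ω : H) (hS : ∀ u ∈ S, ∀ v ∈ S, u * v ∈ S) {u : H →L[ℂ] H}
    (hu : u ∈ S) {k : H} (hk : k ∈ KK S Ω) : u k ∈ KK S Ω := by
  have h1 : Submodule.span ℂ ((fun u : H →L[ℂ] H => u Ω) '' S) ≤
      (Submodule.span ℂ ((fun u : H →L[ℂ] H => u Ω) '' S)).comap u.toLinearMap := by
    refine Submodule.span_le.2 ?_
    rintro _ ⟨v, hv, rfl⟩
    exact Submodule.subset_span ⟨u * v, hS u hu v hv, rfl⟩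
  have h2 : Set.MapsTo u (Submodule.span ℂ ((fun u : H →L[ℂ] H => u Ω) '' S) : Set H)
      (Submodule.span ℂ ((fun u : H →L[ℂ] H => u Ω) '' S) : Set H) := fun x hx => h1 hx
  exact h2.closure u.continuous hk

theorem proj_comm (S : Set (H →L[ℂ] H)) (Ω : H) (hS : ∀ u ∈ S, ∀ v ∈ S, u * v ∈ S)
    (hstar : ∀ u ∈ S, star u ∈ S) {u : H →L[ℂ] H} (hu : u ∈ S) :
    u * (KK S Ω).starProjection = (KK S Ω).starProjection * u := by
  ext v
  change u ((KK S Ω).starProjection v) = (KK S Ω).starProjection (u v)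
  symm
  apply Submodule.eq_starProjection_of_mem_orthogonal'
    (z := u (v - (KK S Ω).starProjection v))
  · exact KK_inv S Ω hS hu (Submodule.starProjection_apply_mem _ v)
  · rw [Submodule.mem_orthogonal]
    intro k hk
    rw [← ContinuousLinearMap.adjoint_inner_left, ← ContinuousLinearMap.star_eq_adjoint]
    exact (Submodule.mem_orthogonal _ _).1 (Submodule.sub_starProjection_mem_orthogonal v) _
      (KK_inv S Ω hS (hstar u hu) hk)
  · rw [map_sub]
    abel

/-- the von Neumann algebra generated by a star closed set -/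
def PP (S : Set (H →L[ℂ] H)) : VonNeumannAlgebra H where
  toStarSubalgebra := StarSubalgebra.centralizer ℂ (Set.centralizer S)
  centralizer_centralizer' := by
    change Set.centralizer (Set.centralizer (Set.centralizer _)) = Set.centralizer _
    exact Set.centralizer_centralizer_centralizer _

theorem mem_PP {S : Set (H →L[ℂ] H)} {x : H →L[ℂ] H} (hx : x ∈ PP S) {m : H →L[ℂ] H}
    (hm : ∀ u ∈ S, u * m = m * u) : m * x = x * m := by
  have h1 : x ∈ Set.centralizer (Set.centralizer S ∪ star (Set.centralizer S)) := hx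
  exact Set.mem_centralizer_iff.1 h1 m (Or.inl (Set.mem_centralizer_iff.2 hm))

theorem sub_PP {S : Set (H →L[ℂ] H)} (hstar : ∀ u ∈ S, star u ∈ S) {u : H →L[ℂ] H} (hu : u ∈ S) :
    u ∈ PP S := by
  change u ∈ Set.centralizer (Set.centralizer S ∪ star (Set.centralizer S))
  rw [Set.mem_centralizer_iff]
  rintro m (hm | hm)
  · exact (Set.mem_centralizer_iff.1 hm u hu).symm
  · have h1 : star m ∈ Set.centralizer S := hm
    have h2 := Set.mem_centralizer_iff.1 h1 (star u) (hstar u hu)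
    have h3 := congrArg star h2
    rw [star_mul, star_mul, star_star, star_star] at h3
    exact h3

theorem PP_le {S : Set (H →L[ℂ] H)} (P' : VonNeumannAlgebra H) (h : ∀ u ∈ S, u ∈ P')
    {x : H →L[ℂ] H} (hx : x ∈ PP S) : x ∈ P' := by
  rw [← VonNeumannAlgebra.commutant_commutant P', VonNeumannAlgebra.mem_commutant_iff]
  intro m hm
  exact mem_PP hx fun u hu => VonNeumannAlgebra.mem_commutant_iff.1 hm u (h u hu)

/-- approximation at the vector `Ω` -/
theorem approx {S : Set (H →L[ℂ] H)} (Ω : H) (h1 : 1 ∈ S) (hS : ∀ u ∈ S, ∀ v ∈ S, u * v ∈ S)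
    (hstar : ∀ u ∈ S, star u ∈ S) {x : H →L[ℂ] H} (hx : x ∈ PP S) {ε : ℝ} (hε : 0 < ε) :
    ∃ y ∈ Submodule.span ℂ S, ‖(x - y) Ω‖ < ε := by
  have hΩ : Ω ∈ KK S Ω := Submodule.le_topologicalClosure _ (Submodule.subset_span ⟨1, h1, rfl⟩)
  have h2 : (KK S Ω).starProjection * x = x * (KK S Ω).starProjection :=
    mem_PP hx fun u hu => proj_comm S Ω hS hstar hu
  have h3 := congrArg (fun y : H →L[ℂ] H => y Ω) h2
  change (KK S Ω).starProjection (x Ω) = x ((KK S Ω).starProjection Ω) at h3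
  rw [Submodule.starProjection_eq_self_iff.2 hΩ] at h3
  have h4 : x Ω ∈ KK S Ω := by
    rw [← h3]
    exact Submodule.starProjection_apply_mem _ _
  obtain ⟨w, hw, hxw⟩ := Metric.mem_closure_iff.1 h4 ε hε
  have h5 : (Submodule.span ℂ ((fun u : H →L[ℂ] H => u Ω) '' S)) =
      (Submodule.span ℂ S).map (ContinuousLinearMap.apply ℂ H Ω).toLinearMap := by
    rw [Submodule.map_span]
    rfl
  rw [h5] at hw
  obtain ⟨y, hy, rfl⟩ := hw
  refine ⟨y, hy, ?_⟩
  rw [dist_eq_norm] at hxw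
  exact hxw

end proj

end CENx

theorem t_cen : S_CEN := by
  intro G _ φ hφ S h1 hS hmul
  have hstar : ∀ u ∈ S, star u ∈ S := fun u hu => (hS u hu).2
  have hLG : ∀ x ∈ CENx.PP S, x ∈ LG G := fun x hx =>
    CENx.PP_le (LG G) (fun u hu => (hS u hu).1.1) hx
  refine ⟨CENx.PP S, fun x hx => ⟨hLG x hx, fun T => ?_⟩, fun u hu => CENx.sub_PP hstar hu,
    fun P' h x hx => CENx.PP_le P' h hx⟩
  have hφ1 : (φ 1).re = 1 := by
    rw [hφ.trace 1 (one_mem _)]
    unfold tau
    change (⟪dl (1 : G), dl (1 : G)⟫_ℂ).re = 1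
    rw [inner_self_eq_norm_sq_to_K, Pool.Agent.N571.EX.TRx.norm_dl]
    simp
  have hnn := hφ.nonneg
  have key : ∀ ε : ℝ, 0 < ε → ‖φ (x * T) - φ (T * x)‖ ≤ ε * (2 * ‖T‖) := by
    intro ε hε
    obtain ⟨y, hy, hxy⟩ := CENx.approx (dl (1 : G)) h1 hmul hstar hx hε
    have hyP : y ∈ CENx.PP S ∧ φ (y * T) = φ (T * y) := by
      clear hxy
      induction hy using Submodule.span_induction with
      | mem u hu => exact ⟨CENx.sub_PP hstar hu, (hS u hu).1.2 T⟩
      | zero => exact ⟨zero_mem _, by simp⟩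
      | add a b _ _ ha hb =>
        exact ⟨add_mem ha.1 hb.1, by rw [add_mul, mul_add, map_add, map_add, ha.2, hb.2]⟩
      | smul c a _ ha =>
        exact ⟨(CENx.PP S).toStarSubalgebra.smul_mem ha.1 c,
          by rw [smul_mul_assoc, mul_smul_comm, map_smul, map_smul, ha.2]⟩
    set z := x - y with hz
    have hzLG : z ∈ LG G := sub_mem (hLG x hx) (hLG y hyP.1)
    have hzs : ‖(star z) (dl (1 : G))‖ = ‖z (dl 1)‖ := Pool.Agent.N571.EX.TRx.norm_star hzLG
    have ht : ∀ w ∈ LG G, (φ (star w * w)).re = ‖w (dl (1 : G))‖ ^ 2 := by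
      intro w hw
      rw [hφ.trace _ (mul_mem (star_mem hw) hw)]
      unfold tau
      change (⟪dl (1 : G), star w (w (dl (1 : G)))⟫_ℂ).re = _
      rw [ContinuousLinearMap.star_eq_adjoint, ContinuousLinearMap.adjoint_inner_right,
        inner_self_eq_norm_sq_to_K]
      norm_cast
    have hT : ∀ R : B G, (φ (star R * R)).re ≤ ‖R‖ ^ 2 := by
      intro R
      have := CENx.bound φ hnn R
      rwa [hφ1, mul_one] at this
    have e1 : ‖φ (z * T)‖ ≤ ε * ‖T‖ := by
      have := CENx.cs φ hnn (star z) T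
      rw [star_star] at this
      have h2 : (φ (z * star z)).re = ‖z (dl (1 : G))‖ ^ 2 := by
        have := ht (star z) (star_mem hzLG)
        rwa [star_star, hzs] at this
      rw [h2] at this
      have h3 := hT T
      have h4 : ‖φ (z * T)‖ * ‖φ (z * T)‖ ≤ (ε * ‖T‖) * (ε * ‖T‖) := by
        refine this.trans ?_
        have h5 : ‖z (dl (1 : G))‖ ^ 2 ≤ ε ^ 2 := pow_le_pow_left₀ (norm_nonneg _) hxy.le 2
        calc ‖z (dl (1 : G))‖ ^ 2 * (φ (star T * T)).re ≤ ε ^ 2 * ‖T‖ ^ 2 :=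
              mul_le_mul h5 h3 (Complex.le_def.1 (hnn T)).1 (by positivity)
          _ = _ := by ring
      exact abs_le_of_sq_le_sq' (by nlinarith) (by positivity) |>.2
    have e2 : ‖φ (T * z)‖ ≤ ε * ‖T‖ := by
      have := CENx.cs φ hnn (star T) z
      rw [star_star] at this
      have h2 := ht z hzLG
      rw [h2] at this
      have h3 := hT (star T)
      have h6 : ‖star T‖ = ‖T‖ := norm_star T
      rw [star_star, h6] at h3
      have h4 : ‖φ (T * z)‖ * ‖φ (T * z)‖ ≤ (ε * ‖T‖) * (ε * ‖T‖) := by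
        refine this.trans ?_
        have h5 : ‖z (dl (1 : G))‖ ^ 2 ≤ ε ^ 2 := pow_le_pow_left₀ (norm_nonneg _) hxy.le 2
        calc (φ (T * star T)).re * ‖z (dl (1 : G))‖ ^ 2 ≤ ‖T‖ ^ 2 * ε ^ 2 :=
              mul_le_mul h3 h5 (by positivity) (by positivity)
          _ = _ := by ring
      exact abs_le_of_sq_le_sq' (by nlinarith) (by positivity) |>.2
    have e3 : φ (x * T) - φ (T * x) = φ (z * T) - φ (T * z) := by
      rw [hz, sub_mul, mul_sub, map_sub, map_sub, hyP.2]
      ring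
    rw [e3]
    calc ‖φ (z * T) - φ (T * z)‖ ≤ ‖φ (z * T)‖ + ‖φ (T * z)‖ := norm_sub_le _ _
      _ ≤ ε * (2 * ‖T‖) := by linarith
  have h0 : ‖φ (x * T) - φ (T * x)‖ ≤ 0 := by
    refine le_of_forall_pos_le_add fun δ hδ => ?_
    have := key (δ / (2 * ‖T‖ + 1)) (by positivity)
    refine this.trans ?_
    rw [zero_add, div_mul_eq_mul_div, div_le_iff₀ (by positivity)]
    nlinarith [norm_nonneg T]
  exact sub_eq_zero.1 (norm_le_zero_iff.1 h0)

end

end Pool.Agent.N571.SS.D
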