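import Pool.Agent.N571.SS.D.Stm

/-!
# Project SS/D, DAY: approximation of an invariant state by normal states (Day, Namioka)

The finite rank functionals form a subspace of the dual of `B(H)` whose continuous functionals are
given by operators; the theorem of Hahn and Banach separates. (helper644)
-/

set_option autoImplicit false

namespace Pool.Agent.N571.SS.D

open Filter Topology
open scoped InnerProductSpace ComplexOrder

noncomputable section

namespace DAYaux

section

variable {H : Type} [NormedAddCommGroup H] [InnerProductSpace ℂ H] [CompleteSpace H]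

/-- the functional `T ↦ ⟪v, T w⟫` -/
def om (v w : H) : StrongDual ℂ (H →L[ℂ] H) :=
  (innerSL ℂ v).comp (ContinuousLinearMap.apply ℂ H w)

omit [CompleteSpace H] in
@[simp] theorem om_apply (v w : H) (T : H →L[ℂ] H) : om v w T = ⟪v, T w⟫_ℂ := rfl

theorem om_norm (v w : H) : ‖om v w‖ ≤ ‖v‖ * ‖w‖ := by
  refine ContinuousLinearMap.opNorm_le_bound _ (by positivity) fun T => ?_
  rw [om_apply]
  calc ‖⟪v, T w⟫_ℂ‖ ≤ ‖v‖ * ‖T w‖ := norm_inner_le_norm v (T w)
    _ ≤ ‖v‖ * (‖T‖ * ‖w‖) := by
        gcongr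
        exact T.le_opNorm w
    _ = ‖v‖ * ‖w‖ * ‖T‖ := by ring

/-- the space of the normal functionals of finite rank -/
def EE (H : Type) [NormedAddCommGroup H] [InnerProductSpace ℂ H] [CompleteSpace H] :
    Submodule ℂ (StrongDual ℂ (H →L[ℂ] H)) :=
  Submodule.span ℂ (Set.range fun p : H × H => om p.1 p.2)

theorem om_mem (v w : H) : om v w ∈ EE H := Submodule.subset_span ⟨(v, w), rfl⟩

/-- the space as a type of its own -/
def Esp (H : Type) [NormedAddCommGroup H] [InnerProductSpace ℂ H] [CompleteSpace H] : Type := EE H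

instance : NormedAddCommGroup (Esp H) := inferInstanceAs (NormedAddCommGroup (EE H))

instance : NormedSpace ℂ (Esp H) := inferInstanceAs (NormedSpace ℂ (EE H))

/-- the embedding into the dual -/
def toD : Esp H →ₗ[ℂ] StrongDual ℂ (H →L[ℂ] H) := (EE H).subtype

theorem toD_inj {ω ω' : Esp H} (h : toD ω = toD ω') : ω = ω' := Subtype.ext h

theorem toD_norm (ω : Esp H) : ‖toD ω‖ = ‖ω‖ := rfl

/-- the same functional, as an element of the space -/
def oE (v w : H) : Esp H := ⟨om v w, om_mem v w⟩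

theorem toD_oE (v w : H) (T : H →L[ℂ] H) : toD (oE v w) T = ⟪v, T w⟫_ℂ := rfl

theorem oE_norm (v w : H) : ‖oE v w‖ ≤ ‖v‖ * ‖w‖ := om_norm v w

/-- continuous functionals on the space are given by operators -/
theorem repr (Λ : StrongDual ℂ (Esp H)) : ∃ T : H →L[ℂ] H, ∀ ω : Esp H, Λ ω = toD ω T := by
  let f : H →ₛₗ[starRingEnd ℂ] H →ₗ[ℂ] ℂ := LinearMap.mk₂'ₛₗ (starRingEnd ℂ) (RingHom.id ℂ)
    (fun v w => Λ (oE v w))
    (fun v v' w => by
      show Λ (oE (v + v') w) = Λ (oE v w) + Λ (oE v' w)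
      rw [← map_add]
      congr 1
      refine toD_inj (ContinuousLinearMap.ext fun T => ?_)
      show ⟪v + v', T w⟫_ℂ = ⟪v, T w⟫_ℂ + ⟪v', T w⟫_ℂ
      exact inner_add_left _ _ _)
    (fun c v w => by
      show Λ (oE (c • v) w) = starRingEnd ℂ c • Λ (oE v w)
      rw [← map_smul]
      congr 1
      refine toD_inj (ContinuousLinearMap.ext fun T => ?_)
      show ⟪c • v, T w⟫_ℂ = starRingEnd ℂ c * ⟪v, T w⟫_ℂ
      exact inner_smul_left _ _ _)
    (fun v w w' => by
      show Λ (oE v (w + w')) = Λ (oE v w) + Λ (oE v w')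
      rw [← map_add]
      congr 1
      refine toD_inj (ContinuousLinearMap.ext fun T => ?_)
      show ⟪v, T (w + w')⟫_ℂ = ⟪v, T w⟫_ℂ + ⟪v, T w'⟫_ℂ
      rw [map_add, inner_add_right])
    (fun c v w => by
      show Λ (oE v (c • w)) = c • Λ (oE v w)
      rw [← map_smul]
      congr 1
      refine toD_inj (ContinuousLinearMap.ext fun T => ?_)
      show ⟪v, T (c • w)⟫_ℂ = c * ⟪v, T w⟫_ℂ
      rw [map_smul, inner_smul_right])
  let B : H →L⋆[ℂ] H →L[ℂ] ℂ := LinearMap.mkContinuous₂ f ‖Λ‖ (fun v w => by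
    show ‖Λ (oE v w)‖ ≤ ‖Λ‖ * ‖v‖ * ‖w‖
    calc ‖Λ (oE v w)‖ ≤ ‖Λ‖ * ‖oE v w‖ := Λ.le_opNorm _
      _ ≤ ‖Λ‖ * (‖v‖ * ‖w‖) := by
          gcongr
          exact oE_norm v w
      _ = ‖Λ‖ * ‖v‖ * ‖w‖ := by ring)
  have hB : ∀ v w, B v w = Λ (oE v w) := fun v w => rfl
  refine ⟨ContinuousLinearMap.adjoint (InnerProductSpace.continuousLinearMapOfBilin B), ?_⟩
  rintro ⟨ω, hω⟩
  refine Submodule.span_induction (p := fun ω hω => Λ ⟨ω, hω⟩ =
    ω (ContinuousLinearMap.adjoint (InnerProductSpace.continuousLinearMapOfBilin B)))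
    ?_ ?_ ?_ ?_ hω
  · rintro _ ⟨⟨v, w⟩, rfl⟩
    show Λ (oE v w) = ⟪v, ContinuousLinearMap.adjoint
      (InnerProductSpace.continuousLinearMapOfBilin B) w⟫_ℂ
    rw [ContinuousLinearMap.adjoint_inner_right, InnerProductSpace.continuousLinearMapOfBilin_apply,
      hB]
  · show Λ (0 : Esp H) = 0
    exact map_zero Λ
  · intro x y hx hy h1 h2
    exact (map_add Λ (⟨x, hx⟩ : Esp H) (⟨y, hy⟩ : Esp H)).trans
      (congrArg₂ (fun a b : ℂ => a + b) h1 h2)
  · intro c x hx h1
    exact (map_smul Λ c (⟨x, hx⟩ : Esp H)).trans (congrArg (fun a : ℂ => c * a) h1)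

/-- the functional of a finite family of vectors -/
def sE {n : ℕ} (v : Fin n → H) : Esp H := ∑ j, oE (v j) (v j)

theorem sE_apply {n : ℕ} (v : Fin n → H) (T : H →L[ℂ] H) :
    toD (sE v) T = ∑ j, ⟪v j, T (v j)⟫_ℂ := by
  unfold sE
  rw [map_sum, ContinuousLinearMap.sum_apply]
  rfl

/-- a positive functional which vanishes at `X` vanishes at `star X` -/
theorem star_zero (φ : (H →L[ℂ] H) →ₗ[ℂ] ℂ) (hφ : ∀ T, 0 ≤ φ (star T * T)) (X : H →L[ℂ] H)
    (hX : φ X = 0) : φ (star X) = 0 := by
  have him : ∀ T, (φ (star T * T)).im = 0 := fun T => ((Complex.nonneg_iff.1 (hφ T)).2).symm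
  have h1 := him 1
  have h2 := him X
  have h3 := him (1 + X)
  have h4 := him (1 + Complex.I • X)
  have e3 : star (1 + X) * (1 + X) = star (1 : H →L[ℂ] H) * 1 + X + star X + star X * X := by
    rw [star_add, star_one]
    noncomm_ring
  have e4 : star (1 + Complex.I • X) * (1 + Complex.I • X) =
      star (1 : H →L[ℂ] H) * 1 + Complex.I • X + (-Complex.I) • star X + star X * X := by
    rw [star_add, star_one, star_smul, Complex.star_def, Complex.conj_I, add_mul, mul_add, mul_add,
      smul_mul_smul_comm, neg_mul, Complex.I_mul_I, neg_neg, one_smul]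
    simp only [one_mul, mul_one]
    abel
  rw [e3, map_add, map_add, map_add, Complex.add_im, Complex.add_im, Complex.add_im, h1, h2, hX]
    at h3
  rw [e4, map_add, map_add, map_add, map_smul, map_smul, Complex.add_im, Complex.add_im,
    Complex.add_im, h1, h2, hX] at h4
  have h5 : (φ (star X)).im = 0 := by simpa using h3
  have h6 : (φ (star X)).re = 0 := by
    simpa using h4
  exact Complex.ext h6 h5

end

end DAYaux

open DAYaux in
theorem t_day : S_DAY := by
  intro H _ _ _ φ hφ hφ1 m k u x hu ε hε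
  let F := (Fin m → Esp H) × (Fin k → ℂ)
  let D : Set F := {d | ∃ (n : ℕ) (v : Fin n → H), ∑ j, ‖v j‖ ^ 2 = 1 ∧
    d = (fun i => sE (fun j => u i (v j)) - sE v, fun l => toD (sE v) (x l) - φ (x l))}
  -- convexity
  have hconv : Convex ℝ D := by
    rintro _ ⟨n, v, hv, rfl⟩ _ ⟨n', v', hv', rfl⟩ a b ha hb hab
    refine ⟨n + n', Fin.append (fun j => ((Real.sqrt a : ℝ) : ℂ) • v j)
      (fun j => ((Real.sqrt b : ℝ) : ℂ) • v' j), ?_, ?_⟩
    · rw [Fin.sum_univ_add]
      simp only [Fin.append_left, Fin.append_right]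
      have e1 : ∀ (c : ℝ) (y : H), 0 ≤ c → ‖((Real.sqrt c : ℝ) : ℂ) • y‖ ^ 2 = c * ‖y‖ ^ 2 := by
        intro c y hc
        rw [norm_smul, Complex.norm_real, Real.norm_of_nonneg (Real.sqrt_nonneg _), mul_pow,
          Real.sq_sqrt hc]
      simp only [e1 _ _ ha, e1 _ _ hb]
      rw [← Finset.mul_sum, ← Finset.mul_sum, hv, hv', mul_one, mul_one, hab]
    · have e2 : ∀ (c : ℝ) (y : H) (T : H →L[ℂ] H), 0 ≤ c →
          ⟪((Real.sqrt c : ℝ) : ℂ) • y, T (((Real.sqrt c : ℝ) : ℂ) • y)⟫_ℂ =
            (c : ℂ) * ⟪y, T y⟫_ℂ := by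
        intro c y T hc
        rw [map_smul, inner_smul_left, inner_smul_right, Complex.conj_ofReal, ← mul_assoc,
          ← Complex.ofReal_mul, Real.mul_self_sqrt hc]
      have e3 : ∀ T : H →L[ℂ] H, toD (sE (Fin.append (fun j => ((Real.sqrt a : ℝ) : ℂ) • v j)
          (fun j => ((Real.sqrt b : ℝ) : ℂ) • v' j))) T =
          (a : ℂ) * toD (sE v) T + (b : ℂ) * toD (sE v') T := by
        intro T
        rw [sE_apply, sE_apply, sE_apply, Fin.sum_univ_add]
        simp only [Fin.append_left, Fin.append_right, e2 _ _ _ ha, e2 _ _ _ hb]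
        rw [← Finset.mul_sum, ← Finset.mul_sum]
      have e4 : ∀ (i : Fin m) (T : H →L[ℂ] H),
          toD (sE (fun j => u i (Fin.append (fun j => ((Real.sqrt a : ℝ) : ℂ) • v j)
          (fun j => ((Real.sqrt b : ℝ) : ℂ) • v' j) j))) T =
          (a : ℂ) * toD (sE (fun j => u i (v j))) T + (b : ℂ) * toD (sE (fun j => u i (v' j))) T := by
        intro i T
        rw [sE_apply, sE_apply, sE_apply, Fin.sum_univ_add]
        simp only [Fin.append_left, Fin.append_right, map_smul (u i), e2 _ _ _ ha, e2 _ _ _ hb]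
        rw [← Finset.mul_sum, ← Finset.mul_sum]
      refine Prod.ext ?_ ?_
      · funext i
        refine toD_inj (ContinuousLinearMap.ext fun T => ?_)
        show (a : ℂ) * (toD (sE (fun j => u i (v j))) T - toD (sE v) T) +
          (b : ℂ) * (toD (sE (fun j => u i (v' j))) T - toD (sE v') T) =
          toD (sE (fun j => u i (Fin.append (fun j => ((Real.sqrt a : ℝ) : ℂ) • v j)
          (fun j => ((Real.sqrt b : ℝ) : ℂ) • v' j) j))) T -
          toD (sE (Fin.append (fun j => ((Real.sqrt a : ℝ) : ℂ) • v j)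
          (fun j => ((Real.sqrt b : ℝ) : ℂ) • v' j))) T
        rw [e3, e4]
        ring
      · funext l
        show (a : ℂ) * (toD (sE v) (x l) - φ (x l)) + (b : ℂ) * (toD (sE v') (x l) - φ (x l)) =
          toD (sE (Fin.append (fun j => ((Real.sqrt a : ℝ) : ℂ) • v j)
          (fun j => ((Real.sqrt b : ℝ) : ℂ) • v' j))) (x l) - φ (x l)
        rw [e3]
        have hab' : (a : ℂ) + b = 1 := by exact_mod_cast congrArg (fun r : ℝ => (r : ℂ)) hab
        linear_combination (-φ (x l)) * hab'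
  -- zero is in the closure
  have hcl : (0 : F) ∈ closure D := by
    by_contra h0
    obtain ⟨f, c, hf0, hfD⟩ := RCLike.geometric_hahn_banach_point_closed (𝕜 := ℂ) (E := F)
      hconv.closure isClosed_closure h0
    rw [map_zero, map_zero] at hf0
    -- the operators
    have hT : ∀ i : Fin m, ∃ T : H →L[ℂ] H, ∀ ω : Esp H,
        f (Pi.single i ω, 0) = toD ω T := by
      intro i
      obtain ⟨T, hT⟩ := repr ((f.comp (ContinuousLinearMap.inl ℂ (Fin m → Esp H) (Fin k → ℂ))).comp
        (ContinuousLinearMap.single ℂ (fun _ : Fin m => Esp H) i))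
      exact ⟨T, fun ω => hT ω⟩
    choose T hT using hT
    let γ : Fin k → ℂ := fun l => f (0, Pi.single l 1)
    have hf : ∀ d : F, f d = ∑ i, toD (d.1 i) (T i) + ∑ l, d.2 l * γ l := by
      intro d
      have e1 : d = (d.1, 0) + (0, d.2) := by
        refine Prod.ext ?_ ?_
        · show d.1 = d.1 + 0
          rw [add_zero]
        · show d.2 = 0 + d.2
          rw [zero_add]
      have e2 : f (d.1, 0) = ∑ i, toD (d.1 i) (T i) := by
        have e3 : (d.1, (0 : Fin k → ℂ)) =
            ContinuousLinearMap.inl ℂ (Fin m → Esp H) (Fin k → ℂ) (∑ i, Pi.single i (d.1 i)) := by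
          rw [Finset.univ_sum_single]
          rfl
        rw [e3, map_sum, map_sum]
        exact Finset.sum_congr rfl fun i _ => hT i (d.1 i)
      have e4 : f (0, d.2) = ∑ l, d.2 l * γ l := by
        have e3 : ((0 : Fin m → Esp H), d.2) =
            ContinuousLinearMap.inr ℂ (Fin m → Esp H) (Fin k → ℂ)
              (∑ l, d.2 l • Pi.single l (1 : ℂ)) := by
          have e5 : ∑ l, d.2 l • Pi.single l (1 : ℂ) = d.2 := by
            have e6 : ∀ l, d.2 l • (Pi.single l (1 : ℂ) : Fin k → ℂ) = Pi.single l (d.2 l) := by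
              intro l
              rw [← Pi.single_smul, smul_eq_mul, mul_one]
            simp only [e6]
            exact Finset.univ_sum_single _
          rw [e5]
          rfl
        rw [e3, map_sum, map_sum]
        refine Finset.sum_congr rfl fun l _ => ?_
        rw [map_smul, map_smul]
        rfl
      calc f d = f ((d.1, 0) + (0, d.2)) := by rw [← e1]
        _ = f (d.1, 0) + f (0, d.2) := map_add f _ _
        _ = _ := by rw [e2, e4]
    -- the operator
    let X : H →L[ℂ] H := ∑ i, (star (u i) * T i * u i - T i) + ∑ l, γ l • (x l - φ (x l) • 1)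
    have hφX : φ X = 0 := by
      show φ (∑ i, (star (u i) * T i * u i - T i) + ∑ l, γ l • (x l - φ (x l) • 1)) = 0
      rw [map_add, map_sum, map_sum, Finset.sum_eq_zero, Finset.sum_eq_zero, add_zero]
      · intro l _
        rw [map_smul, map_sub, map_smul, hφ1, smul_eq_mul, smul_eq_mul, mul_one, sub_self, mul_zero]
      · intro i _
        rw [map_sub, (hu i).2, sub_self]
    have hunit : ∀ v : H, ‖v‖ = 1 → c < (⟪v, X v⟫_ℂ).re := by
      intro v hv
      have h1 : ((fun i => sE (fun j : Fin 1 => u i v) - sE (fun _ : Fin 1 => v),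
          fun l => toD (sE (fun _ : Fin 1 => v)) (x l) - φ (x l)) : F) ∈ D :=
        ⟨1, fun _ => v, by simp [hv], rfl⟩
      have h2 := hfD _ (subset_closure h1)
      rw [hf] at h2
      have h3 : ∑ i, toD (sE (fun j : Fin 1 => u i v) - sE (fun _ : Fin 1 => v)) (T i) +
          ∑ l, (toD (sE (fun _ : Fin 1 => v)) (x l) - φ (x l)) * γ l = ⟪v, X v⟫_ℂ := by
        have e1 : ∀ S : H →L[ℂ] H, toD (sE (fun _ : Fin 1 => v)) S = ⟪v, S v⟫_ℂ := by
          intro S
          rw [sE_apply]
          simp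
        have e2 : ∀ i, ∀ S : H →L[ℂ] H, toD (sE (fun _ : Fin 1 => u i v)) S =
            ⟪v, (star (u i) * S * u i) v⟫_ℂ := by
          intro i S
          rw [sE_apply]
          simp only [Finset.univ_unique, Finset.sum_singleton]
          show ⟪u i v, S (u i v)⟫_ℂ = ⟪v, (star (u i)) (S (u i v))⟫_ℂ
          rw [ContinuousLinearMap.star_eq_adjoint, ContinuousLinearMap.adjoint_inner_right]
        have e3 : X v = ∑ i, ((star (u i) * T i * u i) v - T i v) +
            ∑ l, γ l • (x l v - φ (x l) • v) := by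
          show (∑ i, (star (u i) * T i * u i - T i) +
            ∑ l, γ l • (x l - φ (x l) • (1 : H →L[ℂ] H))) v = _
          rw [ContinuousLinearMap.add_apply, ContinuousLinearMap.sum_apply,
            ContinuousLinearMap.sum_apply]
          rfl
        rw [e3, inner_add_right, inner_sum, inner_sum]
        refine congrArg₂ _ (Finset.sum_congr rfl fun i _ => ?_) (Finset.sum_congr rfl fun l _ => ?_)
        · rw [inner_sub_right, ← e2, ← e1]
          rfl
        · rw [inner_smul_right, inner_sub_right, inner_smul_right, ← e1,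
            inner_self_eq_norm_sq_to_K, hv]
          push_cast
          ring
      rw [← h3]
      exact h2
    have hall : ∀ v : H, c * ‖v‖ ^ 2 ≤ (⟪v, X v⟫_ℂ).re := by
      intro v
      by_cases hv : v = 0
      · simp [hv]
      · have hn : 0 < ‖v‖ := norm_pos_iff.2 hv
        have h1 := hunit (((‖v‖⁻¹ : ℝ) : ℂ) • v) (by
          rw [norm_smul, Complex.norm_real, norm_inv, norm_norm]
          exact inv_mul_cancel₀ hn.ne')
        rw [map_smul, inner_smul_left, inner_smul_right, Complex.conj_ofReal, ← mul_assoc,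
          ← Complex.ofReal_mul, Complex.re_ofReal_mul] at h1
        have h2 : c * ‖v‖ ^ 2 ≤ ‖v‖⁻¹ * ‖v‖⁻¹ * (⟪v, X v⟫_ℂ).re * ‖v‖ ^ 2 :=
          mul_le_mul_of_nonneg_right h1.le (by positivity)
        refine h2.trans (le_of_eq ?_)
        field_simp
    let Y : H →L[ℂ] H := (1 / 2 : ℂ) • (X + star X) - (c : ℂ) • (1 : H →L[ℂ] H)
    have hY : Y.IsPositive := by
      refine ContinuousLinearMap.isPositive_def'.2 ⟨?_, fun v => ?_⟩
      · show star ((1 / 2 : ℂ) • (X + star X) - (c : ℂ) • (1 : H →L[ℂ] H)) =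
          (1 / 2 : ℂ) • (X + star X) - (c : ℂ) • (1 : H →L[ℂ] H)
        rw [star_sub, star_smul, star_smul, star_add, star_star, star_one, add_comm (star X) X]
        simp
      · show 0 ≤ (⟪((1 / 2 : ℂ) • (X + star X) - (c : ℂ) • (1 : H →L[ℂ] H)) v, v⟫_ℂ).re
        have e1 : ((1 / 2 : ℂ) • (X + star X) - (c : ℂ) • (1 : H →L[ℂ] H)) v =
            (1 / 2 : ℂ) • (X v + (star X) v) - (c : ℂ) • v := rfl
        have e2 : ⟪(star X) v, v⟫_ℂ = ⟪v, X v⟫_ℂ := by
          rw [ContinuousLinearMap.star_eq_adjoint, ContinuousLinearMap.adjoint_inner_left]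
        have e3 : (⟪X v, v⟫_ℂ).re = (⟪v, X v⟫_ℂ).re := by
          rw [← inner_conj_symm, Complex.conj_re]
        have e4 : ⟪v, v⟫_ℂ = ((‖v‖ ^ 2 : ℝ) : ℂ) := by
          rw [inner_self_eq_norm_sq_to_K]
          norm_cast
        rw [e1, inner_sub_left, inner_smul_left, inner_smul_left, inner_add_left, e2, e4,
          Complex.conj_ofReal, ← Complex.ofReal_mul, Complex.sub_re, Complex.ofReal_re]
        have e5 : (starRingEnd ℂ (1 / 2 : ℂ) * (⟪X v, v⟫_ℂ + ⟪v, X v⟫_ℂ)).re =
            (⟪v, X v⟫_ℂ).re := by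
          have e7 : (1 / 2 : ℂ) = ((1 / 2 : ℝ) : ℂ) := by
            push_cast
            ring
          have e6 : starRingEnd ℂ (1 / 2 : ℂ) = ((1 / 2 : ℝ) : ℂ) := by
            rw [e7, Complex.conj_ofReal]
          rw [e6, Complex.re_ofReal_mul, Complex.add_re, e3]
          ring
        rw [e5]
        linarith [hall v]
    obtain ⟨R, hR⟩ := CStarAlgebra.nonneg_iff_eq_star_mul_self.1
      ((ContinuousLinearMap.nonneg_iff_isPositive Y).2 hY)
    have h1 := hφ R
    have h2 : φ Y = -(c : ℂ) := by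
      show φ ((1 / 2 : ℂ) • (X + star X) - (c : ℂ) • (1 : H →L[ℂ] H)) = -(c : ℂ)
      rw [map_sub, map_smul, map_smul, map_add, hφX, star_zero φ hφ X hφX, hφ1]
      simp
    rw [← hR, h2] at h1
    have h3 := (Complex.nonneg_iff.1 h1).1
    simp only [Complex.neg_re, Complex.ofReal_re] at h3
    linarith
  obtain ⟨d, ⟨n, v, hv, rfl⟩, hd⟩ := Metric.mem_closure_iff.1 hcl ε hε
  rw [dist_comm, dist_zero_right] at hd
  refine ⟨n, v, hv, fun i T => ?_, fun l => ?_⟩
  · have h1 : ‖(sE (fun j => u i (v j)) - sE v : Esp H)‖ ≤ ε := by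
      refine le_trans ?_ hd.le
      refine le_trans ?_ (le_max_left _ _)
      exact norm_le_pi_norm (fun i => sE (fun j => u i (v j)) - sE v) i
    have h2 : ‖toD (sE (fun j => u i (v j)) - sE v) T‖ ≤ ε * ‖T‖ :=
      (ContinuousLinearMap.le_opNorm _ T).trans (mul_le_mul_of_nonneg_right h1 (norm_nonneg _))
    rw [← sE_apply, ← sE_apply]
    exact h2
  · rw [← sE_apply]
    refine le_trans ?_ hd.le
    refine le_trans ?_ (le_max_right _ _)
    exact norm_le_pi_norm (fun l => toD (sE v) (x l) - φ (x l)) l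

end

end Pool.Agent.N571.SS.D
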