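import Pool.Agent.N571.SS.D.Stm
import Pool.Agent.N571.EX.TR

/-!
# DIF: partitions in diffuse algebras (helper828)
-/

set_option autoImplicit false

namespace Pool.Agent.N571.SS.D

open Filter Topology
open scoped InnerProductSpace ComplexOrder
open Pool.Agent.H494R3.GT (L2 dl)
open Pool.Agent.N557.QW (lam rgt LG LK cf rc)

noncomputable section

namespace DIFx

variable {H : Type} [NormedAddCommGroup H] [InnerProductSpace ℂ H] [CompleteSpace H]

/-- projections in `A` -/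
structure PJ (A : VonNeumannAlgebra H) (p : H →L[ℂ] H) : Prop where
  mem : p ∈ A
  sa : star p = p
  idem : p * p = p

variable {A : VonNeumannAlgebra H}

omit [CompleteSpace H] in
lemma ap (S T : H →L[ℂ] H) (v : H) : (S * T) v = S (T v) := rfl

lemma adj {p : H →L[ℂ] H} (h : star p = p) (v w : H) : ⟪p v, w⟫_ℂ = ⟪v, p w⟫_ℂ := by
  have h1 := ContinuousLinearMap.adjoint_inner_left p w v
  rw [← ContinuousLinearMap.star_eq_adjoint, h] at h1
  exact h1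

lemma PJ.zero : PJ A 0 := ⟨zero_mem A, star_zero _, mul_zero _⟩

lemma PJ.one : PJ A 1 := ⟨one_mem A, star_one _, mul_one _⟩

/-- order is symmetric -/
lemma PJ.comm {p q : H →L[ℂ] H} (hp : star p = p) (hq : star q = q) (h : p * q = q) :
    q * p = q := by
  have := congrArg star h
  rwa [star_mul, hp, hq] at this

lemma PJ.sub {p q : H →L[ℂ] H} (hp : PJ A p) (hq : PJ A q) (h : p * q = q) : PJ A (p - q) := by
  have h2 := PJ.comm hp.sa hq.sa h
  refine ⟨sub_mem hp.mem hq.mem, by rw [star_sub, hp.sa, hq.sa], ?_⟩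
  rw [sub_mul, mul_sub, mul_sub, hp.idem, h, h2, hq.idem]
  abel

lemma PJ.mul_sub {p q : H →L[ℂ] H} (hp : PJ A p) (h : p * q = q) : p * (p - q) = p - q := by
  rw [_root_.mul_sub, hp.idem, h]

lemma pyth {p q : H →L[ℂ] H} (hp : PJ A p) (hq : PJ A q) (h : p * q = q) (v : H) :
    ‖p v‖ ^ 2 = ‖q v‖ ^ 2 + ‖(p - q) v‖ ^ 2 := by
  have h1 : p v = q v + (p - q) v := by simp
  have h2 : ⟪q v, (p - q) v⟫_ℂ = 0 := by
    rw [adj hq.sa, ← ap, _root_.mul_sub, PJ.comm hp.sa hq.sa h, hq.idem, sub_self]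
    simp
  have h3 := @norm_add_sq ℂ H _ _ _ (q v) ((p - q) v)
  rw [h2, ← h1] at h3
  simpa using h3

lemma norm_le {p q : H →L[ℂ] H} (hp : PJ A p) (hq : PJ A q) (h : p * q = q) (v : H) :
    ‖q v‖ ^ 2 ≤ ‖p v‖ ^ 2 := by
  rw [pyth hp hq h v]
  nlinarith [sq_nonneg ‖(p - q) v‖]

/-- the strong limit of a decreasing sequence of projections -/
lemma lim (r : ℕ → (H →L[ℂ] H)) (hr : ∀ i, PJ A (r i)) (hd : ∀ i j, i ≤ j → r i * r j = r j) :
    ∃ s : H →L[ℂ] H, PJ A s ∧ (∀ v, Tendsto (fun i => r i v) atTop (𝓝 (s v))) ∧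
      ∀ i, r i * s = s := by
  have hc : ∀ v, ∃ w, Tendsto (fun i => r i v) atTop (𝓝 w) := by
    intro v
    apply cauchySeq_tendsto_of_complete
    have hanti : Antitone (fun i => ‖r i v‖ ^ 2) := fun i j hij =>
      norm_le (hr i) (hr j) (hd i j hij) v
    have hb : BddBelow (Set.range (fun i => ‖r i v‖ ^ 2)) :=
      ⟨0, by rintro _ ⟨i, rfl⟩; positivity⟩
    have hcs : CauchySeq (fun i => ‖r i v‖ ^ 2) := (tendsto_atTop_ciInf hanti hb).cauchySeq
    rw [Metric.cauchySeq_iff'] at hcs ⊢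
    intro ε hε
    obtain ⟨N, hN⟩ := hcs (ε ^ 2) (by positivity)
    refine ⟨N, fun n hn => ?_⟩
    have h1 := hN n hn
    have h2 := pyth (hr N) (hr n) (hd N n hn) v
    rw [Real.dist_eq] at h1
    have h3 : ‖(r N - r n) v‖ ^ 2 < ε ^ 2 := by
      have := (abs_lt.1 h1).1
      nlinarith
    rw [dist_comm, dist_eq_norm]
    have h4 : (r N - r n) v = r N v - r n v := by simp
    rw [h4] at h3
    exact lt_of_pow_lt_pow_left₀ 2 hε.le h3
  choose f hf using hc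
  let s : H →L[ℂ] H := LinearMap.mkContinuous
    { toFun := f
      map_add' := fun v w => by
        refine tendsto_nhds_unique (hf (v + w)) ?_
        simpa using (hf v).add (hf w)
      map_smul' := fun c v => by
        refine tendsto_nhds_unique (hf (c • v)) ?_
        simpa using (hf v).const_smul c } 1 (fun v => by
          refine le_of_tendsto (hf v).norm (Eventually.of_forall fun i => ?_)
          have h1 := norm_le PJ.one (hr i) (one_mul _) v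
          rw [one_mul]
          exact (pow_le_pow_iff_left₀ (norm_nonneg _) (norm_nonneg _) two_ne_zero).1 h1)
  have hs : ∀ v, Tendsto (fun i => r i v) atTop (𝓝 (s v)) := hf
  have h1 : ∀ i, r i * s = s := by
    intro i
    ext v
    rw [ap]
    have h2 : Tendsto (fun j => r i (r j v)) atTop (𝓝 (r i (s v))) :=
      ((r i).continuous.tendsto _).comp (hs v)
    refine tendsto_nhds_unique h2 ?_
    refine (hs v).congr' ?_
    filter_upwards [eventually_ge_atTop i] with j hj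
    rw [← ap, hd i j hj]
  have hsa : star s = s := by
    rw [ContinuousLinearMap.star_eq_adjoint]
    refine ContinuousLinearMap.ext fun v => ?_
    refine ext_inner_right ℂ fun w => ?_
    rw [ContinuousLinearMap.adjoint_inner_left]
    have h2 : Tendsto (fun i => ⟪v, r i w⟫_ℂ) atTop (𝓝 ⟪v, s w⟫_ℂ) :=
      (tendsto_const_nhds).inner (hs w)
    have h3 : Tendsto (fun i => ⟪r i v, w⟫_ℂ) atTop (𝓝 ⟪s v, w⟫_ℂ) :=
      (hs v).inner tendsto_const_nhds
    refine tendsto_nhds_unique h2 (h3.congr fun i => ?_)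
    exact adj (hr i).sa v w
  refine ⟨s, ⟨?_, hsa, ?_⟩, hs, h1⟩
  · rw [← VonNeumannAlgebra.commutant_commutant A, VonNeumannAlgebra.mem_commutant_iff]
    intro y hy
    rw [VonNeumannAlgebra.mem_commutant_iff] at hy
    ext v
    rw [ap, ap]
    have h2 : Tendsto (fun j => y (r j v)) atTop (𝓝 (y (s v))) :=
      (y.continuous.tendsto _).comp (hs v)
    refine tendsto_nhds_unique h2 ((hs (y v)).congr fun j => ?_)
    rw [← ap, ← ap, hy _ (hr j).mem]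
  · ext v
    rw [ap]
    have h2 := hs (s v)
    refine tendsto_nhds_unique h2 ?_
    have h3 : ∀ i, r i (s v) = s v := fun i => by rw [← ap, h1 i]
    simp only [h3]
    exact tendsto_const_nhds

/-- small projections under a nonzero projection -/
lemma small {Ω : H} (hA : Dif A) {p : H →L[ℂ] H} (hp : PJ A p) (h0 : p ≠ 0) (n : ℕ) :
    ∃ q, PJ A q ∧ p * q = q ∧ q ≠ 0 ∧ ‖q Ω‖ ^ 2 ≤ ‖p Ω‖ ^ 2 / 2 ^ n := by
  induction n with
  | zero => exact ⟨p, hp, hp.idem, h0, by simp⟩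
  | succ n ih =>
    obtain ⟨q, hq, hpq, hq0, hqn⟩ := ih
    obtain ⟨e, he, hes, hee, hqe, he0, heq⟩ := hA.split q hq.mem hq.sa hq.idem hq0
    have hE : PJ A e := ⟨he, hes, hee⟩
    have h1 := pyth hq hE hqe Ω
    have h2 : (2 : ℝ) ^ (n + 1) = 2 ^ n * 2 := pow_succ _ _
    have h3 : ‖p Ω‖ ^ 2 / 2 ^ (n + 1) = ‖p Ω‖ ^ 2 / 2 ^ n / 2 := by rw [h2, div_div]
    by_cases h : ‖e Ω‖ ^ 2 ≤ ‖(q - e) Ω‖ ^ 2
    · refine ⟨e, hE, ?_, he0, ?_⟩
      · rw [← hqe, ← mul_assoc, hpq]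
      · rw [h3]
        linarith
    · refine ⟨q - e, hq.sub hE hqe, ?_, sub_ne_zero.2 (Ne.symm heq), ?_⟩
      · rw [_root_.mul_sub, hpq, ← hqe, ← mul_assoc, hpq]
      · rw [h3]
        linarith

/-- greedy choice -/
lemma greedy (Ω : H) (ε : ℝ) (hε : 0 < ε) (r : H →L[ℂ] H) (hr : PJ A r) :
    ∃ q, PJ A q ∧ r * q = q ∧ ‖q Ω‖ ^ 2 ≤ ε ∧
      ∀ q', PJ A q' → r * q' = q' → ‖q' Ω‖ ^ 2 ≤ ε → ‖q' Ω‖ ^ 2 ≤ 2 * ‖q Ω‖ ^ 2 := by
  let S : Set ℝ := {x | ∃ q, PJ A q ∧ r * q = q ∧ ‖q Ω‖ ^ 2 ≤ ε ∧ x = ‖q Ω‖ ^ 2}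
  have hb : BddAbove S := ⟨ε, by rintro _ ⟨q, _, _, h, rfl⟩; exact h⟩
  have h0 : (0 : ℝ) ∈ S := ⟨0, PJ.zero, mul_zero _, by simpa using hε.le, by simp⟩
  rcases (le_csSup hb h0).eq_or_lt with hs | hs
  · refine ⟨0, PJ.zero, mul_zero _, by simpa using hε.le, fun q' h1 h2 h3 => ?_⟩
    have h4 : ‖q' Ω‖ ^ 2 ≤ sSup S := le_csSup hb ⟨q', h1, h2, h3, rfl⟩
    rw [← hs] at h4
    simpa using h4
  · obtain ⟨_, ⟨q, h1, h2, h3, rfl⟩, h4⟩ := exists_lt_of_lt_csSup ⟨0, h0⟩ (half_lt_self hs)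
    refine ⟨q, h1, h2, h3, fun q' g1 g2 g3 => ?_⟩
    have h5 : ‖q' Ω‖ ^ 2 ≤ sSup S := le_csSup hb ⟨q', g1, g2, g3, rfl⟩
    linarith

/-- the partition -/
lemma main {Ω : H} (hΩ : ∀ x ∈ A, x Ω = 0 → x = 0) (hA : Dif A) (ε : ℝ) (hε : 0 < ε) :
    ∃ (n : ℕ) (p : Fin n → (H →L[ℂ] H)), (∀ i, PJ A (p i) ∧ ‖p i Ω‖ ^ 2 ≤ ε) ∧
      (∀ i j, i ≠ j → p i * p j = 0) ∧ ∑ i, p i = 1 := by
  choose! Q hQ1 hQ2 hQ3 hQ4 using greedy (A := A) Ω ε hε
  let r : ℕ → (H →L[ℂ] H) := fun n => Nat.rec 1 (fun _ x => x - Q x) n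
  have r0 : r 0 = 1 := rfl
  have rs : ∀ n, r (n + 1) = r n - Q (r n) := fun n => rfl
  have hr : ∀ n, PJ A (r n) := by
    intro n
    induction n with
    | zero => exact PJ.one
    | succ n ih => rw [rs]; exact ih.sub (hQ1 _ ih) (hQ2 _ ih)
  have hd : ∀ i j, i ≤ j → r i * r j = r j := by
    intro i j hij
    induction j, hij using Nat.le_induction with
    | base => exact (hr i).idem
    | succ j _ ih =>
      have h1 : r j * r (j + 1) = r (j + 1) := by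
        rw [rs]; exact (hr j).mul_sub (hQ2 _ (hr j))
      rw [← h1, ← mul_assoc, ih]
  obtain ⟨s, hs, hlim, his⟩ := lim r hr hd
  have hm : ∀ n, ‖r n Ω‖ ^ 2 - ‖r (n + 1) Ω‖ ^ 2 = ‖Q (r n) Ω‖ ^ 2 := by
    intro n
    rw [pyth (hr n) (hQ1 _ (hr n)) (hQ2 _ (hr n)) Ω, rs]
    ring
  have hQ0 : Tendsto (fun n => ‖Q (r n) Ω‖ ^ 2) atTop (𝓝 0) := by
    have h1 : Tendsto (fun n => ‖r n Ω‖ ^ 2) atTop (𝓝 (‖s Ω‖ ^ 2)) := (hlim Ω).norm.pow 2
    have h2 := h1.sub ((tendsto_add_atTop_iff_nat 1).2 h1)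
    rw [sub_self] at h2
    exact h2.congr fun n => hm n
  have hsmall : ∀ q, PJ A q → s * q = q → ‖q Ω‖ ^ 2 ≤ ε → q = 0 := by
    intro q h1 h2 h3
    apply hΩ q h1.mem
    have h4 : ∀ n, ‖q Ω‖ ^ 2 ≤ 2 * ‖Q (r n) Ω‖ ^ 2 := fun n =>
      hQ4 _ (hr n) q h1 (by rw [← h2, ← mul_assoc, his n]) h3
    have h5 : ‖q Ω‖ ^ 2 ≤ 0 := by
      have h7 : Tendsto (fun n => 2 * ‖Q (r n) Ω‖ ^ 2) atTop (𝓝 0) := by
        simpa using hQ0.const_mul 2
      exact ge_of_tendsto' h7 h4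
    have h6 : ‖q Ω‖ = 0 := by
      have := norm_nonneg (q Ω)
      nlinarith
    exact norm_eq_zero.1 h6
  have hs0 : s = 0 := by
    by_contra hne
    obtain ⟨n, hn⟩ := exists_nat_gt (‖s Ω‖ ^ 2 / ε)
    obtain ⟨q, h1, h2, h3, h4⟩ := small (Ω := Ω) hA hs hne n
    apply h3
    apply hsmall q h1 h2
    refine h4.trans ?_
    rw [div_le_iff₀ (by positivity)]
    have h5 : (n : ℝ) < 2 ^ n := by exact_mod_cast Nat.lt_two_pow_self
    have h6 : ‖s Ω‖ ^ 2 < n * ε := by rwa [div_lt_iff₀ hε] at hn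
    nlinarith
  have hr0 : Tendsto (fun n => ‖r n Ω‖ ^ 2) atTop (𝓝 0) := by
    have h1 : Tendsto (fun n => ‖r n Ω‖ ^ 2) atTop (𝓝 (‖s Ω‖ ^ 2)) := (hlim Ω).norm.pow 2
    simpa [hs0] using h1
  obtain ⟨N, hN⟩ := (hr0.eventually (gt_mem_nhds hε)).exists
  -- orthogonality
  have hQr : ∀ i j, i < j → Q (r i) * r j = 0 := by
    intro i j hij
    have h1 : Q (r i) * r (i + 1) = 0 := by
      rw [rs, _root_.mul_sub, PJ.comm (hr i).sa (hQ1 _ (hr i)).sa (hQ2 _ (hr i)),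
        (hQ1 _ (hr i)).idem, sub_self]
    rw [← hd (i + 1) j hij, ← mul_assoc, h1, zero_mul]
  have hQQ : ∀ i j, i < j → Q (r i) * Q (r j) = 0 := by
    intro i j hij
    rw [← hQ2 _ (hr j), ← mul_assoc, hQr i j hij, zero_mul]
  have hsym : ∀ x y : H →L[ℂ] H, star x = x → star y = y → x * y = 0 → y * x = 0 := by
    intro x y hx hy h
    have := congrArg star h
    rwa [star_mul, hx, hy, star_zero] at this
  have hsum : ∀ n, ∑ i : Fin n, Q (r i) + r n = 1 := by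
    intro n
    induction n with
    | zero => simp [r0]
    | succ n ih =>
      rw [Fin.sum_univ_castSucc, rs]
      simp only [Fin.val_castSucc, Fin.val_last]
      rw [← ih]
      abel
  refine ⟨N + 1, Fin.snoc (α := fun _ => H →L[ℂ] H) (fun i : Fin N => Q (r i)) (r N), ?_, ?_, ?_⟩
  · intro i
    refine Fin.lastCases ?_ (fun i => ?_) i
    · rw [Fin.snoc_last]
      exact ⟨hr N, le_of_lt hN⟩
    · rw [Fin.snoc_castSucc]
      exact ⟨hQ1 _ (hr _), hQ3 _ (hr _)⟩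
  · intro i j
    refine Fin.lastCases ?_ (fun i => ?_) i
    · refine Fin.lastCases ?_ (fun j => ?_) j
      · intro h; exact absurd rfl h
      · intro _
        rw [Fin.snoc_last, Fin.snoc_castSucc]
        exact hsym _ _ (hQ1 _ (hr _)).sa (hr N).sa (hQr _ _ j.2)
    · refine Fin.lastCases ?_ (fun j => ?_) j
      · intro _
        rw [Fin.snoc_last, Fin.snoc_castSucc]
        exact hQr _ _ i.2
      · intro h
        rw [Fin.snoc_castSucc, Fin.snoc_castSucc]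
        have hne : (i : ℕ) ≠ j := fun h' => h (by rw [Fin.ext h'])
        rcases lt_or_gt_of_ne hne with h1 | h1
        · exact hQQ _ _ h1
        · exact hsym _ _ (hQ1 _ (hr _)).sa (hQ1 _ (hr _)).sa (hQQ _ _ h1)
  · rw [Fin.sum_univ_castSucc]
    simp only [Fin.snoc_castSucc, Fin.snoc_last]
    exact hsum N

end DIFx

/-- **DIF.** -/
theorem t_dif : S_DIF := by
  intro G _ A hA hD ε hε
  have hΩ : ∀ x ∈ A, x (dl (1 : G)) = 0 → x = 0 := fun x hx =>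
    ((Pool.Agent.N571.EX.t_tr G ⊥).2.1).faithful x (hA x hx)
  obtain ⟨n, p, h1, h2, h3⟩ := DIFx.main hΩ hD ε hε
  exact ⟨n, p, fun i => ⟨(h1 i).1.mem, (h1 i).1.sa, (h1 i).1.idem, (h1 i).2⟩, h2, h3⟩

end

end Pool.Agent.N571.SS.D
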