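import Pool.Agent.N571.SS.VN
import Pool.Agent.H812R3.KP.Defs

/-!
# Project SS/D: strong solidity, definitions
-/

set_option autoImplicit false

namespace Pool.Agent.N571.SS.D

open Filter Topology
open scoped InnerProductSpace ComplexOrder
open Pool.Agent.H494R3.GT (L2 dl)
open Pool.Agent.N557.QW (lam rgt LG LK cf rc)

noncomputable section

/-- bounded operators on `ℓ²(X)` -/
abbrev B (X : Type) := L2 X →L[ℂ] L2 X

/-- the entrywise complex conjugate of the operator `T` -/
def cj {X : Type} (T : B X) : B X :=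
  LinearMap.mkContinuous
    { toFun := fun v => star (T (star v))
      map_add' := fun v w => by simp
      map_smul' := fun c v => by simp } ‖T‖ (fun v => by
        simpa using T.le_opNorm (star v))

/-- `T ⊗ 1` on `ℓ²(X × X)` -/
def a1 {X : Type} (T : B X) : B (X × X) := Pool.Agent.H812R3.KP.amp (Equiv.refl (X × X)) T

/-- `1 ⊗ T` on `ℓ²(X × X)` -/
def a2 {X : Type} (T : B X) : B (X × X) := Pool.Agent.H812R3.KP.amp (Equiv.prodComm X X) T

/-- the flip `δ_g ↦ δ_{g⁻¹}` -/
def fl {G : Type} [Group G] : B G := Pool.Agent.H812R3.KP.perm (Equiv.inv G)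

/-- the right multiplication `R(x)` by `x ∈ L(G)` -/
def Rm {G : Type} [Group G] (x : B G) : B G := fl * cj (star x) * fl

/-- the trace -/
def tau {G : Type} [Group G] (x : B G) : ℂ := ⟪dl (1 : G), x (dl (1 : G))⟫_ℂ

/-- `φ` is a state on `B(ℓ²(G))` which extends the trace of `L(G)`. -/
structure St {G : Type} [Group G] (φ : B G →ₗ[ℂ] ℂ) : Prop where
  nonneg : ∀ T : B G, 0 ≤ φ (star T * T)
  trace : ∀ x ∈ LG G, φ x = tau x

/-- the elements of `L(G)` in the centralizer of `φ` -/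
def Cen {G : Type} [Group G] (φ : B G →ₗ[ℂ] ℂ) : Set (B G) :=
  {x | x ∈ LG G ∧ ∀ T : B G, φ (x * T) = φ (T * x)}

/-- The von Neumann subalgebra `A ⊆ L(G)` is amenable (Ozawa-Popa): there is an `A`-central state
on `B(ℓ²(G))` which extends the trace of `L(G)`. -/
structure Am {G : Type} [Group G] (A : VonNeumannAlgebra (L2 G)) : Prop where
  sub : ∀ x ∈ A, x ∈ LG G
  ex : ∃ φ : B G →ₗ[ℂ] ℂ, St φ ∧ ∀ x ∈ A, x ∈ Cen φ

/-- `u ∈ L(G)` is a unitary which normalizes `A` -/
structure Nor {G : Type} [Group G] (A : VonNeumannAlgebra (L2 G)) (u : B G) : Prop where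
  mem : u ∈ LG G
  left : star u * u = 1
  right : u * star u = 1
  conj : ∀ a ∈ A, u * a * star u ∈ A
  conj' : ∀ a ∈ A, star u * a * u ∈ A

/-- `A` is diffuse: it has no minimal projection. -/
structure Dif {H : Type} [NormedAddCommGroup H] [InnerProductSpace ℂ H] [CompleteSpace H]
    (A : VonNeumannAlgebra H) : Prop where
  split : ∀ p ∈ A, star p = p → p * p = p → p ≠ 0 →
    ∃ q ∈ A, star q = q ∧ q * q = q ∧ p * q = q ∧ q ≠ 0 ∧ q ≠ p

/-- the finite sum `∑ φ(g) λ_g ⊗ λ_g` -/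
def Yf {G : Type} [Group G] (s : Finset G) (φ : G → ℝ) : B (G × G) :=
  ∑ g ∈ s, (φ g : ℂ) • lam ((g, g) : G × G)

end

end Pool.Agent.N571.SS.D
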