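import Pool.Agent.N571.SS.D.Stm

/-!
# SS/D/FB: the bound for the functional of a Herz-Schur multiplier (helper952)
-/

set_option autoImplicit false

namespace Pool.Agent.N571.SS.D

namespace FBaux

open Filter Topology
open scoped InnerProductSpace ComplexOrder
open Pool.Agent.H494R3.GT (L2 dl dl_inner mul_ap op_ext_inner)
open Pool.Agent.N557.QW (lam rgt LG LK cf rc lam_dl star_lam lam_rgt mem_LG mem_LG_iff)

variable {G : Type} [Group G]

/-- the Herz-Schur multiplier of finite support -/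
noncomputable def mm (s : Finset G) (f : G → ℝ) (x : B G) : B G :=
  ∑ g ∈ s, ((f g : ℂ) * cf x g) • lam g

theorem mm_mem (s : Finset G) (f : G → ℝ) (x : B G) : mm s f x ∈ LG G := by
  refine mem_LG.2 fun h => ?_
  unfold mm
  rw [Finset.mul_sum, Finset.sum_mul]
  refine Finset.sum_congr rfl fun g _ => ?_
  rw [mul_smul_comm, smul_mul_assoc, lam_rgt]

theorem mm_ent {s : Finset G} {f : G → ℝ} (hf : ∀ g, g ∉ s → f g = 0) (x : B G) (a c : G) :
    ⟪dl a, mm s f x (dl c)⟫_ℂ = (f (a * c⁻¹) : ℂ) * cf x (a * c⁻¹) := by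
  classical
  have e1 : mm s f x (dl c) = ∑ g ∈ s, ((f g : ℂ) * cf x g) • (dl (g * c) : L2 G) := by
    unfold mm
    rw [ContinuousLinearMap.sum_apply]
    refine Finset.sum_congr rfl fun g _ => ?_
    rw [ContinuousLinearMap.smul_apply, lam_dl]
  rw [e1, inner_sum]
  have e2 : ∀ g ∈ s, ⟪dl a, ((f g : ℂ) * cf x g) • (dl (g * c) : L2 G)⟫_ℂ =
      if g = a * c⁻¹ then (f g : ℂ) * cf x g else 0 := by
    intro g _
    rw [inner_smul_right, dl_inner]
    by_cases h : g = a * c⁻¹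
    · rw [if_pos h, if_pos (by rw [h]; group), mul_one]
    · rw [if_neg h, if_neg (fun h' => h (by rw [h']; group)), mul_zero]
  rw [Finset.sum_congr rfl e2, Finset.sum_ite_eq']
  split_ifs with h
  · rfl
  · rw [hf _ h, Complex.ofReal_zero, zero_mul]

theorem tau_mm (s : Finset G) (f : G → ℝ) (x y : B G) :
    tau (mm s f x * star y) =
      ∑ g ∈ s, (f g : ℂ) * cf x g * (starRingEnd ℂ) ⟪dl (1 : G), y (dl g⁻¹)⟫_ℂ := by
  unfold tau
  rw [mul_ap]
  unfold mm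
  rw [ContinuousLinearMap.sum_apply, inner_sum]
  refine Finset.sum_congr rfl fun g _ => ?_
  rw [ContinuousLinearMap.smul_apply, inner_smul_right]
  congr 1
  have h1 : ⟪dl (1 : G), lam g ((star y) (dl (1 : G)))⟫_ℂ =
      ⟪star (lam g) (dl (1 : G)), (star y) (dl (1 : G))⟫_ℂ := by
    rw [ContinuousLinearMap.star_eq_adjoint (lam g), ContinuousLinearMap.adjoint_inner_left]
  rw [h1, star_lam, lam_dl, mul_one, ContinuousLinearMap.star_eq_adjoint,
    ContinuousLinearMap.adjoint_inner_right, inner_conj_symm]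

end FBaux

open FBaux

open Filter Topology
open scoped InnerProductSpace ComplexOrder
open Pool.Agent.H494R3.GT (L2 dl dl_inner mul_ap op_ext_inner)
open Pool.Agent.N557.QW (lam rgt LG LK cf rc lam_dl star_lam lam_rgt mem_LG mem_LG_iff)

theorem t_fb (h0 : S_BAS) (h1 : S_SM) (h2 : S_MC) : S_FB := by
  intro G _ φ hφ f s C hf hHS m x y hx hy
  have b := h0 G
  obtain ⟨K, i1, i2, i3, ξ, η, hin, hnm⟩ := hHS.ex
  obtain ⟨Z, hZ⟩ : ∃ Z : B (G × G), Z = ∑ i, a1 (x i) * a2 (cj (y i)) := ⟨_, rfl⟩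
  obtain ⟨Z', hZ'⟩ : ∃ Z' : B (G × G), Z' = ∑ i, a1 (mm s f (x i)) * a2 (cj (y i)) := ⟨_, rfl⟩
  have entZ : ∀ a c a' c' : G, ⟪dl (a, c), Z (dl (a', c'))⟫_ℂ =
      ∑ i, cf (x i) (a * a'⁻¹) * (starRingEnd ℂ) ⟪dl c, y i (dl c')⟫_ℂ := by
    intro a c a' c'
    rw [hZ, ContinuousLinearMap.sum_apply, inner_sum]
    refine Finset.sum_congr rfl fun i _ => ?_
    rw [b.a12_ent, b.cj_ent, mem_LG_iff.1 (hx i)]
  have entZ' : ∀ a c a' c' : G, ⟪dl (a, c), Z' (dl (a', c'))⟫_ℂ =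
      (f (a * a'⁻¹) : ℂ) * ⟪dl (a, c), Z (dl (a', c'))⟫_ℂ := by
    intro a c a' c'
    rw [entZ, hZ', ContinuousLinearMap.sum_apply, inner_sum, Finset.mul_sum]
    refine Finset.sum_congr rfl fun i _ => ?_
    rw [b.a12_ent, b.cj_ent, mm_ent hf, mul_assoc]
  -- the Schur multiplier
  have hnorm : ‖Z'‖ ≤ C * ‖Z‖ := by
    obtain ⟨Z'', hn, he⟩ := h1 (G × G) K (fun t => ξ t.1⁻¹) (fun t => η t.1⁻¹) C
      (fun t => hnm _) Z
    have e : Z' = Z'' := by
      refine op_ext_inner fun p q => ?_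
      obtain ⟨a, c⟩ := p
      obtain ⟨a', c'⟩ := q
      rw [entZ', he, hin, inv_inv]
    rw [e]
    exact hn
  have hmc := h2 G φ hφ m (fun i => mm s f (x i)) y (fun i => mm_mem s f (x i)) hy
  rw [← hZ'] at hmc
  rw [← hZ]
  refine le_trans (le_of_eq ?_) (hmc.trans hnorm)
  congr 1
  -- the two functionals
  have hY : (star (Yf s f)) (dl (1 : G × G)) =
      ∑ g ∈ s, (f g : ℂ) • (dl ((g⁻¹, g⁻¹) : G × G) : L2 (G × G)) := by
    unfold Yf
    rw [star_sum, ContinuousLinearMap.sum_apply]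
    refine Finset.sum_congr rfl fun g _ => ?_
    rw [star_smul, ContinuousLinearMap.smul_apply, star_lam, lam_dl, mul_one]
    congr 1
    exact Complex.conj_ofReal _
  unfold tau
  rw [mul_ap, hY, map_sum, inner_sum]
  have hL : ∀ g ∈ s, ⟪dl (1 : G × G), Z ((f g : ℂ) • (dl ((g⁻¹, g⁻¹) : G × G) : L2 (G × G)))⟫_ℂ =
      ∑ i, (f g : ℂ) * cf (x i) g * (starRingEnd ℂ) ⟪dl (1 : G), y i (dl g⁻¹)⟫_ℂ := by
    intro g _
    rw [map_smul, inner_smul_right]
    have e := entZ 1 1 g⁻¹ g⁻¹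
    have e' : ⟪dl (1 : G × G), Z (dl ((g⁻¹, g⁻¹) : G × G))⟫_ℂ =
        ∑ i, cf (x i) (1 * g⁻¹⁻¹) * (starRingEnd ℂ) ⟪dl (1 : G), y i (dl g⁻¹)⟫_ℂ := e
    rw [e', Finset.mul_sum]
    refine Finset.sum_congr rfl fun i _ => ?_
    rw [one_mul, inv_inv, mul_assoc]
  rw [Finset.sum_congr rfl hL, Finset.sum_comm]
  refine Finset.sum_congr rfl fun i _ => ?_
  exact (tau_mm s f (x i) (y i)).symm

end Pool.Agent.N571.SS.D
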