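import Pool.Agent.N571.SS.D.Stm

/-!
# Project SS/D, leaf SM: Schur multipliers
-/

set_option autoImplicit false

namespace Pool.Agent.N571.SS.D

open Filter Topology
open scoped InnerProductSpace ComplexOrder
open Pool.Agent.H494R3.GT (L2 dl)
open Pool.Agent.H812R3.KP (ampF ampF_apply norm_ampF_le norm_sq_eq summable_sq mem_of_summable
  pull pull_apply amp_inj)

noncomputable section

namespace SM

variable {X J : Type}

/-- the norm of one term -/
theorem term_eq (f : X → J → ℝ) (b : L2 X) (p : X × J) :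
    ‖((f p.1 p.2 : ℝ) : ℂ) * b p.1‖ ^ 2 = f p.1 p.2 ^ 2 * ‖b p.1‖ ^ 2 := by
  rw [norm_mul, mul_pow, Complex.norm_real, Real.norm_eq_abs, sq_abs]

theorem summ (f : X → J → ℝ) (C : ℝ) (hf : ∀ x, ∃ c, c ≤ C ∧ HasSum (fun i => f x i ^ 2) c)
    (b : L2 X) : (Summable fun p : X × J => ‖((f p.1 p.2 : ℝ) : ℂ) * b p.1‖ ^ 2) ∧
      ∑' p : X × J, ‖((f p.1 p.2 : ℝ) : ℂ) * b p.1‖ ^ 2 ≤ C * ‖b‖ ^ 2 := by
  simp only [term_eq]
  have h1 : ∀ x, HasSum (fun i => f x i ^ 2 * ‖b x‖ ^ 2) ((hf x).choose * ‖b x‖ ^ 2) := fun x =>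
    (hf x).choose_spec.2.mul_right _
  have h2 : ∀ x, (hf x).choose * ‖b x‖ ^ 2 ≤ C * ‖b x‖ ^ 2 := fun x =>
    mul_le_mul_of_nonneg_right (hf x).choose_spec.1 (by positivity)
  have h0 : ∀ x, 0 ≤ (hf x).choose * ‖b x‖ ^ 2 := fun x =>
    (h1 x).nonneg (fun i => by positivity)
  have h3 : Summable fun x => (hf x).choose * ‖b x‖ ^ 2 :=
    Summable.of_nonneg_of_le h0 h2 ((summable_sq b).mul_left C)
  have h4 : Summable fun p : X × J => f p.1 p.2 ^ 2 * ‖b p.1‖ ^ 2 := by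
    rw [summable_prod_of_nonneg (fun p => by positivity)]
    refine ⟨fun x => (h1 x).summable, ?_⟩
    have h5 : (fun x => ∑' i, f x i ^ 2 * ‖b x‖ ^ 2) = fun x => (hf x).choose * ‖b x‖ ^ 2 :=
      funext fun x => (h1 x).tsum_eq
    rw [h5]
    exact h3
  refine ⟨h4, ?_⟩
  rw [h4.tsum_prod]
  have h5 : (fun x => ∑' i, f x i ^ 2 * ‖b x‖ ^ 2) = fun x => (hf x).choose * ‖b x‖ ^ 2 :=
    funext fun x => (h1 x).tsum_eq
  rw [h5, norm_sq_eq, ← tsum_mul_left]
  exact h3.tsum_le_tsum h2 ((summable_sq b).mul_left C)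

/-- the operator `dl x ↦ dl x ⊗ f x` -/
theorem exV (f : X → J → ℝ) (C : ℝ) (hC : 0 ≤ C)
    (hf : ∀ x, ∃ c, c ≤ C ∧ HasSum (fun i => f x i ^ 2) c) :
    ∃ V : L2 X →L[ℂ] L2 (X × J), ‖V‖ ≤ √C ∧ ∀ (b : L2 X) (p : X × J),
      (V b) p = ((f p.1 p.2 : ℝ) : ℂ) * b p.1 := by
  let V₀ : L2 X →ₗ[ℂ] L2 (X × J) :=
    { toFun := fun b => ⟨fun p => ((f p.1 p.2 : ℝ) : ℂ) * b p.1, mem_of_summable (summ f C hf b).1⟩
      map_add' := by
        intro a b
        ext p
        change ((f p.1 p.2 : ℝ) : ℂ) * (a p.1 + b p.1) =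
          ((f p.1 p.2 : ℝ) : ℂ) * a p.1 + ((f p.1 p.2 : ℝ) : ℂ) * b p.1
        ring
      map_smul' := by
        intro c b
        ext p
        change ((f p.1 p.2 : ℝ) : ℂ) * (c * b p.1) = c * (((f p.1 p.2 : ℝ) : ℂ) * b p.1)
        ring }
  have hV : ∀ b : L2 X, ‖V₀ b‖ ≤ √C * ‖b‖ := by
    intro b
    have h : ‖V₀ b‖ ^ 2 ≤ (√C * ‖b‖) ^ 2 := by
      rw [norm_sq_eq, mul_pow, Real.sq_sqrt hC]
      exact (summ f C hf b).2
    exact (sq_le_sq₀ (norm_nonneg _) (by positivity)).1 h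
  exact ⟨V₀.mkContinuous (√C) hV, LinearMap.mkContinuous_norm_le _ (Real.sqrt_nonneg _) _,
    fun b p => rfl⟩

end SM

open SM

theorem t_sm : S_SM := by
  intro X K _ _ _ ξ η C hC Z
  classical
  rcases isEmpty_or_nonempty X with hX | ⟨⟨x₀⟩⟩
  · refine ⟨0, ?_, fun s => (hX.false s).elim⟩
    have h0 : Z = 0 := by
      ext v x
      exact (hX.false x).elim
    rw [h0]
    simp
  have hC0 : 0 ≤ C := le_trans (by positivity) (hC x₀).1
  obtain ⟨w, b, -⟩ := exists_hilbertBasis ℝ K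
  have hpar : ∀ v : K, HasSum (fun i : w => (inner ℝ (b i) v) ^ 2) (‖v‖ ^ 2) := by
    intro v
    have h := b.hasSum_inner_mul_inner v v
    rw [real_inner_self_eq_norm_sq] at h
    have e : (fun i : w => (inner ℝ (b i) v) ^ 2) = fun i : w => inner ℝ v (b i) * inner ℝ (b i) v := by
      funext i
      rw [real_inner_comm (b i) v]
      ring
    rw [e]
    exact h
  obtain ⟨V, hV, hVa⟩ := exV (fun x (i : w) => inner ℝ (b i) (ξ x)) C hC0
    (fun x => ⟨_, (hC x).1, hpar (ξ x)⟩)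
  obtain ⟨W, hW, hWa⟩ := exV (fun x (i : w) => inner ℝ (b i) (η x)) C hC0
    (fun x => ⟨_, (hC x).2, hpar (η x)⟩)
  refine ⟨(ContinuousLinearMap.adjoint W).comp
    ((ampF (Equiv.refl (X × w)) Z).comp V), ?_, ?_⟩
  · calc ‖(ContinuousLinearMap.adjoint W).comp ((ampF (Equiv.refl (X × w)) Z).comp V)‖
        ≤ ‖ContinuousLinearMap.adjoint W‖ * (‖ampF (Equiv.refl (X × w)) Z‖ * ‖V‖) :=
          (ContinuousLinearMap.opNorm_comp_le _ _).trans
            (mul_le_mul_of_nonneg_left (ContinuousLinearMap.opNorm_comp_le _ _) (norm_nonneg _))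
      _ ≤ √C * (‖Z‖ * √C) := by
          have h1 : ‖ContinuousLinearMap.adjoint W‖ = ‖W‖ :=
            ContinuousLinearMap.adjoint.norm_map W
          rw [h1]
          gcongr
          exact norm_ampF_le _ _
      _ = C * ‖Z‖ := by
          rw [mul_comm ‖Z‖, ← mul_assoc, Real.mul_self_sqrt hC0]
  · intro s t
    rw [ContinuousLinearMap.comp_apply, ContinuousLinearMap.adjoint_inner_right,
      ContinuousLinearMap.comp_apply]
    -- the slices
    have hsl : ∀ i : w, pull (fun x => (Equiv.refl (X × w)) (x, i)) (amp_inj _ i) (V (dl t)) =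
        ((inner ℝ (b i) (ξ t) : ℝ) : ℂ) • (dl t : L2 X) := by
      intro i
      ext x
      rw [pull_apply]
      change (V (dl t)) (x, i) = _
      rw [hVa]
      simp only [lp.coeFn_smul, Pi.smul_apply, smul_eq_mul]
      by_cases hx : x = t
      · subst hx
        rfl
      · rw [Pool.Agent.H494R3.GT.dl_apply_ne hx]
        simp
    have hU : ∀ i : w, (ampF (Equiv.refl (X × w)) Z (V (dl t))) (s, i) =
        ((inner ℝ (b i) (ξ t) : ℝ) : ℂ) * ⟪dl s, Z (dl t)⟫_ℂ := by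
      intro i
      have h := ampF_apply (Equiv.refl (X × w)) Z (V (dl t)) s i
      rw [hsl i] at h
      rw [Pool.Agent.H494R3.GT.inner_dl]
      refine h.trans ?_
      rw [map_smul]
      rfl
    rw [lp.inner_eq_tsum]
    have hinj : Function.Injective (fun i : w => ((s, i) : X × w)) := fun i j h => by
      simpa using h
    have hsupp : Function.support (fun p : X × w =>
        ⟪(W (dl s)) p, (ampF (Equiv.refl (X × w)) Z (V (dl t))) p⟫_ℂ) ⊆
        Set.range (fun i : w => ((s, i) : X × w)) := by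
      rintro ⟨x, i⟩ hp
      rw [Function.mem_support] at hp
      by_cases hx : x = s
      · subst hx
        exact ⟨i, rfl⟩
      · exfalso
        apply hp
        rw [hWa, Pool.Agent.H494R3.GT.dl_apply_ne hx]
        simp
    rw [← hinj.tsum_eq hsupp]
    have hterm : ∀ i : w, ⟪(W (dl s)) (s, i), (ampF (Equiv.refl (X × w)) Z (V (dl t))) (s, i)⟫_ℂ =
        ((inner ℝ (ξ t) (b i) * inner ℝ (b i) (η s) : ℝ) : ℂ) * ⟪dl s, Z (dl t)⟫_ℂ := by
      intro i
      rw [hWa, hU, Pool.Agent.H494R3.GT.dl_apply_self, real_inner_comm (b i) (ξ t)]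
      simp only [RCLike.inner_apply, mul_one, Complex.conj_ofReal]
      push_cast
      ring
    simp only [hterm]
    rw [tsum_mul_right, ← Complex.ofReal_tsum, b.tsum_inner_mul_inner]

end

end Pool.Agent.N571.SS.D
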