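import Pool.Agent.N693.SSD.Fin
import Pool.Agent.N693.SSD.OM
import Pool.Agent.N693.SSD.WEX
import Pool.Agent.N693.SSD.OPD
import Pool.Agent.N693.SSD.OPC
import Pool.Agent.N693.SSD.DC
import Pool.Agent.N693.SSD.CPN
import Pool.Agent.N693.SSD.SEQ
import Pool.Agent.N693.SSD.MFN
import Pool.Agent.N693.SSD.RO

/-!
# Project SS/D: the final limit argument (helper693, with helpers 18, 37, 81, 225, 283, 324, 657, 663,
720)
-/

set_option autoImplicit false

namespace Pool.Agent.N571.SS.D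

open Filter Topology
open scoped InnerProductSpace ComplexOrder
open Pool.Agent.H494R3.GT (L2 dl)
open Pool.Agent.N557.QW (lam rgt LG LK cf rc)
open Pool.Agent.N693.SSD

/-- FIN -/
theorem t_fin (h0 : S_BAS) : S_FIN := by
  intro G _ _ hbe hcm ξ hξ
  obtain ⟨ω, hω, hst⟩ := s_om G (h0 G) ξ hξ
  obtain ⟨μ, hPr, hμ⟩ := hbe.ex
  obtain ⟨f, s, hfs, hf1, hf2, hHS, hJ⟩ := s_seq G hcm
  choose J α β hα hβ hαβ using hJ
  have hC0 : ∀ k : ℕ, (0 : ℝ) ≤ 1 + 1 / ((k : ℝ) + 1) := fun k => by positivity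
  have hW := fun k : ℕ => s_wex G (J k) μ (α k) (1 + 1 / ((k : ℝ) + 1)) (hC0 k) hPr (hα k)
  have hU := fun k : ℕ => s_wex G (J k) μ (β k) (1 + 1 / ((k : ℝ) + 1)) (hC0 k) hPr (hβ k)
  choose W hW' using hW
  choose U hU' using hU
  have hS : Sq ω J (fun k => 1 + 1 / ((k : ℝ) + 1)) s f W U := by
    refine ⟨fun k => ⟨(hW' k).bd, (hU' k).bd, ?_, ?_⟩, hC0, ?_, ?_, s_dc G f s hf2 hfs hf1, ?_⟩
    · exact s_opc G (J k) μ (α k) (β k) _ (s k) (f k) (hC0 k) hPr (hα k) (hβ k) (hαβ k) (hfs k)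
        (fun g => hμ g 1) (W k) (U k) (hW' k) (hU' k)
    · exact s_opd G (J k) μ (α k) _ (hC0 k) hPr (hα k) (fun t => hμ 1 t) (W k) (hW' k)
    · intro k
      have h1 : (1 : ℝ) / ((k : ℝ) + 1) ≤ 1 := by
        rw [div_le_one (by positivity)]
        have : (0 : ℝ) ≤ k := Nat.cast_nonneg k
        linarith
      show 1 + 1 / ((k : ℝ) + 1) ≤ 2
      linarith
    · have h1 := tendsto_one_div_add_atTop_nhds_zero_nat (𝕜 := ℝ)
      simpa using h1.const_add 1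
    · intro k x hx
      exact s_mfn G (f k) (s k) _ (hfs k) (hHS k) x hx
  obtain ⟨φ, hφ, hc⟩ := exists_state hω s_cpn s_ro (h0 G) hS
  exact ⟨φ, hφ, fun u hu hun h1 h2 => hc u hu hun (hst u h1) (hst (star u) h2)⟩

end Pool.Agent.N571.SS.D
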