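import Pool.Agent.N571.SS.D.Stm

/-!
# SS/D/FL (helper787, project SS/D of helper571): functionals of norm almost one
-/

set_option autoImplicit false

namespace Pool.Agent.N571.SS.D

noncomputable section

namespace FL

variable {H : Type} [NormedAddCommGroup H] [InnerProductSpace ℂ H]

/-- the row `((1 + u) / 2, (1 - u) / 2)` is contractive -/
theorem row (u : H →L[ℂ] H) (hu : ∀ y, ‖u y‖ ≤ ‖y‖) (a b : H) :
    ‖(1 / 2 : ℂ) • (a + b) + u ((1 / 2 : ℂ) • (a - b))‖ ^ 2 ≤ ‖a‖ ^ 2 + ‖b‖ ^ 2 := by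
  have h1 : ‖(1 / 2 : ℂ) • (a + b) + u ((1 / 2 : ℂ) • (a - b))‖ ≤
      1 / 2 * ‖a + b‖ + 1 / 2 * ‖a - b‖ := by
    refine (norm_add_le _ _).trans (add_le_add ?_ ((hu _).trans ?_))
    · rw [norm_smul]
      norm_num
    · rw [norm_smul]
      norm_num
  have h2 := parallelogram_law_with_norm ℂ a b
  have h3 : 0 ≤ ‖(1 / 2 : ℂ) • (a + b) + u ((1 / 2 : ℂ) • (a - b))‖ := norm_nonneg _
  have h4 := pow_le_pow_left₀ h3 h1 2
  nlinarith [sq_nonneg (‖a + b‖ - ‖a - b‖)]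

theorem nrm (u Z : H →L[ℂ] H) (hu : ∀ y, ‖u y‖ ≤ ‖y‖) (t z : ℂ) (N : ℝ) (hN : 0 ≤ N)
    (h : ‖t‖ ^ 2 + ‖z‖ ^ 2 * ‖Z‖ ^ 2 ≤ N ^ 2) :
    ‖((t / 2) • (1 : H →L[ℂ] H) + (z / 2) • Z) + u * ((t / 2) • (1 : H →L[ℂ] H) - (z / 2) • Z)‖ ≤
      N := by
  refine ContinuousLinearMap.opNorm_le_bound _ hN fun x => ?_
  have e : (((t / 2) • (1 : H →L[ℂ] H) + (z / 2) • Z) +
      u * ((t / 2) • (1 : H →L[ℂ] H) - (z / 2) • Z)) x =
      (1 / 2 : ℂ) • (t • x + z • Z x) + u ((1 / 2 : ℂ) • (t • x - z • Z x)) := by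
    simp only [ContinuousLinearMap.add_apply, ContinuousLinearMap.smul_apply,
      ContinuousLinearMap.one_apply, ContinuousLinearMap.mul_apply, ContinuousLinearMap.sub_apply]
    congr 1
    · rw [smul_add, smul_smul, smul_smul]
      congr 2 <;> ring
    · congr 1
      rw [smul_sub, smul_smul, smul_smul]
      congr 2 <;> ring
  rw [e]
  have h1 := row u hu (t • x) (z • Z x)
  have h2 : ‖t • x‖ ^ 2 + ‖z • Z x‖ ^ 2 ≤ (N * ‖x‖) ^ 2 := by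
    rw [norm_smul, norm_smul, mul_pow, mul_pow, mul_pow]
    have h3 : ‖Z x‖ ^ 2 ≤ (‖Z‖ * ‖x‖) ^ 2 := pow_le_pow_left₀ (norm_nonneg _) (Z.le_opNorm x) 2
    have h4 : ‖z‖ ^ 2 * ‖Z x‖ ^ 2 ≤ ‖z‖ ^ 2 * (‖Z‖ * ‖x‖) ^ 2 :=
      mul_le_mul_of_nonneg_left h3 (sq_nonneg _)
    have h5 := mul_le_mul_of_nonneg_right h (sq_nonneg ‖x‖)
    nlinarith
  exact (pow_le_pow_iff_left₀ (norm_nonneg _) (mul_nonneg hN (norm_nonneg _)) two_ne_zero).1
    (h1.trans h2)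

/-- the final inequality -/
theorem fin (a b z0 ω : ℂ) (N ε : ℝ) (hN : 0 ≤ N) (hε : 0 < ε) (hε1 : ε ≤ 1)
    (ha : ‖a - 1‖ ≤ ε) (hb : ‖b - 1‖ ≤ ε) (hω : (‖z0‖ : ℂ) = ω * z0)
    (h : ‖((√(1 - ε) * N : ℝ) : ℂ) / 2 * (a + b) + ((√ε : ℝ) : ℂ) / 2 * (ω * z0)‖ ≤ (1 + ε) * N) :
    ‖z0‖ ≤ 6 * √ε * N := by
  have hs : 0 < √ε := Real.sqrt_pos.2 hε
  have hs2 : √ε * √ε = ε := Real.mul_self_sqrt hε.le
  have hc : 1 - ε ≤ √(1 - ε) := by
    apply Real.le_sqrt_of_sq_le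
    nlinarith
  have hc0 : 0 ≤ √(1 - ε) := Real.sqrt_nonneg _
  have h1 := (Complex.re_le_norm _).trans h
  rw [← hω] at h1
  have e1 : (((√(1 - ε) * N : ℝ) : ℂ) / 2 * (a + b) + ((√ε : ℝ) : ℂ) / 2 * (‖z0‖ : ℂ)).re =
      √(1 - ε) * N / 2 * (a.re + b.re) + √ε / 2 * ‖z0‖ := by
    have e2 : ((√(1 - ε) * N : ℝ) : ℂ) / 2 = ((√(1 - ε) * N / 2 : ℝ) : ℂ) := by push_cast; ring
    have e3 : ((√ε : ℝ) : ℂ) / 2 = ((√ε / 2 : ℝ) : ℂ) := by push_cast; ring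
    rw [e2, e3, Complex.add_re, Complex.re_ofReal_mul, Complex.re_ofReal_mul, Complex.add_re,
      Complex.ofReal_re]
  rw [e1] at h1
  have ha' : 1 - ε ≤ a.re := by
    have h2 := (Complex.abs_re_le_norm (a - 1)).trans ha
    rw [Complex.sub_re, Complex.one_re, abs_le] at h2
    linarith [h2.1]
  have hb' : 1 - ε ≤ b.re := by
    have h2 := (Complex.abs_re_le_norm (b - 1)).trans hb
    rw [Complex.sub_re, Complex.one_re, abs_le] at h2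
    linarith [h2.1]
  have h3 : (1 - ε) * N * (1 - ε) ≤ √(1 - ε) * N / 2 * (a.re + b.re) := by
    have h4 : (1 - ε) * N ≤ √(1 - ε) * N := mul_le_mul_of_nonneg_right hc hN
    have h5 : 0 ≤ √(1 - ε) * N := mul_nonneg hc0 hN
    have h6 : (1 - ε) * N * (1 - ε) ≤ √(1 - ε) * N * (1 - ε) :=
      mul_le_mul_of_nonneg_right h4 (by linarith)
    nlinarith
  have h7 : √ε / 2 * ‖z0‖ ≤ 3 * ε * N := by
    nlinarith [mul_nonneg (sq_nonneg ε) hN]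
  have h8 : √ε * ‖z0‖ ≤ √ε * (6 * √ε * N) := by
    have : √ε * (6 * √ε * N) = 6 * (√ε * √ε) * N := by ring
    rw [this, hs2]
    linarith
  exact le_of_mul_le_mul_left h8 hs

theorem sq_id (ε N : ℝ) (hN : 0 ≤ N) (hε : 0 < ε) (hε1 : ε ≤ 1) (ω : ℂ) (hω : ‖ω‖ = 1) :
    ‖((√(1 - ε) * N : ℝ) : ℂ)‖ ^ 2 + ‖((√ε : ℝ) : ℂ) * ω‖ ^ 2 * N ^ 2 ≤ N ^ 2 := by
  have h1 : ‖((√(1 - ε) * N : ℝ) : ℂ)‖ = √(1 - ε) * N := by
    rw [Complex.norm_real, Real.norm_eq_abs, abs_of_nonneg (mul_nonneg (Real.sqrt_nonneg _) hN)]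
  have h2 : ‖((√ε : ℝ) : ℂ) * ω‖ = √ε := by
    rw [norm_mul, hω, mul_one, Complex.norm_real, Real.norm_eq_abs,
      abs_of_nonneg (Real.sqrt_nonneg _)]
  rw [h1, h2, mul_pow, Real.sq_sqrt (by linarith), Real.sq_sqrt hε.le]
  apply le_of_eq
  ring

end FL

theorem t_fl : S_FL := by
  intro H _ _ _ C F u ε hε hε1 hu h1C hF1 hFu
  have hiso : ∀ v : H →L[ℂ] H, star v * v = 1 → ∀ y, ‖v y‖ ≤ ‖y‖ := by
    intro v hv y
    have e1 : ‖v y‖ ^ 2 = ‖y‖ ^ 2 := by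
      have e2 : (inner ℂ (v y) (v y) : ℂ) = inner ℂ y y := by
        have e3 : (star v) (v y) = y := by
          have e4 := congrArg (fun T : H →L[ℂ] H => T y) hv
          exact e4
        rw [← ContinuousLinearMap.adjoint_inner_right, ← ContinuousLinearMap.star_eq_adjoint, e3]
      have e5 := congrArg Complex.re e2
      rw [inner_self_eq_norm_sq_to_K, inner_self_eq_norm_sq_to_K] at e5
      exact_mod_cast e5
    exact ((pow_left_inj₀ (norm_nonneg _) (norm_nonneg _) two_ne_zero).1 e1).le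
  have hC1 : ∀ (t z : ℂ), ∀ Z ∈ C, (t / 2) • (1 : H →L[ℂ] H) + (z / 2) • Z ∈ C := fun t z Z hZ =>
    C.add_mem (C.smul_mem _ h1C) (C.smul_mem _ hZ)
  have hC2 : ∀ (t z : ℂ), ∀ Z ∈ C, (t / 2) • (1 : H →L[ℂ] H) - (z / 2) • Z ∈ C := fun t z Z hZ =>
    C.sub_mem (C.smul_mem _ h1C) (C.smul_mem _ hZ)
  constructor
  · intro hb Z hZ
    obtain ⟨ω, hω1, hω2⟩ := Complex.exists_norm_eq_mul_self (F Z - F (u * Z))
    rw [norm_sub_rev]
    obtain ⟨t, ht⟩ : ∃ t : ℂ, t = ((√(1 - ε) * ‖Z‖ : ℝ) : ℂ) := ⟨_, rfl⟩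
    obtain ⟨z, hz⟩ : ∃ z : ℂ, z = ((√ε : ℝ) : ℂ) * ω := ⟨_, rfl⟩
    have h1 := hb _ (hC1 t z Z hZ) _ (hC2 t z Z hZ)
    have h2 := FL.nrm u Z (hiso u hu.left) t z ‖Z‖ (norm_nonneg _) (by
      rw [ht, hz]
      exact FL.sq_id ε ‖Z‖ (norm_nonneg _) hε hε1 ω hω1)
    have h3 := h1.trans (mul_le_mul_of_nonneg_left h2 (by linarith))
    refine FL.fin (F 1) (F u) _ ω ‖Z‖ ε (norm_nonneg _) hε hε1 hF1 hFu hω2 ?_
    have e : F (((t / 2) • (1 : H →L[ℂ] H) + (z / 2) • Z) +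
        u * ((t / 2) • (1 : H →L[ℂ] H) - (z / 2) • Z)) =
        ((√(1 - ε) * ‖Z‖ : ℝ) : ℂ) / 2 * (F 1 + F u) +
          ((√ε : ℝ) : ℂ) / 2 * (ω * (F Z - F (u * Z))) := by
      rw [mul_sub, mul_smul_comm, mul_smul_comm, mul_one, map_add, map_add, map_sub, map_smul,
        map_smul, map_smul, map_smul, ← ht, hz]
      simp only [smul_eq_mul]
      ring
    rw [← e]
    exact h3
  · intro hb Z hZ
    obtain ⟨ω, hω1, hω2⟩ := Complex.exists_norm_eq_mul_self (F Z - F (Z * u))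
    rw [norm_sub_rev]
    obtain ⟨t, ht⟩ : ∃ t : ℂ, t = ((√(1 - ε) * ‖Z‖ : ℝ) : ℂ) := ⟨_, rfl⟩
    obtain ⟨z, hz⟩ : ∃ z : ℂ, z = ((√ε : ℝ) : ℂ) * ω := ⟨_, rfl⟩
    have h1 := hb _ (hC1 t z Z hZ) _ (hC2 t z Z hZ)
    have h2 : ‖((t / 2) • (1 : H →L[ℂ] H) + (z / 2) • Z) +
        ((t / 2) • (1 : H →L[ℂ] H) - (z / 2) • Z) * u‖ ≤ ‖Z‖ := by
      rw [← norm_star]
      have h4 := FL.nrm (star u) (star Z) (hiso (star u) (by rw [star_star]; exact hu.right))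
        (star t) (star z) ‖Z‖ (norm_nonneg _) (by
          rw [norm_star, norm_star, norm_star, ht, hz]
          exact FL.sq_id ε ‖Z‖ (norm_nonneg _) hε hε1 ω hω1)
      have e : star (((t / 2) • (1 : H →L[ℂ] H) + (z / 2) • Z) +
          ((t / 2) • (1 : H →L[ℂ] H) - (z / 2) • Z) * u) =
          ((star t / 2) • (1 : H →L[ℂ] H) + (star z / 2) • star Z) +
            star u * ((star t / 2) • (1 : H →L[ℂ] H) - (star z / 2) • star Z) := by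
        have e1 : ∀ x : ℂ, star (x / 2) = star x / 2 := by
          intro x
          rw [star_div₀]
          simp
        rw [star_add, star_add, star_mul, star_sub, star_smul, star_smul, star_one, e1, e1]
      rw [e]
      exact h4
    have h3 := h1.trans (mul_le_mul_of_nonneg_left h2 (by linarith))
    refine FL.fin (F 1) (F u) _ ω ‖Z‖ ε (norm_nonneg _) hε hε1 hF1 hFu hω2 ?_
    have e : F (((t / 2) • (1 : H →L[ℂ] H) + (z / 2) • Z) +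
        ((t / 2) • (1 : H →L[ℂ] H) - (z / 2) • Z) * u) =
        ((√(1 - ε) * ‖Z‖ : ℝ) : ℂ) / 2 * (F 1 + F u) +
          ((√ε : ℝ) : ℂ) / 2 * (ω * (F Z - F (Z * u))) := by
      rw [sub_mul, smul_mul_assoc, smul_mul_assoc, one_mul, map_add, map_add, map_sub, map_smul,
        map_smul, map_smul, map_smul, ← ht, hz]
      simp only [smul_eq_mul]
      ring
    rw [← e]
    exact h3

end

end Pool.Agent.N571.SS.D
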