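import Pool.Agent.N571.SS.D.Stm
import Pool.Agent.N571.EX.TR

/-!
# Project SS/D: amenability, it is enough that the state extends the trace of `A` (helper94)

The `A`-bimodular unital positive map `B(L²A) → B(ℓ²G)` is a weak limit of the maps
`T ↦ ∑_{g ∈ F} (D_F + ε)^{-1/2} R_g e T e R_g* (D_F + ε)^{-1/2}`, `D_F = ∑_{g ∈ F} R_g e R_g*`,
where `e` is the projection onto the closure of `A δ₁`.
-/

set_option autoImplicit false

namespace Pool.Agent.N571.SS.D

open Filter Topology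
open scoped InnerProductSpace ComplexOrder
open Pool.Agent.H494R3.GT (L2 dl)
open Pool.Agent.N557.QW (lam rgt LG LK cf rc)

noncomputable section

namespace HYPaux

variable {H : Type} [NormedAddCommGroup H] [InnerProductSpace ℂ H] [CompleteSpace H]

theorem adj (T : H →L[ℂ] H) (v w : H) : ⟪star T v, w⟫_ℂ = ⟪v, T w⟫_ℂ := by
  rw [ContinuousLinearMap.star_eq_adjoint, ContinuousLinearMap.adjoint_inner_left]

theorem adj' (T : H →L[ℂ] H) (v w : H) : ⟪v, star T w⟫_ℂ = ⟪T v, w⟫_ℂ := by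
  rw [ContinuousLinearMap.star_eq_adjoint, ContinuousLinearMap.adjoint_inner_right]

/-- weak limits (after `H847R2.Kad5.Wlim`) -/
theorem wlim {I : Type} (U : Ultrafilter I) (T : I → (H →L[ℂ] H)) (r : ℝ)
    (hb : ∀ (η ξ : H) (i : I), ‖⟪η, T i ξ⟫_ℂ‖ ≤ r * ‖η‖ * ‖ξ‖) :
    ∃ S : H →L[ℂ] H, ∀ η ξ : H, Tendsto (fun i => ⟪η, T i ξ⟫_ℂ) U (𝓝 ⟪η, S ξ⟫_ℂ) := by
  have hex : ∀ η ξ : H, ∃ z : ℂ, ‖z‖ ≤ r * ‖η‖ * ‖ξ‖ ∧
      Filter.Tendsto (fun i => ⟪η, T i ξ⟫_ℂ) U (nhds z) := by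
    intro η ξ
    obtain ⟨z, hz, hl⟩ := (isCompact_closedBall (0 : ℂ) (r * ‖η‖ * ‖ξ‖)).ultrafilter_le_nhds
      (U.map fun i => ⟪η, T i ξ⟫_ℂ) (by
        rw [Ultrafilter.coe_map, Filter.le_principal_iff, Filter.mem_map]
        exact Filter.univ_mem' fun i => by
          rw [Set.mem_preimage, mem_closedBall_zero_iff]
          exact hb η ξ i)
    exact ⟨z, mem_closedBall_zero_iff.mp hz, hl⟩
  choose B hB1 hB2 using hex
  have huniq : ∀ (η ξ : H) (z : ℂ), Filter.Tendsto (fun i => ⟪η, T i ξ⟫_ℂ) U (nhds z) →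
      B η ξ = z := fun η ξ z h => tendsto_nhds_unique (hB2 η ξ) h
  let f : H →ₗ⋆[ℂ] H →ₗ[ℂ] ℂ := LinearMap.mk₂'ₛₗ (starRingEnd ℂ) (RingHom.id ℂ) B
    (fun η η' ξ => huniq _ _ _ (by
      simpa only [inner_add_left] using (hB2 η ξ).add (hB2 η' ξ)))
    (fun c η ξ => huniq _ _ _ (by
      simpa only [inner_smul_left, smul_eq_mul] using (hB2 η ξ).const_mul ((starRingEnd ℂ) c)))
    (fun η ξ ξ' => huniq _ _ _ (by
      simpa only [map_add, inner_add_right] using (hB2 η ξ).add (hB2 η ξ')))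
    (fun c η ξ => huniq _ _ _ (by
      simpa only [map_smul, inner_smul_right, smul_eq_mul, RingHom.id_apply] using
        (hB2 η ξ).const_mul c))
  have hf : ∀ η ξ, f η ξ = B η ξ := fun η ξ => rfl
  let g : H →L⋆[ℂ] H →L[ℂ] ℂ := LinearMap.mkContinuous₂ f r (fun η ξ => by
    rw [hf]
    exact hB1 η ξ)
  have hg : ∀ η ξ, g η ξ = B η ξ := fun η ξ => rfl
  let F : H →L[ℂ] H := InnerProductSpace.continuousLinearMapOfBilin g
  have hF : ∀ η ξ, ⟪F η, ξ⟫_ℂ = B η ξ := fun η ξ =>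
    InnerProductSpace.continuousLinearMapOfBilin_apply g η ξ
  refine ⟨ContinuousLinearMap.adjoint F, fun ξ η => ?_⟩
  rw [ContinuousLinearMap.adjoint_inner_right, hF]
  exact hB2 ξ η

/-- the inverse square root of `D + ε` -/
theorem isq (D : H →L[ℂ] H) (hD : 0 ≤ D) (ε : ℝ) (hε : 0 < ε) : ∃ s : H →L[ℂ] H, star s = s ∧
    s * (D + (ε : ℂ) • 1) * s = 1 ∧ (D + (ε : ℂ) • 1) * (s * s) = 1 ∧
    ∀ T : H →L[ℂ] H, D * T = T * D → s * T = T * s := by
  have hsa : IsSelfAdjoint D := IsSelfAdjoint.of_nonneg hD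
  have hc : ContinuousOn (fun x : ℝ => (Real.sqrt (x + ε))⁻¹) (spectrum ℝ D) := by
    apply ContinuousOn.inv₀
    · fun_prop
    · intro x hx
      have h0 : 0 ≤ x := spectrum_nonneg_of_nonneg hD hx
      exact (Real.sqrt_pos.2 (by linarith)).ne'
  have hadd : cfc (fun x : ℝ => x + ε) D = D + (ε : ℂ) • 1 := by
    rw [cfc_add_const ε (fun x : ℝ => x) D (by fun_prop) hsa, cfc_id' ℝ D hsa]
    congr 1
  obtain ⟨s, hs⟩ : ∃ s, s = cfc (fun x : ℝ => (Real.sqrt (x + ε))⁻¹) D := ⟨_, rfl⟩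
  have hone : cfc (fun _ : ℝ => (1 : ℝ)) D = 1 := cfc_const_one ℝ D
  have h1 : (D + (ε : ℂ) • 1) * (s * s) = 1 := by
    have hc2 : ContinuousOn (fun x : ℝ => (Real.sqrt (x + ε))⁻¹ * (Real.sqrt (x + ε))⁻¹)
      (spectrum ℝ D) := hc.mul hc
    rw [← hadd, hs, ← cfc_mul _ _ D hc hc, ← cfc_mul (fun x : ℝ => x + ε)
      (fun x : ℝ => (Real.sqrt (x + ε))⁻¹ * (Real.sqrt (x + ε))⁻¹) D (by fun_prop) hc2, ← hone]
    apply cfc_congr
    intro x hx
    have h0 : 0 ≤ x := spectrum_nonneg_of_nonneg hD hx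
    have h2 : 0 < x + ε := by linarith
    have h3 : Real.sqrt (x + ε) * Real.sqrt (x + ε) = x + ε := Real.mul_self_sqrt h2.le
    have h4 : 0 < Real.sqrt (x + ε) := Real.sqrt_pos.2 h2
    simp only
    rw [← mul_inv, h3, mul_inv_cancel₀ h2.ne']
  have hcomm : ∀ T : H →L[ℂ] H, D * T = T * D → s * T = T * s := by
    intro T hT
    rw [hs]
    exact Commute.cfc_real (hT : Commute D T) _
  have h2 : s * (D + (ε : ℂ) • 1) = (D + (ε : ℂ) • 1) * s := by
    apply hcomm
    rw [mul_add, add_mul]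
    simp
  refine ⟨s, ?_, ?_, h1, hcomm⟩
  · rw [hs]
    exact (cfc_predicate (fun x : ℝ => (Real.sqrt (x + ε))⁻¹) D : IsSelfAdjoint _).star_eq
  · rw [h2, mul_assoc, h1]

theorem mv {s : H →L[ℂ] H} (hs : star s = s) (v w : H) : ⟪v, s w⟫_ℂ = ⟪s v, w⟫_ℂ := by
  rw [← adj, hs]

theorem fac {T : H →L[ℂ] H} (h : ∀ v, 0 ≤ ⟪v, T v⟫_ℂ) : ∃ Y : H →L[ℂ] H, T = star Y * Y := by
  have h2 : 0 ≤ T := by
    rw [ContinuousLinearMap.nonneg_iff_isPositive, ContinuousLinearMap.isPositive_iff_complex]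
    intro v
    have h3 := h v
    have h4 : ⟪T v, v⟫_ℂ = ⟪v, T v⟫_ℂ := by
      rw [← inner_conj_symm, Complex.conj_eq_iff_im.2 (Complex.nonneg_iff.1 h3).2.symm]
    rw [h4]
    refine ⟨?_, (Complex.nonneg_iff.1 h3).1⟩
    apply Complex.ext
    · simp
    · simpa using (Complex.nonneg_iff.1 h3).2
  exact CStarAlgebra.nonneg_iff_eq_star_mul_self.1 h2

variable {G : Type} (R : G → H →L[ℂ] H) (e : H →L[ℂ] H)

/-- `D_F = ∑ R_g e R_g*` -/
def DD (F : Finset G) : H →L[ℂ] H := ∑ g ∈ F, R g * e * star (R g)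

/-- the maps -/
def Th (F : Finset G) (s T : H →L[ℂ] H) : H →L[ℂ] H :=
  ∑ g ∈ F, s * R g * e * T * e * star (R g) * s

variable {R e}

theorem inner_DD (he : star e = e) (he2 : e * e = e) (F : Finset G) (v w : H) :
    ⟪v, DD R e F w⟫_ℂ = ∑ g ∈ F, ⟪e (star (R g) v), e (star (R g) w)⟫_ℂ := by
  unfold DD
  rw [_root_.sum_apply, inner_sum]
  refine Finset.sum_congr rfl fun g _ => ?_
  have h1 : (R g * e * star (R g)) w = R g (e (e (star (R g) w))) := by
    have h2 : e (e (star (R g) w)) = (e * e) (star (R g) w) := rfl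
    rw [h2, he2]
    rfl
  rw [h1, ← adj, mv he]

theorem DD_nonneg (he : star e = e) (he2 : e * e = e) (F : Finset G) : 0 ≤ DD R e F := by
  unfold DD
  refine Finset.sum_nonneg fun g _ => ?_
  have h1 : R g * e * star (R g) = star (e * star (R g)) * (e * star (R g)) := by
    rw [star_mul, star_star, he, ← mul_assoc, mul_assoc (R g) e e, he2]
  rw [h1]
  exact star_mul_self_nonneg _

theorem inner_Th (he : star e = e) {s : H →L[ℂ] H} (hs : star s = s) (F : Finset G)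
    (T : H →L[ℂ] H) (v w : H) :
    ⟪v, Th R e F s T w⟫_ℂ = ∑ g ∈ F, ⟪e (star (R g) (s v)), T (e (star (R g) (s w)))⟫_ℂ := by
  unfold Th
  rw [_root_.sum_apply, inner_sum]
  refine Finset.sum_congr rfl fun g _ => ?_
  have h1 : (s * R g * e * T * e * star (R g) * s) w = s (R g (e (T (e (star (R g) (s w)))))) := rfl
  rw [h1, mv hs, ← adj, mv he]

theorem sumsq (he : star e = e) (he2 : e * e = e) {s : H →L[ℂ] H} (hs : star s = s) (F : Finset G)
    {ε : ℝ} (hε : 0 ≤ ε) (h1 : s * (DD R e F + (ε : ℂ) • 1) * s = 1) (v : H) :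
    ∑ g ∈ F, ‖e (star (R g) (s v))‖ ^ 2 ≤ ‖v‖ ^ 2 := by
  have h2 : ⟪v, (s * (DD R e F + (ε : ℂ) • 1) * s) v⟫_ℂ =
      ∑ g ∈ F, ⟪e (star (R g) (s v)), e (star (R g) (s v))⟫_ℂ + (ε : ℂ) * ⟪s v, s v⟫_ℂ := by
    have h3 : (s * (DD R e F + (ε : ℂ) • 1) * s) v = s (DD R e F (s v) + (ε : ℂ) • s v) := rfl
    rw [h3, mv hs, inner_add_right, inner_DD he he2, inner_smul_right]
  rw [h1] at h2
  have h3 : ⟪v, (1 : H →L[ℂ] H) v⟫_ℂ = ((‖v‖ ^ 2 : ℝ) : ℂ) := by
    change ⟪v, v⟫_ℂ = _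
    rw [inner_self_eq_norm_sq_to_K]
    norm_cast
  have h4 : ∀ x : H, ⟪x, x⟫_ℂ = ((‖x‖ ^ 2 : ℝ) : ℂ) := by
    intro x
    rw [inner_self_eq_norm_sq_to_K]
    norm_cast
  rw [h3] at h2
  simp only [h4] at h2
  have h5 : ‖v‖ ^ 2 = ∑ g ∈ F, ‖e (star (R g) (s v))‖ ^ 2 + ε * ‖s v‖ ^ 2 := by
    exact_mod_cast h2
  have h6 : 0 ≤ ε * ‖s v‖ ^ 2 := by positivity
  linarith

theorem bound (he : star e = e) (he2 : e * e = e) {s : H →L[ℂ] H} (hs : star s = s) (F : Finset G)
    {ε : ℝ} (hε : 0 ≤ ε) (h1 : s * (DD R e F + (ε : ℂ) • 1) * s = 1) (T : H →L[ℂ] H) (v w : H) :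
    ‖⟪v, Th R e F s T w⟫_ℂ‖ ≤ ‖T‖ * ‖v‖ * ‖w‖ := by
  rw [inner_Th he hs]
  refine (norm_sum_le _ _).trans ?_
  have h2 : ∀ g ∈ F, ‖⟪e (star (R g) (s v)), T (e (star (R g) (s w)))⟫_ℂ‖ ≤
      ‖T‖ * (‖e (star (R g) (s v))‖ * ‖e (star (R g) (s w))‖) := by
    intro g _
    refine (norm_inner_le_norm _ _).trans ?_
    have h3 := T.le_opNorm (e (star (R g) (s w)))
    calc ‖e (star (R g) (s v))‖ * ‖T (e (star (R g) (s w)))‖ ≤
        ‖e (star (R g) (s v))‖ * (‖T‖ * ‖e (star (R g) (s w))‖) :=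
          mul_le_mul_of_nonneg_left h3 (norm_nonneg _)
      _ = _ := by ring
  refine (Finset.sum_le_sum h2).trans ?_
  rw [← Finset.mul_sum, mul_assoc]
  refine mul_le_mul_of_nonneg_left ?_ (norm_nonneg _)
  refine (Real.sum_mul_le_sqrt_mul_sqrt F _ _).trans ?_
  have h3 := sumsq he he2 hs F hε h1 v
  have h4 := sumsq he he2 hs F hε h1 w
  refine mul_le_mul ?_ ?_ (Real.sqrt_nonneg _) (norm_nonneg _)
  · exact Real.sqrt_le_iff.2 ⟨norm_nonneg _, h3⟩
  · exact Real.sqrt_le_iff.2 ⟨norm_nonneg _, h4⟩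

theorem Th_add (F : Finset G) (s T T' : H →L[ℂ] H) :
    Th R e F s (T + T') = Th R e F s T + Th R e F s T' := by
  unfold Th
  rw [← Finset.sum_add_distrib]
  exact Finset.sum_congr rfl fun g _ => by simp only [mul_add, add_mul]

theorem Th_smul (F : Finset G) (s : H →L[ℂ] H) (c : ℂ) (T : H →L[ℂ] H) :
    Th R e F s (c • T) = c • Th R e F s T := by
  unfold Th
  rw [Finset.smul_sum]
  exact Finset.sum_congr rfl fun g _ => by simp only [mul_smul_comm, smul_mul_assoc]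

theorem Th_pos (he : star e = e) {s : H →L[ℂ] H} (hs : star s = s) (F : Finset G)
    (T : H →L[ℂ] H) (v : H) : 0 ≤ ⟪v, Th R e F s (star T * T) v⟫_ℂ := by
  rw [inner_Th he hs]
  refine Finset.sum_nonneg fun g _ => ?_
  have h1 : (star T * T) (e (star (R g) (s v))) = star T (T (e (star (R g) (s v)))) := rfl
  rw [h1, adj', inner_self_eq_norm_sq_to_K]
  positivity

theorem DD_comm {a : H →L[ℂ] H} (F : Finset G) (h1 : a * e = e * a) (h2 : ∀ g, a * R g = R g * a)
    (h3 : ∀ g, a * star (R g) = star (R g) * a) : DD R e F * a = a * DD R e F := by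
  unfold DD
  rw [Finset.mul_sum, Finset.sum_mul]
  refine Finset.sum_congr rfl fun g _ => ?_
  calc R g * e * star (R g) * a = R g * e * (star (R g) * a) := by rw [mul_assoc]
    _ = R g * e * (a * star (R g)) := by rw [h3]
    _ = R g * (e * a) * star (R g) := by simp only [mul_assoc]
    _ = R g * (a * e) * star (R g) := by rw [h1]
    _ = (R g * a) * e * star (R g) := by simp only [mul_assoc]
    _ = (a * R g) * e * star (R g) := by rw [h2]
    _ = a * (R g * e * star (R g)) := by simp only [mul_assoc]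

theorem Th_left {a : H →L[ℂ] H} (F : Finset G) (h1 : a * e = e * a) (h2 : ∀ g, a * R g = R g * a)
    {s : H →L[ℂ] H} (h4 : s * a = a * s) (T : H →L[ℂ] H) :
    Th R e F s (a * T) = a * Th R e F s T := by
  unfold Th
  rw [Finset.mul_sum]
  refine Finset.sum_congr rfl fun g _ => ?_
  have h5 : s * R g * e * a = a * (s * R g * e) := by
    calc s * R g * e * a = s * R g * (e * a) := by rw [mul_assoc]
      _ = s * (R g * a) * e := by rw [← h1]; simp only [mul_assoc]
      _ = (s * a) * R g * e := by rw [← h2]; simp only [mul_assoc]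
      _ = a * (s * R g * e) := by rw [h4]; simp only [mul_assoc]
  calc s * R g * e * (a * T) * e * star (R g) * s = (s * R g * e * a) * T * e * star (R g) * s := by
        simp only [mul_assoc]
    _ = a * (s * R g * e * T * e * star (R g) * s) := by rw [h5]; simp only [mul_assoc]

theorem Th_right {a : H →L[ℂ] H} (F : Finset G) (h1 : a * e = e * a)
    (h3 : ∀ g, a * star (R g) = star (R g) * a) {s : H →L[ℂ] H} (h4 : s * a = a * s)
    (T : H →L[ℂ] H) : Th R e F s (T * a) = Th R e F s T * a := by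
  unfold Th
  rw [Finset.sum_mul]
  refine Finset.sum_congr rfl fun g _ => ?_
  have h5 : a * (e * star (R g) * s) = e * star (R g) * s * a := by
    calc a * (e * star (R g) * s) = (a * e) * star (R g) * s := by simp only [mul_assoc]
      _ = e * (a * star (R g)) * s := by rw [h1]; simp only [mul_assoc]
      _ = e * star (R g) * (a * s) := by rw [h3]; simp only [mul_assoc]
      _ = e * star (R g) * s * a := by rw [← h4]; simp only [mul_assoc]
  calc s * R g * e * (T * a) * e * star (R g) * s =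
        (s * R g * e * T) * (a * (e * star (R g) * s)) := by simp only [mul_assoc]
    _ = s * R g * e * T * e * star (R g) * s * a := by rw [h5]; simp only [mul_assoc]

theorem Th_congr (F : Finset G) (s : H →L[ℂ] H) {T T' : H →L[ℂ] H} (h : e * T * e = e * T' * e) :
    Th R e F s T = Th R e F s T' := by
  unfold Th
  refine Finset.sum_congr rfl fun g _ => ?_
  calc s * R g * e * T * e * star (R g) * s = s * R g * (e * T * e) * star (R g) * s := by
        simp only [mul_assoc]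
    _ = s * R g * e * T' * e * star (R g) * s := by rw [h]; simp only [mul_assoc]

theorem Th_one (he2 : e * e = e) (F : Finset G) {s : H →L[ℂ] H} {ε : ℝ}
    (h1 : s * (DD R e F + (ε : ℂ) • 1) * s = 1) :
    Th R e F s 1 = 1 - (ε : ℂ) • (s * s) := by
  have h2 : Th R e F s 1 = s * DD R e F * s := by
    unfold Th DD
    rw [Finset.mul_sum, Finset.sum_mul]
    refine Finset.sum_congr rfl fun g _ => ?_
    calc s * R g * e * 1 * e * star (R g) * s = s * (R g * (e * e) * star (R g)) * s := by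
          simp only [mul_assoc, one_mul]
      _ = s * (R g * e * star (R g)) * s := by rw [he2]
  rw [h2, ← h1, mul_add, add_mul]
  simp

theorem est (he : star e = e) (he2 : e * e = e) (F : Finset G) {s : H →L[ℂ] H} {δ : ℝ} (hδ : 0 < δ)
    (h1 : (DD R e F + ((δ ^ 2 : ℝ) : ℂ) • 1) * (s * s) = 1) {g : G} (hg : g ∈ F) {ω : H}
    (hω : e ω = ω) : δ ^ 2 * ‖s (s (R g ω))‖ ≤ δ * ‖ω‖ := by
  obtain ⟨w, hw⟩ : ∃ w, w = s (s (R g ω)) := ⟨_, rfl⟩
  have h2 : DD R e F w + ((δ ^ 2 : ℝ) : ℂ) • w = R g ω := by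
    have h3 := congrArg (fun T : H →L[ℂ] H => T (R g ω)) h1
    rw [hw]
    exact h3
  have h4 : ∀ x : H, ⟪x, x⟫_ℂ = ((‖x‖ ^ 2 : ℝ) : ℂ) := by
    intro x
    rw [inner_self_eq_norm_sq_to_K]
    norm_cast
  have h5 : ⟪w, R g ω⟫_ℂ = ((∑ h ∈ F, ‖e (star (R h) w)‖ ^ 2 + δ ^ 2 * ‖w‖ ^ 2 : ℝ) : ℂ) := by
    rw [← h2, inner_add_right, inner_DD he he2, inner_smul_right, h4]
    simp only [h4]
    push_cast
    ring
  have h6 : ⟪w, R g ω⟫_ℂ = ⟪e (star (R g) w), ω⟫_ℂ := by
    rw [← mv he, hω, adj]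
  have h7 : ∑ h ∈ F, ‖e (star (R h) w)‖ ^ 2 + δ ^ 2 * ‖w‖ ^ 2 ≤ ‖e (star (R g) w)‖ * ‖ω‖ := by
    have h8 := norm_inner_le_norm (𝕜 := ℂ) (e (star (R g) w)) ω
    rw [← h6, h5, Complex.norm_real] at h8
    exact (le_abs_self _).trans h8
  have h8 : ‖e (star (R g) w)‖ ^ 2 ≤ ∑ h ∈ F, ‖e (star (R h) w)‖ ^ 2 :=
    Finset.single_le_sum (f := fun h => ‖e (star (R h) w)‖ ^ 2) (fun h _ => by positivity) hg
  have h9 : (δ * ‖w‖) ^ 2 ≤ ‖ω‖ ^ 2 := by
    nlinarith [sq_nonneg (‖e (star (R g) w)‖ - ‖ω‖), sq_nonneg ‖e (star (R g) w)‖,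
      norm_nonneg (e (star (R g) w)), norm_nonneg ω, sq_nonneg ‖ω‖]
  have h10 : δ * ‖w‖ ≤ ‖ω‖ := (sq_le_sq₀ (by positivity) (norm_nonneg _)).1 h9
  rw [← hw]
  nlinarith

/-- the indices -/
abbrev Ix (G : Type) := Finset G × ℕ

/-- the positive map -/
theorem map_ex {G : Type} [Group G] {e : B G} (he : star e = e) (he2 : e * e = e)
    (hω : e (dl 1) = dl 1) : ∃ Θ : B G →ₗ[ℂ] B G,
      (∀ T v, 0 ≤ ⟪v, Θ (star T * T) v⟫_ℂ) ∧ Θ 1 = 1 ∧
      (∀ T T', e * T * e = e * T' * e → Θ T = Θ T') ∧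
      ∀ a ∈ LG G, a * e = e * a → (∀ T, Θ (a * T) = a * Θ T) ∧ ∀ T, Θ (T * a) = Θ T * a := by
  classical
  have hex : ∀ i : Ix G, ∃ s : B G, star s = s ∧
      s * (DD rgt e i.1 + (((1 / ((i.2 : ℝ) + 1)) ^ 2 : ℝ) : ℂ) • 1) * s = 1 ∧
      (DD rgt e i.1 + (((1 / ((i.2 : ℝ) + 1)) ^ 2 : ℝ) : ℂ) • 1) * (s * s) = 1 ∧
      ∀ T : B G, DD rgt e i.1 * T = T * DD rgt e i.1 → s * T = T * s := fun i =>
    isq (DD rgt e i.1) (DD_nonneg he he2 i.1) _ (by positivity)
  choose s hs1 hs2 hs3 hs4 using hex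
  obtain ⟨U, hU⟩ : ∃ U : Ultrafilter (Ix G), (U : Filter (Ix G)) ≤ atTop :=
    ⟨Ultrafilter.of atTop, Ultrafilter.of_le _⟩
  have hb : ∀ (T : B G) (v w : L2 G) (i : Ix G),
      ‖⟪v, Th rgt e i.1 (s i) T w⟫_ℂ‖ ≤ ‖T‖ * ‖v‖ * ‖w‖ := fun T v w i =>
    bound he he2 (hs1 i) i.1 (by positivity) (hs2 i) T v w
  have hlim := fun T : B G => wlim U (fun i => Th rgt e i.1 (s i) T) ‖T‖ (hb T)
  choose Θ hΘ using hlim
  have huniq : ∀ (T S : B G), (∀ x y, Tendsto (fun i => ⟪(dl x : L2 G),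
      Th rgt e i.1 (s i) T (dl y)⟫_ℂ) U (𝓝 ⟪(dl x : L2 G), S (dl y)⟫_ℂ)) → Θ T = S :=
    fun T S h => Pool.Agent.H494R3.GT.op_ext_inner fun x y => tendsto_nhds_unique (hΘ T _ _) (h x y)
  have hadd : ∀ T T' : B G, Θ (T + T') = Θ T + Θ T' := fun T T' => huniq _ _ fun x y => by
    have h := (hΘ T (dl x) (dl y)).add (hΘ T' (dl x) (dl y))
    rw [← inner_add_right] at h
    refine h.congr fun i => ?_
    rw [Th_add, _root_.add_apply, inner_add_right]
  have hsmul : ∀ (c : ℂ) (T : B G), Θ (c • T) = c • Θ T := fun c T => huniq _ _ fun x y => by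
    have h := (hΘ T (dl x) (dl y)).const_mul c
    rw [← inner_smul_right] at h
    refine h.congr fun i => ?_
    rw [Th_smul, _root_.smul_apply, inner_smul_right]
  have hpos : ∀ (T : B G) (v : L2 G), 0 ≤ ⟪v, Θ (star T * T) v⟫_ℂ := fun T v =>
    ge_of_tendsto (hΘ (star T * T) v v)
      (Filter.Eventually.of_forall fun i => Th_pos he (hs1 i) i.1 T v)
  have hone : Θ 1 = 1 := by
    refine huniq _ _ fun x y => ?_
    have h1 : Tendsto (fun i : Ix G => ⟪(dl x : L2 G), (dl y : L2 G)⟫_ℂ -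
        ⟪(dl x : L2 G), ((((1 / ((i.2 : ℝ) + 1)) ^ 2 : ℝ) : ℂ) • (s i * s i)) (dl y)⟫_ℂ) U
        (𝓝 (⟪(dl x : L2 G), (dl y : L2 G)⟫_ℂ - 0)) := by
      refine tendsto_const_nhds.sub ?_
      have h2 : Tendsto (fun i : Ix G => 1 / ((i.2 : ℝ) + 1)) U (𝓝 0) := by
        have h3 : Tendsto (fun i : Ix G => i.2) (U : Filter (Ix G)) atTop := by
          refine Tendsto.mono_left ?_ hU
          rw [← prod_atTop_atTop_eq]
          exact tendsto_snd
        exact tendsto_one_div_add_atTop_nhds_zero_nat.comp h3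
      refine squeeze_zero_norm' ?_ h2
      have h4 : ∀ᶠ i : Ix G in (U : Filter (Ix G)), {y} ≤ i.1 := by
        have h5 : Tendsto (fun i : Ix G => i.1) (U : Filter (Ix G)) atTop := by
          refine Tendsto.mono_left ?_ hU
          rw [← prod_atTop_atTop_eq]
          exact tendsto_fst
        exact h5.eventually (eventually_ge_atTop {y})
      filter_upwards [h4] with i hi
      have hy : y ∈ i.1 := hi (Finset.mem_singleton_self y)
      have h6 := est (R := rgt) he he2 i.1 (δ := 1 / ((i.2 : ℝ) + 1)) (by positivity) (hs3 i) hy hω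
      rw [Pool.Agent.N557.QW.rgt_dl, one_mul, Pool.Agent.N571.EX.TRx.norm_dl, mul_one] at h6
      refine (norm_inner_le_norm _ _).trans ?_
      rw [Pool.Agent.N571.EX.TRx.norm_dl, one_mul]
      have h7 : ((((1 / ((i.2 : ℝ) + 1)) ^ 2 : ℝ) : ℂ) • (s i * s i)) (dl y) =
        (((1 / ((i.2 : ℝ) + 1)) ^ 2 : ℝ) : ℂ) • s i (s i (dl y)) := rfl
      rw [h7, norm_smul, Complex.norm_real, Real.norm_of_nonneg (by positivity)]
      exact h6
    rw [sub_zero] at h1
    refine h1.congr fun i => ?_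
    rw [Th_one he2 i.1 (hs2 i), _root_.sub_apply, inner_sub_right]
    rfl
  have hcongr : ∀ T T' : B G, e * T * e = e * T' * e → Θ T = Θ T' := fun T T' h =>
    huniq _ _ fun x y => (hΘ T' (dl x) (dl y)).congr fun i => by rw [Th_congr i.1 (s i) h]
  have hmod : ∀ a ∈ LG G, a * e = e * a →
      (∀ T, Θ (a * T) = a * Θ T) ∧ ∀ T, Θ (T * a) = Θ T * a := by
    intro a ha hae
    have h2 : ∀ g : G, a * rgt g = rgt g * a := fun g => (Pool.Agent.N557.QW.mem_LG.1 ha g).symm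
    have h3 : ∀ g : G, a * star (rgt g) = star (rgt g) * a := fun g => by
      rw [Pool.Agent.N557.QW.star_rgt]
      exact h2 _
    have h4 : ∀ i, s i * a = a * s i := fun i => hs4 i a (DD_comm i.1 hae h2 h3)
    constructor
    · intro T
      refine huniq _ _ fun x y => ?_
      have h5 : ⟪(dl x : L2 G), (a * Θ T) (dl y)⟫_ℂ = ⟪star a (dl x), Θ T (dl y)⟫_ℂ := by
        rw [adj]
        rfl
      rw [h5]
      refine (hΘ T (star a (dl x)) (dl y)).congr fun i => ?_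
      rw [Th_left i.1 hae h2 (h4 i), adj]
      rfl
    · intro T
      refine huniq _ _ fun x y => ?_
      refine (hΘ T (dl x) (a (dl y))).congr fun i => ?_
      rw [Th_right i.1 hae h3 (h4 i)]
      rfl
  exact ⟨{ toFun := Θ, map_add' := hadd, map_smul' := hsmul }, hpos, hone, hcongr, hmod⟩

/-- the closed subspace `A δ₁` -/
def KA {G : Type} [Group G] (A : VonNeumannAlgebra (L2 G)) : Submodule ℂ (L2 G) :=
  (Submodule.span ℂ {v | ∃ a ∈ A, v = a (dl 1)}).topologicalClosure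

theorem KA_closed {G : Type} [Group G] (A : VonNeumannAlgebra (L2 G)) :
    IsClosed (KA A : Set (L2 G)) := Submodule.isClosed_topologicalClosure _

instance {G : Type} [Group G] (A : VonNeumannAlgebra (L2 G)) : CompleteSpace (KA A) :=
  (KA_closed A).completeSpace_coe

theorem KA_le {G : Type} [Group G] (A : VonNeumannAlgebra (L2 G)) (y : B G)
    (W : Submodule ℂ (L2 G)) (hW : IsClosed (W : Set (L2 G)))
    (h : ∀ a ∈ A, y (a (dl 1)) ∈ W) : ∀ k ∈ KA A, y k ∈ W := by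
  have h1 : KA A ≤ W.comap (y : L2 G →ₗ[ℂ] L2 G) := by
    refine Submodule.topologicalClosure_minimal _ ?_ ?_
    · rw [Submodule.span_le]
      rintro v ⟨a, ha, rfl⟩
      exact h a ha
    · exact hW.preimage y.continuous
  exact fun k hk => h1 hk

theorem mem_KA {G : Type} [Group G] (A : VonNeumannAlgebra (L2 G)) {a : B G} (ha : a ∈ A) :
    a (dl 1) ∈ KA A :=
  Submodule.le_topologicalClosure _ (Submodule.subset_span ⟨a, ha, rfl⟩)

theorem proj {G : Type} [Group G] (A : VonNeumannAlgebra (L2 G)) (hA : ∀ x ∈ A, x ∈ LG G) :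
    ∃ e : B G, star e = e ∧ e * e = e ∧ e (dl 1) = dl 1 ∧ (∀ a ∈ A, a * e = e * a) ∧
      ∀ x ∈ LG G, ∀ c ∈ A, (∀ a ∈ A, tau (c * a) = tau (x * a)) → e * x * e = e * c * e := by
  have hse : star (KA A).starProjection = (KA A).starProjection :=
    (isSelfAdjoint_starProjection (KA A)).star_eq
  have hid : (KA A).starProjection * (KA A).starProjection = (KA A).starProjection :=
    (KA A).isIdempotentElem_starProjection
  refine ⟨(KA A).starProjection, hse, hid, ?_, ?_, ?_⟩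
  · rw [Submodule.starProjection_eq_self_iff]
    exact mem_KA A (one_mem A)
  · have h1 : ∀ a ∈ A, (KA A).starProjection * a * (KA A).starProjection =
        a * (KA A).starProjection := by
      intro a ha
      ext1 v
      change (KA A).starProjection (a ((KA A).starProjection v)) = a ((KA A).starProjection v)
      rw [Submodule.starProjection_eq_self_iff]
      refine KA_le A a (KA A) (KA_closed A) (fun b hb => ?_) _ (Submodule.starProjection_apply_mem _ _)
      exact mem_KA A (mul_mem ha hb)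
    intro a ha
    have h2 := congrArg star (h1 (star a) (star_mem ha))
    simp only [star_mul, star_star, hse] at h2
    calc a * (KA A).starProjection =
        (KA A).starProjection * (a * (KA A).starProjection) := by rw [← mul_assoc, h1 a ha]
      _ = (KA A).starProjection * a := h2
  · intro x hx c hc hxc
    have h1 : ∀ k ∈ KA A, (x - c) k ∈ (KA A)ᗮ := by
      refine KA_le A (x - c) (KA A)ᗮ (Submodule.isClosed_orthogonal _) ?_
      intro b hb
      have h2 : (KA A)ᗮ = (Submodule.span ℂ {v | ∃ a ∈ A, v = a (dl 1)})ᗮ :=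
        Submodule.orthogonal_closure _
      rw [h2, Submodule.mem_orthogonal]
      intro u hu
      induction hu using Submodule.span_induction with
      | mem u hu =>
        obtain ⟨a, ha, rfl⟩ := hu
        have h3 : ∀ z : B G, ⟪a (dl 1), z (b (dl 1))⟫_ℂ = tau (star a * (z * b)) := by
          intro z
          unfold tau
          rw [← adj']
          rfl
        have h4 : ∀ z ∈ LG G, tau (star a * (z * b)) = tau (z * (b * star a)) := by
          intro z hz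
          unfold tau
          rw [Pool.Agent.N571.EX.TRx.tracial (star_mem (hA a ha)) (mul_mem hz (hA b hb)), mul_assoc]
        rw [_root_.sub_apply, inner_sub_right, h3, h3, h4 x hx, h4 c (hA c hc),
          hxc _ (mul_mem hb (star_mem ha)), sub_self]
      | zero => rw [inner_zero_left]
      | add u v _ _ hu hv => rw [inner_add_left, hu, hv, add_zero]
      | smul r u _ hu => rw [inner_smul_left, hu, mul_zero]
    have h2 : (KA A).starProjection * (x - c) * (KA A).starProjection = 0 := by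
      ext1 v
      change (KA A).starProjection ((x - c) ((KA A).starProjection v)) = 0
      rw [Submodule.starProjection_apply_eq_zero_iff]
      exact h1 _ (Submodule.starProjection_apply_mem _ _)
    rw [mul_sub, sub_mul, sub_eq_zero] at h2
    exact h2

end HYPaux

open HYPaux in
/-- **(HYP)** in the definition of amenability, it is enough that the state extends the trace of
`A`. -/
theorem t_hyp (h1 : S_CE) : S_HYP := by
  intro G _ A hA hφ
  obtain ⟨φ, hφ⟩ := hφ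
  obtain ⟨e, he, he2, hω, hcomm, hex⟩ := proj A hA
  obtain ⟨Θ, hpos, hone, hcongr, hmod⟩ := map_ex he he2 hω
  refine ⟨hA, φ.comp Θ, ⟨?_, ?_⟩, ?_⟩
  · intro T
    obtain ⟨Y, hY⟩ := fac (hpos T)
    change 0 ≤ φ (Θ (star T * T))
    rw [hY]
    exact hφ.nonneg Y
  · intro x hx
    obtain ⟨c, hc, hcx⟩ := h1 G A hA x hx
    have h2 : Θ x = c := by
      rw [hcongr x c (hex x hx c hc hcx)]
      have h3 := (hmod c (hA c hc) (hcomm c hc)).1 1
      rw [mul_one, hone, mul_one] at h3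
      exact h3
    change φ (Θ x) = tau x
    rw [h2, hφ.trace c hc]
    have h3 := hcx 1 (one_mem A)
    rw [mul_one, mul_one] at h3
    exact h3
  · intro x hx
    refine ⟨hA x hx, fun T => ?_⟩
    change φ (Θ (x * T)) = φ (Θ (T * x))
    rw [(hmod x (hA x hx) (hcomm x hx)).1, (hmod x (hA x hx) (hcomm x hx)).2]
    exact hφ.central x hx _

end

end Pool.Agent.N571.SS.D
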