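import Pool.Agent.N571.SS.D.Stm

/-!
# Project SS/D: continuity of the trace functional in the minimal norm
-/

set_option autoImplicit false

namespace Pool.Agent.N571.SS.D

open Filter Topology
open scoped InnerProductSpace ComplexOrder
open Pool.Agent.H494R3.GT (L2 dl)
open Pool.Agent.N557.QW (lam rgt LG LK cf rc)

namespace MCAux

theorem un_norm {H : Type} [NormedAddCommGroup H] [InnerProductSpace ℂ H] [CompleteSpace H]
    {u : H →L[ℂ] H} (hu : Un u) : ‖u‖ ≤ 1 := by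
  have h1 : ‖star u * u‖ = ‖u‖ * ‖u‖ := CStarRing.norm_star_mul_self
  rw [hu.left] at h1
  have h2 : ‖(1 : H →L[ℂ] H)‖ ≤ 1 := ContinuousLinearMap.norm_id_le
  nlinarith [norm_nonneg u]

theorem un_star {H : Type} [NormedAddCommGroup H] [InnerProductSpace ℂ H] [CompleteSpace H]
    {u : H →L[ℂ] H} (hu : Un u) : Un (star u) where
  left := by rw [star_star]; exact hu.right
  right := by rw [star_star]; exact hu.left

/-- the estimate of one term -/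
theorem term {G : Type} [Group G] (hb : Bas G) {x y : B G} (hy : Un y) {ξ : L2 (G × G)} {δ : ℝ}
    (hξ : ‖ξ‖ ≤ 1) (hδ : ‖a1 (star y) (a2 (cj (star y)) ξ) - ξ‖ ≤ δ) :
    ‖⟪ξ, (a1 x * a2 (cj y)) ξ⟫_ℂ - ⟪ξ, a1 (x * star y) ξ⟫_ℂ‖ ≤ ‖x‖ * δ := by
  have h1 : a2 (cj y) * (a1 (star y) * a2 (cj (star y))) = a1 (star y) := by
    rw [← mul_assoc, ← hb.comm, mul_assoc, ← hb.a2_mul, ← hb.cj_mul, hy.right, hb.cj_one,
      hb.a2_one, mul_one]
  have h2 : a1 (star y) ξ - a2 (cj y) ξ =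
      a2 (cj y) (a1 (star y) (a2 (cj (star y)) ξ) - ξ) := by
    rw [map_sub]
    congr 1
    have h3 := congrArg (fun T : B (G × G) => T ξ) h1
    exact h3.symm
  have h3 : ‖a2 (cj y)‖ ≤ 1 := by
    refine (hb.a2_norm _).trans ?_
    rw [hb.cj_norm]
    exact un_norm hy
  have h4 : ‖a1 (star y) ξ - a2 (cj y) ξ‖ ≤ δ := by
    rw [h2]
    refine (ContinuousLinearMap.le_opNorm _ _).trans ?_
    calc ‖a2 (cj y)‖ * ‖a1 (star y) (a2 (cj (star y)) ξ) - ξ‖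
        ≤ 1 * ‖a1 (star y) (a2 (cj (star y)) ξ) - ξ‖ :=
          mul_le_mul_of_nonneg_right h3 (norm_nonneg _)
      _ ≤ δ := by rw [one_mul]; exact hδ
  have h5 : ⟪ξ, (a1 x * a2 (cj y)) ξ⟫_ℂ - ⟪ξ, a1 (x * star y) ξ⟫_ℂ =
      - ⟪ξ, a1 x (a1 (star y) ξ - a2 (cj y) ξ)⟫_ℂ := by
    rw [hb.a1_mul, map_sub, inner_sub_right, neg_sub]
    rfl
  rw [h5, norm_neg]
  refine (norm_inner_le_norm _ _).trans ?_
  have h6 : ‖a1 x (a1 (star y) ξ - a2 (cj y) ξ)‖ ≤ ‖x‖ * δ := by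
    refine (ContinuousLinearMap.le_opNorm _ _).trans ?_
    exact mul_le_mul (hb.a1_norm x) h4 (norm_nonneg _) (norm_nonneg _)
  calc ‖ξ‖ * ‖a1 x (a1 (star y) ξ - a2 (cj y) ξ)‖
      ≤ 1 * ‖a1 x (a1 (star y) ξ - a2 (cj y) ξ)‖ :=
        mul_le_mul_of_nonneg_right hξ (norm_nonneg _)
    _ ≤ ‖x‖ * δ := by rw [one_mul]; exact h6

theorem limit {L Z C : ℝ} (hC : 0 ≤ C) (h : ∀ δ : ℝ, 0 < δ → δ ≤ 1 → L ≤ Z + δ * C) :
    L ≤ Z := by
  by_contra hcon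
  push Not at hcon
  have hd : 0 < L - Z := by linarith
  have hC1 : 0 < C + 1 := by linarith
  have h1 := h (min 1 ((L - Z) / (2 * (C + 1)))) (lt_min one_pos (by positivity)) (min_le_left _ _)
  have h2 : min 1 ((L - Z) / (2 * (C + 1))) * C ≤ (L - Z) / (2 * (C + 1)) * C :=
    mul_le_mul_of_nonneg_right (min_le_right _ _) hC
  have h3 : (L - Z) / (2 * (C + 1)) * C ≤ (L - Z) / 2 := by
    rw [div_mul_eq_mul_div, div_le_div_iff₀ (by positivity) (by norm_num)]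
    nlinarith
  linarith

end MCAux

/-- MC: continuity of the trace functional in the minimal norm. -/
theorem t_mc (h0 : S_BAS) (h1 : S_DAY) (h2 : S_PS) : S_MC := by
  intro G _ φ hφ m x y hx hy
  have hb := h0 G
  have hdl : ⟪dl (1 : G), dl (1 : G)⟫_ℂ = 1 := by
    rw [Pool.Agent.H494R3.GT.inner_dl, Pool.Agent.H494R3.GT.dl_apply_self]
  have hφ1 : φ 1 = 1 := by
    rw [hφ.trace 1 (one_mem (LG G))]
    unfold tau
    exact hdl
  refine MCAux.limit (C := ∑ i, ‖x i‖ + m)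
    (add_nonneg (Finset.sum_nonneg fun i _ => norm_nonneg _) (Nat.cast_nonneg _)) ?_
  intro δ hδ hδ1
  have hyi : ∀ i, Un (star (y i)) ∧ ∀ T, φ (star (star (y i)) * T * star (y i)) = φ T := by
    intro i
    refine ⟨MCAux.un_star (hy i).2, fun T => ?_⟩
    rw [star_star, mul_assoc, (hy i).1.2, mul_assoc, (hy i).2.left, mul_one]
  obtain ⟨n, v, hv1, hv2, hv3⟩ := h1 (L2 G) φ hφ.nonneg hφ1 m m (fun i => star (y i))
    (fun i => x i * star (y i)) hyi (δ ^ 2) (by positivity)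
  have : Nonempty G := ⟨1⟩
  obtain ⟨ξ, hξ1, hξ2⟩ := h2 G n v
  have hξ : ‖ξ‖ ≤ 1 := by
    have h3 := hξ1 1
    rw [hb.a1_one] at h3
    have h4 : ⟪ξ, (1 : B (G × G)) ξ⟫_ℂ = ((‖ξ‖ ^ 2 : ℝ) : ℂ) := by
      show ⟪ξ, ξ⟫_ℂ = _
      rw [inner_self_eq_norm_sq_to_K]
      norm_cast
    have h5 : ∀ j, ⟪v j, (1 : B G) (v j)⟫_ℂ = ((‖v j‖ ^ 2 : ℝ) : ℂ) := by
      intro j
      show ⟪v j, v j⟫_ℂ = _
      rw [inner_self_eq_norm_sq_to_K]
      norm_cast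
    rw [h4, Finset.sum_congr rfl (fun j _ => h5 j), ← Complex.ofReal_sum, hv1] at h3
    have h6 : ‖ξ‖ ^ 2 = 1 := by exact_mod_cast h3
    nlinarith [norm_nonneg ξ]
  have hterm : ∀ i, ‖tau (x i * star (y i)) - ⟪ξ, (a1 (x i) * a2 (cj (y i))) ξ⟫_ℂ‖ ≤
      ‖x i‖ * δ + δ ^ 2 := by
    intro i
    have h3 := hξ2 (star (y i)) (hyi i).1 (δ ^ 2) (hv2 i)
    have h4 : ‖a1 (star (y i)) (a2 (cj (star (y i))) ξ) - ξ‖ ≤ δ :=
      (pow_le_pow_iff_left₀ (norm_nonneg _) hδ.le two_ne_zero).1 h3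
    have h5 := MCAux.term hb (x := x i) (hy i).2 hξ h4
    have h6 := hv3 i
    rw [← hξ1 (x i * star (y i))] at h6
    have hmem : x i * star (y i) ∈ LG G := mul_mem (hx i) (star_mem (hy i).1.1)
    rw [hφ.trace _ hmem] at h6
    calc ‖tau (x i * star (y i)) - ⟪ξ, (a1 (x i) * a2 (cj (y i))) ξ⟫_ℂ‖
        = ‖(⟪ξ, (a1 (x i) * a2 (cj (y i))) ξ⟫_ℂ - ⟪ξ, a1 (x i * star (y i)) ξ⟫_ℂ) +
            (⟪ξ, a1 (x i * star (y i)) ξ⟫_ℂ - tau (x i * star (y i)))‖ := by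
          rw [← norm_neg]
          congr 1
          ring
      _ ≤ _ := (norm_add_le _ _).trans (add_le_add h5 h6)
  have hZ : ‖⟪ξ, (∑ i, a1 (x i) * a2 (cj (y i))) ξ⟫_ℂ‖ ≤ ‖∑ i, a1 (x i) * a2 (cj (y i))‖ := by
    refine (norm_inner_le_norm _ _).trans ?_
    have h3 := ContinuousLinearMap.le_opNorm (∑ i, a1 (x i) * a2 (cj (y i))) ξ
    have h4 := norm_nonneg (∑ i, a1 (x i) * a2 (cj (y i)))
    have h5 : ‖(∑ i, a1 (x i) * a2 (cj (y i))) ξ‖ ≤ ‖∑ i, a1 (x i) * a2 (cj (y i))‖ :=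
      h3.trans (mul_le_of_le_one_right h4 hξ)
    exact (mul_le_mul hξ h5 (norm_nonneg _) zero_le_one).trans (one_mul _).le
  have hsum : ⟪ξ, (∑ i, a1 (x i) * a2 (cj (y i))) ξ⟫_ℂ =
      ∑ i, ⟪ξ, (a1 (x i) * a2 (cj (y i))) ξ⟫_ℂ := by
    rw [ContinuousLinearMap.sum_apply, inner_sum]
  calc ‖∑ i, tau (x i * star (y i))‖
      = ‖⟪ξ, (∑ i, a1 (x i) * a2 (cj (y i))) ξ⟫_ℂ +
          ∑ i, (tau (x i * star (y i)) - ⟪ξ, (a1 (x i) * a2 (cj (y i))) ξ⟫_ℂ)‖ := by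
        rw [hsum, ← Finset.sum_add_distrib]
        congr 1
        refine Finset.sum_congr rfl fun i _ => ?_
        ring
    _ ≤ ‖∑ i, a1 (x i) * a2 (cj (y i))‖ + ∑ i, (‖x i‖ * δ + δ ^ 2) :=
        (norm_add_le _ _).trans (add_le_add hZ
          ((norm_sum_le _ _).trans (Finset.sum_le_sum fun i _ => hterm i)))
    _ ≤ ‖∑ i, a1 (x i) * a2 (cj (y i))‖ + δ * (∑ i, ‖x i‖ + m) := by
        rw [Finset.sum_add_distrib, ← Finset.sum_mul, Finset.sum_const, Finset.card_univ,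
          Fintype.card_fin, nsmul_eq_mul]
        have h3 : (0 : ℝ) ≤ m := Nat.cast_nonneg _
        have h4 : (m : ℝ) * δ ^ 2 ≤ m * δ :=
          mul_le_mul_of_nonneg_left (by nlinarith) h3
        nlinarith

end Pool.Agent.N571.SS.D
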