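import Pool.Agent.N571.SS.D.Stm

/-!
# Project SS/D, POS: the positive part of a functional of norm almost one
-/

set_option autoImplicit false
set_option linter.unusedSectionVars false

namespace Pool.Agent.N571.SS.D

namespace POS_

open scoped InnerProductSpace

section

variable {H : Type} [NormedAddCommGroup H] [InnerProductSpace ℂ H] [CompleteSpace H]

lemma t_star (Ω : H) (X : H →L[ℂ] H) : ⟪Ω, (star X) Ω⟫_ℂ = (starRingEnd ℂ) ⟪Ω, X Ω⟫_ℂ := by
  rw [ContinuousLinearMap.star_eq_adjoint, ContinuousLinearMap.adjoint_inner_right,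
    inner_conj_symm]

lemma t_sq (Ω : H) (S : H →L[ℂ] H) (hS : star S = S) : ⟪Ω, (S * S) Ω⟫_ℂ = ((‖S Ω‖ ^ 2 : ℝ) : ℂ) := by
  have h1 : ⟪Ω, (S * S) Ω⟫_ℂ = ⟪S Ω, S Ω⟫_ℂ := by
    have h2 : (S * S) Ω = (ContinuousLinearMap.adjoint S) (S Ω) := by
      rw [← ContinuousLinearMap.star_eq_adjoint, hS]
      rfl
    rw [h2, ContinuousLinearMap.adjoint_inner_right]
  rw [h1, inner_self_eq_norm_sq_to_K]
  push_cast
  rfl

lemma t_norm (Ω : H) (X : H →L[ℂ] H) : ‖⟪Ω, X Ω⟫_ℂ‖ ≤ ‖X‖ * ‖Ω‖ ^ 2 := by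
  refine (norm_inner_le_norm _ _).trans ?_
  have := X.le_opNorm Ω
  have h2 : 0 ≤ ‖Ω‖ := norm_nonneg _
  nlinarith

/-- the bound for the imaginary part -/
lemma im_bound (C : StarSubalgebra ℂ (H →L[ℂ] H)) (f : (H →L[ℂ] H) →ₗ[ℂ] ℂ) (ε : ℝ) (hε : 0 < ε)
    (hε1 : ε ≤ 1) (hf : ∀ Z ∈ C, ‖f Z‖ ≤ (1 + ε) * ‖Z‖) (h1 : ‖f 1 - 1‖ ≤ ε)
    (Z : H →L[ℂ] H) (hZ : Z ∈ C) (hZs : star Z = Z) (hZ1 : ‖Z‖ ≤ 1) : |(f Z).im| ≤ 3 * √ε := by
  have hre : 1 - ε ≤ (f 1).re := by
    have h2 := (Complex.abs_re_le_norm (f 1 - 1)).trans h1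
    rw [Complex.sub_re, Complex.one_re, abs_le] at h2
    linarith [h2.1]
  have key : ∀ r : ℝ, -(r * (f Z).im) ≤ 2 * ε + r ^ 2 := by
    intro r
    have hmem : (1 : H →L[ℂ] H) + ((r : ℂ) * Complex.I) • Z ∈ C :=
      C.add_mem C.one_mem (C.smul_mem hZ _)
    have h2 := hf _ hmem
    have h3 : ‖(1 : H →L[ℂ] H) + ((r : ℂ) * Complex.I) • Z‖ ≤ √(1 + r ^ 2) := by
      apply Real.le_sqrt_of_sq_le
      have h4 : star ((1 : H →L[ℂ] H) + ((r : ℂ) * Complex.I) • Z) *
          ((1 : H →L[ℂ] H) + ((r : ℂ) * Complex.I) • Z) = 1 + ((r : ℂ) ^ 2) • (Z * Z) := by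
        rw [star_add, star_one, star_smul, hZs]
        have e1 : star ((r : ℂ) * Complex.I) = -((r : ℂ) * Complex.I) := by
          rw [Complex.star_def, map_mul, Complex.conj_I, Complex.conj_ofReal]
          ring
        rw [e1, add_mul, mul_add, mul_add, one_mul, one_mul, mul_one, smul_mul_assoc,
          mul_smul_comm, smul_smul, neg_smul]
        have e2 : -((r : ℂ) * Complex.I) * ((r : ℂ) * Complex.I) = (r : ℂ) ^ 2 := by
          linear_combination (-(r : ℂ) ^ 2) * Complex.I_mul_I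
        rw [e2]
        abel
      rw [pow_two, ← CStarRing.norm_star_mul_self, h4]
      refine (norm_add_le _ _).trans ?_
      have h5 : ‖(1 : H →L[ℂ] H)‖ ≤ 1 := ContinuousLinearMap.norm_id_le
      have h6 : ‖((r : ℂ) ^ 2) • (Z * Z)‖ ≤ r ^ 2 := by
        rw [norm_smul, norm_pow, Complex.norm_real, Real.norm_eq_abs, sq_abs]
        have h7 : ‖Z * Z‖ ≤ 1 := (norm_mul_le _ _).trans (mul_le_one₀ hZ1 (norm_nonneg _) hZ1)
        nlinarith [sq_nonneg r]
      linarith
    have h4 : √(1 + r ^ 2) ≤ 1 + r ^ 2 / 2 := by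
      rw [Real.sqrt_le_left (by positivity)]
      nlinarith [sq_nonneg (r ^ 2)]
    have h5 : (f ((1 : H →L[ℂ] H) + ((r : ℂ) * Complex.I) • Z)).re = (f 1).re - r * (f Z).im := by
      rw [map_add, map_smul, smul_eq_mul, Complex.add_re, Complex.mul_re, Complex.mul_re,
        Complex.mul_im]
      simp
      ring
    have h6 := Complex.re_le_norm (f ((1 : H →L[ℂ] H) + ((r : ℂ) * Complex.I) • Z))
    rw [h5] at h6
    have h7 : (1 + ε) * ‖(1 : H →L[ℂ] H) + ((r : ℂ) * Complex.I) • Z‖ ≤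
        (1 + ε) * (1 + r ^ 2 / 2) :=
      mul_le_mul_of_nonneg_left (h3.trans h4) (by linarith)
    nlinarith [sq_nonneg r]
  have hs : 0 < √ε := Real.sqrt_pos.2 hε
  have hss : √ε ^ 2 = ε := Real.sq_sqrt hε.le
  have k1 := key √ε
  have k2 := key (-√ε)
  rw [neg_sq] at k2
  rw [hss] at k1 k2
  rw [abs_le]
  constructor
  · by_contra hcon
    push Not at hcon
    nlinarith
  · by_contra hcon
    push Not at hcon
    nlinarith

/-- the functional is almost hermitian -/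
lemma herm (C : StarSubalgebra ℂ (H →L[ℂ] H)) (f : (H →L[ℂ] H) →ₗ[ℂ] ℂ) (ε : ℝ) (hε : 0 < ε)
    (hε1 : ε ≤ 1) (hf : ∀ Z ∈ C, ‖f Z‖ ≤ (1 + ε) * ‖Z‖) (h1 : ‖f 1 - 1‖ ≤ ε)
    (Z : H →L[ℂ] H) (hZ : Z ∈ C) : ‖f Z - (starRingEnd ℂ) (f (star Z))‖ ≤ 12 * √ε * ‖Z‖ := by
  have hs : 0 < √ε := Real.sqrt_pos.2 hε
  have hsa : ∀ X ∈ C, star X = X → |(f X).im| ≤ 3 * √ε * ‖X‖ := by
    intro X hX hXs
    by_cases h0 : X = 0
    · rw [h0, map_zero, norm_zero]
      simp
    · have hn : 0 < ‖X‖ := norm_pos_iff.2 h0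
      have h2 := im_bound C f ε hε hε1 hf h1 (((‖X‖⁻¹ : ℝ) : ℂ) • X) (C.smul_mem hX _)
        (by rw [star_smul, hXs, Complex.star_def, Complex.conj_ofReal])
        (by rw [norm_smul, Complex.norm_real, Real.norm_of_nonneg (by positivity),
          inv_mul_cancel₀ hn.ne'])
      rw [map_smul, smul_eq_mul, Complex.im_ofReal_mul, abs_mul,
        abs_of_pos (inv_pos.2 hn)] at h2
      rw [inv_mul_le_iff₀ hn] at h2
      linarith
  have hstar : star Z ∈ C := star_mem hZ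
  obtain ⟨X, hX⟩ : ∃ X, X = (1 / 2 : ℂ) • (Z + star Z) := ⟨_, rfl⟩
  obtain ⟨Y, hY⟩ : ∃ Y, Y = (-(Complex.I) / 2 : ℂ) • (Z - star Z) := ⟨_, rfl⟩
  have hXC : X ∈ C := by rw [hX]; exact C.smul_mem (C.add_mem hZ hstar) _
  have hYC : Y ∈ C := by rw [hY]; exact C.smul_mem (C.sub_mem hZ hstar) _
  have hXs : star X = X := by
    rw [hX, star_smul, star_add, star_star, add_comm (star Z)]
    congr 1
    simp
  have hYs : star Y = Y := by
    rw [hY, star_smul, star_sub, star_star, ← neg_sub Z, smul_neg, ← neg_smul]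
    congr 1
    rw [Complex.star_def, map_div₀, map_neg, Complex.conj_I, map_ofNat]
    ring
  have hXn : ‖X‖ ≤ ‖Z‖ := by
    rw [hX, norm_smul]
    have h2 := norm_add_le Z (star Z)
    rw [norm_star] at h2
    have h3 : ‖(1 / 2 : ℂ)‖ = 1 / 2 := by simp
    rw [h3]
    linarith
  have hYn : ‖Y‖ ≤ ‖Z‖ := by
    rw [hY, norm_smul]
    have h2 := norm_sub_le Z (star Z)
    rw [norm_star] at h2
    have h3 : ‖(-(Complex.I) / 2 : ℂ)‖ = 1 / 2 := by simp
    rw [h3]
    linarith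
  have hZXY : Z = X + Complex.I • Y := by
    rw [hX, hY, smul_smul]
    have e1 : Complex.I * (-Complex.I / 2) = 1 / 2 := by
      linear_combination (-1 / 2 : ℂ) * Complex.I_mul_I
    rw [e1, ← smul_add]
    have e2 : Z + star Z + (Z - star Z) = (2 : ℂ) • Z := by
      rw [two_smul]
      abel
    rw [e2, smul_smul]
    norm_num
  have hsZ : star Z = X - Complex.I • Y := by
    conv_lhs => rw [hZXY]
    rw [star_add, star_smul, hXs, hYs, Complex.star_def, Complex.conj_I, neg_smul, sub_eq_add_neg]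
  have e3 : f Z - (starRingEnd ℂ) (f (star Z)) =
      ((2 * (f X).im : ℝ) : ℂ) * Complex.I - ((2 * (f Y).im : ℝ) : ℂ) := by
    rw [hsZ, map_sub, map_smul]
    conv_lhs => rw [hZXY]
    rw [map_add, map_smul, smul_eq_mul, map_sub, map_mul, Complex.conj_I]
    apply Complex.ext
    · simp
      ring
    · simp
      ring
  rw [e3]
  refine (norm_sub_le _ _).trans ?_
  rw [norm_mul, Complex.norm_I, mul_one, Complex.norm_real, Complex.norm_real, Real.norm_eq_abs,
    Real.norm_eq_abs, abs_mul, abs_mul, abs_two]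
  have h2 := hsa X hXC hXs
  have h3 := hsa Y hYC hYs
  have h4 : 3 * √ε * ‖X‖ ≤ 3 * √ε * ‖Z‖ := mul_le_mul_of_nonneg_left hXn (by positivity)
  have h5 : 3 * √ε * ‖Y‖ ≤ 3 * √ε * ‖Z‖ := mul_le_mul_of_nonneg_left hYn (by positivity)
  linarith

/-- a nonnegative function of a self-adjoint element is a square of a self-adjoint element -/
lemma sqrt_cfc (C : StarSubalgebra ℂ (H →L[ℂ] H)) (hC : IsClosed (C : Set (H →L[ℂ] H)))
    (K : H →L[ℂ] H) (hK : K ∈ C) (hKs : IsSelfAdjoint K) (g : ℝ → ℝ) (hg : Continuous g)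
    (hg0 : ∀ x, 0 ≤ g x) : ∃ S ∈ C, star S = S ∧ S * S = cfc g K := by
  refine ⟨cfc (fun x => √(g x)) K, ?_, ?_, ?_⟩
  · have : IsClosed (C : Set (H →L[ℂ] H)) := hC
    exact cfc_mem (𝕜' := ℂ) _ hK
  · exact (cfc_predicate (fun x : ℝ => √(g x)) K : IsSelfAdjoint _)
  · have hc : Continuous fun x => √(g x) := Real.continuous_sqrt.comp hg
    rw [← cfc_mul (fun x : ℝ => √(g x)) (fun x : ℝ => √(g x)) K hc.continuousOn hc.continuousOn]
    congr 1
    funext x
    exact Real.mul_self_sqrt (hg0 x)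

end

end POS_

open POS_

/-- **POS** -/
theorem t_pos : S_POS := by
  intro H _ _ _ C Ω hTr ε hε hε1 K hK hf h1
  have hs : 0 < √ε := Real.sqrt_pos.2 hε
  have hss : √ε ^ 2 = ε := Real.sq_sqrt hε.le
  have hsε : ε ≤ √ε := by
    nlinarith [Real.sqrt_le_one.2 hε1]
  obtain ⟨t, ht⟩ : ∃ t : (H →L[ℂ] H) →ₗ[ℂ] ℂ, ∀ X, t X = inner ℂ Ω (X Ω) :=
    ⟨{ toFun := fun X => inner ℂ Ω (X Ω)
       map_add' := fun X Y => by rw [add_apply, inner_add_right]
       map_smul' := fun c X => by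
         rw [smul_apply, inner_smul_right]
         rfl }, fun X => rfl⟩
  have htr : ∀ x ∈ C, ∀ y ∈ C, t (x * y) = t (y * x) := by
    intro x hx y hy
    rw [ht, ht]
    exact hTr.tracial x hx y hy
  have hts : ∀ X, t (star X) = (starRingEnd ℂ) (t X) := fun X => by rw [ht, ht, t_star]
  simp only [← ht] at hf h1 ⊢
  let f : (H →L[ℂ] H) →ₗ[ℂ] ℂ := t.comp (LinearMap.mulRight ℂ (star K))
  have hfd : ∀ Z, f Z = t (Z * star K) := fun Z => rfl
  have hKst : star K ∈ C := star_mem hK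
  have hf' : ∀ Z ∈ C, ‖f Z‖ ≤ (1 + ε) * ‖Z‖ := hf
  have h1' : ‖f 1 - 1‖ ≤ ε := by
    rw [hfd, one_mul]
    exact h1
  have hherm := herm C f ε hε hε1 hf' h1'
  -- the real part of `K`
  obtain ⟨K1, hK1⟩ : ∃ K1, K1 = (1 / 2 : ℂ) • (K + star K) := ⟨_, rfl⟩
  have hK1C : K1 ∈ C := by rw [hK1]; exact C.smul_mem (C.add_mem hK hKst) _
  have hK1s : IsSelfAdjoint K1 := by
    change star K1 = K1
    rw [hK1, star_smul, star_add, star_star, add_comm (star K)]
    congr 1
    simp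
  have h3 : ∀ Z ∈ C, ‖t (Z * K1) - f Z‖ ≤ 6 * √ε * ‖Z‖ := by
    intro Z hZ
    have e1 : t (Z * K) = (starRingEnd ℂ) (f (star Z)) := by
      rw [hfd, ← hts, star_mul, star_star, star_star]
      exact htr Z hZ K hK
    have e2 : t (Z * K1) - f Z = -(1 / 2 : ℂ) * (f Z - (starRingEnd ℂ) (f (star Z))) := by
      rw [hK1, mul_smul_comm, map_smul, mul_add, map_add, e1, ← hfd, smul_eq_mul]
      ring
    rw [e2, norm_mul]
    have e3 : ‖-(1 / 2 : ℂ)‖ = 1 / 2 := by simp
    rw [e3]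
    have := hherm Z hZ
    linarith
  -- the functional calculus
  have hcl := hTr.closed
  have hpos : ∀ g : ℝ → ℝ, Continuous g → (∀ x, 0 ≤ g x) → 0 ≤ (t (cfc g K1)).re := by
    intro g hg hg0
    obtain ⟨S, hSC, hSs, hSS⟩ := sqrt_cfc C hcl K1 hK1C hK1s g hg hg0
    rw [← hSS, ht, t_sq Ω S hSs, Complex.ofReal_re]
    positivity
  obtain ⟨N, hN⟩ : ∃ N, N = cfc (fun x : ℝ => max (-x) 0) K1 := ⟨_, rfl⟩
  have hNc : Continuous fun x : ℝ => max (-x) 0 := by fun_prop
  have hPc : Continuous fun x : ℝ => max x 0 := by fun_prop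
  have hhc : Continuous fun x : ℝ => x / (|x| + √ε) := by
    apply continuous_id.div (continuous_abs.add continuous_const)
    intro x
    have : 0 < |x| + √ε := by positivity
    exact this.ne'
  have hidc : Continuous fun x : ℝ => x := continuous_id
  have hNC : N ∈ C := by
    have : IsClosed (C : Set (H →L[ℂ] H)) := hcl
    rw [hN]
    exact cfc_mem (𝕜' := ℂ) _ hK1C
  obtain ⟨Z0, hZ0⟩ : ∃ Z0, Z0 = cfc (fun x : ℝ => x / (|x| + √ε)) K1 := ⟨_, rfl⟩
  have hZ0C : Z0 ∈ C := by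
    have : IsClosed (C : Set (H →L[ℂ] H)) := hcl
    rw [hZ0]
    exact cfc_mem (𝕜' := ℂ) _ hK1C
  have hZ0n : ‖Z0‖ ≤ 1 := by
    rw [hZ0]
    apply norm_cfc_le zero_le_one
    intro x _
    rw [Real.norm_eq_abs, abs_div, abs_of_pos (by positivity : 0 < |x| + √ε),
      div_le_one (by positivity)]
    linarith
  -- the trace of the negative part
  have hNt : (t N).re ≤ 5 * √ε := by
    have a1 : (t (Z0 * K1)).re ≤ 1 + ε + 6 * √ε := by
      have b1 := h3 Z0 hZ0C
      have b2 := hf' Z0 hZ0C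
      have b3 : ‖t (Z0 * K1)‖ ≤ ‖t (Z0 * K1) - f Z0‖ + ‖f Z0‖ := by
        have := norm_add_le (t (Z0 * K1) - f Z0) (f Z0)
        rwa [sub_add_cancel] at this
      have b4 := Complex.re_le_norm (t (Z0 * K1))
      have b5 : 6 * √ε * ‖Z0‖ ≤ 6 * √ε * 1 := mul_le_mul_of_nonneg_left hZ0n (by positivity)
      have b6 : (1 + ε) * ‖Z0‖ ≤ (1 + ε) * 1 := mul_le_mul_of_nonneg_left hZ0n (by linarith)
      linarith
    have a2 : 1 - ε ≤ (t K1).re := by
      have b1 : (t K1).re = (f 1).re := by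
        rw [hK1, map_smul, map_add, hts, hfd, one_mul, hts, smul_eq_mul]
        simp
        ring
      rw [b1]
      have b2 := (Complex.abs_re_le_norm (f 1 - 1)).trans h1'
      rw [Complex.sub_re, Complex.one_re, abs_le] at b2
      linarith [b2.1]
    have a3 : 0 ≤ (t (cfc (fun x : ℝ => x / (|x| + √ε) * x - x + √ε - 2 * max (-x) 0) K1)).re := by
      apply hpos
      · exact (((hhc.mul hidc).sub hidc).add continuous_const).sub (continuous_const.mul hNc)
      · intro x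
        rcases le_total 0 x with hx | hx
        · rw [abs_of_nonneg hx, max_eq_right (by linarith)]
          have : x / (x + √ε) * x - x + √ε = ε / (x + √ε) := by
            have h0 : x + √ε ≠ 0 := by positivity
            field_simp
            linear_combination hss
          rw [mul_zero, sub_zero, this]
          positivity
        · rw [abs_of_nonpos hx, max_eq_left (by linarith)]
          have h0 : 0 < -x + √ε := by linarith
          have : x / (-x + √ε) * x - x + √ε - 2 * -x = ε / (-x + √ε) := by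
            field_simp
            linear_combination hss
          rw [this]
          positivity
    have a4 : cfc (fun x : ℝ => x / (|x| + √ε) * x - x + √ε - 2 * max (-x) 0) K1 =
        Z0 * K1 - K1 + ((√ε : ℝ) : ℂ) • (1 : H →L[ℂ] H) - (2 : ℂ) • N := by
      rw [cfc_sub (fun x : ℝ => x / (|x| + √ε) * x - x + √ε) (fun x : ℝ => 2 * max (-x) 0) K1
        (((hhc.mul hidc).sub hidc).add continuous_const).continuousOn
        (continuous_const.mul hNc).continuousOn,
        cfc_add K1 (fun x : ℝ => x / (|x| + √ε) * x - x) (fun _ : ℝ => √ε)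
        ((hhc.mul hidc).sub hidc).continuousOn continuousOn_const,
        cfc_sub (fun x : ℝ => x / (|x| + √ε) * x) (fun x : ℝ => x) K1
        (hhc.mul hidc).continuousOn hidc.continuousOn,
        cfc_mul (fun x : ℝ => x / (|x| + √ε)) (fun x : ℝ => x) K1 hhc.continuousOn
        hidc.continuousOn, cfc_id' ℝ K1, cfc_const_mul 2 (fun x : ℝ => max (-x) 0) K1
        hNc.continuousOn, cfc_const (√ε) K1, ← hZ0, ← hN]
      congr 1
    rw [a4, map_sub, map_add, map_sub, map_smul, map_smul, smul_eq_mul, smul_eq_mul] at a3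
    have a5 : t 1 = 1 := by
      rw [ht, one_apply_eq_self, inner_self_eq_norm_sq_to_K, hTr.unit]
      simp
    rw [a5] at a3
    simp only [Complex.sub_re, Complex.add_re, mul_one, Complex.ofReal_re] at a3
    have a6 : ((2 : ℂ) * t N).re = 2 * (t N).re := by simp
    rw [a6] at a3
    linarith
  -- the positive part
  have hLc : Continuous fun x : ℝ => √(max x 0) := Real.continuous_sqrt.comp hPc
  obtain ⟨L, hL⟩ : ∃ L, L = cfc (fun x : ℝ => √(max x 0)) K1 := ⟨_, rfl⟩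
  have hLC : L ∈ C := by
    have : IsClosed (C : Set (H →L[ℂ] H)) := hcl
    rw [hL]
    exact cfc_mem (𝕜' := ℂ) _ hK1C
  have hLs : star L = L := by
    rw [hL]
    exact (cfc_predicate (fun x : ℝ => √(max x 0)) K1 : IsSelfAdjoint _)
  have hLL : L * L = K1 + N := by
    rw [hL, hN, ← cfc_mul (fun x : ℝ => √(max x 0)) (fun x : ℝ => √(max x 0)) K1
      hLc.continuousOn hLc.continuousOn]
    have e1 : (fun x : ℝ => √(max x 0) * √(max x 0)) = fun x : ℝ => x + max (-x) 0 := by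
      funext x
      rw [Real.mul_self_sqrt (le_max_right _ _)]
      rcases le_total 0 x with hx | hx
      · rw [max_eq_left hx, max_eq_right (by linarith), add_zero]
      · rw [max_eq_right hx, max_eq_left (by linarith), add_neg_cancel]
    rw [e1, cfc_add K1 (fun x : ℝ => x) (fun x : ℝ => max (-x) 0) hidc.continuousOn
      hNc.continuousOn, cfc_id' ℝ K1]
  obtain ⟨R, _, hRs, hRR⟩ := sqrt_cfc C hcl K1 hK1C hK1s (fun x => √(max x 0)) hLc
    (fun x => Real.sqrt_nonneg _)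
  rw [← hL] at hRR
  obtain ⟨S, hSC, hSs, hSS⟩ := sqrt_cfc C hcl K1 hK1C hK1s (fun x => max (-x) 0) hNc
    (fun x => le_max_right _ _)
  rw [← hN] at hSS
  refine ⟨L, hLC, ⟨hLs, fun v => ?_⟩, fun Z hZ => ?_⟩
  · rw [← hRR, t_sq v R hRs, Complex.ofReal_re]
    positivity
  · have c1 : ‖S Ω‖ ^ 2 ≤ 5 * √ε := by
      have : (t N).re = ‖S Ω‖ ^ 2 := by
        rw [← hSS, ht, t_sq Ω S hSs, Complex.ofReal_re]
      rw [← this]
      exact hNt
    have c2 : t (Z * N) = inner ℂ (S Ω) (Z (S Ω)) := by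
      rw [← hSS, ← mul_assoc, htr (Z * S) (C.mul_mem hZ hSC) S hSC, ht]
      have h2 : (S * (Z * S)) Ω = (ContinuousLinearMap.adjoint S) (Z (S Ω)) := by
        rw [← ContinuousLinearMap.star_eq_adjoint, hSs]
        rfl
      rw [h2, ContinuousLinearMap.adjoint_inner_right]
    have c3 : ‖t (Z * N)‖ ≤ ‖Z‖ * (5 * √ε) := by
      rw [c2]
      exact (t_norm (S Ω) Z).trans (mul_le_mul_of_nonneg_left c1 (norm_nonneg _))
    have c4 : t (Z * (L * L)) - t (Z * star K) = (t (Z * K1) - f Z) + t (Z * N) := by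
      rw [hLL, mul_add, map_add, hfd]
      ring
    rw [c4]
    have c5 := h3 Z hZ
    have c6 := norm_add_le (t (Z * K1) - f Z) (t (Z * N))
    have c7 : 0 ≤ √ε * ‖Z‖ := by positivity
    linarith

end Pool.Agent.N571.SS.D
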