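import Pool.Agent.N571.SS.D.Stm

/-!
# Project SS/D: the Powers-Størmer inequality for finite rank operators
-/

set_option autoImplicit false

namespace Pool.Agent.N571.SS.D

open Filter Topology
open scoped InnerProductSpace ComplexOrder ComplexConjugate
open Pool.Agent.H494R3.GT (L2 dl)

noncomputable section

namespace PS

section hil

variable {E : Type} [NormedAddCommGroup E] [InnerProductSpace ℂ E]

/-- `∑ s_i |f_i⟩⟨f_i|` -/
def op {r : ℕ} (s : Fin r → ℝ) (f : Fin r → E) : E →L[ℂ] E :=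
  ∑ i, (s i : ℂ) • (innerSL ℂ (f i)).smulRight (f i)

lemma op_apply {r : ℕ} (s : Fin r → ℝ) (f : Fin r → E) (z : E) :
    op s f z = ∑ i, ((s i : ℂ) * ⟪f i, z⟫_ℂ) • f i := by
  simp only [op, sum_apply, smul_apply, ContinuousLinearMap.smulRight_apply, innerSL_apply_apply,
    smul_smul]

lemma inner_op {r : ℕ} (s : Fin r → ℝ) (f : Fin r → E) (w z : E) :
    ⟪w, op s f z⟫_ℂ = ∑ i, (s i : ℂ) * (⟪f i, z⟫_ℂ * ⟪w, f i⟫_ℂ) := by
  rw [op_apply, inner_sum]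
  exact Finset.sum_congr rfl fun i _ => by rw [inner_smul_right]; ring

lemma op_symm {r : ℕ} (s : Fin r → ℝ) (f : Fin r → E) (w z : E) :
    ⟪op s f w, z⟫_ℂ = ⟪w, op s f z⟫_ℂ := by
  rw [← inner_conj_symm, inner_op, inner_op, map_sum]
  refine Finset.sum_congr rfl fun i _ => ?_
  rw [map_mul, map_mul, Complex.conj_ofReal, inner_conj_symm, inner_conj_symm]
  ring

lemma inner_op_self {r : ℕ} (s : Fin r → ℝ) (f : Fin r → E) (z : E) :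
    ⟪z, op s f z⟫_ℂ = ((∑ i, s i * ‖⟪f i, z⟫_ℂ‖ ^ 2 : ℝ) : ℂ) := by
  rw [inner_op]
  push_cast
  refine Finset.sum_congr rfl fun i _ => ?_
  rw [← inner_conj_symm z (f i), Complex.mul_conj']

lemma norm_op_sq {r : ℕ} (s : Fin r → ℝ) (f : Fin r → E) (hf : Orthonormal ℂ f) (z : E) :
    ‖op s f z‖ ^ 2 = ∑ i, s i ^ 2 * ‖⟪f i, z⟫_ℂ‖ ^ 2 := by
  have h1 : ((‖op s f z‖ ^ 2 : ℝ) : ℂ) = ((∑ i, s i ^ 2 * ‖⟪f i, z⟫_ℂ‖ ^ 2 : ℝ) : ℂ) := by
    have h2 : ⟪op s f z, op s f z⟫_ℂ = (‖op s f z‖ : ℂ) ^ 2 := inner_self_eq_norm_sq_to_K _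
    rw [Complex.ofReal_pow, ← h2, op_apply, hf.inner_sum]
    push_cast
    refine Finset.sum_congr rfl fun i _ => ?_
    rw [map_mul, Complex.conj_ofReal, ← Complex.conj_mul']
    ring
  exact_mod_cast h1

/-- diagonalisation of symmetric operators of finite rank -/
lemma spec (c : E →ₗ[ℂ] E) (hc : c.IsSymmetric) (F : Submodule ℂ E) [FiniteDimensional ℂ F]
    (hF : ∀ z, c z ∈ F) : ∃ (m : ℕ) (e : Fin m → E) (κ : Fin m → ℝ), Orthonormal ℂ e ∧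
      (∀ k, c (e k) = (κ k : ℂ) • e k) ∧ (∀ z ∈ F, z = ∑ k, ⟪e k, z⟫_ℂ • e k) ∧
      ∀ z, c z = op κ e z := by
  obtain ⟨c', hc'⟩ : ∃ c' : F →ₗ[ℂ] F, ∀ z : F, (c' z : E) = c z :=
    ⟨c.restrict (fun z _ => hF z), fun z => rfl⟩
  have hsym : c'.IsSymmetric := by
    intro w z
    show ⟪(c' w : E), (z : E)⟫_ℂ = ⟪(w : E), (c' z : E)⟫_ℂ
    rw [hc', hc']
    exact hc w z
  obtain ⟨b, hb⟩ : ∃ b : OrthonormalBasis (Fin (Module.finrank ℂ F)) ℂ F,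
    b = hsym.eigenvectorBasis rfl := ⟨_, rfl⟩
  have he : ∀ k, c (b k : E) = ((hsym.eigenvalues rfl k : ℝ) : ℂ) • (b k : E) := by
    intro k
    have h1 := hsym.apply_eigenvectorBasis rfl k
    rw [← hb] at h1
    have h2 : (c' (b k) : E) = ((hsym.eigenvalues rfl k : ℝ) : ℂ) • (b k : E) :=
      congrArg (Subtype.val : F → E) h1
    rw [← h2, hc']
  have hexp : ∀ z ∈ F, z = ∑ k, ⟪(b k : E), z⟫_ℂ • (b k : E) := by
    intro z hz
    have h1 := b.sum_repr' (⟨z, hz⟩ : F)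
    have h2 := congrArg (Subtype.val : F → E) h1
    rw [Submodule.coe_sum] at h2
    exact h2.symm
  refine ⟨Module.finrank ℂ F, fun k => (b k : E), hsym.eigenvalues rfl,
    b.orthonormal.comp_linearIsometry F.subtypeₗᵢ, he, hexp, fun z => ?_⟩
  rw [hexp (c z) (hF z), op_apply]
  refine Finset.sum_congr rfl fun k _ => ?_
  rw [← hc (b k : E) z, he, inner_smul_left, Complex.conj_ofReal]

/-- the square root of `∑ |v_j⟩⟨v_j|` -/
lemma sqrt_ex {n : ℕ} (v : Fin n → E) : ∃ (r : ℕ) (f : Fin r → E) (s : Fin r → ℝ),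
    Orthonormal ℂ f ∧ (∀ i, 0 ≤ s i) ∧
    (∀ z, ‖op s f z‖ ^ 2 = ∑ j, ‖⟪v j, z⟫_ℂ‖ ^ 2) ∧
    ∀ T : E →L[ℂ] E, ∑ j, ⟪v j, T (v j)⟫_ℂ = ∑ i, ((s i ^ 2 : ℝ) : ℂ) * ⟪f i, T (f i)⟫_ℂ := by
  obtain ⟨h, hh⟩ : ∃ h : E →L[ℂ] E, h = op (fun _ => 1) v := ⟨_, rfl⟩
  have happ : ∀ z, h z = ∑ j, ⟪v j, z⟫_ℂ • v j := by
    intro z
    rw [hh, op_apply]
    simp
  have hsym : (h : E →ₗ[ℂ] E).IsSymmetric := by
    intro w z
    rw [hh]
    exact op_symm _ _ w z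
  have : FiniteDimensional ℂ (Submodule.span ℂ (Set.range v)) :=
    FiniteDimensional.span_of_finite ℂ (Set.finite_range v)
  obtain ⟨r, f, l, hf, hl, hspan, hop⟩ := spec (h : E →ₗ[ℂ] E) hsym (Submodule.span ℂ (Set.range v))
    (fun z => by
      show h z ∈ _
      rw [happ]
      exact Submodule.sum_mem _ fun j _ => Submodule.smul_mem _ _ (Submodule.subset_span ⟨j, rfl⟩))
  have hquad : ∀ z, ∑ i, l i * ‖⟪f i, z⟫_ℂ‖ ^ 2 = ∑ j, ‖⟪v j, z⟫_ℂ‖ ^ 2 := by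
    intro z
    have h1 : ((∑ i, l i * ‖⟪f i, z⟫_ℂ‖ ^ 2 : ℝ) : ℂ) = ((∑ j, 1 * ‖⟪v j, z⟫_ℂ‖ ^ 2 : ℝ) : ℂ) := by
      rw [← inner_op_self, ← inner_op_self, ← hop z, hh]
      rfl
    have h2 : (∑ i, l i * ‖⟪f i, z⟫_ℂ‖ ^ 2 : ℝ) = ∑ j, 1 * ‖⟪v j, z⟫_ℂ‖ ^ 2 := by
      exact_mod_cast h1
    rw [h2]
    simp
  have hl0 : ∀ i, 0 ≤ l i := by
    intro i
    have h1 : (l i : ℂ) = ⟪f i, h (f i)⟫_ℂ := by
      have h2 : h (f i) = (l i : ℂ) • f i := hl i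
      rw [h2, inner_smul_right, inner_self_eq_norm_sq_to_K, hf.1 i]
      simp
    rw [hh, inner_op_self] at h1
    have h3 : l i = ∑ j, 1 * ‖⟪v j, f i⟫_ℂ‖ ^ 2 := by exact_mod_cast h1
    rw [h3]
    positivity
  refine ⟨r, f, fun i => √(l i), hf, fun i => Real.sqrt_nonneg _, fun z => ?_, fun T => ?_⟩
  · rw [norm_op_sq _ _ hf, ← hquad]
    exact Finset.sum_congr rfl fun i _ => by rw [Real.sq_sqrt (hl0 i)]
  · have h1 : ∀ j, v j = ∑ i, ⟪f i, v j⟫_ℂ • f i := fun j => hspan (v j) (Submodule.subset_span ⟨j, rfl⟩)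
    have h2 : ∀ j, ⟪v j, T (v j)⟫_ℂ = ∑ i, ⟪f i, v j⟫_ℂ * ⟪v j, T (f i)⟫_ℂ := by
      intro j
      have h5 := congrArg T (h1 j)
      rw [map_sum] at h5
      rw [h5, inner_sum]
      exact Finset.sum_congr rfl fun i _ => by rw [map_smul, inner_smul_right]
    rw [Finset.sum_congr rfl fun j _ => h2 j, Finset.sum_comm]
    refine Finset.sum_congr rfl fun i _ => ?_
    have h3 : h (f i) = (l i : ℂ) • f i := hl i
    have h4 : ⟪h (f i), T (f i)⟫_ℂ = (l i : ℂ) * ⟪f i, T (f i)⟫_ℂ := by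
      rw [h3, inner_smul_left, Complex.conj_ofReal]
    rw [Real.sq_sqrt (hl0 i), ← h4, happ, sum_inner]
    exact Finset.sum_congr rfl fun j _ => by rw [inner_smul_left, inner_conj_symm]

lemma norm_unitary [CompleteSpace E] (u : E →L[ℂ] E) (hu : star u * u = 1) (w : E) :
    ‖u w‖ = ‖w‖ := by
  have h1 : ⟪u w, u w⟫_ℂ = ⟪w, w⟫_ℂ := by
    rw [← ContinuousLinearMap.adjoint_inner_right, ← ContinuousLinearMap.star_eq_adjoint]
    have h2 : star u (u w) = (star u * u) w := rfl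
    rw [h2, hu]
    rfl
  rw [inner_self_eq_norm_sq_to_K, inner_self_eq_norm_sq_to_K] at h1
  have h3 : ‖u w‖ ^ 2 = ‖w‖ ^ 2 := by exact_mod_cast h1
  exact (sq_eq_sq₀ (norm_nonneg _) (norm_nonneg _)).1 h3

/-- the Powers-Størmer inequality -/
lemma core [CompleteSpace E] {r n : ℕ} (v : Fin n → E) (f : Fin r → E) (s : Fin r → ℝ)
    (hs : ∀ i, 0 ≤ s i) (hq : ∀ z, ‖op s f z‖ ^ 2 = ∑ j, ‖⟪v j, z⟫_ℂ‖ ^ 2) (u : E →L[ℂ] E)
    (hu : star u * u = 1) (ε : ℝ) (hε0 : 0 ≤ ε)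
    (hε : ∀ T : E →L[ℂ] E,
      ‖∑ j, ⟪u (v j), T (u (v j))⟫_ℂ - ∑ j, ⟪v j, T (v j)⟫_ℂ‖ ≤ ε * ‖T‖) :
    ∃ (m : ℕ) (e : Fin m → E) (κ : Fin m → ℝ), Orthonormal ℂ e ∧
      (∀ z, op s (fun i => u (f i)) z - op s f z = op κ e z) ∧ ∑ k, κ k ^ 2 ≤ ε := by
  obtain ⟨a, ha⟩ : ∃ a : E →L[ℂ] E, a = op s f := ⟨_, rfl⟩
  obtain ⟨b, hb⟩ : ∃ b : E →L[ℂ] E, b = op s (fun i => u (f i)) := ⟨_, rfl⟩
  have hsym : ((b - a : E →L[ℂ] E) : E →ₗ[ℂ] E).IsSymmetric := by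
    intro w z
    show ⟪b w - a w, z⟫_ℂ = ⟪w, b z - a z⟫_ℂ
    rw [inner_sub_left, inner_sub_right, ha, hb, op_symm, op_symm]
  obtain ⟨F, hFd⟩ : ∃ F : Submodule ℂ E,
    F = Submodule.span ℂ (Set.range f ∪ Set.range fun i => u (f i)) := ⟨_, rfl⟩
  have : FiniteDimensional ℂ F := by
    rw [hFd]
    exact FiniteDimensional.span_of_finite ℂ ((Set.finite_range f).union (Set.finite_range _))
  obtain ⟨m, e, κ, he, hκ, -, hop⟩ := spec ((b - a : E →L[ℂ] E) : E →ₗ[ℂ] E) hsym F (fun z => by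
    show b z - a z ∈ F
    rw [hFd, ha, hb, op_apply, op_apply]
    refine Submodule.sub_mem _ ?_ ?_
    · exact Submodule.sum_mem _ fun i _ => Submodule.smul_mem _ _
        (Submodule.subset_span (Or.inr ⟨i, rfl⟩))
    · exact Submodule.sum_mem _ fun i _ => Submodule.smul_mem _ _
        (Submodule.subset_span (Or.inl ⟨i, rfl⟩)))
  have hop' : ∀ z, b z - a z = op κ e z := hop
  have hκ' : ∀ k, b (e k) - a (e k) = (κ k : ℂ) • e k := hκ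
  refine ⟨m, e, κ, he, fun z => by rw [← hop', ha, hb], ?_⟩
  -- the quadratic forms
  obtain ⟨qa, hqa⟩ : ∃ qa : E → ℝ, ∀ z, qa z = ∑ i, s i * ‖⟪f i, z⟫_ℂ‖ ^ 2 := ⟨_, fun _ => rfl⟩
  obtain ⟨qb, hqb⟩ : ∃ qb : E → ℝ, ∀ z, qb z = ∑ i, s i * ‖⟪u (f i), z⟫_ℂ‖ ^ 2 := ⟨_, fun _ => rfl⟩
  have hqa0 : ∀ z, 0 ≤ qa z := fun z => by
    rw [hqa]
    exact Finset.sum_nonneg fun i _ => mul_nonneg (hs i) (sq_nonneg _)
  have hqb0 : ∀ z, 0 ≤ qb z := fun z => by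
    rw [hqb]
    exact Finset.sum_nonneg fun i _ => mul_nonneg (hs i) (sq_nonneg _)
  have hqa1 : ∀ z, ⟪z, a z⟫_ℂ = (qa z : ℂ) := fun z => by rw [ha, inner_op_self, hqa]
  have hqb1 : ∀ z, ⟪z, b z⟫_ℂ = (qb z : ℂ) := fun z => by rw [hb, inner_op_self, hqb]
  have hkk : ∀ k, κ k = qb (e k) - qa (e k) := by
    intro k
    have h1 : ⟪e k, b (e k) - a (e k)⟫_ℂ = ((qb (e k) - qa (e k) : ℝ) : ℂ) := by
      rw [inner_sub_right, hqa1, hqb1]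
      push_cast
      rfl
    rw [hκ', inner_smul_right, inner_self_eq_norm_sq_to_K, he.1 k] at h1
    have h2 : (κ k : ℂ) = ((qb (e k) - qa (e k) : ℝ) : ℂ) := by
      rw [← h1]
      simp
    exact_mod_cast h2
  -- the difference of the squares
  have hsq : ∀ k, ‖b (e k)‖ ^ 2 - ‖a (e k)‖ ^ 2 = κ k * (qb (e k) + qa (e k)) := by
    intro k
    have h1 : (⟪b (e k) - a (e k), b (e k) + a (e k)⟫_ℂ).re = ‖b (e k)‖ ^ 2 - ‖a (e k)‖ ^ 2 := by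
      rw [inner_sub_left, inner_add_right, inner_add_right, inner_self_eq_norm_sq_to_K,
        inner_self_eq_norm_sq_to_K, ← inner_conj_symm (a (e k)) (b (e k))]
      simp only [Complex.sub_re, Complex.add_re, Complex.conj_re, Complex.coe_algebraMap]
      rw [← Complex.ofReal_pow, ← Complex.ofReal_pow, Complex.ofReal_re, Complex.ofReal_re]
      ring
    rw [← h1, hκ', inner_smul_left, inner_add_right, hqa1, hqb1, Complex.conj_ofReal]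
    rw [← Complex.ofReal_add, ← Complex.ofReal_mul, Complex.ofReal_re]
  -- the test operator
  obtain ⟨σ, hσ⟩ : ∃ σ : Fin m → ℝ, ∀ k, σ k ^ 2 = 1 ∧ σ k * κ k = |κ k| := by
    refine ⟨fun k => if 0 ≤ κ k then 1 else -1, fun k => ?_⟩
    by_cases h : 0 ≤ κ k
    · simp [h, abs_of_nonneg h]
    · simp [h, abs_of_neg (not_le.1 h)]
  have hT1 : ‖op σ e‖ ≤ 1 := by
    refine ContinuousLinearMap.opNorm_le_bound _ zero_le_one fun z => ?_
    rw [one_mul]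
    refine (sq_le_sq₀ (norm_nonneg _) (norm_nonneg _)).1 ?_
    rw [norm_op_sq _ _ he]
    refine le_trans (le_of_eq ?_) (he.sum_inner_products_le z (s := Finset.univ))
    exact Finset.sum_congr rfl fun k _ => by rw [(hσ k).1, one_mul]
  have hTv : ∀ w : Fin n → E, ∑ j, ⟪w j, op σ e (w j)⟫_ℂ =
      ((∑ k, σ k * ∑ j, ‖⟪w j, e k⟫_ℂ‖ ^ 2 : ℝ) : ℂ) := by
    intro w
    rw [Finset.sum_congr rfl fun j _ => inner_op_self σ e (w j), ← Complex.ofReal_sum]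
    congr 1
    rw [Finset.sum_comm]
    refine Finset.sum_congr rfl fun k _ => ?_
    rw [Finset.mul_sum]
    exact Finset.sum_congr rfl fun j _ => by rw [norm_inner_symm]
  have h1 := hε (op σ e)
  rw [hTv, hTv, ← Complex.ofReal_sub, Complex.norm_real] at h1
  have h2 : ∀ k, ∑ j, ‖⟪v j, e k⟫_ℂ‖ ^ 2 = ‖a (e k)‖ ^ 2 := fun k => by rw [ha, hq]
  have h3 : ∀ k, ∑ j, ‖⟪u (v j), e k⟫_ℂ‖ ^ 2 = ‖b (e k)‖ ^ 2 := by
    intro k
    have h4 : b (e k) = u (op s f (star u (e k))) := by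
      rw [hb, op_apply, op_apply, map_sum]
      refine Finset.sum_congr rfl fun i _ => ?_
      rw [map_smul, ContinuousLinearMap.star_eq_adjoint, ContinuousLinearMap.adjoint_inner_right]
    rw [h4, norm_unitary u hu, hq]
    refine Finset.sum_congr rfl fun j _ => ?_
    rw [ContinuousLinearMap.star_eq_adjoint, ContinuousLinearMap.adjoint_inner_right]
  simp only [h2, h3] at h1
  calc ∑ k, κ k ^ 2 ≤ ∑ k, σ k * (‖b (e k)‖ ^ 2 - ‖a (e k)‖ ^ 2) := by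
        refine Finset.sum_le_sum fun k _ => ?_
        rw [hsq, ← mul_assoc, (hσ k).2, ← sq_abs, sq]
        refine mul_le_mul_of_nonneg_left ?_ (abs_nonneg _)
        rw [hkk k]
        rw [abs_le]
        constructor <;> linarith [hqa0 (e k), hqb0 (e k)]
    _ = ∑ k, σ k * ‖b (e k)‖ ^ 2 - ∑ k, σ k * ‖a (e k)‖ ^ 2 := by
        rw [← Finset.sum_sub_distrib]
        exact Finset.sum_congr rfl fun k _ => by ring
    _ ≤ ‖∑ k, σ k * ‖b (e k)‖ ^ 2 - ∑ k, σ k * ‖a (e k)‖ ^ 2‖ := le_abs_self _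
    _ ≤ ε * ‖op σ e‖ := h1
    _ ≤ ε * 1 := mul_le_mul_of_nonneg_left hT1 hε0
    _ = ε := mul_one ε

end hil

/-! ### vectors in `ℓ²(X × X)` -/

section vec

open Pool.Agent.H812R3.KP (mem_of_summable summable_sq amp_apply ampF_ext pull_apply amp_inj)

variable {X : Type}

lemma tn_mem (p q : L2 X) : Memℓp (fun z : X × X => p z.1 * conj (q z.2)) 2 := by
  refine mem_of_summable ?_
  have h1 := (summable_sq p).mul_of_nonneg (summable_sq q) (fun x => sq_nonneg _)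
    (fun x => sq_nonneg _)
  refine h1.congr fun z => ?_
  rw [norm_mul, RCLike.norm_conj, mul_pow]

/-- the vector of the rank one operator `|p⟩⟨q|` -/
def tn (p q : L2 X) : L2 (X × X) := ⟨fun z => p z.1 * conj (q z.2), tn_mem p q⟩

lemma tn_apply (p q : L2 X) (x y : X) : tn p q (x, y) = p x * conj (q y) := rfl

lemma inner_tn (p q p' q' : L2 X) : ⟪tn p q, tn p' q'⟫_ℂ = ⟪p, p'⟫_ℂ * ⟪q', q⟫_ℂ := by
  have h0 : HasSum (fun z : X × X => (⟪(tn p q) z, (tn p' q') z⟫_ℂ : ℂ)) ⟪tn p q, tn p' q'⟫_ℂ :=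
    lp.hasSum_inner (𝕜 := ℂ) (tn p q) (tn p' q')
  have h1 : HasSum (fun x : X => (⟪p x, p' x⟫_ℂ : ℂ)) ⟪p, p'⟫_ℂ := lp.hasSum_inner (𝕜 := ℂ) p p'
  have h2 : HasSum (fun x : X => (⟪q' x, q x⟫_ℂ : ℂ)) ⟪q', q⟫_ℂ := lp.hasSum_inner (𝕜 := ℂ) q' q
  have e : ∀ z : X × X, (⟪(tn p q) z, (tn p' q') z⟫_ℂ : ℂ) =
      ⟪p z.1, p' z.1⟫_ℂ * ⟪q' z.2, q z.2⟫_ℂ := by
    rintro ⟨x, y⟩
    rw [tn_apply, tn_apply]
    simp only [RCLike.inner_apply, map_mul, RCLike.conj_conj]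
    ring
  have h3 : Summable fun z : X × X => (⟪p z.1, p' z.1⟫_ℂ * ⟪q' z.2, q z.2⟫_ℂ : ℂ) :=
    h0.summable.congr e
  have h4 : HasSum (fun z : X × X => (⟪p z.1, p' z.1⟫_ℂ * ⟪q' z.2, q z.2⟫_ℂ : ℂ))
      (⟪p, p'⟫_ℂ * ⟪q', q⟫_ℂ) :=
    HasSum.mul (f := fun x : X => (⟪p x, p' x⟫_ℂ : ℂ)) (g := fun x : X => (⟪q' x, q x⟫_ℂ : ℂ))
      h1 h2 h3
  exact h0.unique (by rwa [show (fun z : X × X => (⟪(tn p q) z, (tn p' q') z⟫_ℂ : ℂ)) = _ from funext e])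

lemma a1_tn (T : B X) (p q : L2 X) : a1 T (tn p q) = tn (T p) q := by
  refine ampF_ext (Equiv.refl (X × X)) fun x z => ?_
  rw [a1, amp_apply]
  have h1 : Pool.Agent.H812R3.KP.pull (fun x => (Equiv.refl (X × X)) (x, z))
      (amp_inj (Equiv.refl (X × X)) z) (tn p q) = conj (q z) • p := by
    ext w
    rw [pull_apply]
    show p w * conj (q z) = conj (q z) * p w
    ring
  rw [h1, map_smul]
  show conj (q z) * (T p) x = (T p) x * conj (q z)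
  ring

lemma a2_tn (u : B X) (p q : L2 X) : a2 (cj u) (tn p q) = tn p (u q) := by
  refine ampF_ext (Equiv.prodComm X X) fun x z => ?_
  rw [a2, amp_apply]
  have h1 : Pool.Agent.H812R3.KP.pull (fun x => (Equiv.prodComm X X) (x, z))
      (amp_inj (Equiv.prodComm X X) z) (tn p q) = p z • star q := by
    ext w
    rw [pull_apply]
    rfl
  rw [h1, map_smul]
  have h2 : cj u (star q) = star (u q) := by
    show star (u (star (star q))) = _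
    rw [star_star]
  rw [h2]
  rfl

/-- the vector of the operator `op s f` -/
def vec {r : ℕ} (s : Fin r → ℝ) (f : Fin r → L2 X) : L2 (X × X) :=
  ∑ i, (s i : ℂ) • tn (f i) (f i)

lemma vec_apply {r : ℕ} (s : Fin r → ℝ) (f : Fin r → L2 X) (x y : X) :
    vec s f (x, y) = (op s f (dl y)) x := by
  rw [← Pool.Agent.H494R3.GT.inner_dl x, inner_op, ← Pool.Agent.H494R3.GT.inner_dl (x, y), vec,
    inner_sum]
  refine Finset.sum_congr rfl fun i _ => ?_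
  rw [inner_smul_right, Pool.Agent.H494R3.GT.inner_dl, Pool.Agent.H494R3.GT.inner_dl, tn_apply,
    ← inner_conj_symm, Pool.Agent.H494R3.GT.inner_dl]
  ring

lemma norm_vec_sq {r : ℕ} (s : Fin r → ℝ) (f : Fin r → L2 X) (hf : Orthonormal ℂ f) :
    ‖vec s f‖ ^ 2 = ∑ i, s i ^ 2 := by
  classical
  have h1 : Orthonormal ℂ fun i => tn (f i) (f i) := by
    rw [orthonormal_iff_ite]
    intro i j
    rw [inner_tn, orthonormal_iff_ite.1 hf i j, orthonormal_iff_ite.1 hf j i]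
    by_cases h : i = j
    · simp [h]
    · simp [h, Ne.symm h]
  have h2 : ((‖vec s f‖ ^ 2 : ℝ) : ℂ) = ((∑ i, s i ^ 2 : ℝ) : ℂ) := by
    have h3 : ⟪vec s f, vec s f⟫_ℂ = (‖vec s f‖ : ℂ) ^ 2 := inner_self_eq_norm_sq_to_K _
    rw [Complex.ofReal_pow, ← h3, vec, h1.inner_sum]
    push_cast
    exact Finset.sum_congr rfl fun i _ => by rw [Complex.conj_ofReal, sq]
  exact_mod_cast h2

lemma inner_vec {r : ℕ} (s : Fin r → ℝ) (f : Fin r → L2 X) (hf : Orthonormal ℂ f) (T : B X) :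
    ⟪vec s f, a1 T (vec s f)⟫_ℂ = ∑ i, ((s i ^ 2 : ℝ) : ℂ) * ⟪f i, T (f i)⟫_ℂ := by
  classical
  rw [vec, map_sum, sum_inner]
  refine Finset.sum_congr rfl fun i _ => ?_
  rw [inner_sum, Finset.sum_eq_single i]
  · rw [map_smul, inner_smul_left, inner_smul_right, a1_tn, inner_tn,
      orthonormal_iff_ite.1 hf i i, if_pos rfl, Complex.conj_ofReal]
    push_cast
    ring
  · intro j _ hj
    rw [map_smul, inner_smul_left, inner_smul_right, a1_tn, inner_tn,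
      orthonormal_iff_ite.1 hf j i, if_neg hj]
    ring
  · intro h
    exact absurd (Finset.mem_univ i) h

end vec

end PS

/-- PS with a nonnegative bound -/
def S_PS2 : Prop :=
  ∀ (X : Type) (n : ℕ) (v : Fin n → L2 X), ∃ ξ : L2 (X × X),
    (∀ T : B X, ⟪ξ, a1 T ξ⟫_ℂ = ∑ j, ⟪v j, T (v j)⟫_ℂ) ∧
    ∀ u : B X, Un u → ∀ ε : ℝ, 0 ≤ ε → (∀ T : B X,
      ‖∑ j, ⟪u (v j), T (u (v j))⟫_ℂ - ∑ j, ⟪v j, T (v j)⟫_ℂ‖ ≤ ε * ‖T‖) →
      ‖a1 u (a2 (cj u) ξ) - ξ‖ ^ 2 ≤ ε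

theorem t_ps2 : S_PS2 := by
  intro X n v
  obtain ⟨r, f, s, hf, hs, hq, hT⟩ := PS.sqrt_ex v
  refine ⟨PS.vec s f, fun T => by rw [PS.inner_vec s f hf, hT], ?_⟩
  intro u hu ε hε0 hε
  obtain ⟨m, e, κ, he, hop, hκ⟩ := PS.core v f s hs hq u hu.left ε hε0 hε
  have h1 : a1 u (a2 (cj u) (PS.vec s f)) - PS.vec s f = PS.vec κ e := by
    have h2 : a1 u (a2 (cj u) (PS.vec s f)) = PS.vec s fun i => u (f i) := by
      rw [PS.vec, map_sum, map_sum, PS.vec]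
      refine Finset.sum_congr rfl fun i _ => ?_
      rw [map_smul, map_smul, PS.a2_tn, PS.a1_tn]
    rw [h2]
    ext z
    obtain ⟨x, y⟩ := z
    rw [PS.vec_apply, ← hop]
    show (PS.vec s fun i => u (f i)) (x, y) - (PS.vec s f) (x, y) = _
    rw [PS.vec_apply, PS.vec_apply]
    rfl
  rw [h1, PS.norm_vec_sq κ e he]
  exact hκ

/-- PS for nonempty sets -/
theorem t_ps1 (X : Type) [Nonempty X] (n : ℕ) (v : Fin n → L2 X) : ∃ ξ : L2 (X × X),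
    (∀ T : B X, ⟪ξ, a1 T ξ⟫_ℂ = ∑ j, ⟪v j, T (v j)⟫_ℂ) ∧
    ∀ u : B X, Un u → ∀ ε : ℝ, (∀ T : B X,
      ‖∑ j, ⟪u (v j), T (u (v j))⟫_ℂ - ∑ j, ⟪v j, T (v j)⟫_ℂ‖ ≤ ε * ‖T‖) →
      ‖a1 u (a2 (cj u) ξ) - ξ‖ ^ 2 ≤ ε := by
  obtain ⟨ξ, h1, h2⟩ := t_ps2 X n v
  refine ⟨ξ, h1, fun u hu ε hε => h2 u hu ε ?_ hε⟩
  obtain ⟨x⟩ := ‹Nonempty X›
  have hne : (dl x : L2 X) ≠ 0 := by
    intro h
    have h3 := Pool.Agent.H494R3.GT.dl_apply_self x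
    rw [h] at h3
    simp at h3
  have : Nontrivial (L2 X) := ⟨⟨dl x, 0, hne⟩⟩
  have h3 := (norm_nonneg _).trans (hε 1)
  rw [norm_one, mul_one] at h3
  exact h3

end

end Pool.Agent.N571.SS.D
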