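import Pool.Agent.N571.SS.D.Stm

/-!
# Project SS/D: the Powers-Størmer inequality for traces (helper702)
-/

set_option autoImplicit false

namespace Pool.Agent.N571.SS.D.PSCaux

open Filter Topology
open scoped InnerProductSpace ComplexOrder

variable {H : Type} [NormedAddCommGroup H] [InnerProductSpace ℂ H] [CompleteSpace H]

/-- `x / (|x| + r)` -/
noncomputable def ff (r x : ℝ) : ℝ := x / (|x| + r)

/-- `x₊ / √(|x| + r)` -/
noncomputable def hp (r x : ℝ) : ℝ := max x 0 / √(|x| + r)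

/-- `x₋ / √(|x| + r)` -/
noncomputable def hm (r x : ℝ) : ℝ := max (-x) 0 / √(|x| + r)

lemma cff {r : ℝ} (hr : 0 < r) : Continuous (ff r) := by
  unfold ff
  refine continuous_id.div (by fun_prop) ?_
  intro x
  have := abs_nonneg x
  positivity

lemma chp {r : ℝ} (hr : 0 < r) : Continuous (hp r) := by
  unfold hp
  refine Continuous.div (by fun_prop) (by fun_prop) ?_
  intro x
  have := abs_nonneg x
  positivity

lemma chm {r : ℝ} (hr : 0 < r) : Continuous (hm r) := by
  unfold hm
  refine Continuous.div (by fun_prop) (by fun_prop) ?_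
  intro x
  have := abs_nonneg x
  positivity

lemma e1 {r : ℝ} (hr : 0 < r) (x : ℝ) : hp r x * hp r x + hm r x * hm r x = x * ff r x := by
  have h0 : 0 < |x| + r := by have := abs_nonneg x; positivity
  have h1 : √(|x| + r) * √(|x| + r) = |x| + r := Real.mul_self_sqrt h0.le
  unfold hp hm ff
  rw [div_mul_div_comm, div_mul_div_comm, h1, ← add_div, mul_div_assoc']
  congr 1
  rcases le_total 0 x with h | h
  · rw [max_eq_left h, max_eq_right (by linarith)]; ring
  · rw [max_eq_right h, max_eq_left (by linarith)]; ring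

lemma e2 {r : ℝ} (hr : 0 < r) (x : ℝ) :
    ‖x * x - (hp r x * x * hp r x - hm r x * x * hm r x)‖ ≤ r * |x| := by
  have h0 : 0 < |x| + r := by have := abs_nonneg x; positivity
  have h1 : √(|x| + r) * √(|x| + r) = |x| + r := Real.mul_self_sqrt h0.le
  have h2 : hp r x * x * hp r x - hm r x * x * hm r x = |x| * (x * x) / (|x| + r) := by
    unfold hp hm
    have gen : ∀ m w : ℝ, m / w * x * (m / w) = (m * m * x) / (w * w) := fun m w => by
      rw [div_mul_eq_mul_div, div_mul_div_comm]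
      congr 1
      ring
    have e3 : max x 0 / √(|x| + r) * x * (max x 0 / √(|x| + r)) =
        (max x 0 * max x 0 * x) / (|x| + r) := by
      rw [gen, h1]
    have e4 : max (-x) 0 / √(|x| + r) * x * (max (-x) 0 / √(|x| + r)) =
        (max (-x) 0 * max (-x) 0 * x) / (|x| + r) := by
      rw [gen, h1]
    rw [e3, e4, ← sub_div]
    congr 1
    rcases le_total 0 x with h | h
    · rw [max_eq_left h, max_eq_right (by linarith), abs_of_nonneg h]; ring
    · rw [max_eq_right h, max_eq_left (by linarith), abs_of_nonpos h]; ring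
  have h3 : x * x = |x| * |x| := (abs_mul_abs_self x).symm
  have h4 : x * x - |x| * (x * x) / (|x| + r) = r * |x| * (|x| / (|x| + r)) := by
    rw [h3]; field_simp; ring
  rw [h2, h4]
  have h5 : 0 ≤ |x| / (|x| + r) := by positivity
  have h6 : |x| / (|x| + r) ≤ 1 := by
    rw [div_le_one h0]; linarith
  rw [Real.norm_of_nonneg (by positivity)]
  exact mul_le_of_le_one_right (by positivity) h6

lemma e3 {r : ℝ} (hr : 0 < r) (x : ℝ) : ‖ff r x‖ ≤ 1 := by
  have h0 : 0 < |x| + r := by have := abs_nonneg x; positivity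
  unfold ff
  rw [norm_div, Real.norm_eq_abs, Real.norm_of_nonneg h0.le, div_le_one h0]
  linarith

/-- the main estimate -/
lemma main (C : StarSubalgebra ℂ (H →L[ℂ] H)) (Ω : H) (hT : Tr C Ω) (a : H →L[ℂ] H) (ha : a ∈ C)
    (b : H →L[ℂ] H) (hb : b ∈ C) (pa : Pos a) (pb : Pos b) (δ : ℝ)
    (hδ : ∀ Z ∈ C, ‖⟪Ω, (Z * (a * a - b * b)) Ω⟫_ℂ‖ ≤ δ * ‖Z‖) (hδ0 : 0 ≤ δ) {r : ℝ}
    (hr : 0 < r) : ‖a Ω - b Ω‖ ^ 2 ≤ δ + r * ‖a - b‖ := by
  set c : H →L[ℂ] H := a - b with hc
  have hcC : c ∈ C := sub_mem ha hb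
  have hsa : IsSelfAdjoint c := by
    rw [isSelfAdjoint_iff, hc, star_sub, pa.sa, pb.sa]
  have hcl : IsClosed (C : Set (H →L[ℂ] H)) := hT.closed
  set Z : H →L[ℂ] H := cfc (ff r) c with hZ
  set P : H →L[ℂ] H := cfc (hp r) c with hP
  set N : H →L[ℂ] H := cfc (hm r) c with hN
  have ZC : Z ∈ C := cfc_mem (ff r) hcC
  have PC : P ∈ C := cfc_mem (hp r) hcC
  have NC : N ∈ C := cfc_mem (hm r) hcC
  have fc := (cff hr).continuousOn (s := spectrum ℝ c)
  have pc := (chp hr).continuousOn (s := spectrum ℝ c)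
  have mc := (chm hr).continuousOn (s := spectrum ℝ c)
  have ic : ContinuousOn (fun x : ℝ => x) (spectrum ℝ c) := continuousOn_id
  have cid : cfc (fun x : ℝ => x) c = c := cfc_id' ℝ c hsa
  have Psa : star P = P := by
    have : IsSelfAdjoint P := cfc_predicate (hp r) c
    exact this.star_eq
  have Nsa : star N = N := by
    have : IsSelfAdjoint N := cfc_predicate (hm r) c
    exact this.star_eq
  -- the algebra
  have A1 : P * P + N * N = c * Z := by
    rw [hP, hN, hZ]
    nth_rw 5 [← cid]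
    rw [← cfc_mul _ _ c pc pc, ← cfc_mul _ _ c mc mc, ← cfc_mul _ _ c ic fc,
      
      ← cfc_add c (fun x => hp r x * hp r x) (fun x => hm r x * hm r x) (pc.mul pc) (mc.mul mc)]
    exact cfc_congr fun x _ => e1 hr x
  have A2 : Z * c = c * Z := by
    rw [hZ]
    nth_rw 2 [← cid]
    nth_rw 3 [← cid]
    rw [← cfc_mul _ _ c fc ic, ← cfc_mul _ _ c ic fc]
    exact cfc_congr fun x _ => mul_comm _ _
  have A3 : ‖c * c - (P * c * P - N * c * N)‖ ≤ r * ‖c‖ := by
    have e : c * c - (P * c * P - N * c * N) =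
        cfc (fun x : ℝ => x * x - (hp r x * x * hp r x - hm r x * x * hm r x)) c := by
      rw [cfc_sub (fun x : ℝ => x * x) (fun x => hp r x * x * hp r x - hm r x * x * hm r x) c
        (ic.mul ic) (((pc.mul ic).mul pc).sub ((mc.mul ic).mul mc)),
        cfc_sub (fun x : ℝ => hp r x * x * hp r x) (fun x => hm r x * x * hm r x) c
        ((pc.mul ic).mul pc) ((mc.mul ic).mul mc),
        cfc_mul (fun x : ℝ => hp r x * x) (hp r) c (pc.mul ic) pc, cfc_mul (hp r) _ c pc ic,
        cfc_mul (fun x : ℝ => hm r x * x) (hm r) c (mc.mul ic) mc, cfc_mul (hm r) _ c mc ic,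
        cfc_mul (fun x : ℝ => x) _ c ic ic, cid]
    rw [e]
    refine norm_cfc_le (by positivity) fun x hx => (e2 hr x).trans ?_
    have : |x| ≤ ‖c‖ := by
      have := spectrum.norm_le_norm_mul_of_mem hx
      have h1 : ‖(1 : H →L[ℂ] H)‖ ≤ 1 := ContinuousLinearMap.norm_id_le
      calc |x| = ‖x‖ := rfl
        _ ≤ ‖c‖ * ‖(1 : H →L[ℂ] H)‖ := this
        _ ≤ ‖c‖ * 1 := by gcongr
        _ = ‖c‖ := mul_one _
    gcongr
  have Zn : ‖Z‖ ≤ 1 := norm_cfc_le zero_le_one fun x _ => e3 hr x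
  -- the trace
  set s : H →L[ℂ] H := a + b with hs
  have sC : s ∈ C := add_mem ha hb
  let t : (H →L[ℂ] H) → ℂ := fun X => ⟪Ω, X Ω⟫_ℂ
  have tadd : ∀ X Y, t (X + Y) = t X + t Y := fun X Y => by
    simp only [t, _root_.add_apply, inner_add_right]
  have tsub : ∀ X Y, t (X - Y) = t X - t Y := fun X Y => by
    simp only [t, _root_.sub_apply, inner_sub_right]
  have ttr : ∀ X ∈ C, ∀ Y ∈ C, t (X * Y) = t (Y * X) := hT.tracial
  have B1 : t (Z * (a * a - b * b)) = t (P * s * P) + t (N * s * N) := by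
    have h2 : (2 : ℂ) * t (Z * (a * a - b * b)) = t (Z * c * s) + t (Z * s * c) := by
      rw [← tadd, two_mul, ← tadd]
      congr 1
      rw [hc, hs]
      noncomm_ring
    have h3 : t (Z * s * c) = t (Z * c * s) := by
      rw [ttr (Z * s) (mul_mem ZC sC) c hcC, A2, ← mul_assoc]
    have h4 : t (Z * c * s) = t (P * s * P) + t (N * s * N) := by
      rw [A2, ← A1, add_mul, tadd]
      congr 1
      · rw [mul_assoc, ttr P PC (P * s) (mul_mem PC sC)]
      · rw [mul_assoc, ttr N NC (N * s) (mul_mem NC sC)]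
    rw [h3, h4, ← two_mul] at h2
    exact mul_left_cancel₀ two_ne_zero h2
  have tconj : ∀ (X Y : H →L[ℂ] H), star X = X → t (X * Y * X) = ⟪X Ω, Y (X Ω)⟫_ℂ := by
    intro X Y hX
    simp only [t, ContinuousLinearMap.mul_apply]
    rw [← ContinuousLinearMap.adjoint_inner_left, ← ContinuousLinearMap.star_eq_adjoint, hX]
  have B2 : (t (P * c * P)).re ≤ (t (P * s * P)).re := by
    rw [tconj P c Psa, tconj P s Psa]
    have h := pb.nonneg (P Ω)
    have e : ∀ v, s v = c v + (b v + b v) := fun v => by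
      rw [hs, hc]
      change a v + b v = (a v - b v) + (b v + b v)
      abel
    rw [e, inner_add_right, Complex.add_re, inner_add_right, Complex.add_re]
    linarith
  have B3 : -(t (N * c * N)).re ≤ (t (N * s * N)).re := by
    rw [tconj N c Nsa, tconj N s Nsa]
    have h := pa.nonneg (N Ω)
    have e : ∀ v, s v = (a v + a v) - c v := fun v => by
      rw [hs, hc]
      change a v + b v = (a v + a v) - (a v - b v)
      abel
    rw [e, inner_sub_right, Complex.sub_re, inner_add_right, Complex.add_re]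
    linarith
  have B4 : ‖t (c * c) - (t (P * c * P) - t (N * c * N))‖ ≤ r * ‖c‖ := by
    rw [← tsub, ← tsub]
    calc ‖t (c * c - (P * c * P - N * c * N))‖
        ≤ ‖Ω‖ * ‖(c * c - (P * c * P - N * c * N)) Ω‖ := norm_inner_le_norm _ _
      _ ≤ ‖Ω‖ * (‖c * c - (P * c * P - N * c * N)‖ * ‖Ω‖) := by
          gcongr
          exact ContinuousLinearMap.le_opNorm _ _
      _ ≤ r * ‖c‖ := by rw [hT.unit]; simpa using A3
  have B5 : ‖a Ω - b Ω‖ ^ 2 = (t (c * c)).re := by
    have h1 : t (c * c) = ⟪c Ω, c Ω⟫_ℂ := by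
      simp only [t, ContinuousLinearMap.mul_apply]
      rw [← ContinuousLinearMap.adjoint_inner_left, ← ContinuousLinearMap.star_eq_adjoint,
        hsa.star_eq]
    rw [h1, ← inner_self_eq_norm_sq (𝕜 := ℂ)]
    rfl
  have B6 : (t (Z * (a * a - b * b))).re ≤ δ := by
    calc (t (Z * (a * a - b * b))).re ≤ ‖t (Z * (a * a - b * b))‖ := Complex.re_le_norm _
      _ ≤ δ * ‖Z‖ := hδ Z ZC
      _ ≤ δ * 1 := by gcongr
      _ = δ := mul_one _
  have B7 : (t (c * c)).re - ((t (P * c * P)).re - (t (N * c * N)).re) ≤ r * ‖c‖ := by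
    have := (Complex.re_le_norm _).trans B4
    simpa [Complex.sub_re] using this
  rw [B1, Complex.add_re] at B6
  rw [B5]
  linarith

end Pool.Agent.N571.SS.D.PSCaux

namespace Pool.Agent.N571.SS.D

open Filter Topology
open scoped InnerProductSpace ComplexOrder

/-- PSC: the Powers-Størmer inequality for traces. -/
theorem t_psc : S_PSC := by
  intro H _ _ _ C Ω hT a ha b hb pa pb δ hδ
  have hδ0 : 0 ≤ δ := by
    have h := hδ 1 (one_mem C)
    have h1 : 0 ≤ δ * ‖(1 : H →L[ℂ] H)‖ := (norm_nonneg _).trans h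
    have hn : 0 < ‖(1 : H →L[ℂ] H)‖ := by
      rw [norm_pos_iff]
      intro h0
      have : Ω = 0 := by
        have := congrArg (fun T : H →L[ℂ] H => T Ω) h0
        simpa using this
      have hu := hT.unit
      rw [this, norm_zero] at hu
      exact zero_ne_one hu
    exact nonneg_of_mul_nonneg_left h1 hn
  have key : ∀ r : ℝ, 0 < r → ‖a Ω - b Ω‖ ^ 2 ≤ δ + r * ‖a - b‖ := fun r hr =>
    PSCaux.main C Ω hT a ha b hb pa pb δ hδ hδ0 hr
  have hlim : Tendsto (fun r : ℝ => δ + r * ‖a - b‖) (𝓝[>] 0) (𝓝 (δ + 0 * ‖a - b‖)) :=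
    ((continuous_const.add (continuous_id.mul continuous_const)).tendsto 0).mono_left
      nhdsWithin_le_nhds
  have := ge_of_tendsto hlim (eventually_mem_nhdsWithin.mono fun r hr => key r hr)
  simpa using this

end Pool.Agent.N571.SS.D
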