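import Pool.Agent.N571.SS.D.Stm3
import Pool.Agent.N571.EX.TR

/-!
# Project SS/D, leaf TRN2 (helper588 for helper571): transport of strong solidity from `ℓ²(Γ)` to
`ℓ²(Z/2 ≀ Γ)`
-/

set_option autoImplicit false

namespace Pool.Agent.N571.SS.D

open Filter Topology
open scoped InnerProductSpace ComplexOrder
open Pool.Agent.H494R3.GT (L2 dl op_ext op_ext_inner vec_ext inner_dl)
open Pool.Agent.N557.QW (lam rgt LG LK cf rc mem_LG_iff)
open Pool.Agent.H812R3.KP (amp pull push amp_inj pull_apply push_dl amp_apply dl_apply amp_mul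
  amp_star amp_one)

namespace Trn2

section gen

variable {X Z Y : Type} (e : X × Z ≃ Y)

/-- the inclusion of the slice -/
noncomputable def V (z : Z) : L2 X →L[ℂ] L2 Y := push (fun x => e (x, z)) (amp_inj e z)

/-- the restriction to the slice -/
noncomputable def Vs (z : Z) : L2 Y →L[ℂ] L2 X := pull (fun x => e (x, z)) (amp_inj e z)

theorem adj_Vs (z : Z) : ContinuousLinearMap.adjoint (Vs e z) = V e z := rfl

theorem adj_V (z : Z) : ContinuousLinearMap.adjoint (V e z) = Vs e z := by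
  rw [← adj_Vs, ContinuousLinearMap.adjoint_adjoint]

theorem V_dl (z : Z) (x : X) : V e z (dl x) = dl (e (x, z)) := push_dl _ _ _

theorem Vs_dl_same (z : Z) (x : X) : Vs e z (dl (e (x, z))) = dl x := by
  classical
  apply vec_ext
  intro w
  have h1 : (Vs e z (dl (e (x, z)))) w = (dl (e (x, z)) : L2 Y) (e (w, z)) := rfl
  rw [h1]
  have h2 := dl_apply (e (x, z)) (e (w, z))
  have h3 := dl_apply x w
  have h4 : (dl (e (x, z)) : L2 Y) (e (w, z)) = if e (w, z) = e (x, z) then 1 else 0 := h2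
  have h5 : (dl x : L2 X) w = if w = x then 1 else 0 := h3
  rw [h4, h5]
  simp

theorem Vs_dl_ne {z z' : Z} (h : z ≠ z') (x : X) : Vs e z (dl (e (x, z'))) = 0 := by
  classical
  apply vec_ext
  intro w
  have h1 : (Vs e z (dl (e (x, z')))) w = (dl (e (x, z')) : L2 Y) (e (w, z)) := rfl
  rw [h1]
  have h4 : (dl (e (x, z')) : L2 Y) (e (w, z)) = if e (w, z) = e (x, z') then 1 else 0 :=
    dl_apply (e (x, z')) (e (w, z))
  rw [h4]
  simp [h]

theorem Vs_V_same (z : Z) : (Vs e z).comp (V e z) = 1 := op_ext fun x => by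
  rw [ContinuousLinearMap.comp_apply, V_dl, Vs_dl_same]; rfl

theorem Vs_V_ne {z z' : Z} (h : z ≠ z') : (Vs e z).comp (V e z') = 0 := op_ext fun x => by
  rw [ContinuousLinearMap.comp_apply, V_dl, Vs_dl_ne e h]; rfl

theorem Vs_amp (T : B X) (z : Z) : (Vs e z).comp (amp e T) = T.comp (Vs e z) := by
  ext ξ : 1
  apply vec_ext
  intro w
  exact amp_apply e T ξ w z

theorem amp_V (T : B X) (z : Z) : (amp e T).comp (V e z) = (V e z).comp T := by
  have h := congrArg ContinuousLinearMap.adjoint (Vs_amp e (star T) z)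
  rw [ContinuousLinearMap.adjoint_comp, ContinuousLinearMap.adjoint_comp, adj_Vs,
    ← ContinuousLinearMap.star_eq_adjoint, ← ContinuousLinearMap.star_eq_adjoint, star_star,
    amp_star, star_star] at h
  exact h

/-- the blocks of an operator -/
noncomputable def blk (z z' : Z) (A : B Y) : B X := (Vs e z).comp (A.comp (V e z'))

theorem blk_ext {A A' : B Y} (h : ∀ z z', blk e z z' A = blk e z z' A') : A = A' := by
  apply op_ext_inner
  intro y y'
  obtain ⟨⟨x, z⟩, rfl⟩ := e.surjective y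
  obtain ⟨⟨x', z'⟩, rfl⟩ := e.surjective y'
  have := congrArg (fun T : B X => ⟪dl x, T (dl x')⟫_ℂ) (h z z')
  simp only [blk, ContinuousLinearMap.comp_apply, V_dl] at this
  rw [inner_dl, inner_dl] at this ⊢
  exact this

theorem inner_blk (z z' : Z) (A : B Y) (x x' : X) :
    ⟪dl x, blk e z z' A (dl x')⟫_ℂ = ⟪dl (e (x, z)), A (dl (e (x', z')))⟫_ℂ := by
  simp only [blk, ContinuousLinearMap.comp_apply, V_dl]
  rw [inner_dl, inner_dl]
  rfl

theorem blk_amp_mul (z z' : Z) (T : B X) (A : B Y) :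
    blk e z z' (amp e T * A) = T * blk e z z' A := by
  have : blk e z z' (amp e T * A) = ((Vs e z).comp (amp e T)).comp (A.comp (V e z')) := rfl
  rw [this, Vs_amp]
  rfl

theorem blk_mul_amp (z z' : Z) (T : B X) (A : B Y) :
    blk e z z' (A * amp e T) = blk e z z' A * T := by
  have : blk e z z' (A * amp e T) = (Vs e z).comp (A.comp ((amp e T).comp (V e z'))) := rfl
  rw [this, amp_V]
  rfl

theorem blk_amp_same (z : Z) (T : B X) : blk e z z (amp e T) = T := by
  have h := blk_amp_mul e z z T 1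
  rw [mul_one] at h
  rw [h]
  have : blk e z z 1 = (Vs e z).comp (V e z) := rfl
  rw [this, Vs_V_same, mul_one]

theorem blk_amp_ne {z z' : Z} (hz : z ≠ z') (T : B X) : blk e z z' (amp e T) = 0 := by
  have h := blk_amp_mul e z z' T 1
  rw [mul_one] at h
  rw [h]
  have : blk e z z' 1 = (Vs e z).comp (V e z') := rfl
  rw [this, Vs_V_ne e hz, mul_zero]

theorem star_blk (z z' : Z) (A : B Y) : star (blk e z z' A) = blk e z' z (star A) := by
  rw [blk, ContinuousLinearMap.star_eq_adjoint, ContinuousLinearMap.adjoint_comp,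
    ContinuousLinearMap.adjoint_comp, adj_Vs, adj_V]
  rfl

theorem amp_inj' [Nonempty Z] {S T : B X} (h : amp e S = amp e T) : S = T := by
  obtain ⟨z⟩ := ‹Nonempty Z›
  rw [← blk_amp_same e z S, h, blk_amp_same]

theorem comm_iff (T : B X) (A : B Y) :
    amp e T * A = A * amp e T ↔ ∀ z z', T * blk e z z' A = blk e z z' A * T := by
  constructor
  · intro h z z'
    rw [← blk_amp_mul, h, blk_mul_amp]
  · intro h
    apply blk_ext e
    intro z z'
    rw [blk_amp_mul, h, blk_mul_amp]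

/-- the von Neumann algebra of the `T` with `T ⊗ 1 ∈ A` -/
noncomputable def down (A : VonNeumannAlgebra (L2 Y)) : VonNeumannAlgebra (L2 X) where
  toStarSubalgebra := StarSubalgebra.centralizer ℂ
    {T : B X | ∃ z z', ∃ y ∈ A.commutant, T = blk e z z' y}
  centralizer_centralizer' := by
    change Set.centralizer (Set.centralizer (Set.centralizer _)) = Set.centralizer _
    exact Set.centralizer_centralizer_centralizer _

theorem mem_down (A : VonNeumannAlgebra (L2 Y)) (T : B X) : T ∈ down e A ↔ amp e T ∈ A := by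
  change T ∈ Set.centralizer _ ↔ _
  rw [Set.mem_centralizer_iff]
  constructor
  · intro h
    rw [← A.commutant_commutant, VonNeumannAlgebra.mem_commutant_iff]
    intro y hy
    symm
    rw [comm_iff]
    intro z z'
    exact (h _ (Or.inl ⟨z, z', y, hy, rfl⟩)).symm
  · intro h
    have key : ∀ y ∈ A.commutant, ∀ z z', blk e z z' y * T = T * blk e z z' y := by
      intro y hy z z'
      have := VonNeumannAlgebra.mem_commutant_iff.1 hy _ h
      exact ((comm_iff e T y).1 this z z').symm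
    rintro m (⟨z, z', y, hy, rfl⟩ | ⟨z, z', y, hy, hm⟩)
    · exact key y hy z z'
    · have : m = blk e z' z (star y) := by
        rw [← star_blk, ← hm, star_star]
      rw [this]
      exact key _ (star_mem hy) _ _

/-- the von Neumann algebra of the `T ⊗ 1`, `T ∈ Q` -/
noncomputable def up (Q : VonNeumannAlgebra (L2 X)) : VonNeumannAlgebra (L2 Y) where
  toStarSubalgebra := StarSubalgebra.centralizer ℂ
    ({T : B Y | ∃ y ∈ Q.commutant, T = amp e y} ∪ {T : B Y | ∃ z z', T = (V e z).comp (Vs e z')})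
  centralizer_centralizer' := by
    change Set.centralizer (Set.centralizer (Set.centralizer _)) = Set.centralizer _
    exact Set.centralizer_centralizer_centralizer _

theorem mem_up [Nonempty Z] (Q : VonNeumannAlgebra (L2 X)) (x : B Y) :
    x ∈ up e Q ↔ ∃ T ∈ Q, x = amp e T := by
  change x ∈ Set.centralizer _ ↔ _
  rw [Set.mem_centralizer_iff]
  constructor
  · intro h
    obtain ⟨z0⟩ := ‹Nonempty Z›
    have hE : ∀ z z', (V e z).comp ((Vs e z').comp x) = x.comp ((V e z).comp (Vs e z')) :=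
      fun z z' => h _ (Or.inl (Or.inr ⟨z, z', rfl⟩))
    have hx : x = amp e (blk e z0 z0 x) := by
      apply blk_ext e
      intro z z'
      have h1 := congrArg (fun A : B Y => (Vs e z).comp (A.comp (V e z0))) (hE z' z0)
      have h2 : (Vs e z).comp (((V e z').comp ((Vs e z0).comp x)).comp (V e z0)) =
        ((Vs e z).comp (V e z')).comp (blk e z0 z0 x) := rfl
      have h3 : (Vs e z).comp ((x.comp ((V e z').comp (Vs e z0))).comp (V e z0)) =
        (blk e z z' x).comp ((Vs e z0).comp (V e z0)) := rfl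
      rw [h2, h3, Vs_V_same] at h1
      by_cases hz : z = z'
      · subst hz
        rw [Vs_V_same] at h1
        rw [blk_amp_same]
        exact h1.symm
      · rw [Vs_V_ne e hz] at h1
        rw [blk_amp_ne e hz]
        exact h1.symm
    refine ⟨_, ?_, hx⟩
    rw [← Q.commutant_commutant, VonNeumannAlgebra.mem_commutant_iff]
    intro y hy
    rw [← blk_amp_mul, ← blk_mul_amp]
    congr 1
    exact h _ (Or.inl (Or.inl ⟨y, hy, rfl⟩))
  · rintro ⟨T, hT, rfl⟩
    have k1 : ∀ y ∈ Q.commutant, amp e y * amp e T = amp e T * amp e y := by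
      intro y hy
      rw [← amp_mul, ← amp_mul, VonNeumannAlgebra.mem_commutant_iff.1 hy T hT]
    have k2 : ∀ z z', (V e z).comp (Vs e z') * amp e T = amp e T * (V e z).comp (Vs e z') := by
      intro z z'
      have h1 : (V e z).comp (Vs e z') * amp e T = (V e z).comp ((Vs e z').comp (amp e T)) := rfl
      have h2 : amp e T * (V e z).comp (Vs e z') = ((amp e T).comp (V e z)).comp (Vs e z') := rfl
      rw [h1, h2, Vs_amp, amp_V]
      rfl
    rintro m ((⟨y, hy, rfl⟩ | ⟨z, z', rfl⟩) | (⟨y, hy, hm⟩ | ⟨z, z', hm⟩))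
    · exact k1 y hy
    · exact k2 z z'
    · have : m = amp e (star y) := by rw [amp_star, ← hm, star_star]
      rw [this]
      exact k1 _ (star_mem hy)
    · have : m = (V e z').comp (Vs e z) := by
        rw [← star_star m, hm, ContinuousLinearMap.star_eq_adjoint,
          ContinuousLinearMap.adjoint_comp, adj_Vs, adj_V]
      rw [this]
      exact k2 _ _

end gen

section grp

variable (Γ : Type) [Group Γ]

/-- the bijection `(g, S) ↦ emb g * (S, 1)` -/
def eqv : Γ × Finset Γ ≃ WR Γ where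
  toFun p := ⟨p.2.map (mulLeftEmbedding p.1), p.1⟩
  invFun w := (w.pos, w.lamp.map (mulLeftEmbedding w.pos⁻¹))
  left_inv p := by
    refine Prod.ext rfl ?_
    ext g
    simp [Finset.mem_map]
  right_inv w := by
    ext g
    · simp [Finset.mem_map]
    · rfl

variable {Γ}

theorem emb_mul_eqv (a b : Γ) (S : Finset Γ) : emb Γ a * eqv Γ (b, S) = eqv Γ (a * b, S) := by
  ext g
  · rw [WR.mem_mul]
    simp [emb, eqv, mul_assoc, eq_inv_mul_iff_mul_eq]
  · rfl

theorem eqv_eq (a : Γ) (S : Finset Γ) : eqv Γ (a, S) = emb Γ a * eqv Γ (1, S) := by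
  rw [emb_mul_eqv, mul_one]

theorem eqv_empty (a : Γ) : eqv Γ (a, ∅) = emb Γ a := rfl

theorem eqv_one : eqv Γ (1, ∅) = 1 := rfl

theorem div_same (a b : Γ) (S : Finset Γ) : eqv Γ (a, S) * (eqv Γ (b, S))⁻¹ = emb Γ (a * b⁻¹) := by
  rw [eqv_eq a, eqv_eq b, map_mul, map_inv]
  group

theorem div_ne {a b : Γ} {S S' : Finset Γ} (h : S ≠ S') :
    eqv Γ (a, S) * (eqv Γ (b, S'))⁻¹ ∉ (emb Γ).range := by
  rintro ⟨c, hc⟩
  have h1 : eqv Γ (a, S) = emb Γ c * eqv Γ (b, S') := by rw [hc]; group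
  rw [emb_mul_eqv] at h1
  have h2 := (eqv Γ).injective h1
  exact h (Prod.ext_iff.1 h2).2

theorem mem_LK_iff (x : B (WR Γ)) :
    x ∈ LK (emb Γ).range ↔ ∃ T ∈ LG Γ, x = amp (eqv Γ) T := by
  rw [(Pool.Agent.N571.EX.t_tr (WR Γ) (emb Γ).range).1 x]
  constructor
  · rintro ⟨hx, hx0⟩
    rw [mem_LG_iff] at hx
    have hcf : ∀ g : Γ, cf (blk (eqv Γ) ∅ ∅ x) g = cf x (emb Γ g) := fun g => by
      rw [cf, inner_blk, cf, eqv_empty, eqv_one]
    refine ⟨blk (eqv Γ) ∅ ∅ x, ?_, ?_⟩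
    · rw [mem_LG_iff]
      intro s t
      rw [inner_blk, hx, div_same, hcf]
    · apply blk_ext (eqv Γ)
      intro S S'
      apply op_ext_inner
      intro a b
      rw [inner_blk, hx]
      by_cases h : S = S'
      · subst h
        rw [blk_amp_same, inner_blk, hx, div_same, div_same]
      · rw [blk_amp_ne (eqv Γ) h, hx0 _ (div_ne h)]
        simp
  · rintro ⟨T, hT, rfl⟩
    rw [mem_LG_iff] at hT
    have hcf : ∀ g : Γ, cf (amp (eqv Γ) T) (emb Γ g) = cf T g := fun g => by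
      rw [cf, ← eqv_empty, ← eqv_one, ← inner_blk, blk_amp_same, cf]
    have hcf0 : ∀ g : WR Γ, g ∉ (emb Γ).range → cf (amp (eqv Γ) T) g = 0 := by
      intro g hg
      obtain ⟨⟨a, S⟩, rfl⟩ := (eqv Γ).surjective g
      have hS : S ≠ ∅ := by
        rintro rfl
        exact hg ⟨a, rfl⟩
      rw [cf, ← eqv_one, ← inner_blk, blk_amp_ne (eqv Γ) hS]
      simp
    refine ⟨?_, hcf0⟩
    rw [mem_LG_iff]
    intro w w'
    obtain ⟨⟨b, S'⟩, rfl⟩ := (eqv Γ).surjective w
    obtain ⟨⟨a, S⟩, rfl⟩ := (eqv Γ).surjective w'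
    rw [← inner_blk]
    by_cases h : S = S'
    · subst h
      rw [blk_amp_same, hT, div_same, hcf]
    · rw [blk_amp_ne (eqv Γ) h, hcf0 _ (div_ne h)]
      simp

/-- a positive operator is of the form `S* S` -/
theorem exists_sqrt {H : Type} [NormedAddCommGroup H] [InnerProductSpace ℂ H] [CompleteSpace H]
    (T : H →L[ℂ] H) (h : T.IsPositive) : ∃ S : H →L[ℂ] H, T = star S * S :=
  CStarAlgebra.nonneg_iff_eq_star_mul_self.1 ((ContinuousLinearMap.nonneg_iff_isPositive T).2 h)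

theorem nonneg_blk {φ : B Γ →ₗ[ℂ] ℂ} (hφ : ∀ T : B Γ, 0 ≤ φ (star T * T)) (T : B (WR Γ)) :
    0 ≤ φ (blk (eqv Γ) ∅ ∅ (star T * T)) := by
  have h1 : (blk (eqv Γ) ∅ ∅ (star T * T)).IsPositive := by
    have : blk (eqv Γ) ∅ ∅ (star T * T) =
        (ContinuousLinearMap.adjoint (T.comp (V (eqv Γ) ∅))).comp (T.comp (V (eqv Γ) ∅)) := by
      rw [ContinuousLinearMap.adjoint_comp, adj_V]
      rfl
    rw [this]
    exact ContinuousLinearMap.isPositive_adjoint_comp_self _
  obtain ⟨S, hS⟩ := exists_sqrt _ h1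
  rw [hS]
  exact hφ S

/-- the `blk` map as a linear map -/
noncomputable def blkL : B (WR Γ) →ₗ[ℂ] B Γ where
  toFun T := blk (eqv Γ) ∅ ∅ T
  map_add' S T := by
    ext ξ : 1
    simp [blk]
  map_smul' c T := by
    ext ξ : 1
    simp [blk]

end grp

end Trn2

open Trn2 in
theorem t_trn2 : S_TRN2 := by
  intro Γ _ hs
  refine ⟨fun A hA hdif hex => ?_⟩
  obtain ⟨φ, hφ⟩ := hex
  set e := eqv Γ with he
  have hN : ∀ x, x ∈ LK (emb Γ).range ↔ ∃ T ∈ LG Γ, x = amp e T := mem_LK_iff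
  have inj : ∀ {S T : B Γ}, amp e S = amp e T → S = T := fun h => amp_inj' e h
  -- `A0`
  have hA0 : ∀ T, T ∈ down e A ↔ amp e T ∈ A := mem_down e A
  have hsub : ∀ T ∈ down e A, T ∈ LG Γ := by
    intro T hT
    obtain ⟨T', hT', h⟩ := (hN _).1 (hA _ ((hA0 T).1 hT))
    rw [inj h]
    exact hT'
  have hAex : ∀ x ∈ A, ∃ T ∈ down e A, x = amp e T := by
    intro x hx
    obtain ⟨T, hT, rfl⟩ := (hN _).1 (hA _ hx)
    exact ⟨T, (hA0 T).2 hx, rfl⟩
  have hdif0 : Dif (down e A) := by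
    refine ⟨fun p hp hps hpp hp0 => ?_⟩
    obtain ⟨q, hq, hqs, hqq, hpq, hq0, hqp⟩ := hdif.split (amp e p) ((hA0 p).1 hp)
      (by rw [← amp_star, hps]) (by rw [← amp_mul, hpp])
      (fun h => hp0 (inj (by rw [h, map_zero])))
    obtain ⟨q, hq', rfl⟩ := hAex q hq
    refine ⟨q, hq', inj (by rw [amp_star, hqs]), inj (by rw [amp_mul, hqq]),
      inj (by rw [amp_mul, hpq]), ?_, ?_⟩
    · rintro rfl
      exact hq0 (map_zero _)
    · rintro rfl
      exact hqp rfl
  have htr : ∀ T : B Γ, ⟪dl (1 : WR Γ), amp e T (dl 1)⟫_ℂ = ⟪dl (1 : Γ), T (dl 1)⟫_ℂ := by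
    intro T
    rw [← eqv_one, ← inner_blk, blk_amp_same]
  have hhyp0 : ∃ φ0, Hypertrace (down e A) (dl (1 : Γ)) φ0 := by
    refine ⟨φ.comp (amp e : B Γ →ₗ[ℂ] B (WR Γ)), ⟨fun T => ?_, fun x hx => ?_, fun x hx T => ?_⟩⟩
    · change 0 ≤ φ (amp e (star T * T))
      rw [amp_mul, amp_star]
      exact hφ.nonneg _
    · change φ (amp e x) = _
      rw [hφ.trace _ ((hA0 x).1 hx), htr]
    · change φ (amp e (x * T)) = φ (amp e (T * x))
      rw [amp_mul, amp_mul]
      exact hφ.central _ ((hA0 x).1 hx) _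
  obtain ⟨P0, hP0, ψ0, hψ0⟩ := hs.solid (down e A) hsub hdif0 hhyp0
  have hnor : ∀ u0 : B Γ, u0 ∈ LG Γ ∧ star u0 * u0 = 1 ∧ u0 * star u0 = 1 ∧
      (∀ a ∈ down e A, u0 * a * star u0 ∈ down e A) ∧
      (∀ a ∈ down e A, star u0 * a * u0 ∈ down e A) ↔
      amp e u0 ∈ LK (emb Γ).range ∧ star (amp e u0) * amp e u0 = 1 ∧
      amp e u0 * star (amp e u0) = 1 ∧
      (∀ a ∈ A, amp e u0 * a * star (amp e u0) ∈ A) ∧
      (∀ a ∈ A, star (amp e u0) * a * amp e u0 ∈ A) := by
    intro u0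
    constructor
    · rintro ⟨h1, h2, h3, h4, h5⟩
      refine ⟨(hN _).2 ⟨u0, h1, rfl⟩, by rw [← amp_star, ← amp_mul, h2, amp_one],
        by rw [← amp_star, ← amp_mul, h3, amp_one], fun a ha => ?_, fun a ha => ?_⟩
      · obtain ⟨a, ha', rfl⟩ := hAex a ha
        rw [← amp_star, ← amp_mul, ← amp_mul]
        exact (hA0 _).1 (h4 a ha')
      · obtain ⟨a, ha', rfl⟩ := hAex a ha
        rw [← amp_star, ← amp_mul, ← amp_mul]
        exact (hA0 _).1 (h5 a ha')
    · rintro ⟨h1, h2, h3, h4, h5⟩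
      obtain ⟨T, hT, h⟩ := (hN _).1 h1
      refine ⟨by rw [inj h]; exact hT, inj (by rw [amp_mul, amp_star, h2, amp_one]),
        inj (by rw [amp_mul, amp_star, h3, amp_one]), fun a ha => ?_, fun a ha => ?_⟩
      · rw [hA0, amp_mul, amp_mul, amp_star]
        exact h4 _ ((hA0 a).1 ha)
      · rw [hA0, amp_mul, amp_mul, amp_star]
        exact h5 _ ((hA0 a).1 ha)
  refine ⟨up e P0, ⟨?_, ?_⟩, ψ0.comp blkL, ⟨?_, ?_, ?_⟩⟩
  · intro u hu h1 h2 h3 h4
    obtain ⟨u0, hu0, rfl⟩ := (hN _).1 hu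
    obtain ⟨k1, k2, k3, k4, k5⟩ := (hnor u0).2 ⟨hu, h1, h2, h3, h4⟩
    rw [mem_up]
    exact ⟨u0, hP0.mem u0 k1 k2 k3 k4 k5, rfl⟩
  · intro P' hP' x hx
    obtain ⟨x0, hx0, rfl⟩ := (mem_up e P0 x).1 hx
    rw [← mem_down]
    refine hP0.least (down e P') (fun u h1 h2 h3 h4 h5 => ?_) x0 hx0
    rw [mem_down]
    obtain ⟨k1, k2, k3, k4, k5⟩ := (hnor u).1 ⟨h1, h2, h3, h4, h5⟩
    exact hP' _ k1 k2 k3 k4 k5
  · intro T
    exact nonneg_blk hψ0.nonneg T
  · intro x hx
    obtain ⟨x0, hx0, rfl⟩ := (mem_up e P0 x).1 hx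
    change ψ0 (blk e ∅ ∅ (amp e x0)) = _
    rw [blk_amp_same, hψ0.trace x0 hx0, htr]
  · intro x hx T
    obtain ⟨x0, hx0, rfl⟩ := (mem_up e P0 x).1 hx
    change ψ0 (blk e ∅ ∅ (amp e x0 * T)) = ψ0 (blk e ∅ ∅ (T * amp e x0))
    rw [blk_amp_mul, blk_mul_amp]
    exact hψ0.central x0 hx0 _

end Pool.Agent.N571.SS.D
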