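import Pool.Agent.N571.SS.D.Stm2

/-! # Project SS/D, leaf WC (helper826): weak compactness from the functionals and the vectors -/

set_option autoImplicit false

namespace Pool.Agent.N571.SS.D

theorem t_wc (hf : S_WF) (hv : S_WV) : S_WC := by
  intro G _ _ hG A hA hD
  obtain ⟨K, ε, hK⟩ := hf G hG A hA
  exact hv G A hA.sub hD K ε hK

end Pool.Agent.N571.SS.D
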