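import Pool.Agent.N571.SS.D.Stm2
import Pool.Agent.N571.EX.TR

/-!
# Project SS/D (helper571), WF (helper399): weak compactness, the functionals
-/

set_option autoImplicit false

namespace Pool.Agent.N571.SS.D

namespace WF

open Filter Topology
open scoped InnerProductSpace ComplexOrder
open Pool.Agent.H494R3.GT (L2 dl inner_dl mul_ap dl_inner)
open Pool.Agent.N557.QW (lam rgt LG LK cf rc mem_LG mem_LG_iff lam_dl rgt_dl star_lam lam_mem)

noncomputable section

variable {G : Type} [Group G]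

/-! ### the functional `Z ↦ τ(Z Y*)` -/

theorem tau_add (x y : B G) : tau (x + y) = tau x + tau y := by
  unfold tau
  rw [add_apply, inner_add_right]

theorem tau_smul (c : ℂ) (x : B G) : tau (c • x) = c * tau x := by
  unfold tau
  rw [smul_apply, inner_smul_right]

theorem tau_zero : tau (0 : B G) = 0 := by
  unfold tau
  simp

theorem tau_sum {ι : Type} (s : Finset ι) (x : ι → B G) :
    tau (∑ i ∈ s, x i) = ∑ i ∈ s, tau (x i) := by
  classical
  induction s using Finset.induction_on with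
  | empty => simp [tau_zero]
  | insert i s hi ih => rw [Finset.sum_insert hi, Finset.sum_insert hi, tau_add, ih]

theorem norm_one (g : G) : ‖(dl g : L2 G)‖ = 1 := Pool.Agent.N571.EX.TRx.norm_dl g

theorem tau_le (x : B G) : ‖tau x‖ ≤ ‖x‖ := by
  unfold tau
  calc ‖⟪dl (1 : G), x (dl (1 : G))⟫_ℂ‖ ≤ ‖(dl (1 : G) : L2 G)‖ * ‖x (dl 1)‖ :=
        norm_inner_le_norm _ _
    _ ≤ 1 * (‖x‖ * 1) := by
        gcongr
        · rw [norm_one]
        · simpa [norm_one] using x.le_opNorm (dl (1 : G))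
    _ = ‖x‖ := by ring

theorem tau_star (x : B G) : tau (star x) = (starRingEnd ℂ) (tau x) := by
  unfold tau
  rw [ContinuousLinearMap.star_eq_adjoint, ContinuousLinearMap.adjoint_inner_right,
    inner_conj_symm]

/-- `Z ↦ τ(Z Y*)` -/
def tl (Y : B G) : B G →L[ℂ] ℂ :=
  LinearMap.mkContinuous
    { toFun := fun Z => tau (Z * star Y)
      map_add' := fun Z W => by rw [add_mul, tau_add]
      map_smul' := fun c Z => by rw [smul_mul_assoc, tau_smul]; rfl } ‖Y‖ (fun Z => by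
        refine (tau_le _).trans ((norm_mul_le _ _).trans ?_)
        rw [show ‖star Y‖ = ‖Y‖ from norm_star Y, mul_comm])

theorem tl_apply (Y Z : B G) : tl Y Z = tau (Z * star Y) := rfl

/-! ### the algebra `CA A` -/

/-- the generators -/
def gen (A : VonNeumannAlgebra (L2 G)) : Set (B (G × G)) :=
  {Z : B (G × G) | ∃ a ∈ A, ∃ b ∈ A, Z = a1 a * a2 (cj b)}

theorem gen_mul (hb : Bas G) (a b c d : B G) :
    (a1 a * a2 (cj b)) * (a1 c * a2 (cj d)) = a1 (a * c) * a2 (cj (b * d)) := by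
  rw [hb.a1_mul, hb.cj_mul, hb.a2_mul, mul_assoc, ← mul_assoc (a2 (cj b)), ← hb.comm, mul_assoc,
    mul_assoc]

theorem gen_star (hb : Bas G) (a b : B G) :
    star (a1 a * a2 (cj b)) = a1 (star a) * a2 (cj (star b)) := by
  rw [star_mul, ← hb.a2_star, ← hb.cj_star, ← hb.a1_star, hb.comm]

/-- the span of the generators -/
def T0 (hb : Bas G) (A : VonNeumannAlgebra (L2 G)) : StarSubalgebra ℂ (B (G × G)) where
  carrier := Submodule.span ℂ (gen A)
  mul_mem' := by
    intro S T hS hT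
    induction hS, hT using Submodule.span_induction₂ with
    | mem_mem x y hx hy =>
      obtain ⟨a, ha, b, hb', rfl⟩ := hx
      obtain ⟨c, hc, d, hd, rfl⟩ := hy
      exact Submodule.subset_span ⟨a * c, mul_mem ha hc, b * d, mul_mem hb' hd,
        gen_mul hb a b c d⟩
    | zero_left y hy => simp
    | zero_right x hx => simp
    | add_left x y z _ _ _ h1 h2 => rw [add_mul]; exact Submodule.add_mem _ h1 h2
    | add_right x y z _ _ _ h1 h2 => rw [mul_add]; exact Submodule.add_mem _ h1 h2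
    | smul_left r x y _ _ h => rw [smul_mul_assoc]; exact Submodule.smul_mem _ _ h
    | smul_right r x y _ _ h => rw [mul_smul_comm]; exact Submodule.smul_mem _ _ h
  one_mem' := Submodule.subset_span ⟨1, one_mem A, 1, one_mem A, by
    rw [hb.a1_one, hb.cj_one, hb.a2_one, mul_one]⟩
  add_mem' := fun h1 h2 => Submodule.add_mem _ h1 h2
  zero_mem' := Submodule.zero_mem _
  algebraMap_mem' := by
    intro r
    rw [Algebra.algebraMap_eq_smul_one]
    exact Submodule.smul_mem _ _ (Submodule.subset_span ⟨1, one_mem A, 1, one_mem A, by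
      rw [hb.a1_one, hb.cj_one, hb.a2_one, mul_one]⟩)
  star_mem' := by
    intro S hS
    induction hS using Submodule.span_induction with
    | mem x hx =>
      obtain ⟨a, ha, b, hb', rfl⟩ := hx
      exact Submodule.subset_span ⟨star a, star_mem ha, star b, star_mem hb', gen_star hb a b⟩
    | zero => simp
    | add x y _ _ h1 h2 => rw [star_add]; exact Submodule.add_mem _ h1 h2
    | smul r x _ h => rw [star_smul]; exact Submodule.smul_mem _ _ h

omit [Group G] in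
theorem mem_CA (A : VonNeumannAlgebra (L2 G)) {a b : B G} (ha : a ∈ A) (hb : b ∈ A) :
    a1 a * a2 (cj b) ∈ CA A :=
  StarSubalgebra.le_topologicalClosure _ (StarAlgebra.subset_adjoin ℂ _ ⟨a, ha, b, hb, rfl⟩)

theorem CA_induct (hb : Bas G) {A : VonNeumannAlgebra (L2 G)} {E : Type} [NormedAddCommGroup E]
    [NormedSpace ℂ E] (T : Submodule ℂ E) (hT : IsClosed (T : Set E))
    (Φ : B (G × G) →L[ℂ] E) (h : ∀ a ∈ A, ∀ b ∈ A, Φ (a1 a * a2 (cj b)) ∈ T) {Z : B (G × G)}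
    (hZ : Z ∈ CA A) : Φ Z ∈ T := by
  have h1 : StarAlgebra.adjoin ℂ (gen A) ≤ T0 hb A :=
    StarAlgebra.adjoin_le (Submodule.subset_span)
  have h2 : Z ∈ closure ((T0 hb A : StarSubalgebra ℂ (B (G × G))) : Set (B (G × G))) := by
    have h3 : Z ∈ (StarAlgebra.adjoin ℂ (gen A)).topologicalClosure := hZ
    rw [← SetLike.mem_coe, StarSubalgebra.topologicalClosure_coe] at h3
    exact closure_mono h1 h3
  have h4 := map_mem_closure Φ.continuous h2 (t := (T : Set E)) ?_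
  · rwa [hT.closure_eq] at h4
  · intro S hS
    have hS' : S ∈ Submodule.span ℂ (gen A) := hS
    induction hS' using Submodule.span_induction with
    | mem x hx =>
      obtain ⟨a, ha, b, hb', rfl⟩ := hx
      exact h a ha b hb'
    | zero => simp
    | add x y hx hy h1 h2 => rw [map_add]; exact T.add_mem (h1 hx) (h2 hy)
    | smul r x hx h => rw [map_smul]; exact T.smul_mem r (h hx)

/-! ### unitaries -/

theorem isClosed_vN {H : Type} [NormedAddCommGroup H] [InnerProductSpace ℂ H] [CompleteSpace H]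
    (A : VonNeumannAlgebra H) : IsClosed (A : Set (H →L[ℂ] H)) := by
  rw [← A.centralizer_centralizer]
  exact Set.isClosed_centralizer _

theorem span_un {H : Type} [NormedAddCommGroup H] [InnerProductSpace ℂ H] [CompleteSpace H]
    (A : VonNeumannAlgebra H) {b : H →L[ℂ] H} (hb : b ∈ A) :
    b ∈ Submodule.span ℂ {v : H →L[ℂ] H | v ∈ A ∧ Un v} := by
  have hc : IsClosed (A.toStarSubalgebra : Set (H →L[ℂ] H)) := isClosed_vN A
  let _ : CStarAlgebra A.toStarSubalgebra := StarSubalgebra.cstarAlgebra _ (h_closed := hc)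
  have h1 : (⟨b, hb⟩ : A.toStarSubalgebra) ∈
      Submodule.span ℂ (unitary A.toStarSubalgebra : Set A.toStarSubalgebra) := by
    rw [CStarAlgebra.span_unitary]
    trivial
  have h2 := Submodule.mem_map_of_mem (f := A.toStarSubalgebra.subtype.toAlgHom.toLinearMap) h1
  rw [Submodule.map_span] at h2
  refine Submodule.span_mono ?_ h2
  rintro _ ⟨v, hv, rfl⟩
  have hv' := Unitary.mem_iff.1 hv
  refine ⟨v.2, ⟨?_, ?_⟩⟩
  · have := congrArg (Subtype.val) hv'.1
    exact this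
  · have := congrArg (Subtype.val) hv'.2
    exact this

/-! ### values of the functionals -/

theorem tau_gen (hb : Bas G) (x y : B G) :
    tau (a1 x * a2 (cj y)) = tau x * (starRingEnd ℂ) (tau y) := by
  have h := hb.a12_ent x (cj y) 1 1 1 1
  rw [hb.cj_ent] at h
  exact h

theorem gen_mul_star (hb : Bas G) (a b c d : B G) :
    tau ((a1 a * a2 (cj b)) * star (a1 c * a2 (cj d))) =
      tau (a * star c) * (starRingEnd ℂ) (tau (b * star d)) := by
  rw [gen_star hb, gen_mul hb, tau_gen hb]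

theorem lam_gen (hb : Bas G) (g : G) : lam ((g, g) : G × G) = a1 (lam g) * a2 (cj (lam g)) := by
  rw [hb.cj_lam]
  apply Pool.Agent.H494R3.GT.op_ext_inner
  rintro ⟨t, t'⟩ ⟨s, s'⟩
  rw [hb.a12_ent, lam_dl, lam_dl, lam_dl]
  classical
  rw [dl_inner, dl_inner, dl_inner]
  simp only [Prod.mk_mul_mk, Prod.mk.injEq]
  split_ifs <;> simp_all

/-- the functional of the multiplier `f` -/
theorem tl_Yf (hb : Bas G) (s : Finset G) (f : G → ℝ) (a b : B G) :
    tl (Yf s f) (a1 a * a2 (cj b)) = ∑ g ∈ s, (f g : ℂ) *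
      (tau (a * star (lam g)) * (starRingEnd ℂ) (tau (b * star (lam g)))) := by
  rw [tl_apply, Yf, star_sum, Finset.mul_sum, tau_sum]
  refine Finset.sum_congr rfl fun g _ => ?_
  rw [star_smul, mul_smul_comm, tau_smul, lam_gen hb, gen_mul_star hb]
  simp

theorem tau_cf {x : B G} (hx : x ∈ LG G) (g : G) : tau (x * star (lam g)) = cf x g := by
  unfold tau
  rw [star_lam, mul_ap, lam_dl, mul_one, mem_LG_iff.1 hx]
  simp

theorem tl_Yf' (hb : Bas G) (s : Finset G) (f : G → ℝ) {a b : B G} (ha : a ∈ LG G)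
    (hb' : b ∈ LG G) :
    tl (Yf s f) (a1 a * a2 (cj b)) = ∑ g ∈ s, (f g : ℂ) * (cf a g * (starRingEnd ℂ) (cf b g)) := by
  rw [tl_Yf hb]
  refine Finset.sum_congr rfl fun g _ => ?_
  rw [tau_cf ha, tau_cf hb']

/-- the elements `K` -/
def Kf (e : G → B G) (s : Finset G) (f : G → ℝ) : B (G × G) :=
  ∑ g ∈ s, (f g : ℂ) • (a1 (e g) * a2 (cj (e g)))

omit [Group G] in
theorem Kf_mem (A : VonNeumannAlgebra (L2 G)) (e : G → B G) (he : ∀ g, e g ∈ A) (s : Finset G)
    (f : G → ℝ) : Kf e s f ∈ CA A :=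
  sum_mem fun g _ => (CA A).smul_mem (mem_CA A (he g) (he g)) _

theorem tau_e {A : VonNeumannAlgebra (L2 G)} {e : B G} {g : G}
    (he : ∀ a ∈ A, tau (e * a) = tau (lam g * a)) {a : B G} (ha : a ∈ A) :
    tau (a * star e) = tau (a * star (lam g)) := by
  have h1 : a * star e = star (e * star a) := by rw [star_mul, star_star]
  have h2 : a * star (lam g) = star (lam g * star a) := by rw [star_mul, star_star]
  rw [h1, h2, tau_star, tau_star, he _ (star_mem ha)]

/-- (1) -/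
theorem Kf_eq (hb : Bas G) {A : VonNeumannAlgebra (L2 G)} {e : G → B G}
    (he : ∀ g, ∀ a ∈ A, tau (e g * a) = tau (lam g * a)) (s : Finset G) (f : G → ℝ)
    {Z : B (G × G)} (hZ : Z ∈ CA A) : tau (Z * star (Kf e s f)) = tau (Z * star (Yf s f)) := by
  have h := CA_induct hb (⊥ : Submodule ℂ ℂ) (by simp) (tl (Kf e s f) - tl (Yf s f)) (A := A) ?_ hZ
  · rw [Submodule.mem_bot] at h
    have h' : tl (Kf e s f) Z - tl (Yf s f) Z = 0 := h
    rw [tl_apply, tl_apply] at h'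
    exact sub_eq_zero.1 h'
  · intro a ha b hb'
    rw [Submodule.mem_bot]
    change tl (Kf e s f) (a1 a * a2 (cj b)) - tl (Yf s f) (a1 a * a2 (cj b)) = 0
    rw [sub_eq_zero, tl_Yf hb, tl_apply, Kf, star_sum, Finset.mul_sum, tau_sum]
    refine Finset.sum_congr rfl fun g _ => ?_
    rw [star_smul, mul_smul_comm, tau_smul, gen_mul_star hb, tau_e (he g) ha, tau_e (he g) hb']
    simp

/-! ### (2) the bound -/

theorem un_mul {H : Type} [NormedAddCommGroup H] [InnerProductSpace ℂ H] [CompleteSpace H]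
    {u v : H →L[ℂ] H} (hu : Un u) (hv : Un v) : Un (u * v) where
  left := by
    rw [star_mul, mul_assoc, ← mul_assoc (star u), hu.left, one_mul, hv.left]
  right := by
    rw [star_mul, mul_assoc, ← mul_assoc v, hv.right, one_mul, hu.right]

theorem cen_mul {ψ : B G →ₗ[ℂ] ℂ} {x y : B G} (hx : x ∈ Cen ψ) (hy : y ∈ Cen ψ) :
    x * y ∈ Cen ψ := by
  refine ⟨mul_mem hx.1 hy.1, fun T => ?_⟩
  rw [mul_assoc, hx.2, mul_assoc, hy.2, mul_assoc]

/-- the unitaries of the centralizer -/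
def CU (ψ : B G →ₗ[ℂ] ℂ) : Set (B G) := {v | v ∈ Cen ψ ∧ Un v}

/-- the domain of the bound FB -/
def Sp (ψ : B G →ₗ[ℂ] ℂ) : Submodule ℂ (B (G × G)) :=
  Submodule.span ℂ {W | ∃ x ∈ LG G, ∃ y ∈ CU ψ, W = a1 x * a2 (cj y)}

theorem Sp_rep (hb : Bas G) {ψ : B G →ₗ[ℂ] ℂ} {W : B (G × G)} (hW : W ∈ Sp ψ) :
    ∃ (m : ℕ) (x y : Fin m → B G), (∀ i, x i ∈ LG G) ∧ (∀ i, y i ∈ Cen ψ ∧ Un (y i)) ∧
      W = ∑ i, a1 (x i) * a2 (cj (y i)) := by
  induction hW using Submodule.span_induction with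
  | mem W h =>
    obtain ⟨x, hx, y, hy, rfl⟩ := h
    exact ⟨1, fun _ => x, fun _ => y, fun _ => hx, fun _ => hy, by simp⟩
  | zero => exact ⟨0, fun _ => 0, fun _ => 0, fun i => i.elim0, fun i => i.elim0, by simp⟩
  | add W W' _ _ h h' =>
    obtain ⟨m, x, y, hx, hy, rfl⟩ := h
    obtain ⟨m', x', y', hx', hy', rfl⟩ := h'
    refine ⟨m + m', Fin.append x x', Fin.append y y', ?_, ?_, ?_⟩
    · intro i
      refine Fin.addCases (fun i => ?_) (fun i => ?_) i
      · rw [Fin.append_left]; exact hx i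
      · rw [Fin.append_right]; exact hx' i
    · intro i
      refine Fin.addCases (fun i => ?_) (fun i => ?_) i
      · rw [Fin.append_left]; exact hy i
      · rw [Fin.append_right]; exact hy' i
    · rw [Fin.sum_univ_add]
      simp only [Fin.append_left, Fin.append_right]
  | smul c W _ h =>
    obtain ⟨m, x, y, hx, hy, rfl⟩ := h
    refine ⟨m, fun i => c • x i, y, fun i => (LG G).toStarSubalgebra.smul_mem (hx i) c, hy, ?_⟩
    rw [Finset.smul_sum]
    refine Finset.sum_congr rfl fun i _ => ?_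
    rw [hb.a1_smul, smul_mul_assoc]

theorem Sp_bound (hb : Bas G) (h2 : S_FB) {ψ : B G →ₗ[ℂ] ℂ} (hψ : St ψ) {f : G → ℝ}
    {s : Finset G} {C : ℝ} (hs : ∀ g, g ∉ s → f g = 0) (hf : HS f C) {W : B (G × G)}
    (hW : W ∈ (Sp ψ).topologicalClosure) : ‖tl (Yf s f) W‖ ≤ C * ‖W‖ := by
  have hcl : IsClosed {W : B (G × G) | ‖tl (Yf s f) W‖ ≤ C * ‖W‖} :=
    isClosed_le (tl (Yf s f)).continuous.norm (continuous_const.mul continuous_norm)
  have h1 : closure (Sp ψ : Set (B (G × G))) ⊆ {W : B (G × G) | ‖tl (Yf s f) W‖ ≤ C * ‖W‖} := by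
    refine closure_minimal ?_ hcl
    intro W hW
    obtain ⟨m, x, y, hx, hy, rfl⟩ := Sp_rep hb hW
    exact h2 G ψ hψ f s C hs hf m x y hx hy
  apply h1
  rw [← Submodule.topologicalClosure_coe]
  exact hW

theorem Sp_mem (hb : Bas G) {ψ : B G →ₗ[ℂ] ℂ} {x b : B G} (hx : x ∈ LG G)
    (hb' : b ∈ Submodule.span ℂ (CU ψ)) : a1 x * a2 (cj b) ∈ Sp ψ := by
  induction hb' using Submodule.span_induction with
  | mem y hy => exact Submodule.subset_span ⟨x, hx, y, hy, rfl⟩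
  | zero =>
    have h0 : cj (0 : B G) = 0 := by
      have := hb.cj_smul 0 0
      simpa using this
    have h1 : a2 (0 : B G) = 0 := by
      have := hb.a2_smul 0 0
      simpa using this
    rw [h0, h1, mul_zero]
    exact Submodule.zero_mem _
  | add y z _ _ h1 h2 =>
    rw [hb.cj_add, hb.a2_add, mul_add]
    exact Submodule.add_mem _ h1 h2
  | smul c y _ h =>
    rw [hb.cj_smul, hb.a2_smul, mul_smul_comm]
    exact Submodule.smul_mem _ _ h

theorem CU_left {ψ : B G →ₗ[ℂ] ℂ} {u b : B G} (hu : u ∈ CU ψ)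
    (hb' : b ∈ Submodule.span ℂ (CU ψ)) : u * b ∈ Submodule.span ℂ (CU ψ) := by
  induction hb' using Submodule.span_induction with
  | mem y hy => exact Submodule.subset_span ⟨cen_mul hu.1 hy.1, un_mul hu.2 hy.2⟩
  | zero => rw [mul_zero]; exact Submodule.zero_mem _
  | add y z _ _ h1 h2 => rw [mul_add]; exact Submodule.add_mem _ h1 h2
  | smul c y _ h => rw [mul_smul_comm]; exact Submodule.smul_mem _ _ h

theorem CU_right {ψ : B G →ₗ[ℂ] ℂ} {u b : B G} (hu : u ∈ CU ψ)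
    (hb' : b ∈ Submodule.span ℂ (CU ψ)) : b * u ∈ Submodule.span ℂ (CU ψ) := by
  induction hb' using Submodule.span_induction with
  | mem y hy => exact Submodule.subset_span ⟨cen_mul hy.1 hu.1, un_mul hy.2 hu.2⟩
  | zero => rw [zero_mul]; exact Submodule.zero_mem _
  | add y z _ _ h1 h2 => rw [add_mul]; exact Submodule.add_mem _ h1 h2
  | smul c y _ h => rw [smul_mul_assoc]; exact Submodule.smul_mem _ _ h

theorem A_CU {ψ : B G →ₗ[ℂ] ℂ} {A : VonNeumannAlgebra (L2 G)} (hA : ∀ x ∈ A, x ∈ Cen ψ) {b : B G}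
    (hb : b ∈ A) : b ∈ Submodule.span ℂ (CU ψ) := by
  have h : {v : B G | v ∈ A ∧ Un v} ⊆ CU ψ := fun v hv => ⟨hA v hv.1, hv.2⟩
  exact Submodule.span_mono h (span_un A hb)

theorem CA_Sp (hb : Bas G) {ψ : B G →ₗ[ℂ] ℂ} {A : VonNeumannAlgebra (L2 G)}
    (hA : ∀ x ∈ A, x ∈ Cen ψ) {Z : B (G × G)} (hZ : Z ∈ CA A) :
    Z ∈ (Sp ψ).topologicalClosure := by
  refine CA_induct hb (Sp ψ).topologicalClosure (Sp ψ).isClosed_topologicalClosure
    (ContinuousLinearMap.id ℂ _) (A := A) ?_ hZ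
  intro a ha b hb'
  exact (Sp ψ).le_topologicalClosure (Sp_mem hb (hA a ha).1 (A_CU hA hb'))

theorem CA_Sp_left (hb : Bas G) {ψ : B G →ₗ[ℂ] ℂ} {A : VonNeumannAlgebra (L2 G)}
    (hA : ∀ x ∈ A, x ∈ Cen ψ) {u : B G} (hu : u ∈ CU ψ) {Z : B (G × G)} (hZ : Z ∈ CA A) :
    (a1 u * a2 (cj u)) * Z ∈ (Sp ψ).topologicalClosure := by
  refine CA_induct hb (Sp ψ).topologicalClosure (Sp ψ).isClosed_topologicalClosure
    (ContinuousLinearMap.mul ℂ (B (G × G)) (a1 u * a2 (cj u))) (A := A) ?_ hZ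
  intro a ha b hb'
  refine (Sp ψ).le_topologicalClosure ?_
  rw [ContinuousLinearMap.mul_apply', gen_mul hb]
  exact Sp_mem hb (mul_mem hu.1.1 (hA a ha).1) (CU_left hu (A_CU hA hb'))

theorem CA_Sp_right (hb : Bas G) {ψ : B G →ₗ[ℂ] ℂ} {A : VonNeumannAlgebra (L2 G)}
    (hA : ∀ x ∈ A, x ∈ Cen ψ) {u : B G} (hu : u ∈ CU ψ) {Z : B (G × G)} (hZ : Z ∈ CA A) :
    Z * (a1 u * a2 (cj u)) ∈ (Sp ψ).topologicalClosure := by
  refine CA_induct hb (Sp ψ).topologicalClosure (Sp ψ).isClosed_topologicalClosure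
    ((ContinuousLinearMap.mul ℂ (B (G × G))).flip (a1 u * a2 (cj u))) (A := A) ?_ hZ
  intro a ha b hb'
  refine (Sp ψ).le_topologicalClosure ?_
  rw [ContinuousLinearMap.flip_apply, ContinuousLinearMap.mul_apply', gen_mul hb]
  exact Sp_mem hb (mul_mem (hA a ha).1 hu.1.1) (CU_right hu (A_CU hA hb'))

theorem U_un (hb : Bas G) {u : B G} (hu : Un u) : Un (a1 u * a2 (cj u)) where
  left := by
    rw [gen_star hb, gen_mul hb, hu.left, hb.a1_one, hb.cj_one, hb.a2_one, mul_one]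
  right := by
    rw [gen_star hb, gen_mul hb, hu.right, hb.a1_one, hb.cj_one, hb.a2_one, mul_one]

theorem CA_conj (hb : Bas G) {A : VonNeumannAlgebra (L2 G)} {u : B G} (hu : Nor A u)
    {Z : B (G × G)} (hZ : Z ∈ CA A) :
    star (a1 u * a2 (cj u)) * Z * (a1 u * a2 (cj u)) ∈ CA A := by
  refine CA_induct hb (CA A).toSubalgebra.toSubmodule
    (StarSubalgebra.isClosed_topologicalClosure _)
    (((ContinuousLinearMap.mul ℂ (B (G × G))).flip (a1 u * a2 (cj u))).comp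
      (ContinuousLinearMap.mul ℂ (B (G × G)) (star (a1 u * a2 (cj u))))) (A := A) ?_ hZ
  intro a ha b hb'
  rw [ContinuousLinearMap.comp_apply, ContinuousLinearMap.flip_apply,
    ContinuousLinearMap.mul_apply', ContinuousLinearMap.mul_apply', gen_star hb, gen_mul hb,
    gen_mul hb]
  exact mem_CA A (hu.conj' a ha) (hu.conj' b hb')

/-! ### (3) the normalizer -/

theorem sqrt_ge {e : ℝ} (he : 1 ≤ e) : 1 ≤ √e := by
  rw [Real.one_le_sqrt]
  exact he

theorem nor_est (hb : Bas G) (h2 : S_FB) (h3 : S_FL) {ψ : B G →ₗ[ℂ] ℂ} (hψ : St ψ)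
    {A : VonNeumannAlgebra (L2 G)} (hA : ∀ x ∈ A, x ∈ Cen ψ) {u : B G} (hn : Nor A u)
    (hu : u ∈ CU ψ) {f : G → ℝ} {s : Finset G} {ε e : ℝ} (hs : ∀ g, g ∉ s → f g = 0)
    (hf : HS f (1 + ε)) (hε : 0 < ε) (hε1 : ε ≤ 1) (hee : ε ≤ e)
    (h1 : ‖tl (Yf s f) 1 - 1‖ ≤ e) (hU : ‖tl (Yf s f) (a1 u * a2 (cj u)) - 1‖ ≤ e)
    {Z : B (G × G)} (hZ : Z ∈ CA A) :
    ‖tl (Yf s f) (star (a1 u * a2 (cj u)) * Z * (a1 u * a2 (cj u))) - tl (Yf s f) Z‖ ≤
      12 * √e * ‖Z‖ := by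
  have hUu : Un (a1 u * a2 (cj u)) := U_un hb hu.2
  have hZ' := CA_conj hb hn hZ
  have hb1 : ∀ W ∈ (Sp ψ).topologicalClosure, ‖tl (Yf s f) W‖ ≤ (1 + e) * ‖W‖ := by
    intro W hW
    refine (Sp_bound hb h2 hψ hs hf hW).trans ?_
    gcongr
  set U : B (G × G) := a1 u * a2 (cj u) with hUdef
  have hnU : ‖U‖ ≤ 1 := by
    have h4 : ‖star U * U‖ = ‖U‖ * ‖U‖ := CStarRing.norm_star_mul_self
    rw [hUu.left] at h4
    have h5 : ‖(1 : B (G × G))‖ ≤ 1 := ContinuousLinearMap.norm_id_le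
    have h6 := norm_nonneg U
    nlinarith
  have hnU' : ‖star U‖ ≤ 1 := by
    rw [show ‖star U‖ = ‖U‖ from norm_star U]; exact hnU
  have hnZ : ‖star U * Z * U‖ ≤ ‖Z‖ := by
    calc ‖star U * Z * U‖ ≤ ‖star U‖ * ‖Z‖ * ‖U‖ :=
          (norm_mul_le _ _).trans (by gcongr; exact norm_mul_le _ _)
      _ ≤ 1 * ‖Z‖ * 1 := by gcongr
      _ = ‖Z‖ := by ring
  rcases le_total e 1 with he | he
  · have he0 : 0 < e := lt_of_lt_of_le hε hee
    obtain ⟨hl, hr⟩ := h3 (L2 (G × G)) (CA A).toSubalgebra.toSubmodule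
      (tl (Yf s f)).toLinearMap U e he0 he hUu (one_mem (CA A)) h1 hU
    have hl' := hl (fun Z hZ W hW => hb1 _ (Submodule.add_mem _ (CA_Sp hb hA hZ)
      (CA_Sp_left hb hA hu hW)))
    have hr' := hr (fun Z hZ W hW => hb1 _ (Submodule.add_mem _ (CA_Sp hb hA hZ)
      (CA_Sp_right hb hA hu hW))) Z hZ
    have hl'' := hl' _ hZ'
    have h7 : U * (star U * Z * U) = Z * U := by
      rw [← mul_assoc U (star U * Z) U, ← mul_assoc U (star U) Z, hUu.right, one_mul]
    rw [h7] at hl''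
    change ‖tl (Yf s f) (Z * U) - tl (Yf s f) (star U * Z * U)‖ ≤ _ at hl''
    change ‖tl (Yf s f) (Z * U) - tl (Yf s f) Z‖ ≤ _ at hr'
    have h8 : tl (Yf s f) (star U * Z * U) - tl (Yf s f) Z =
        (tl (Yf s f) (Z * U) - tl (Yf s f) Z) -
          (tl (Yf s f) (Z * U) - tl (Yf s f) (star U * Z * U)) := by ring
    rw [h8]
    refine (norm_sub_le _ _).trans ?_
    have h9 : 6 * √e * ‖star U * Z * U‖ ≤ 6 * √e * ‖Z‖ := by gcongr
    linarith
  · have hZs := hb1 Z (CA_Sp hb hA hZ)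
    have hb2 : ∀ W ∈ (Sp ψ).topologicalClosure, ‖tl (Yf s f) W‖ ≤ 2 * ‖W‖ := by
      intro W hW
      refine (Sp_bound hb h2 hψ hs hf hW).trans ?_
      gcongr
      linarith
    have h4 := hb2 Z (CA_Sp hb hA hZ)
    have h5 := hb2 _ (CA_Sp hb hA hZ')
    have h6 := sqrt_ge he
    have h7 : (4 : ℝ) * ‖Z‖ ≤ 12 * √e * ‖Z‖ := by
      gcongr
      linarith
    refine (norm_sub_le _ _).trans ?_
    linarith

/-! ### the multipliers -/

theorem HS_le {f : G → ℝ} {C : ℝ} (hf : HS f C) (g : G) : |f g| ≤ C := by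
  obtain ⟨H, _, _, _, ξ, η, h1, h2⟩ := hf.ex
  have h3 := h1 g 1
  rw [inv_one, one_mul] at h3
  rw [← h3]
  have h4 := abs_real_inner_le_norm (ξ g) (η 1)
  have h5 := (h2 g).1
  have h6 := (h2 1).2
  nlinarith [sq_nonneg (‖ξ g‖ - ‖η 1‖)]

theorem cf_sq {u : B G} (hu : star u * u = 1) :
    Summable (fun g => ‖cf u g‖ ^ 2) ∧
      ∑' g, cf u g * (starRingEnd ℂ) (cf u g) = 1 := by
  have hc : ∀ g, cf u g = (u (dl 1) : L2 G) g := fun g => by
    unfold cf
    rw [inner_dl]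
  constructor
  · simp only [hc]
    exact Pool.Agent.H812R3.KP.summable_sq (u (dl 1) : L2 G)
  · have h1 : ⟪(u (dl 1) : L2 G), u (dl 1)⟫_ℂ = 1 := by
      rw [← ContinuousLinearMap.adjoint_inner_left, ← ContinuousLinearMap.star_eq_adjoint,
        ← mul_ap, hu]
      have h2 : ((1 : B G) (dl (1 : G)) : L2 G) = dl 1 := rfl
      rw [h2, inner_self_eq_norm_sq_to_K, norm_one]
      norm_num
    rw [← h1, lp.inner_eq_tsum]
    refine tsum_congr fun g => ?_
    rw [hc, RCLike.inner_apply]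

theorem lim_sq {f : ℕ → G → ℝ} {s : ℕ → Finset G} (hs : ∀ n g, g ∉ s n → f n g = 0)
    (hb : ∀ n g, |f n g| ≤ 2) (hf : ∀ g, Tendsto (fun n => f n g) atTop (𝓝 1)) {u : B G}
    (hu : star u * u = 1) :
    Tendsto (fun n => ∑ g ∈ s n, (f n g : ℂ) * (cf u g * (starRingEnd ℂ) (cf u g))) atTop
      (𝓝 1) := by
  obtain ⟨h1, h2⟩ := cf_sq hu
  have h3 : ∀ n, ∑ g ∈ s n, (f n g : ℂ) * (cf u g * (starRingEnd ℂ) (cf u g)) =
      ∑' g, (f n g : ℂ) * (cf u g * (starRingEnd ℂ) (cf u g)) := by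
    intro n
    rw [tsum_eq_sum]
    intro g hg
    rw [hs n g hg]
    simp
  simp only [h3]
  rw [← h2]
  refine tendsto_tsum_of_dominated_convergence (bound := fun g => 2 * ‖cf u g‖ ^ 2)
    (h1.mul_left 2) ?_ ?_
  · intro g
    have h4 : Tendsto (fun n => (f n g : ℂ)) atTop (𝓝 ((1 : ℝ) : ℂ)) :=
      (Complex.continuous_ofReal.tendsto _).comp (hf g)
    have h5 := h4.mul_const (cf u g * (starRingEnd ℂ) (cf u g))
    simpa using h5
  · refine Eventually.of_forall fun n g => ?_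
    rw [norm_mul, norm_mul, RCLike.norm_conj, Complex.norm_real, Real.norm_eq_abs, sq]
    gcongr
    exact hb n g

theorem mult [Countable G] (hC : CMAP G) : ∃ (f : ℕ → G → ℝ) (s : ℕ → Finset G),
    (∀ n g, g ∉ s n → f n g = 0) ∧ (∀ n, HS (f n) (1 + 1 / ((n : ℝ) + 2))) ∧
    (∀ n, |f n 1 - 1| ≤ 1 / ((n : ℝ) + 2)) ∧ (∀ n g, |f n g| ≤ 2) ∧
    (∀ g, Tendsto (fun n => f n g) atTop (𝓝 1)) ∧
    Tendsto (fun n : ℕ => 1 / ((n : ℝ) + 2)) atTop (𝓝 0) := by
  classical
  obtain ⟨e, he⟩ := exists_surjective_nat G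
  have hpos : ∀ n : ℕ, (0 : ℝ) < 1 / ((n : ℝ) + 2) := fun n => by positivity
  choose f hf using fun n : ℕ => hC.ex (insert 1 ((Finset.range (n + 1)).image e))
    (1 / ((n : ℝ) + 2)) (hpos n)
  have hlim : Tendsto (fun n : ℕ => 1 / ((n : ℝ) + 2)) atTop (𝓝 0) := by
    have h1 : Tendsto (fun n : ℕ => (n : ℝ) + 2) atTop atTop :=
      tendsto_atTop_add_const_right _ _ tendsto_natCast_atTop_atTop
    refine h1.inv_tendsto_atTop.congr fun n => ?_
    simp
  refine ⟨f, fun n => (hf n).1.toFinset, ?_, fun n => (hf n).2.2, ?_, ?_, ?_, hlim⟩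
  · intro n g hg
    by_contra h
    exact hg ((Set.Finite.mem_toFinset _).2 h)
  · intro n
    exact ((hf n).2.1 1 (Finset.mem_insert_self _ _)).le
  · intro n g
    refine (HS_le (hf n).2.2 g).trans ?_
    have h1 : 1 / ((n : ℝ) + 2) ≤ 1 := by
      rw [div_le_one (by positivity)]
      have : (0 : ℝ) ≤ n := Nat.cast_nonneg n
      linarith
    linarith
  · intro g
    obtain ⟨k, rfl⟩ := he g
    rw [tendsto_iff_norm_sub_tendsto_zero]
    refine squeeze_zero' (Eventually.of_forall fun n => norm_nonneg _) ?_ hlim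
    filter_upwards [eventually_ge_atTop k] with n hn
    rw [Real.norm_eq_abs]
    refine ((hf n).2.1 (e k) ?_).le
    refine Finset.mem_insert_of_mem (Finset.mem_image_of_mem e ?_)
    rw [Finset.mem_range]
    omega

/-- **WF.** -/
theorem main (h0 : S_BAS) (h1 : S_CE) (h2 : S_FB) (h3 : S_FL) (h4 : S_AU) : S_WF := by
  intro G _ _ hC A hA
  have hb : Bas G := h0 G
  obtain ⟨φ, hφ, hcen⟩ := hA.ex
  obtain ⟨f, s, hs, hHS, hf1, hf2, hlim, hε⟩ := mult hC
  choose e he1 he2 using fun g : G => h1 G A hA.sub (lam g) (lam_mem g)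
  have hpos : ∀ n : ℕ, (0 : ℝ) < 1 / ((n : ℝ) + 2) := fun n => by positivity
  have hle : ∀ n : ℕ, (1 : ℝ) / ((n : ℝ) + 2) ≤ 1 := fun n => by
    rw [div_le_one (by positivity)]
    have : (0 : ℝ) ≤ n := Nat.cast_nonneg n
    linarith
  have hK : ∀ n, ∀ Z ∈ CA A, tau (Z * star (Kf e (s n) (f n))) = tl (Yf (s n) (f n)) Z :=
    fun n Z hZ => Kf_eq hb he2 (s n) (f n) hZ
  have h11 : (1 : B (G × G)) = a1 1 * a2 (cj 1) := by
    rw [hb.a1_one, hb.cj_one, hb.a2_one, mul_one]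
  have hcf1 : ∀ g : G, g ≠ 1 → cf (1 : B G) g = 0 := by
    classical
    intro g hg
    change inner ℂ (dl g) (dl (1 : G)) = 0
    rw [dl_inner, if_neg hg]
  have hcf2 : cf (1 : B G) 1 = 1 := by
    classical
    change inner ℂ (dl (1 : G)) (dl (1 : G)) = 1
    rw [dl_inner, if_pos rfl]
  have hl : ∀ n, ∀ a ∈ LG G, tl (Yf (s n) (f n)) (a1 a * a2 (cj 1)) = (f n 1 : ℂ) * tau a := by
    intro n a ha
    rw [tl_Yf' hb (s n) (f n) ha (one_mem _)]
    by_cases h : (1 : G) ∈ s n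
    · rw [Finset.sum_eq_single_of_mem 1 h, hcf2]
      · simp [cf, tau]
      · intro g _ hg
        rw [hcf1 g hg]
        simp
    · rw [hs n 1 h, Finset.sum_eq_zero]
      · simp
      · intro g hg
        rw [hcf1 g (fun h' => h (h' ▸ hg))]
        simp
  have htau1 : tau (1 : B G) = 1 := hcf2
  have hl1 : ∀ n, tl (Yf (s n) (f n)) 1 = (f n 1 : ℂ) := by
    intro n
    rw [h11, hl n 1 (one_mem _), htau1, mul_one]
  have hone : ∀ n, ‖tl (Yf (s n) (f n)) 1 - 1‖ ≤ 1 / ((n : ℝ) + 2) := by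
    intro n
    rw [hl1]
    have h5 : ((f n 1 : ℝ) : ℂ) - 1 = ((f n 1 - 1 : ℝ) : ℂ) := by push_cast; rfl
    rw [h5, Complex.norm_real, Real.norm_eq_abs]
    exact hf1 n
  have hun : ∀ u ∈ LG G, star u * u = 1 →
      Tendsto (fun n => tl (Yf (s n) (f n)) (a1 u * a2 (cj u))) atTop (𝓝 1) := by
    intro u hu hu1
    have h5 := lim_sq hs hf2 hlim hu1
    refine h5.congr fun n => ?_
    rw [tl_Yf' hb (s n) (f n) hu hu]
  refine ⟨fun n => Kf e (s n) (f n), fun n => 1 / ((n : ℝ) + 2), ?_⟩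
  constructor
  case mem => exact fun n => Kf_mem A e he1 (s n) (f n)
  case pos => exact fun n => ⟨hpos n, hle n⟩
  case lim => exact hε
  case bound =>
    intro n Z hZ
    rw [hK n Z hZ]
    exact Sp_bound hb h2 hφ (hs n) (hHS n) (CA_Sp hb hcen hZ)
  case one =>
    intro n
    have h5 := hK n 1 (one_mem _)
    rw [one_mul] at h5
    rw [h5]
    exact hone n
  case nor =>
    intro u hu
    obtain ⟨ψ, hψ, hψA, hψu, -⟩ := h4 G A hA.sub φ hφ hcen u hu
    refine ⟨fun n => 12 * √(max (1 / ((n : ℝ) + 2))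
      ‖tl (Yf (s n) (f n)) (a1 u * a2 (cj u)) - 1‖), ?_, ?_⟩
    · have h5 : Tendsto (fun n => ‖tl (Yf (s n) (f n)) (a1 u * a2 (cj u)) - 1‖) atTop (𝓝 0) :=
        tendsto_iff_norm_sub_tendsto_zero.1 (hun u hu.mem hu.left)
      have h6 := hε.max h5
      rw [max_self] at h6
      have h7 := (Real.continuous_sqrt.tendsto _).comp h6
      rw [Real.sqrt_zero] at h7
      have h8 := h7.const_mul (12 : ℝ)
      rw [mul_zero] at h8
      exact h8
    · intro n Z hZ
      rw [hK n Z hZ, hK n _ (CA_conj hb hu hZ)]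
      exact nor_est hb h2 h3 hψ hψA hu ⟨hψu, ⟨hu.left, hu.right⟩⟩ (hs n) (hHS n) (hpos n) (hle n)
        (le_max_left _ _) ((hone n).trans (le_max_left _ _)) (le_max_right _ _) hZ
  case left =>
    intro a ha
    have h5 : ∀ n, tau (a1 a * star (Kf e (s n) (f n))) = (f n 1 : ℂ) * tau a := by
      intro n
      have h6 : a1 a = a1 a * a2 (cj 1) := by
        rw [hb.cj_one, hb.a2_one, mul_one]
      have h7 : a1 a ∈ CA A := by
        rw [h6]
        exact mem_CA A ha (one_mem A)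
      rw [hK n _ h7, h6, hl n a (hA.sub a ha)]
    simp only [h5]
    have h6 : Tendsto (fun n => (f n 1 : ℂ)) atTop (𝓝 ((1 : ℝ) : ℂ)) :=
      (Complex.continuous_ofReal.tendsto _).comp (hlim 1)
    have h7 := h6.mul_const (tau a)
    simpa using h7
  case unit =>
    intro u hu hu'
    refine (hun u (hA.sub u hu) hu'.left).congr fun n => ?_
    rw [hK n _ (mem_CA A hu hu)]

end

end WF

/-- WF: weak compactness, the functionals. -/
theorem t_wf (h0 : S_BAS) (h1 : S_CE) (h2 : S_FB) (h3 : S_FL) (h4 : S_AU) : S_WF :=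
  WF.main h0 h1 h2 h3 h4

end Pool.Agent.N571.SS.D
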