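import Pool.Agent.N571.SS.D.Stm2
import Pool.Agent.N571.EX.TR

/-!
# Project SS/D, WV: weak compactness, the vectors
-/

set_option autoImplicit false

namespace Pool.Agent.N571.SS.D

open Filter Topology
open scoped InnerProductSpace ComplexOrder
open Pool.Agent.H494R3.GT (L2 dl inner_dl vec_ext op_ext mul_ap dl_orthonormal)
open Pool.Agent.N557.QW (lam rgt LG LK cf rc mem_LG rgt_dl star_rgt)

noncomputable section

namespace WVx

variable {G : Type} [Group G]

lemma mul12 (hB : Bas G) (x y x' y' : B G) :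
    a1 x * a2 y * (a1 x' * a2 y') = a1 (x * x') * a2 (y * y') := by
  rw [hB.a1_mul, hB.a2_mul]
  calc a1 x * a2 y * (a1 x' * a2 y') = a1 x * (a2 y * a1 x') * a2 y' := by simp only [mul_assoc]
    _ = a1 x * (a1 x' * a2 y) * a2 y' := by rw [hB.comm]
    _ = _ := by simp only [mul_assoc]

lemma star12 (hB : Bas G) (x y : B G) : star (a1 x * a2 y) = a1 (star x) * a2 (star y) := by
  rw [star_mul, ← hB.a1_star, ← hB.a2_star, hB.comm]

/-- properties which hold for the generators and define closed subspaces hold on `CA A` -/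
lemma C_ind (hB : Bas G) {A : VonNeumannAlgebra (L2 G)} (N : Submodule ℂ (B (G × G)))
    (hN : IsClosed (N : Set (B (G × G)))) (h : ∀ a ∈ A, ∀ b ∈ A, a1 a * a2 (cj b) ∈ N) :
    ∀ Z ∈ CA A, Z ∈ N := by
  obtain ⟨Gn, hGn⟩ : ∃ Gn : Set (B (G × G)), Gn = {Z | ∃ a ∈ A, ∃ b ∈ A, Z = a1 a * a2 (cj b)} :=
    ⟨_, rfl⟩
  have hmul : ∀ Z ∈ Gn, ∀ W ∈ Gn, Z * W ∈ Gn := by
    rw [hGn]
    rintro _ ⟨a, ha, b, hb, rfl⟩ _ ⟨a', ha', b', hb', rfl⟩
    refine ⟨a * a', mul_mem ha ha', b * b', mul_mem hb hb', ?_⟩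
    rw [mul12 hB, hB.cj_mul]
  have hone : (1 : B (G × G)) ∈ Gn := by
    rw [hGn]
    exact ⟨1, one_mem _, 1, one_mem _, by rw [hB.a1_one, hB.cj_one, hB.a2_one, mul_one]⟩
  have hstar : ∀ Z ∈ Gn, star Z ∈ Gn := by
    rw [hGn]
    rintro _ ⟨a, ha, b, hb, rfl⟩
    refine ⟨star a, star_mem ha, star b, star_mem hb, ?_⟩
    rw [star12 hB, ← hB.cj_star]
  have hsp : ∀ x ∈ StarAlgebra.adjoin ℂ Gn, x ∈ Submodule.span ℂ Gn := by
    intro x hx
    induction hx using StarAlgebra.adjoin_induction with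
    | mem x h => exact Submodule.subset_span h
    | algebraMap r =>
      rw [Algebra.algebraMap_eq_smul_one]
      exact Submodule.smul_mem _ _ (Submodule.subset_span hone)
    | add x y _ _ hx hy => exact add_mem hx hy
    | mul x y _ _ hx hy =>
      have h1 := Submodule.mul_mem_mul hx hy
      rw [Submodule.span_mul_span] at h1
      refine Submodule.span_mono ?_ h1
      rintro _ ⟨Z, hZ, W, hW, rfl⟩
      exact hmul Z hZ W hW
    | star x _ hx =>
      refine Submodule.span_induction (p := fun x _ => star x ∈ Submodule.span ℂ Gn) ?_ ?_ ?_ ?_ hx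
      · intro z hz
        exact Submodule.subset_span (hstar z hz)
      · rw [star_zero]
        exact zero_mem _
      · intro y z _ _ hy hz
        rw [star_add]
        exact add_mem hy hz
      · intro c y _ hy
        rw [star_smul]
        exact Submodule.smul_mem _ _ hy
  have hle : (CA A : Set (B (G × G))) = closure (StarAlgebra.adjoin ℂ Gn : Set (B (G × G))) := by
    rw [hGn]
    exact StarSubalgebra.topologicalClosure_coe _
  intro Z hZ
  have hZ' : Z ∈ closure (StarAlgebra.adjoin ℂ Gn : Set (B (G × G))) := by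
    rw [← hle]
    exact hZ
  have hGN : Submodule.span ℂ Gn ≤ N := by
    rw [Submodule.span_le, hGn]
    rintro _ ⟨a, ha, b, hb, rfl⟩
    exact h a ha b hb
  exact closure_minimal (fun x hx => hGN (hsp x hx)) hN hZ'

lemma gen_mem {A : VonNeumannAlgebra (L2 G)} {a b : B G} (ha : a ∈ A) (hb : b ∈ A) :
    a1 a * a2 (cj b) ∈ CA A :=
  StarSubalgebra.le_topologicalClosure _ (StarAlgebra.subset_adjoin ℂ _ ⟨a, ha, b, hb, rfl⟩)

lemma a1_memC (hB : Bas G) {A : VonNeumannAlgebra (L2 G)} {a : B G} (ha : a ∈ A) :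
    a1 a ∈ CA A := by
  have h := gen_mem ha (one_mem A)
  rwa [hB.cj_one, hB.a2_one, mul_one] at h

lemma C_closed (A : VonNeumannAlgebra (L2 G)) : IsClosed (CA A : Set (B (G × G))) :=
  StarSubalgebra.isClosed_topologicalClosure _

/-- elements of `CA A` are in `L(G × G)` -/
lemma C_LG (hB : Bas G) {A : VonNeumannAlgebra (L2 G)} (hA : ∀ x ∈ A, x ∈ LG G) :
    ∀ Z ∈ CA A, Z ∈ LG (G × G) := by
  have hcl : IsClosed {Z : B (G × G) | ∀ g : G × G, rgt g * Z = Z * rgt g} := by
    have e : {Z : B (G × G) | ∀ g : G × G, rgt g * Z = Z * rgt g} =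
        ⋂ g : G × G, {Z : B (G × G) | rgt g * Z = Z * rgt g} := by
      ext Z
      simp
    rw [e]
    exact isClosed_iInter fun g =>
      isClosed_eq (continuous_const.mul continuous_id) (continuous_id.mul continuous_const)
  have h := C_ind hB (A := A)
    { carrier := {Z : B (G × G) | ∀ g : G × G, rgt g * Z = Z * rgt g}
      add_mem' := fun {x y} hx hy g => by rw [mul_add, add_mul, hx g, hy g]
      zero_mem' := fun g => by rw [mul_zero, zero_mul]
      smul_mem' := fun c x hx g => by rw [mul_smul_comm, smul_mul_assoc, hx g] } hcl (by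
        intro a ha b hb
        exact mem_LG.1 (mul_mem (hB.a1_mem a (hA a ha)) (hB.a2_mem _ (hB.cj_mem b (hA b hb)))))
  intro Z hZ
  exact mem_LG.2 (h Z hZ)

/-- operators which commute with the generators commute with `CA A` -/
lemma C_comm (hB : Bas G) {A : VonNeumannAlgebra (L2 G)} (T : B (G × G))
    (h : ∀ a ∈ A, ∀ b ∈ A, T * (a1 a * a2 (cj b)) = a1 a * a2 (cj b) * T) :
    ∀ Z ∈ CA A, T * Z = Z * T := by
  exact C_ind hB (A := A)
    { carrier := {Z : B (G × G) | T * Z = Z * T}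
      add_mem' := fun {x y} hx hy => by
        have hx' : T * x = x * T := hx
        have hy' : T * y = y * T := hy
        change T * (x + y) = (x + y) * T
        rw [mul_add, add_mul, hx', hy']
      zero_mem' := by
        change T * 0 = 0 * T
        rw [mul_zero, zero_mul]
      smul_mem' := fun c x hx => by
        have hx' : T * x = x * T := hx
        change T * (c • x) = (c • x) * T
        rw [mul_smul_comm, smul_mul_assoc, hx'] }
    (isClosed_eq (continuous_const.mul continuous_id) (continuous_id.mul continuous_const)) h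

/-- `U Z V ∈ CA A` if this holds for the generators -/
lemma C_conj (hB : Bas G) {A : VonNeumannAlgebra (L2 G)} (U V : B (G × G))
    (h : ∀ a ∈ A, ∀ b ∈ A, U * (a1 a * a2 (cj b)) * V ∈ CA A) :
    ∀ Z ∈ CA A, U * Z * V ∈ CA A := by
  exact C_ind hB (A := A)
    { carrier := {Z : B (G × G) | U * Z * V ∈ CA A}
      add_mem' := fun {x y} hx hy => by
        have hx' : U * x * V ∈ CA A := hx
        have hy' : U * y * V ∈ CA A := hy
        change U * (x + y) * V ∈ CA A
        rw [mul_add, add_mul]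
        exact add_mem hx' hy'
      zero_mem' := by
        change U * 0 * V ∈ CA A
        rw [mul_zero, zero_mul]
        exact zero_mem _
      smul_mem' := fun c x hx => by
        have hx' : U * x * V ∈ CA A := hx
        change U * (c • x) * V ∈ CA A
        rw [mul_smul_comm, smul_mul_assoc]
        exact SMulMemClass.smul_mem c hx' }
    ((C_closed A).preimage ((continuous_const.mul continuous_id).mul continuous_const)) h

/-- vector functionals which agree on the generators agree on `CA A` -/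
lemma C_eq (hB : Bas G) {A : VonNeumannAlgebra (L2 G)} (η ζ ζ' : L2 (G × G))
    (h : ∀ a ∈ A, ∀ b ∈ A, ⟪η, (a1 a * a2 (cj b)) ζ⟫_ℂ = ⟪η, (a1 a * a2 (cj b)) ζ'⟫_ℂ) :
    ∀ Z ∈ CA A, ⟪η, Z ζ⟫_ℂ = ⟪η, Z ζ'⟫_ℂ := by
  have hc : ∀ v : L2 (G × G), Continuous fun Z : B (G × G) => (⟪η, Z v⟫_ℂ : ℂ) := by
    intro v
    exact (innerSL ℂ η).continuous.comp (ContinuousLinearMap.apply ℂ (L2 (G × G)) v).continuous
  exact C_ind hB (A := A)
    { carrier := {Z : B (G × G) | ⟪η, Z ζ⟫_ℂ = ⟪η, Z ζ'⟫_ℂ}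
      add_mem' := fun {x y} hx hy => by
        have hx' : ⟪η, x ζ⟫_ℂ = ⟪η, x ζ'⟫_ℂ := hx
        have hy' : ⟪η, y ζ⟫_ℂ = ⟪η, y ζ'⟫_ℂ := hy
        change ⟪η, x ζ + y ζ⟫_ℂ = ⟪η, x ζ' + y ζ'⟫_ℂ
        rw [inner_add_right, inner_add_right, hx', hy']
      zero_mem' := by
        change ⟪η, (0 : L2 (G × G))⟫_ℂ = ⟪η, (0 : L2 (G × G))⟫_ℂ
        rfl
      smul_mem' := fun c x hx => by
        have hx' : ⟪η, x ζ⟫_ℂ = ⟪η, x ζ'⟫_ℂ := hx
        change ⟪η, c • x ζ⟫_ℂ = ⟪η, c • x ζ'⟫_ℂ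
        rw [inner_smul_right, inner_smul_right, hx'] }
    (isClosed_eq (hc ζ) (hc ζ')) h

/-- the vacuum -/
lemma tau12 (hB : Bas G) (x y : B G) : tau (a1 x * a2 y) = tau x * tau y := by
  unfold tau
  exact hB.a12_ent x y 1 1 1 1

lemma a1_O (hB : Bas G) (x y : B G) (h : x (dl (1 : G)) = y (dl (1 : G))) :
    a1 x (dl (1 : G × G)) = a1 y (dl (1 : G × G)) := by
  apply vec_ext
  rintro ⟨s, s'⟩
  rw [← inner_dl, ← inner_dl]
  have h1 := hB.a1_ent x s 1 s' 1
  have h2 := hB.a1_ent y s 1 s' 1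
  rw [h, ← h2] at h1
  exact h1

lemma a2_O (hB : Bas G) (x y : B G) (h : x (dl (1 : G)) = y (dl (1 : G))) :
    a2 x (dl (1 : G × G)) = a2 y (dl (1 : G × G)) := by
  apply vec_ext
  rintro ⟨s, s'⟩
  rw [← inner_dl, ← inner_dl]
  have h1 := hB.a2_ent x s 1 s' 1
  have h2 := hB.a2_ent y s 1 s' 1
  rw [h, ← h2] at h1
  exact h1

lemma unit_O : ‖(dl (1 : G × G) : L2 (G × G))‖ = 1 :=
  (dl_orthonormal (P := G × G) (f := fun g : G × G => g) Function.injective_id).1 1

/-- traciality on `L(G × G)` -/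
lemma trac {x y : B (G × G)} (hx : x ∈ LG (G × G)) (hy : y ∈ LG (G × G)) :
    tau (x * y) = tau (y * x) :=
  Pool.Agent.N571.EX.TRx.tracial hx hy

lemma tracG {x y : B G} (hx : x ∈ LG G) (hy : y ∈ LG G) : tau (x * y) = tau (y * x) :=
  Pool.Agent.N571.EX.TRx.tracial hx hy

lemma trC (hB : Bas G) {A : VonNeumannAlgebra (L2 G)} (hA : ∀ x ∈ A, x ∈ LG G) :
    Tr (CA A) (dl (1 : G × G)) where
  closed := C_closed A
  unit := unit_O
  tracial x hx y hy := trac (C_LG hB hA x hx) (C_LG hB hA y hy)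

/-- the norm of a partial isometry -/
lemma norm_le {H : Type} [NormedAddCommGroup H] [InnerProductSpace ℂ H] [CompleteSpace H]
    (U : H →L[ℂ] H) (h : star U * U = 1) : ‖U‖ ≤ 1 := by
  have h1 : ‖star U * U‖ = ‖U‖ * ‖U‖ := CStarRing.norm_star_mul_self
  rw [h] at h1
  have h2 : ‖(1 : H →L[ℂ] H)‖ ≤ 1 := ContinuousLinearMap.norm_id_le
  nlinarith [norm_nonneg U]

lemma sa_inner {H : Type} [NormedAddCommGroup H] [InnerProductSpace ℂ H] [CompleteSpace H]
    (L : H →L[ℂ] H) (h : star L = L) (v w : H) : ⟪L v, w⟫_ℂ = ⟪v, L w⟫_ℂ := by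
  rw [← ContinuousLinearMap.adjoint_inner_right, ← ContinuousLinearMap.star_eq_adjoint, h]

lemma st_inner {H : Type} [NormedAddCommGroup H] [InnerProductSpace ℂ H] [CompleteSpace H]
    (T : H →L[ℂ] H) (v w : H) : ⟪v, T w⟫_ℂ = ⟪star T v, w⟫_ℂ := by
  rw [ContinuousLinearMap.star_eq_adjoint, ContinuousLinearMap.adjoint_inner_left]

lemma one12 (hB : Bas G) : a1 (1 : B G) * a2 (1 : B G) = 1 := by
  rw [hB.a1_one, hB.a2_one, mul_one]

/-- the unitary `u ⊗ ū` -/
lemma U_left (hB : Bas G) (u : B G) (h : star u * u = 1) :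
    star (a1 u * a2 (cj u)) * (a1 u * a2 (cj u)) = 1 := by
  rw [star12 hB, mul12 hB, ← hB.cj_star, ← hB.cj_mul, h, hB.cj_one, one12 hB]

lemma U_right (hB : Bas G) (u : B G) (h : u * star u = 1) :
    a1 u * a2 (cj u) * star (a1 u * a2 (cj u)) = 1 := by
  rw [star12 hB, mul12 hB, ← hB.cj_star, ← hB.cj_mul, h, hB.cj_one, one12 hB]

/-- `R(x) ⊗ 1` and `1 ⊗ R(x)` commute with `CA A` -/
lemma Rm1_comm (hB : Bas G) {A : VonNeumannAlgebra (L2 G)} (hA : ∀ x ∈ A, x ∈ LG G) {x : B G}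
    (hx : x ∈ LG G) : ∀ Z ∈ CA A, a1 (Rm x) * Z = Z * a1 (Rm x) := by
  apply C_comm hB
  intro a ha b hb
  have e1 : a1 (Rm x) * (a1 a * a2 (cj b)) = a1 (Rm x * a) * a2 (cj b) := by
    rw [hB.a1_mul, mul_assoc]
  have e2 : a1 a * a2 (cj b) * a1 (Rm x) = a1 (a * Rm x) * a2 (cj b) := by
    rw [hB.a1_mul, mul_assoc, mul_assoc, hB.comm]
  rw [e1, e2, hB.Rm_comm x hx a (hA a ha)]

lemma Rm2_comm (hB : Bas G) {A : VonNeumannAlgebra (L2 G)} (hA : ∀ x ∈ A, x ∈ LG G) {x : B G}
    (hx : x ∈ LG G) : ∀ Z ∈ CA A, a2 (Rm x) * Z = Z * a2 (Rm x) := by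
  apply C_comm hB
  intro a ha b hb
  have e1 : a2 (Rm x) * (a1 a * a2 (cj b)) = a1 a * a2 (Rm x * cj b) := by
    rw [hB.a2_mul, ← mul_assoc, ← hB.comm, mul_assoc]
  have e2 : a1 a * a2 (cj b) * a2 (Rm x) = a1 a * a2 (cj b * Rm x) := by
    rw [hB.a2_mul, mul_assoc]
  rw [e1, e2, hB.Rm_comm x hx (cj b) (hB.cj_mem b (hA b hb))]

/-- orthogonal sums -/
lemma orth_sum {H : Type} [NormedAddCommGroup H] [InnerProductSpace ℂ H] {m : ℕ} (z : Fin m → H)
    (h : ∀ i j, i ≠ j → ⟪z i, z j⟫_ℂ = 0) : ‖∑ i, z i‖ ^ 2 = ∑ i, ‖z i‖ ^ 2 := by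
  have hk : ∀ v : H, ((‖v‖ : ℝ) : ℂ) ^ 2 = ⟪v, v⟫_ℂ := fun v =>
    (inner_self_eq_norm_sq_to_K (𝕜 := ℂ) v).symm
  have h1 : ((‖∑ i, z i‖ ^ 2 : ℝ) : ℂ) = ((∑ i, ‖z i‖ ^ 2 : ℝ) : ℂ) := by
    push_cast
    rw [hk, sum_inner]
    refine Finset.sum_congr rfl fun i _ => ?_
    rw [inner_sum, Finset.sum_eq_single i]
    · rw [hk]
    · intro j _ hj
      exact h i j (Ne.symm hj)
    · intro hi
      exact absurd (Finset.mem_univ i) hi
  exact_mod_cast h1

lemma Pg_norm {p : B G} (hp : p ∈ LG G) (hs : star p = p) (g : G) (c : ℝ) (hc : 0 ≤ c)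
    (h : ‖p (dl 1)‖ ^ 2 ≤ c ^ 2) : ‖Pg g * p‖ ≤ c := by
  refine ContinuousLinearMap.opNorm_le_bound _ hc fun v => ?_
  have h1 : (Pg g * p) v = (⟪dl g, p v⟫_ℂ : ℂ) • dl g := rfl
  have h2 : ‖(dl g : L2 G)‖ = 1 :=
    (dl_orthonormal (P := G) (f := fun g : G => g) Function.injective_id).1 g
  rw [h1, norm_smul, h2, mul_one, ← sa_inner p hs]
  refine (norm_inner_le_norm _ _).trans (mul_le_mul_of_nonneg_right ?_ (norm_nonneg _))
  have h3 : p (dl g) = rgt g (p (dl 1)) := Pool.Agent.N571.EX.TRx.ap_dl hp g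
  have h4 : ‖(rgt g : B G)‖ ≤ 1 := by
    apply norm_le
    rw [star_rgt]
    apply op_ext
    intro s
    rw [mul_ap, rgt_dl, rgt_dl]
    rw [mul_inv_cancel_right]
    rfl
  rw [h3]
  have h5 := (rgt g : B G).le_opNorm (p (dl 1))
  have h6 : ‖p (dl 1)‖ ≤ c := abs_le_of_sq_le_sq' h hc |>.2
  nlinarith [norm_nonneg (p (dl (1 : G)))]

end WVx

open WVx in
theorem t_wv (h0 : S_BAS) (h1 : S_CE) (h2 : S_POS) (h3 : S_PSC) (h4 : S_DIF) : S_WV := by
  intro G _ A hA hdif K ε hF
  have hB := h0 G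
  have hT := trC hB hA
  have hL : ∀ n, ∃ L ∈ CA A, Pos L ∧ ∀ Z ∈ CA A,
      ‖tau (Z * (L * L)) - tau (Z * star (K n))‖ ≤ 20 * √(ε n) * ‖Z‖ := fun n =>
    h2 (L2 (G × G)) (CA A) (dl 1) hT (ε n) (hF.pos n).1 (hF.pos n).2 (K n) (hF.mem n)
      (hF.bound n) (hF.one n)
  choose L hLC hLP hLF using hL
  have hLG : ∀ Z ∈ CA A, Z ∈ LG (G × G) := C_LG hB hA
  have sq0 : Tendsto (fun n => √(ε n)) atTop (𝓝 0) := by
    have h := (Real.continuous_sqrt.tendsto 0).comp hF.lim
    rwa [Real.sqrt_zero] at h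
  have key : ∀ Z ∈ CA A, ∀ c : ℂ, Tendsto (fun n => tau (Z * star (K n))) atTop (𝓝 c) →
      Tendsto (fun n => tau (Z * (L n * L n))) atTop (𝓝 c) := by
    intro Z hZ c hc
    have h5 : Tendsto (fun n => tau (Z * (L n * L n)) - tau (Z * star (K n))) atTop (𝓝 0) := by
      refine squeeze_zero_norm (fun n => hLF n Z hZ) ?_
      have := (sq0.const_mul 20).mul_const ‖Z‖
      simpa using this
    have h6 := h5.add hc
    simpa using h6
  obtain ⟨xi, hxi⟩ : ∃ xi : ℕ → L2 (G × G), xi = fun n => L n (dl 1) := ⟨_, rfl⟩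
  have hx : ∀ n, xi n = L n (dl 1) := fun n => by rw [hxi]
  -- the common value
  have val : ∀ x ∈ LG G, Tendsto (fun n => tau (L n * L n * a1 x)) atTop (𝓝 (tau x)) := by
    intro x hx
    obtain ⟨e, he, hex⟩ := h1 G A hA x hx
    have h6 : ∀ a b y : B G, ⟪dl (1 : G × G), (a1 a * a2 (cj b)) (a1 y (dl 1))⟫_ℂ =
        tau (a * y) * tau (cj b) := by
      intro a b y
      rw [← tau12 hB]
      have e1 : a1 (a * y) * a2 (cj b) = a1 a * a2 (cj b) * a1 y := by
        rw [hB.a1_mul, mul_assoc, mul_assoc, hB.comm]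
      rw [e1]
      rfl
    have h5 := C_eq hB (A := A) (dl (1 : G × G)) (a1 x (dl 1)) (a1 e (dl 1)) (by
      intro a ha b hb
      rw [h6, h6, tracG (hA a ha) hx, ← hex a ha, tracG (hA e he) (hA a ha)])
    have h7 : ∀ n, tau (L n * L n * a1 x) = tau (a1 e * (L n * L n)) := by
      intro n
      have hm := mul_mem (hLC n) (hLC n)
      have h8 : tau (L n * L n * a1 x) = tau (L n * L n * a1 e) := h5 (L n * L n) hm
      rw [h8, trac (hLG _ hm) (hB.a1_mem e (hA e he))]
    simp only [h7]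
    have h10 := key (a1 e) (a1_memC hB he) (tau e) (hF.left e he)
    have h11 : tau e = tau x := by
      have := hex 1 (one_mem A)
      rwa [mul_one, mul_one] at this
    rwa [h11] at h10
  have left : ∀ x ∈ LG G, Tendsto (fun n => ⟪xi n, a1 x (xi n)⟫_ℂ) atTop (𝓝 (tau x)) := by
    intro x hx'
    refine (val x hx').congr fun n => ?_
    rw [hx, sa_inner (L n) (hLP n).sa]
    have e1 : ⟪dl (1 : G × G), L n (a1 x (L n (dl 1)))⟫_ℂ = tau (L n * a1 x * L n) := rfl
    rw [e1, trac (mul_mem (hLG _ (hLC n)) (hB.a1_mem x hx')) (hLG _ (hLC n)), mul_assoc]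
  have right : ∀ x ∈ LG G, Tendsto (fun n => ⟪xi n, a1 (Rm x) (xi n)⟫_ℂ) atTop
      (𝓝 (tau x)) := by
    intro x hx'
    refine (val x hx').congr fun n => ?_
    have e1 : a1 (Rm x) (xi n) = L n (a1 x (dl 1)) := by
      rw [hx, ← mul_ap, Rm1_comm hB hA hx' _ (hLC n), mul_ap,
        a1_O hB (Rm x) x (hB.Rm_dl x hx')]
    rw [e1, hx, sa_inner (L n) (hLP n).sa]
    rfl
  -- the norms
  have nrm : Tendsto (fun n => ‖xi n‖ ^ 2) atTop (𝓝 1) := by
    have h5 := left 1 (one_mem _)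
    have h6 : tau (1 : B G) = 1 := by
      have h7 : ‖(dl (1 : G) : L2 G)‖ = 1 :=
        (dl_orthonormal (P := G) (f := fun g : G => g) Function.injective_id).1 1
      unfold tau
      rw [ContinuousLinearMap.one_apply, inner_self_eq_norm_sq_to_K (𝕜 := ℂ), h7]
      norm_num
    rw [h6] at h5
    have h8 := (Complex.continuous_re.tendsto 1).comp h5
    rw [Complex.one_re] at h8
    refine h8.congr fun n => ?_
    simp only [Function.comp_apply]
    rw [hB.a1_one, ContinuousLinearMap.one_apply]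
    exact inner_self_eq_norm_sq (𝕜 := ℂ) (xi n)
  -- projections
  have proj : ∀ p ∈ A, star p = p → p * p = p →
      Tendsto (fun n => ‖a1 p (xi n) - a2 (cj p) (xi n)‖) atTop (𝓝 0) := by
    intro p hp hps hpp
    obtain ⟨u, hu⟩ : ∃ u : B G, u = 1 - (2 : ℂ) • p := ⟨_, rfl⟩
    have huA : u ∈ A := by
      rw [hu]
      rw [two_smul]
      exact sub_mem (one_mem A) (add_mem hp hp)
    have hus : star u = u := by
      rw [hu, star_sub, star_one, star_smul, hps]
      simp
    have huu : u * u = 1 := by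
      rw [hu, sub_mul, mul_sub, mul_sub, one_mul, mul_one, one_mul, smul_mul_assoc, mul_smul_comm,
        hpp, smul_smul]
      module
    have hcu : cj u * cj u = 1 := by rw [← hB.cj_mul, huu, hB.cj_one]
    obtain ⟨U, hU⟩ : ∃ U, U = a1 u * a2 (cj u) := ⟨_, rfl⟩
    have hUC : U ∈ CA A := by rw [hU]; exact gen_mem huA huA
    have hUs : star U = U := by rw [hU, star12 hB, ← hB.cj_star, hus]
    have hUU : U * U = 1 := by rw [hU, mul12 hB, huu, hcu, one12 hB]
    have h5 : Tendsto (fun n => ⟪xi n, U (xi n)⟫_ℂ) atTop (𝓝 1) := by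
      refine (key U hUC 1 (by
        rw [hU]
        exact hF.unit u huA ⟨by rw [hus, huu], by rw [hus, huu]⟩)).congr fun n => ?_
      rw [hx, sa_inner (L n) (hLP n).sa]
      have e1 : ⟪dl (1 : G × G), L n (U (L n (dl 1)))⟫_ℂ = tau (L n * (U * L n)) := rfl
      rw [e1, trac (hLG _ (hLC n)) (mul_mem (hLG _ hUC) (hLG _ (hLC n))), mul_assoc]
    have h6 : Tendsto (fun n => ‖xi n - U (xi n)‖ ^ 2) atTop (𝓝 0) := by
      have h7 := (Complex.continuous_re.tendsto 1).comp h5
      rw [Complex.one_re] at h7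
      have h8 := (nrm.sub (h7.const_mul 2)).add nrm
      have e0 : (1 - 2 * 1 + 1 : ℝ) = 0 := by norm_num
      rw [e0] at h8
      refine h8.congr fun n => ?_
      simp only [Function.comp_apply]
      rw [norm_sub_sq (𝕜 := ℂ)]
      have h9 : ‖U (xi n)‖ ^ 2 = ‖xi n‖ ^ 2 := by
        rw [← inner_self_eq_norm_sq (𝕜 := ℂ), ← inner_self_eq_norm_sq (𝕜 := ℂ), sa_inner U hUs,
          ← mul_ap, hUU]
        rfl
      rw [h9]
      rfl
    have h7 : Tendsto (fun n => ‖xi n - U (xi n)‖) atTop (𝓝 0) := by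
      have h8 := (Real.continuous_sqrt.tendsto 0).comp h6
      rw [Real.sqrt_zero] at h8
      refine h8.congr fun n => ?_
      simp only [Function.comp_apply]
      exact Real.sqrt_sq (norm_nonneg _)
    have h8 : ∀ n, a1 p (xi n) - a2 (cj p) (xi n) = (1 / 2 : ℂ) • a2 (cj u) (xi n - U (xi n)) := by
      intro n
      have e1 : a2 (cj u) * U = a1 u := by
        rw [hU, ← mul_assoc, ← hB.comm, mul_assoc, ← hB.a2_mul, hcu, hB.a2_one, mul_one]
      have e2 : a2 (cj u) (U (xi n)) = a1 u (xi n) := by rw [← mul_ap, e1]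
      have e3 : a1 u = 1 - (2 : ℂ) • a1 p := by
        have : u = 1 + (-2 : ℂ) • p := by rw [hu]; module
        rw [this, hB.a1_add, hB.a1_one, hB.a1_smul]
        module
      have e4 : a2 (cj u) = 1 - (2 : ℂ) • a2 (cj p) := by
        have : u = 1 + (-2 : ℂ) • p := by rw [hu]; module
        rw [this, hB.cj_add, hB.cj_one, hB.cj_smul, hB.a2_add, hB.a2_one, hB.a2_smul]
        simp only [map_neg, Complex.conj_ofNat]
        module
      rw [map_sub, e2, e3, e4]
      simp only [sub_apply, ContinuousLinearMap.one_apply, smul_apply]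
      module
    have h9 := (h7.const_mul (‖(1 / 2 : ℂ)‖ * ‖a2 (cj u)‖))
    rw [mul_zero] at h9
    refine squeeze_zero (fun n => norm_nonneg _) (fun n => ?_) h9
    rw [h8 n, norm_smul, mul_assoc]
    exact mul_le_mul_of_nonneg_left (ContinuousLinearMap.le_opNorm _ _) (norm_nonneg _)
  have null : ∀ g : G, Tendsto (fun n => ‖a1 (Pg g) (xi n)‖) atTop (𝓝 0) := by
    intro g
    refine tendsto_order.2 ⟨fun a ha => Eventually.of_forall fun n => ha.trans_le (norm_nonneg _),
      fun η hη => ?_⟩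
    obtain ⟨m, p, hp, horth, hsum⟩ := h4 G A hA hdif ((η / 4) ^ 2) (by positivity)
    have hev : Tendsto (fun n => ∑ i, ‖a1 (Pg g * p i)‖ *
        ‖a1 (p i) (xi n) - a2 (cj (p i)) (xi n)‖) atTop (𝓝 0) := by
      have h5 : Tendsto (fun n => ∑ i, ‖a1 (Pg g * p i)‖ *
          ‖a1 (p i) (xi n) - a2 (cj (p i)) (xi n)‖) atTop (𝓝 (∑ i : Fin m,
            ‖a1 (Pg g * p i)‖ * 0)) :=
        tendsto_finsetSum _ fun i _ =>
          (proj (p i) (hp i).1 (hp i).2.1 (hp i).2.2.1).const_mul _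
      simpa using h5
    filter_upwards [hev.eventually_lt_const (show (0 : ℝ) < η / 2 by positivity),
      nrm.eventually_lt_const (show (1 : ℝ) < 4 by norm_num)] with n hn1 hn2
    obtain ⟨z, hz⟩ : ∃ z : Fin m → L2 (G × G), z = fun i => a1 (Pg g * p i) (a2 (cj (p i)) (xi n)) :=
      ⟨_, rfl⟩
    have hzi : ∀ i, z i = a1 (Pg g * p i) (a2 (cj (p i)) (xi n)) := fun i => by rw [hz]
    have hzi' : ∀ i, z i = a2 (cj (p i)) (a1 (Pg g * p i) (xi n)) := fun i => by
      rw [hzi, ← mul_ap, ← mul_ap, hB.comm]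
    have hcs : ∀ i, star (a2 (cj (p i))) = a2 (cj (p i)) := fun i => by
      rw [← hB.a2_star, ← hB.cj_star, (hp i).2.1]
    have hcc : ∀ i j, i ≠ j → a2 (cj (p i)) * a2 (cj (p j)) = 0 := by
      intro i j hij
      rw [← hB.a2_mul, ← hB.cj_mul, horth i j hij]
      have e1 : (0 : B G) = (0 : ℂ) • (0 : B G) := by rw [zero_smul]
      rw [e1, hB.cj_smul, map_zero, hB.a2_smul, zero_smul]
    have hci : ∀ i, a2 (cj (p i)) * a2 (cj (p i)) = a2 (cj (p i)) := fun i => by
      rw [← hB.a2_mul, ← hB.cj_mul, (hp i).2.2.1]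
    -- the decomposition
    have hdec : a1 (Pg g) (xi n) = ∑ i, a1 (Pg g * p i) (a1 (p i) (xi n)) := by
      have e1 : a1 (Pg g) = ∑ i, a1 (Pg g * p i * p i) := by
        have e2 : ∀ s : Finset (Fin m), a1 (Pg g * ∑ i ∈ s, p i) = ∑ i ∈ s, a1 (Pg g * p i * p i) := by
          intro s
          induction s using Finset.induction_on with
          | empty =>
            rw [Finset.sum_empty, Finset.sum_empty, mul_zero]
            have e3 : (0 : B G) = (0 : ℂ) • (0 : B G) := by rw [zero_smul]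
            rw [e3, hB.a1_smul, zero_smul]
          | insert i s hi ih =>
            rw [Finset.sum_insert hi, Finset.sum_insert hi, mul_add, hB.a1_add, ih, mul_assoc,
              (hp i).2.2.1]
        have e4 := e2 Finset.univ
        rwa [hsum, mul_one] at e4
      rw [e1, ContinuousLinearMap.sum_apply]
      refine Finset.sum_congr rfl fun i _ => ?_
      rw [hB.a1_mul, mul_ap]
    have hsumz : ‖∑ i, z i‖ ^ 2 ≤ (η / 2) ^ 2 := by
      rw [orth_sum z (fun i j hij => by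
        rw [hzi' i, hzi' j, sa_inner _ (hcs i), ← mul_ap, hcc i j hij]
        exact inner_zero_right _)]
      have e1 : ∀ i, ‖z i‖ ^ 2 ≤ (η / 4) ^ 2 * ‖a2 (cj (p i)) (xi n)‖ ^ 2 := by
        intro i
        rw [← mul_pow]
        refine pow_le_pow_left₀ (norm_nonneg _) ?_ 2
        rw [hzi]
        refine (ContinuousLinearMap.le_opNorm _ _).trans
          (mul_le_mul_of_nonneg_right ?_ (norm_nonneg _))
        exact (hB.a1_norm _).trans (Pg_norm (hA _ (hp i).1) (hp i).2.1 g _ (by positivity)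
          (hp i).2.2.2)
      have e2 : ∑ i, ‖a2 (cj (p i)) (xi n)‖ ^ 2 = ‖xi n‖ ^ 2 := by
        rw [← orth_sum _ (fun i j hij => by
          rw [sa_inner _ (hcs i), ← mul_ap, hcc i j hij]
          exact inner_zero_right _)]
        have e5 : ∑ i, a2 (cj (p i)) (xi n) = xi n := by
          have e2 : ∀ s : Finset (Fin m), a2 (cj (∑ i ∈ s, p i)) = ∑ i ∈ s, a2 (cj (p i)) := by
            intro s
            induction s using Finset.induction_on with
            | empty =>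
              rw [Finset.sum_empty, Finset.sum_empty]
              have e3 : (0 : B G) = (0 : ℂ) • (0 : B G) := by rw [zero_smul]
              rw [e3, hB.cj_smul, map_zero, hB.a2_smul, zero_smul]
            | insert i s hi ih =>
              rw [Finset.sum_insert hi, Finset.sum_insert hi, hB.cj_add, hB.a2_add, ih]
          have e4 := e2 Finset.univ
          rw [hsum, hB.cj_one, hB.a2_one] at e4
          rw [← ContinuousLinearMap.sum_apply, ← e4]
          rfl
        rw [e5]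
      calc ∑ i, ‖z i‖ ^ 2 ≤ ∑ i, (η / 4) ^ 2 * ‖a2 (cj (p i)) (xi n)‖ ^ 2 :=
            Finset.sum_le_sum fun i _ => e1 i
        _ = (η / 4) ^ 2 * ‖xi n‖ ^ 2 := by rw [← Finset.mul_sum, e2]
        _ ≤ (η / 4) ^ 2 * 4 := mul_le_mul_of_nonneg_left hn2.le (by positivity)
        _ = (η / 2) ^ 2 := by ring
    have hsz : ‖∑ i, z i‖ ≤ η / 2 := (abs_le_of_sq_le_sq' hsumz (by positivity)).2
    have hdiff : ‖∑ i, (a1 (Pg g * p i) (a1 (p i) (xi n)) - z i)‖ ≤
        ∑ i, ‖a1 (Pg g * p i)‖ * ‖a1 (p i) (xi n) - a2 (cj (p i)) (xi n)‖ := by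
      refine norm_sum_le_of_le _ fun i _ => ?_
      rw [hzi, ← map_sub]
      exact ContinuousLinearMap.le_opNorm _ _
    have e6 : a1 (Pg g) (xi n) = ∑ i, (a1 (Pg g * p i) (a1 (p i) (xi n)) - z i) + ∑ i, z i := by
      rw [hdec, ← Finset.sum_add_distrib]
      exact Finset.sum_congr rfl fun i _ => (sub_add_cancel _ _).symm
    rw [e6]
    have := norm_add_le (∑ i, (a1 (Pg g * p i) (a1 (p i) (xi n)) - z i)) (∑ i, z i)
    linarith
  refine ⟨xi, ⟨left, right, null⟩, ?_⟩
  -- invariance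
  intro u hu
  obtain ⟨δ, hδ, hδ2⟩ := hF.nor u hu
  obtain ⟨U, hU⟩ : ∃ U, U = a1 u * a2 (cj u) := ⟨_, rfl⟩
  have hU1 : star U * U = 1 := by rw [hU]; exact U_left hB u hu.left
  have hU2 : U * star U = 1 := by rw [hU]; exact U_right hB u hu.right
  have hUs : star U = a1 (star u) * a2 (cj (star u)) := by rw [hU, star12 hB, hB.cj_star]
  have husG : star u ∈ LG G := star_mem hu.mem
  have hUG : U ∈ LG (G × G) := by
    rw [hU]
    exact mul_mem (hB.a1_mem u hu.mem) (hB.a2_mem _ (hB.cj_mem u hu.mem))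
  have hconj : ∀ Z ∈ CA A, U * Z * star U ∈ CA A := by
    apply C_conj hB
    intro a ha b hb
    rw [hUs, hU, mul12 hB, mul12 hB, ← hB.cj_mul, ← hB.cj_mul]
    exact gen_mem (hu.conj a ha) (hu.conj b hb)
  have hconj' : ∀ Z ∈ CA A, star U * Z * U ∈ CA A := by
    apply C_conj hB
    intro a ha b hb
    rw [hUs, hU, mul12 hB, mul12 hB, ← hB.cj_mul, ← hB.cj_mul]
    exact gen_mem (hu.conj' a ha) (hu.conj' b hb)
  have hUn : ‖U‖ ≤ 1 := norm_le U hU1
  have hUn' : ‖star U‖ ≤ 1 := by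
    apply norm_le
    rw [star_star, hU2]
  have hbnd : ∀ n, ‖(U * L n * star U) (dl 1) - L n (dl 1)‖ ^ 2 ≤ 40 * √(ε n) + δ n := by
    intro n
    refine h3 (L2 (G × G)) (CA A) (dl 1) hT (U * L n * star U) (hconj _ (hLC n)) (L n) (hLC n)
      ⟨?_, ?_⟩ (hLP n) (40 * √(ε n) + δ n) ?_
    · rw [star_mul, star_mul, star_star, (hLP n).sa, mul_assoc]
    · intro v
      have e1 : ⟪v, (U * L n * star U) v⟫_ℂ = ⟪star U v, L n (star U v)⟫_ℂ := by
        rw [mul_ap, mul_ap, st_inner U]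
      rw [e1]
      exact (hLP n).nonneg _
    · intro Z hZ
      have hZG := hLG Z hZ
      have hLGn := hLG _ (hLC n)
      have e1 : tau (Z * (U * L n * star U * (U * L n * star U) - L n * L n)) =
          tau (star U * Z * U * (L n * L n)) - tau (Z * (L n * L n)) := by
        have e2 : Z * (U * L n * star U * (U * L n * star U) - L n * L n) =
            Z * U * (L n * L n) * star U - Z * (L n * L n) := by
          have e3 : U * L n * star U * (U * L n * star U) = U * (L n * L n) * star U := by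
            calc U * L n * star U * (U * L n * star U) = U * L n * (star U * U) * L n * star U := by
                  simp only [mul_assoc]
              _ = _ := by rw [hU1, mul_one]; simp only [mul_assoc]
          rw [mul_sub, e3]
          simp only [mul_assoc]
        have e4 : ∀ S T : B (G × G), tau (S - T) = tau S - tau T := by
          intro S T
          unfold tau
          rw [sub_apply, inner_sub_right]
        rw [e2, e4, trac (mul_mem (mul_mem hZG hUG) (mul_mem hLGn hLGn)) (star_mem hUG)]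
        simp only [mul_assoc]
      have e5 : ⟪dl (1 : G × G), (Z * (U * L n * star U * (U * L n * star U) - L n * L n))
          (dl 1)⟫_ℂ = tau (Z * (U * L n * star U * (U * L n * star U) - L n * L n)) := rfl
      rw [e5, e1]
      obtain ⟨Z', hZ'⟩ : ∃ Z', Z' = star U * Z * U := ⟨_, rfl⟩
      have hZ'C : Z' ∈ CA A := by rw [hZ']; exact hconj' Z hZ
      have hZ'n : ‖Z'‖ ≤ ‖Z‖ := by
        rw [hZ']
        calc ‖star U * Z * U‖ ≤ ‖star U‖ * ‖Z‖ * ‖U‖ :=
              (norm_mul_le _ _).trans (mul_le_mul_of_nonneg_right (norm_mul_le _ _) (norm_nonneg _))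
          _ ≤ 1 * ‖Z‖ * 1 := by gcongr
          _ = ‖Z‖ := by ring
      have f1 := hLF n Z' hZ'C
      have f2 := hδ2 n Z hZ
      have f3 := hLF n Z hZ
      rw [← hU, ← hZ'] at f2
      rw [← hZ']
      have f4 : tau (Z' * (L n * L n)) - tau (Z * (L n * L n)) =
          (tau (Z' * (L n * L n)) - tau (Z' * star (K n))) +
            (tau (Z' * star (K n)) - tau (Z * star (K n))) -
            (tau (Z * (L n * L n)) - tau (Z * star (K n))) := by ring
      rw [f4]
      have f5 := norm_sub_le ((tau (Z' * (L n * L n)) - tau (Z' * star (K n))) +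
            (tau (Z' * star (K n)) - tau (Z * star (K n))))
            (tau (Z * (L n * L n)) - tau (Z * star (K n)))
      have f6 := norm_add_le (tau (Z' * (L n * L n)) - tau (Z' * star (K n)))
            (tau (Z' * star (K n)) - tau (Z * star (K n)))
      have f7 : 20 * √(ε n) * ‖Z'‖ ≤ 20 * √(ε n) * ‖Z‖ :=
        mul_le_mul_of_nonneg_left hZ'n (by positivity)
      linarith
  have hb0 : Tendsto (fun n => ‖(U * L n * star U) (dl 1) - L n (dl 1)‖) atTop (𝓝 0) := by
    have g1 : Tendsto (fun n => 40 * √(ε n) + δ n) atTop (𝓝 0) := by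
      have := (sq0.const_mul 40).add hδ
      simpa using this
    have g2 := squeeze_zero (fun n => sq_nonneg _) hbnd g1
    have g3 := (Real.continuous_sqrt.tendsto 0).comp g2
    rw [Real.sqrt_zero] at g3
    refine g3.congr fun n => ?_
    simp only [Function.comp_apply]
    exact Real.sqrt_sq (norm_nonneg _)
  obtain ⟨W, hW⟩ : ∃ W, W = a1 u * a2 (cj u) * (a1 (Rm (star u)) * a2 (Rm (cj (star u)))) :=
    ⟨_, rfl⟩
  have hWn : ∀ n, (U * L n * star U) (dl 1) = W (xi n) := by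
    intro n
    have e1 : star U (dl 1) = (a1 (Rm (star u)) * a2 (Rm (cj (star u)))) (dl (1 : G × G)) := by
      rw [hUs, mul_ap, mul_ap,
        a2_O hB (Rm (cj (star u))) (cj (star u)) (hB.Rm_dl _ (hB.cj_mem _ husG)), ← mul_ap,
        ← mul_ap, hB.comm, hB.comm, mul_ap, mul_ap,
        a1_O hB (Rm (star u)) (star u) (hB.Rm_dl _ husG)]
    rw [mul_ap, mul_ap, e1, hx, hW, ← hU, mul_ap U, ← mul_ap (L n)]
    have e2 : L n * (a1 (Rm (star u)) * a2 (Rm (cj (star u)))) =
        a1 (Rm (star u)) * a2 (Rm (cj (star u))) * L n := by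
      rw [← mul_assoc, ← Rm1_comm hB hA husG _ (hLC n), mul_assoc,
        ← Rm2_comm hB hA (hB.cj_mem _ husG) _ (hLC n), mul_assoc]
    rw [e2, mul_ap]
  refine ⟨a2 (Rm (cj u) * cj (star u)), ?_, ?_, ?_⟩
  · rw [← hB.a2_star, ← hB.a2_mul, star_mul, ← hB.Rm_star, ← hB.cj_star, ← hB.cj_star, star_star]
    have e1 : cj u * Rm (cj (star u)) * (Rm (cj u) * cj (star u)) = 1 := by
      calc cj u * Rm (cj (star u)) * (Rm (cj u) * cj (star u)) =
          cj u * (Rm (cj (star u)) * Rm (cj u)) * cj (star u) := by simp only [mul_assoc]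
        _ = 1 := by
          rw [← hB.Rm_mul, ← hB.cj_mul, hu.right, hB.cj_one, hB.Rm_one, mul_one, ← hB.cj_mul,
            hu.right, hB.cj_one]
    rw [e1, hB.a2_one]
  · intro T
    exact (hB.comm _ _).symm
  · have e1 : a1 (Rm u) * a2 (Rm (cj u) * cj (star u)) * W = a1 u := by
      rw [hW, mul12 hB, mul12 hB]
      have g1 : Rm u * (u * Rm (star u)) = u := by
        rw [← mul_assoc, hB.Rm_comm u hu.mem u hu.mem, mul_assoc, ← hB.Rm_mul, hu.left, hB.Rm_one,
          mul_one]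
      have g2 : Rm (cj u) * cj (star u) * (cj u * Rm (cj (star u))) = 1 := by
        calc Rm (cj u) * cj (star u) * (cj u * Rm (cj (star u))) =
            Rm (cj u) * (cj (star u) * cj u) * Rm (cj (star u)) := by simp only [mul_assoc]
          _ = 1 := by
            rw [← hB.cj_mul, hu.left, hB.cj_one, mul_one, ← hB.Rm_mul, ← hB.cj_mul, hu.left,
              hB.cj_one, hB.Rm_one]
      rw [g1, g2, hB.a2_one, mul_one]
    have e2 : ∀ n, a1 u (xi n) - a1 (Rm u) (a2 (Rm (cj u) * cj (star u)) (xi n)) =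
        (a1 (Rm u) * a2 (Rm (cj u) * cj (star u))) (W (xi n) - xi n) := by
      intro n
      rw [map_sub, ← mul_ap _ W, e1, mul_ap]
    have e3 := hb0.const_mul ‖a1 (Rm u) * a2 (Rm (cj u) * cj (star u))‖
    rw [mul_zero] at e3
    refine squeeze_zero (fun n => norm_nonneg _) (fun n => ?_) e3
    rw [e2, hWn, ← hx]
    exact ContinuousLinearMap.le_opNorm _ _

end

end Pool.Agent.N571.SS.D
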