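import Pool.Agent.N571.SS.D.Asm
import Pool.Agent.N571.SS.Fin
import Pool.Agent.N571.SS.D.BAS
import Pool.Agent.N571.SS.D.CE
import Pool.Agent.N571.SS.D.SM
import Pool.Agent.N571.SS.D.DAY
import Pool.Agent.N571.SS.D.PS
import Pool.Agent.N571.SS.D.FL
import Pool.Agent.N571.SS.D.POS
import Pool.Agent.N571.SS.D.PSC
import Pool.Agent.N571.SS.D.DIF
import Pool.Agent.N571.SS.D.AU
import Pool.Agent.N571.SS.D.CEN
import Pool.Agent.N571.SS.D.TRN2
import Pool.Agent.N571.SS.D.MC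
import Pool.Agent.N571.SS.D.FB
import Pool.Agent.N571.SS.D.FIN
import Pool.Agent.N571.SS.D.WC
import Pool.Agent.N571.SS.D.WF
import Pool.Agent.N571.SS.D.WV
import Pool.Agent.N571.SS.D.HYP

/-!
# Project SS/D: final assembly
-/

set_option autoImplicit false

namespace Pool.Agent.N571.SS.D

theorem final2 : Final2 := by
  have hTR : Pool.Agent.N571.EX.S_TR := Pool.Agent.N571.EX.t_tr
  have hDEN : Pool.Agent.N571.EX.S_DEN := Pool.Agent.N571.EX.t_den hTR
  have hPF : Pool.Agent.N571.EX.W.S_PF := Pool.Agent.N571.EX.W.t_pf hTR hDEN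
  have hEXI : Pool.Agent.N571.EX.W.S_EXI :=
    Pool.Agent.N571.EX.W.t_exi hTR Pool.Agent.N571.EX.t_res Pool.Agent.N571.EX.t_cay hPF
      (Pool.Agent.N571.EX.W.t_rl1 hTR hPF)
      (Pool.Agent.N571.EX.W.t_rl2 hTR Pool.Agent.N571.EX.t_res hPF)
  have hPRP : S_PRP := t_prp
  have hPAR : S_PAR := t_par
  have hSEG : S_SEG := t_seg hPAR
  have hLF : S_LF := t_lf hPAR
  have hLIFT : S_LIFT := t_lift t_uc hLF
  have hSTX : S_STX := t_stx hPRP
  have hMALG : S_MALG := t_malg hPRP hPAR hSEG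
  have hSTEP : S_STEP := t_step hPRP hLF hLIFT hSTX hMALG
  have hCOM : S_COM := t_com hTR
  have hBAS : S_BAS := t_bas
  have hPS : S_PS := fun X _ n v => t_ps1 X n v
  have hMC : S_MC := t_mc hBAS t_day hPS
  have hFB : S_FB := t_fb hBAS t_sm hMC
  have hWF : S_WF := t_wf hBAS t_ce hFB t_fl t_au
  have hWV : S_WV := t_wv hBAS t_ce t_pos t_psc t_dif
  have hWC : S_WC := t_wc hWF hWV
  have hHYP : S_HYP := t_hyp t_ce
  have hFIN : S_FIN := t_fin hBAS
  exact final2_of hTR (Pool.Agent.N571.EX.t_fac hTR) hEXI hPRP (t_xcm hPRP hPAR)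
    (t_xex hPRP hPAR) (t_xbe hPRP hSEG) t_glb (t_chn hSTEP t_base t_lim) t_un1 t_un2 t_cic t_exg
    hCOM (t_car hTR hCOM) t_nam
    (fun Γ _ _ hb hc => t_trn2 Γ (solid_of hWC hFIN t_cen hHYP Γ hb hc))

end Pool.Agent.N571.SS.D
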