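import Pool.Agent.N391.PKG.Lib2

/-!
# Project SS/D (helper571), PKG (helper391): the limit argument for one multiplier
-/

set_option autoImplicit false

namespace Pool.Agent.N571.SS.D

namespace PKG

open Filter Topology
open scoped InnerProductSpace ComplexOrder
open Pool.Agent.H494R3.GT (L2 dl UU UU_dl dl_inner inner_dl op_ext op_ext_inner vec_ext mul_ap
  dl_apply_self dl_apply_ne)
open Pool.Agent.N557.QW (lam rgt LG LK cf rc mem_LG mem_LG_iff lam_dl rgt_dl star_lam lam_mem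
  lam_one lam_rgt)
open Pool.Agent.H812R3

noncomputable section

variable {X X' X'' Y Z J : Type}

theorem w_apply [DecidableEq X] (F : Finset X) (ζ : L2 X) (x : X) :
    (ζ - (∑ g ∈ F, Pg g) ζ) x = if x ∈ F then 0 else ζ x := by
  rw [← inner_dl, inner_sub_right, sum_apply, inner_sum, inner_dl]
  have e : ∀ g ∈ F, ⟪dl x, (Pg g) ζ⟫_ℂ = if x = g then ζ x else 0 := by
    intro g _
    rw [Pg_eq, Th_apply, inner_smul_right, inner_dl, dl_inner]
    split_ifs with h
    · rw [h, mul_one]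
    · rw [mul_zero]
  rw [Finset.sum_congr rfl e, Finset.sum_ite_eq]
  split_ifs <;> simp

theorem w_norm (F : Finset X) (ζ : L2 X) : ‖ζ - (∑ g ∈ F, Pg g) ζ‖ ≤ ‖ζ‖ := by
  classical
  have h : ‖ζ - (∑ g ∈ F, Pg g) ζ‖ ^ 2 ≤ ‖ζ‖ ^ 2 := by
    rw [KP.norm_sq_eq, KP.norm_sq_eq]
    refine (KP.summable_sq _).tsum_le_tsum (fun x => ?_) (KP.summable_sq ζ)
    rw [w_apply]
    split_ifs
    · simp
    · exact le_rfl
  exact (sq_le_sq₀ (norm_nonneg _) (norm_nonneg _)).1 h

theorem Nice.E {G : Type} [Group G] {η : ℕ → L2 (G × G)} (h : Nice η) (E : L2 G →L[ℂ] L2 Y)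
    (hE : ∀ ε : ℝ, 0 < ε → ∃ F : Finset G, ∀ ζ : L2 G, (∀ x ∈ F, ⟪dl x, ζ⟫_ℂ = 0) →
      ‖E ζ‖ ≤ ε * ‖ζ‖) :
    Tendsto (fun n => ‖lt G E (η n)‖) atTop (𝓝 0) := by
  classical
  obtain ⟨M, hM0, hM⟩ := h.bdd
  rw [Metric.tendsto_atTop]
  intro ε hε
  obtain ⟨F, hF⟩ := hE (ε / (2 * (M + 1))) (by positivity)
  set PF : B G := ∑ g ∈ F, Pg g with hPF
  set E1 : L2 G →L[ℂ] L2 Y := E - E.comp PF with hE1
  have b1 : ‖E1‖ ≤ ε / (2 * (M + 1)) := by
    refine ContinuousLinearMap.opNorm_le_bound _ (by positivity) fun ζ => ?_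
    have e1 : E1 ζ = E (ζ - PF ζ) := by
      rw [hE1, sub_apply, ContinuousLinearMap.comp_apply, map_sub]
    rw [e1]
    refine (hF _ fun x hx => ?_).trans ?_
    · rw [inner_dl, hPF, w_apply, if_pos hx]
    · exact mul_le_mul_of_nonneg_left (w_norm F ζ) (by positivity)
  have t1 : Tendsto (fun n => ‖E‖ * ∑ g ∈ F, ‖a1 (Pg g) (η n)‖) atTop (𝓝 0) := by
    have := (tendsto_finsetSum F fun g _ => h.null g).const_mul ‖E‖
    simpa using this
  obtain ⟨N, hN⟩ := (Metric.tendsto_atTop.mp t1) (ε / 2) (by positivity)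
  refine ⟨N, fun n hn => ?_⟩
  have h5 := hN n hn
  rw [Real.dist_eq, sub_zero] at h5 ⊢
  rw [abs_of_nonneg (by positivity)] at h5 ⊢
  have e : lt G E (η n) = lt G E1 (η n) + lt G E (a1 PF (η n)) := by
    rw [hE1, lt_sub, lt_comp, sub_apply, ContinuousLinearMap.comp_apply, a1_lt]
    abel
  have e2 : ‖a1 PF (η n)‖ ≤ ∑ g ∈ F, ‖a1 (Pg g) (η n)‖ := by
    have : a1 PF (η n) = ∑ g ∈ F, a1 (Pg g) (η n) := by
      have h6 : a1 PF = ∑ g ∈ F, a1 (Pg g) := by
        rw [hPF]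
        exact map_sum (KP.amp (Equiv.refl (G × G))) _ _
      rw [h6, sum_apply]
    rw [this]
    exact norm_sum_le _ _
  have e3 : ‖lt G E (a1 PF (η n))‖ ≤ ‖E‖ * ∑ g ∈ F, ‖a1 (Pg g) (η n)‖ :=
    ((lt G E).le_opNorm _).trans (mul_le_mul (lt_norm E) e2 (norm_nonneg _) (norm_nonneg _))
  have e4 : ‖lt G E1 (η n)‖ ≤ ε / (2 * (M + 1)) * M :=
    ((lt G E1).le_opNorm _).trans (mul_le_mul ((lt_norm E1).trans b1) (hM n) (norm_nonneg _)
      (by positivity))
  have h7 : ε / (2 * (M + 1)) * M ≤ ε / 2 := by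
    rw [div_mul_eq_mul_div, div_le_div_iff₀ (by positivity) (by norm_num)]
    nlinarith
  rw [e]
  refine (norm_add_le _ _).trans_lt ?_
  linarith

section good

variable {G : Type} [Group G]

/-- the property of the isometry -/
def Vis (V : L2 G →L[ℂ] L2 (G × G)) : Prop :=
  ∀ (s t : G) (ε : ℝ), 0 < ε → ∃ F : Finset G, ∀ ζ : L2 G,
      (∀ x ∈ F, ⟪dl x, ζ⟫_ℂ = 0) →
      ‖V (lam s (rgt t ζ)) - a1 (lam s) (a2 (rgt t) (V ζ))‖ ≤ ε * ‖ζ‖

theorem good0 {V : L2 G →L[ℂ] L2 (G × G)} (hV : Vis V) {η : ℕ → L2 (G × G)} (h : Nice η)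
    (s t : G) : Tendsto (fun n => ‖lt G V (a1 (lam s * rgt t) (η n)) -
      lt G (a1 (lam s) * a2 (rgt t)) (lt G V (η n))‖) atTop (𝓝 0) := by
  have h1 := h.E (V.comp (lam s * rgt t) - (a1 (lam s) * a2 (rgt t)).comp V)
    (fun ε hε => hV s t ε hε)
  have e : ∀ n, lt G (V.comp (lam s * rgt t) - (a1 (lam s) * a2 (rgt t)).comp V) (η n) =
      lt G V (a1 (lam s * rgt t) (η n)) - lt G (a1 (lam s) * a2 (rgt t)) (lt G V (η n)) := by
    intro n
    rw [lt_sub, lt_comp, lt_comp, sub_apply, ContinuousLinearMap.comp_apply,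
      ContinuousLinearMap.comp_apply, a1_lt (lam s * rgt t)]
  simpa only [e] using h1

theorem good1 {V : L2 G →L[ℂ] L2 (G × G)} (hV : Vis V) {η : ℕ → L2 (G × G)} (h : Nice η)
    (y : B G) (hy : y ∈ Submodule.span ℂ (Set.range (lam : G → B G))) :
    Tendsto (fun n => ‖lt G V (a1 y (η n)) - lt G (a1 y) (lt G V (η n))‖) atTop (𝓝 0) := by
  induction hy using Submodule.span_induction with
  | mem x hx =>
    obtain ⟨g, rfl⟩ := hx
    have h1 := good0 hV h g 1
    have e1 : (rgt (1 : G) : B G) = 1 := op_ext fun s => by rw [rgt_dl, mul_one]; rfl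
    have e2 : a2 (1 : B G) = 1 := KP.amp_one _
    simpa only [e1, e2, mul_one] using h1
  | zero =>
    have e1 : a1 (0 : B G) = 0 := a1_zero'
    have e2 : lt G (0 : L2 (G × G) →L[ℂ] L2 (G × G)) = 0 := by
      have := lt_sub (Z := G) (0 : L2 (G × G) →L[ℂ] L2 (G × G)) 0
      simpa using this
    simp only [e1, e2, zero_apply, map_zero, sub_zero, norm_zero]
    exact tendsto_const_nhds
  | add x y _ _ hx hy =>
    have h1 := hx.add hy
    rw [add_zero] at h1
    refine squeeze_zero (fun n => norm_nonneg _) (fun n => ?_) h1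
    have e : lt G V (a1 (x + y) (η n)) - lt G (a1 (x + y)) (lt G V (η n)) =
        (lt G V (a1 x (η n)) - lt G (a1 x) (lt G V (η n))) +
        (lt G V (a1 y (η n)) - lt G (a1 y) (lt G V (η n))) := by
      rw [a1_add', lt_add, add_apply, add_apply, map_add]
      abel
    rw [e]
    exact norm_add_le _ _
  | smul c x _ hx =>
    have h1 := hx.const_mul ‖c‖
    rw [mul_zero] at h1
    refine squeeze_zero (fun n => norm_nonneg _) (fun n => ?_) h1
    have e : lt G V (a1 (c • x) (η n)) - lt G (a1 (c • x)) (lt G V (η n)) =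
        c • (lt G V (a1 x (η n)) - lt G (a1 x) (lt G V (η n))) := by
      rw [a1_smul', lt_smul, smul_apply, smul_apply, map_smul, smul_sub]
    rw [e, norm_smul]

theorem good2 (hB : Bas G) {V : L2 G →L[ℂ] L2 (G × G)} (hV : Vis V) {η : ℕ → L2 (G × G)}
    (h : Nice η) (y : B G) (hy : y ∈ Submodule.span ℂ (Set.range (lam : G → B G))) :
    Tendsto (fun n => ‖lt G V (a1 (Rm y) (η n)) - lt G (a2 (Rm y)) (lt G V (η n))‖)
      atTop (𝓝 0) := by
  induction hy using Submodule.span_induction with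
  | mem x hx =>
    obtain ⟨g, rfl⟩ := hx
    have h1 := good0 hV h 1 g
    rw [hB.Rm_lam]
    simpa only [lam_one, hB.a1_one, one_mul] using h1
  | zero =>
    have e0 : Rm (0 : B G) = 0 := by
      have := hB.Rm_smul 0 (0 : B G)
      simpa using this
    have e1 : a1 (0 : B G) = 0 := a1_zero'
    have e3 : a2 (0 : B G) = 0 := map_zero _
    have e2 : lt G (0 : L2 (G × G) →L[ℂ] L2 (G × G)) = 0 := by
      have := lt_sub (Z := G) (0 : L2 (G × G) →L[ℂ] L2 (G × G)) 0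
      simpa using this
    simp only [e0, e1, e2, e3, zero_apply, map_zero, sub_zero, norm_zero]
    exact tendsto_const_nhds
  | add x y _ _ hx hy =>
    have h1 := hx.add hy
    rw [add_zero] at h1
    refine squeeze_zero (fun n => norm_nonneg _) (fun n => ?_) h1
    have e : lt G V (a1 (Rm (x + y)) (η n)) - lt G (a2 (Rm (x + y))) (lt G V (η n)) =
        (lt G V (a1 (Rm x) (η n)) - lt G (a2 (Rm x)) (lt G V (η n))) +
        (lt G V (a1 (Rm y) (η n)) - lt G (a2 (Rm y)) (lt G V (η n))) := by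
      rw [hB.Rm_add, a1_add', hB.a2_add, lt_add, add_apply, add_apply, map_add]
      abel
    rw [e]
    exact norm_add_le _ _
  | smul c x _ hx =>
    have h1 := hx.const_mul ‖c‖
    rw [mul_zero] at h1
    refine squeeze_zero (fun n => norm_nonneg _) (fun n => ?_) h1
    have e : lt G V (a1 (Rm (c • x)) (η n)) - lt G (a2 (Rm (c • x))) (lt G V (η n)) =
        c • (lt G V (a1 (Rm x) (η n)) - lt G (a2 (Rm x)) (lt G V (η n))) := by
      rw [hB.Rm_smul, a1_smul', hB.a2_smul, lt_smul, smul_apply, smul_apply, map_smul, smul_sub]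
    rw [e, norm_smul]

theorem exists_Q2 (Q : B (G × G)) (hQc : ∀ T : B G, Q * a1 T = a1 T * Q) :
    ∃ Q2 : B G, Q = rt G Q2 := by
  have hinj : Function.Injective (fun y : G => ((1 : G), y)) := fun a b hab => (Prod.mk.inj hab).2
  refine ⟨(KP.pull (fun y : G => ((1 : G), y)) hinj).comp
    (Q.comp (KP.push (fun y : G => ((1 : G), y)) hinj)), ?_⟩
  apply op_ext
  rintro ⟨x, y⟩
  have e1 : (dl (x, y) : L2 (G × G)) = a1 (Th (dl 1) (dl x)) (dl (1, y)) := by
    classical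
    rw [a1_lt, ← tn_dl, ← tn_dl, lt_tn, Th_apply, dl_inner, if_pos rfl, one_smul]
  have e2 : Q (dl (x, y)) = a1 (Th (dl 1) (dl x)) (Q (dl (1, y))) := by
    rw [e1, ← mul_ap, hQc, mul_ap]
  have e3 : KP.push (fun y : G => ((1 : G), y)) hinj (dl y) = dl ((1 : G), y) := by
    have := KP.push_dl (fun y : G => ((1 : G), y)) hinj y
    rwa [dl_eq, dl_eq] at this
  rw [e2, ← tn_dl x y, rt_tn, ContinuousLinearMap.comp_apply, ContinuousLinearMap.comp_apply, e3]
  apply vec_ext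
  rintro ⟨x', y'⟩
  rw [a1_lt, lt_apply, Th_apply, inner_dl, tn_apply, lp.coeFn_smul, Pi.smul_apply, smul_eq_mul,
    mul_comm]
  rfl

end good

theorem col_norm {K0 : Type} [NormedAddCommGroup K0] [InnerProductSpace ℝ K0] {Φ : K0 → L2 J}
    (hΦ : ∀ x y, ⟪Φ x, Φ y⟫_ℂ = ((inner ℝ x y : ℝ) : ℂ)) (x : K0) : ‖Φ x‖ ^ 2 = ‖x‖ ^ 2 := by
  have h := hΦ x x
  rw [inner_self_eq_norm_sq_to_K, real_inner_self_eq_norm_sq] at h
  have h2 : (((‖Φ x‖ ^ 2 : ℝ)) : ℂ) = ((‖x‖ ^ 2 : ℝ) : ℂ) := by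
    rw [Complex.ofReal_pow]
    exact h
  exact Complex.ofReal_injective h2

/-- the representation -/
def rep (X J Z : Type) : B X →⋆ₐ[ℂ] B ((X × J) × Z) where
  toFun T := KP.amp (Equiv.refl ((X × J) × Z)) (KP.amp (Equiv.refl (X × J)) T)
  map_one' := by rw [KP.amp_one, KP.amp_one]
  map_mul' S T := by rw [KP.amp_mul, KP.amp_mul]
  map_zero' := by rw [map_zero, map_zero]
  map_add' S T := by rw [map_add, map_add]
  commutes' c := by
    rw [Algebra.algebraMap_eq_smul_one, map_smul, map_smul, KP.amp_one, KP.amp_one,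
      Algebra.algebraMap_eq_smul_one]
  map_star' T := by rw [KP.amp_star, KP.amp_star]

theorem rep_apply (T : B X) : rep X J Z T = lt Z (lt J T) := by
  change KP.amp (Equiv.refl ((X × J) × Z)) (KP.amp (Equiv.refl (X × J)) T) = _
  rw [amp_lt, amp_lt]

theorem inner_isom {H H' : Type} [NormedAddCommGroup H] [InnerProductSpace ℂ H]
    [NormedAddCommGroup H'] [InnerProductSpace ℂ H'] (f : H →L[ℂ] H') (hf : ∀ v, ‖f v‖ = ‖v‖)
    (u v : H) : ⟪f u, f v⟫_ℂ = ⟪u, v⟫_ℂ :=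
  LinearIsometry.inner_map_map (⟨f.toLinearMap, hf⟩ : H →ₗᵢ[ℂ] H') u v

theorem mul_LG {G : Type} [Group G] {x y : B G} (hx : x ∈ LG G) (hy : y ∈ LG G) :
    x * y ∈ LG G := by
  rw [mem_LG] at hx hy ⊢
  intro g
  rw [← mul_assoc, hx g, mul_assoc, hy g, mul_assoc]

end

end PKG

open PKG in
open Filter Topology in
open scoped InnerProductSpace in
open Pool.Agent.H494R3.GT (L2 dl inner_dl dl_inner) in
open Pool.Agent.N557.QW (lam rgt LG cf mem_LG mem_LG_iff lam_dl lam_rgt) in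
/-- PKG -/
theorem t_pkg (h0 : S_BAS) (h1 : S_VIS) : S_PKG := by
  intro G _ _ hBE ξ hξ f s C hf hHS
  classical
  have hB := h0 G
  obtain ⟨K0, i1, i2, i3, a, b, hab, hnorm⟩ := hHS.ex
  obtain ⟨J, Φ, hΦ⟩ := exists_col K0
  obtain ⟨V0, hV0, hVIS⟩ := h1 G hBE
  have hC : 0 ≤ C := (sq_nonneg _).trans (hnorm 1).1
  set c : G → L2 J := fun x => Φ (a x⁻¹) with hcdef
  set c' : G → L2 J := fun x => Φ (b x⁻¹) with hc'def
  have hc : ∀ x, ‖c x‖ ^ 2 ≤ C := fun x => by
    rw [hcdef]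
    simp only
    rw [col_norm hΦ]
    exact (hnorm _).1
  have hc' : ∀ x, ‖c' x‖ ^ 2 ≤ C := fun x => by
    rw [hc'def]
    simp only
    rw [col_norm hΦ]
    exact (hnorm _).2
  -- the sequence is nice
  have hlim1 : Tendsto (fun n => ‖ξ n‖ ^ 2) atTop (𝓝 1) := by
    have h2 := hξ.left 1 (one_mem _)
    have e : ∀ n, ⟪ξ n, a1 (1 : B G) (ξ n)⟫_ℂ = ((‖ξ n‖ ^ 2 : ℝ) : ℂ) := fun n => by
      rw [hB.a1_one]
      change ⟪ξ n, ξ n⟫_ℂ = _
      rw [inner_self_eq_norm_sq_to_K]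
      push_cast
      rfl
    have e1 : tau (1 : B G) = ((1 : ℝ) : ℂ) := by
      unfold tau
      change ⟪dl (1 : G), dl (1 : G)⟫_ℂ = _
      rw [dl_inner, if_pos rfl, Complex.ofReal_one]
    simp only [e, e1] at h2
    have h3 := (Complex.continuous_re.tendsto _).comp h2
    have e5 : (Complex.re ∘ fun n => ((‖ξ n‖ ^ 2 : ℝ) : ℂ)) = fun n => ‖ξ n‖ ^ 2 := by
      funext n
      exact Complex.ofReal_re _
    rw [e5, Complex.ofReal_re] at h3
    exact h3
  obtain ⟨M0, hM0⟩ := hlim1.bddAbove_range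
  have hnice : Nice ξ := by
    refine ⟨⟨√(max M0 0), Real.sqrt_nonneg _, fun n => ?_⟩, hξ.null⟩
    apply Real.le_sqrt_of_sq_le
    exact le_max_of_le_left (hM0 ⟨n, rfl⟩)
  obtain ⟨UV, hUV⟩ : ∃ UV : L2 (G × G) →L[ℂ] L2 (G × (G × G)),
      ∀ w, UV w = U G G G (lt G V0 w) := ⟨(U G G G).comp (lt G V0), fun _ => rfl⟩
  have hUVn : ∀ v, ‖UV v‖ = ‖v‖ := fun v => by
    rw [hUV, U_norm, lt_isom V0 hV0]
  have hDn : ∀ (d : G → L2 J) (hd : ∀ x, ‖d x‖ ^ 2 ≤ C),
      ‖(lt (G × G) (dg d C hC hd)).comp UV‖ ^ 2 ≤ C := fun d hd => by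
    have h2 : ‖(lt (G × G) (dg d C hC hd)).comp UV‖ ≤ √C := by
      refine ContinuousLinearMap.opNorm_le_bound _ (Real.sqrt_nonneg _) fun v => ?_
      rw [ContinuousLinearMap.comp_apply]
      refine (ContinuousLinearMap.le_opNorm _ _).trans ?_
      rw [hUVn]
      exact mul_le_mul_of_nonneg_right ((lt_norm _).trans (dg_norm d C hC hd)) (norm_nonneg _)
    calc _ ≤ √C ^ 2 := pow_le_pow_left₀ (norm_nonneg _) h2 2
      _ = C := Real.sq_sqrt hC
  refine ⟨L2 ((G × J) × (G × G)), inferInstance, inferInstance, inferInstance, rep G J (G × G),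
    (lt (G × G) (dg c C hC hc)).comp UV, (lt (G × G) (dg c' C hC hc')).comp UV, hDn c hc,
    hDn c' hc', ?_, ?_⟩
  · intro x hx
    set y : B G := ∑ g ∈ s, ((f g : ℂ) * cf x g) • lam g with hy
    have hyspan : y ∈ Submodule.span ℂ (Set.range (lam : G → B G)) :=
      Submodule.sum_mem _ fun g _ => Submodule.smul_mem _ _ (Submodule.subset_span ⟨g, rfl⟩)
    have hyLG : y ∈ LG G := by
      rw [mem_LG]
      intro k
      rw [hy, Finset.mul_sum, Finset.sum_mul]
      refine Finset.sum_congr rfl fun g _ => ?_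
      rw [mul_smul_comm, smul_mul_assoc, lam_rgt]
    have hcf : ∀ g, cf y g = (f g : ℂ) * cf x g := by
      intro g
      have e1 : cf y g = ∑ k ∈ s, if g = k then (f g : ℂ) * cf x g else 0 := by
        change ⟪dl g, y (dl 1)⟫_ℂ = _
        rw [hy, sum_apply, inner_sum]
        refine Finset.sum_congr rfl fun k _ => ?_
        rw [smul_apply, lam_dl, mul_one, inner_smul_right, dl_inner]
        split_ifs with h
        · rw [h, mul_one]
        · rw [mul_zero]
      rw [e1, Finset.sum_ite_eq]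
      split_ifs with h
      · rfl
      · rw [hf g h]
        simp
    have hent : ∀ x1 x2, ⟪dl x1, y (dl x2)⟫_ℂ = ⟪dl x1, x (dl x2)⟫_ℂ * ⟪c' x1, c x2⟫_ℂ := by
      intro x1 x2
      have e1 := (mem_LG_iff.1 hyLG) x2 x1
      have e2 := (mem_LG_iff.1 hx) x2 x1
      have e3 : ⟪c' x1, c x2⟫_ℂ = (f (x1 * x2⁻¹) : ℂ) := by
        rw [hcdef, hc'def]
        simp only
        rw [hΦ, real_inner_comm, hab, inv_inv]
      rw [e1, e2, e3, hcf, mul_comm]
    refine ⟨y, hyLG, hcf, dg_schur0 c c' C hC hc hc' x y hent, ?_⟩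
    intro a' ha' b' hb'
    obtain ⟨M, hM0', hM⟩ := hnice.bdd
    have hn1 : Nice (fun n => a1 a' (ξ n)) := by
      have := hnice.qa a' (1 : B (G × G)) (by rw [star_one, one_mul])
        (fun T => by rw [one_mul, mul_one])
      exact this
    have hg := good1 hVIS hn1 y hyspan
    have main : ∀ n, ⟪((lt (G × G) (dg c' C hC hc')).comp UV) (a1 b' (ξ n)),
        (rep G J (G × G) x) (((lt (G × G) (dg c C hC hc)).comp UV) (a1 a' (ξ n)))⟫_ℂ =
        ⟪ξ n, a1 (star b' * y * a') (ξ n)⟫_ℂ -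
        ⟪UV (a1 b' (ξ n)), U G G G (lt G V0 (a1 y (a1 a' (ξ n))) -
          lt G (a1 y) (lt G V0 (a1 a' (ξ n))))⟫_ℂ := by
      intro n
      rw [ContinuousLinearMap.comp_apply, ContinuousLinearMap.comp_apply, rep_apply,
        dg_schur c c' C hC hc hc' x y hent, map_sub, inner_sub_right]
      have e1 : U G G G (lt G V0 (a1 y (a1 a' (ξ n)))) = UV (a1 y (a1 a' (ξ n))) :=
        (hUV _).symm
      have e2 : U G G G (lt G (a1 y) (lt G V0 (a1 a' (ξ n)))) =
          lt (G × G) y (UV (a1 a' (ξ n))) := by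
        have := congrArg (fun S : L2 ((G × G) × G) →L[ℂ] L2 (G × (G × G)) =>
          S (lt G V0 (a1 a' (ξ n)))) (U_lt (Y := G) (Z := G) y)
        simp only [ContinuousLinearMap.comp_apply] at this
        rw [a1_lt y, hUV]
        exact this
      have e3 : ⟪ξ n, a1 (star b' * y * a') (ξ n)⟫_ℂ =
          ⟪UV (a1 b' (ξ n)), UV (a1 y (a1 a' (ξ n)))⟫_ℂ := by
        rw [inner_isom UV hUVn, a1_mul', a1_mul', hB.a1_star, Pool.Agent.H494R3.GT.mul_ap,
          Pool.Agent.H494R3.GT.mul_ap, ContinuousLinearMap.star_eq_adjoint,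
          ContinuousLinearMap.adjoint_inner_right]
      rw [e1, e2, e3]
      ring
    simp only [main]
    have hmem : star b' * y * a' ∈ LG G := mul_LG (mul_LG (star_mem hb') hyLG) ha'
    have t1 := hξ.left _ hmem
    have t2 : Tendsto (fun n => ⟪UV (a1 b' (ξ n)), U G G G (lt G V0 (a1 y (a1 a' (ξ n))) -
          lt G (a1 y) (lt G V0 (a1 a' (ξ n))))⟫_ℂ) atTop (𝓝 0) := by
      rw [tendsto_zero_iff_norm_tendsto_zero]
      have h5 := hg.const_mul (‖b'‖ * M)
      rw [mul_zero] at h5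
      refine squeeze_zero (fun n => norm_nonneg _) (fun n => ?_) h5
      refine (norm_inner_le_norm _ _).trans ?_
      rw [hUVn, U_norm]
      refine mul_le_mul_of_nonneg_right ?_ (norm_nonneg _)
      exact ((a1 b').le_opNorm _).trans (mul_le_mul (a1_norm' b') (hM n) (norm_nonneg _)
        (norm_nonneg _))
    have t3 := t1.sub t2
    rwa [sub_zero] at t3
  · intro p hp Q hQ hQc
    obtain ⟨Q2, hQ2⟩ := exists_Q2 Q hQc
    refine ⟨rt (G × J) (a1 (Rm p) * Q), ?_, ?_, ?_⟩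
    · refine (rt_norm _).trans ((norm_mul_le _ _).trans ?_)
      have q1 : ‖Q‖ ≤ 1 := ContinuousLinearMap.opNorm_le_bound _ zero_le_one fun v => by
        rw [isom_norm Q hQ, one_mul]
      have q2 : ‖a1 (Rm p)‖ ≤ ‖p‖ := (a1_norm' _).trans (le_of_eq (hB.Rm_norm p))
      calc ‖a1 (Rm p)‖ * ‖Q‖ ≤ ‖p‖ * 1 := mul_le_mul q2 q1 (norm_nonneg _) (norm_nonneg _)
        _ = ‖p‖ := mul_one _
    · intro T
      rw [rep_apply]
      exact (lt_rt (lt J T) (a1 (Rm p) * Q)).symm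
    · intro a' ha'
      have hn1 : Nice (fun n => Q (a1 a' (ξ n))) := hnice.qa a' Q hQ hQc
      have hg := (good2 hB hVIS hn1 p hp).const_mul (√C)
      rw [mul_zero] at hg
      refine squeeze_zero (fun n => norm_nonneg _) (fun n => ?_) hg
      set v := a1 a' (ξ n) with hv
      set D := lt (G × G) (dg c C hC hc) with hD
      have f1 : ∀ (S : B (G × G)) w, D (rt G S w) = rt (G × J) S (D w) := fun S w => by
        have := congrArg (fun S : L2 (G × (G × G)) →L[ℂ] L2 ((G × J) × (G × G)) => S w)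
          (lt_rt (dg c C hC hc) S)
        exact this
      have f2 : ∀ w, rt G Q (U G G G w) = U G G G (rt (G × G) Q2 w) := fun w => by
        have := congrArg (fun S : L2 ((G × G) × G) →L[ℂ] L2 (G × (G × G)) => S w)
          (U_rt (X := G) (Y := G) Q2)
        rw [hQ2]
        exact this.symm
      have f3 : ∀ w, rt (G × G) Q2 (lt G V0 w) = lt G V0 (Q w) := fun w => by
        have := congrArg (fun S : L2 (G × G) →L[ℂ] L2 ((G × G) × G) => S w)
          (lt_rt V0 Q2)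
        rw [hQ2]
        exact this.symm
      have f4 : ∀ w, rt G (a1 (Rm p)) (U G G G w) = U G G G (lt G (a2 (Rm p)) w) := fun w => by
        have := congrArg (fun S : L2 ((G × G) × G) →L[ℂ] L2 (G × (G × G)) => S w)
          (U_mid (X := G) (Z := G) (Rm p))
        rw [a1_lt]
        exact this.symm
      have f5 : rt G (a1 (Rm p) * Q) = rt G (a1 (Rm p)) * rt G Q :=
        Pool.Agent.H812R3.KP.amp_mul _ _ _
      have e : (D.comp UV) (a1 (Rm p) (Q v)) - (rt (G × J) (a1 (Rm p) * Q)) ((D.comp UV) v) =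
          D (U G G G (lt G V0 (a1 (Rm p) (Q v)) - lt G (a2 (Rm p)) (lt G V0 (Q v)))) := by
        rw [ContinuousLinearMap.comp_apply, ContinuousLinearMap.comp_apply, ← f1, f5,
          Pool.Agent.H494R3.GT.mul_ap, hUV, hUV, f2, f3, f4, map_sub, map_sub]
      rw [e]
      refine (ContinuousLinearMap.le_opNorm _ _).trans ?_
      rw [U_norm]
      exact mul_le_mul_of_nonneg_right ((lt_norm _).trans (dg_norm c C hC hc)) (norm_nonneg _)

end Pool.Agent.N571.SS.D
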