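import Pool.Agent.N571.SS.D.Defs

/-!
# Project SS/D: strong solidity, statements
-/

set_option autoImplicit false

namespace Pool.Agent.N571.SS.D

open Filter Topology
open scoped InnerProductSpace ComplexOrder
open Pool.Agent.H494R3.GT (L2 dl)
open Pool.Agent.N557.QW (lam rgt LG LK cf rc)

noncomputable section

/-- `u` is a unitary operator -/
structure Un {H : Type} [NormedAddCommGroup H] [InnerProductSpace ℂ H] [CompleteSpace H]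
    (u : H →L[ℂ] H) : Prop where
  left : star u * u = 1
  right : u * star u = 1

/-- CE: the conditional expectation onto `A ⊆ L(G)`. -/
def S_CE : Prop :=
  ∀ (G : Type) [Group G] (A : VonNeumannAlgebra (L2 G)), (∀ x ∈ A, x ∈ LG G) →
    ∀ x ∈ LG G, ∃ e ∈ A, ∀ a ∈ A, tau (e * a) = tau (x * a)

/-- SM: Schur multipliers. -/
def S_SM : Prop :=
  ∀ (X K : Type) [NormedAddCommGroup K] [InnerProductSpace ℝ K] [CompleteSpace K] (ξ η : X → K)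
    (C : ℝ), (∀ x, ‖ξ x‖ ^ 2 ≤ C ∧ ‖η x‖ ^ 2 ≤ C) → ∀ Z : B X, ∃ Z' : B X, ‖Z'‖ ≤ C * ‖Z‖ ∧
      ∀ s t, ⟪dl s, Z' (dl t)⟫_ℂ = ((inner ℝ (ξ t) (η s) : ℝ) : ℂ) * ⟪dl s, Z (dl t)⟫_ℂ

/-- DAY: approximation of an invariant state by normal states. -/
def S_DAY : Prop :=
  ∀ (H : Type) [NormedAddCommGroup H] [InnerProductSpace ℂ H] [CompleteSpace H]
    (φ : (H →L[ℂ] H) →ₗ[ℂ] ℂ), (∀ T, 0 ≤ φ (star T * T)) → φ 1 = 1 →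
    ∀ (m k : ℕ) (u : Fin m → (H →L[ℂ] H)) (x : Fin k → (H →L[ℂ] H)),
      (∀ i, Un (u i) ∧ ∀ T, φ (star (u i) * T * u i) = φ T) → ∀ ε : ℝ, 0 < ε →
      ∃ (n : ℕ) (v : Fin n → H), ∑ j, ‖v j‖ ^ 2 = 1 ∧
        (∀ i, ∀ T : H →L[ℂ] H,
          ‖∑ j, ⟪u i (v j), T (u i (v j))⟫_ℂ - ∑ j, ⟪v j, T (v j)⟫_ℂ‖ ≤ ε * ‖T‖) ∧
        ∀ l, ‖∑ j, ⟪v j, x l (v j)⟫_ℂ - φ (x l)‖ ≤ ε

/-- PS: the Powers-Størmer inequality for finite rank operators. -/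
def S_PS : Prop :=
  ∀ (X : Type) [Nonempty X] (n : ℕ) (v : Fin n → L2 X), ∃ ξ : L2 (X × X),
    (∀ T : B X, ⟪ξ, a1 T ξ⟫_ℂ = ∑ j, ⟪v j, T (v j)⟫_ℂ) ∧
    ∀ u : B X, Un u → ∀ ε : ℝ, (∀ T : B X,
      ‖∑ j, ⟪u (v j), T (u (v j))⟫_ℂ - ∑ j, ⟪v j, T (v j)⟫_ℂ‖ ≤ ε * ‖T‖) →
      ‖a1 u (a2 (cj u) ξ) - ξ‖ ^ 2 ≤ ε

/-- MC: continuity of the trace functional in the minimal norm. -/
def S_MC : Prop :=
  ∀ (G : Type) [Group G] (φ : B G →ₗ[ℂ] ℂ), St φ → ∀ (m : ℕ) (x y : Fin m → B G),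
    (∀ i, x i ∈ LG G) → (∀ i, y i ∈ Cen φ ∧ Un (y i)) →
    ‖∑ i, tau (x i * star (y i))‖ ≤ ‖∑ i, a1 (x i) * a2 (cj (y i))‖

/-- FB: the bound for the functional of a Herz-Schur multiplier. -/
def S_FB : Prop :=
  ∀ (G : Type) [Group G] (φ : B G →ₗ[ℂ] ℂ), St φ → ∀ (f : G → ℝ) (s : Finset G) (C : ℝ),
    (∀ g, g ∉ s → f g = 0) → HS f C → ∀ (m : ℕ) (x y : Fin m → B G),
    (∀ i, x i ∈ LG G) → (∀ i, y i ∈ Cen φ ∧ Un (y i)) →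
    ‖tau ((∑ i, a1 (x i) * a2 (cj (y i))) * star (Yf s f))‖ ≤
      C * ‖∑ i, a1 (x i) * a2 (cj (y i))‖

/-- FL: functionals of norm almost one. -/
def S_FL : Prop :=
  ∀ (H : Type) [NormedAddCommGroup H] [InnerProductSpace ℂ H] [CompleteSpace H]
    (C : Submodule ℂ (H →L[ℂ] H)) (F : (H →L[ℂ] H) →ₗ[ℂ] ℂ) (u : H →L[ℂ] H) (ε : ℝ), 0 < ε →
    ε ≤ 1 → Un u → 1 ∈ C → ‖F 1 - 1‖ ≤ ε → ‖F u - 1‖ ≤ ε →
    ((∀ Z ∈ C, ∀ W ∈ C, ‖F (Z + u * W)‖ ≤ (1 + ε) * ‖Z + u * W‖) →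
      ∀ Z ∈ C, ‖F (u * Z) - F Z‖ ≤ 6 * √ε * ‖Z‖) ∧
    ((∀ Z ∈ C, ∀ W ∈ C, ‖F (Z + W * u)‖ ≤ (1 + ε) * ‖Z + W * u‖) →
      ∀ Z ∈ C, ‖F (Z * u) - F Z‖ ≤ 6 * √ε * ‖Z‖)

/-- `Ω` is a tracial unit vector for the C*-algebra `C`. -/
structure Tr {H : Type} [NormedAddCommGroup H] [InnerProductSpace ℂ H] [CompleteSpace H]
    (C : StarSubalgebra ℂ (H →L[ℂ] H)) (Ω : H) : Prop where
  closed : IsClosed (C : Set (H →L[ℂ] H))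
  unit : ‖Ω‖ = 1
  tracial : ∀ x ∈ C, ∀ y ∈ C, ⟪Ω, (x * y) Ω⟫_ℂ = ⟪Ω, (y * x) Ω⟫_ℂ

/-- `a` is self-adjoint and positive -/
structure Pos {H : Type} [NormedAddCommGroup H] [InnerProductSpace ℂ H] [CompleteSpace H]
    (a : H →L[ℂ] H) : Prop where
  sa : star a = a
  nonneg : ∀ v, 0 ≤ (⟪v, a v⟫_ℂ).re

/-- POS: the positive part of a functional of norm almost one. -/
def S_POS : Prop :=
  ∀ (H : Type) [NormedAddCommGroup H] [InnerProductSpace ℂ H] [CompleteSpace H]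
    (C : StarSubalgebra ℂ (H →L[ℂ] H)) (Ω : H), Tr C Ω → ∀ ε : ℝ, 0 < ε → ε ≤ 1 → ∀ K ∈ C,
    (∀ Z ∈ C, ‖⟪Ω, (Z * star K) Ω⟫_ℂ‖ ≤ (1 + ε) * ‖Z‖) → ‖⟪Ω, star K Ω⟫_ℂ - 1‖ ≤ ε →
    ∃ L ∈ C, Pos L ∧
      ∀ Z ∈ C, ‖⟪Ω, (Z * (L * L)) Ω⟫_ℂ - ⟪Ω, (Z * star K) Ω⟫_ℂ‖ ≤ 20 * √ε * ‖Z‖

/-- PSC: the Powers-Størmer inequality for traces. -/
def S_PSC : Prop :=
  ∀ (H : Type) [NormedAddCommGroup H] [InnerProductSpace ℂ H] [CompleteSpace H]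
    (C : StarSubalgebra ℂ (H →L[ℂ] H)) (Ω : H), Tr C Ω → ∀ a ∈ C, ∀ b ∈ C, Pos a → Pos b →
    ∀ δ : ℝ, (∀ Z ∈ C, ‖⟪Ω, (Z * (a * a - b * b)) Ω⟫_ℂ‖ ≤ δ * ‖Z‖) → ‖a Ω - b Ω‖ ^ 2 ≤ δ

/-- DIF: partitions in diffuse algebras. -/
def S_DIF : Prop :=
  ∀ (G : Type) [Group G] (A : VonNeumannAlgebra (L2 G)), (∀ x ∈ A, x ∈ LG G) → Dif A →
    ∀ ε : ℝ, 0 < ε → ∃ (n : ℕ) (p : Fin n → B G),
      (∀ i, p i ∈ A ∧ star (p i) = p i ∧ p i * p i = p i ∧ ‖p i (dl 1)‖ ^ 2 ≤ ε) ∧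
      (∀ i j, i ≠ j → p i * p j = 0) ∧ ∑ i, p i = 1

/-- AU: adding a unitary of the normalizer. -/
def S_AU : Prop :=
  ∀ (G : Type) [Group G] (A : VonNeumannAlgebra (L2 G)), (∀ x ∈ A, x ∈ LG G) →
    ∀ φ : B G →ₗ[ℂ] ℂ, St φ → (∀ x ∈ A, x ∈ Cen φ) → ∀ u : B G, Nor A u →
    ∃ ψ : B G →ₗ[ℂ] ℂ, St ψ ∧ (∀ x ∈ A, x ∈ Cen ψ) ∧ u ∈ Cen ψ ∧ star u ∈ Cen ψ

/-- the projection onto `δ_g` -/
def Pg {G : Type} (g : G) : B G := (innerSL ℂ (dl g)).smulRight (dl g)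

/-- the vectors of the weak compactness property -/
structure Vec {G : Type} [Group G] (ξ : ℕ → L2 (G × G)) : Prop where
  left : ∀ x ∈ LG G, Tendsto (fun n => ⟪ξ n, a1 x (ξ n)⟫_ℂ) atTop (𝓝 (tau x))
  right : ∀ x ∈ LG G, Tendsto (fun n => ⟪ξ n, a1 (Rm x) (ξ n)⟫_ℂ) atTop (𝓝 (tau x))
  null : ∀ g : G, Tendsto (fun n => ‖a1 (Pg g) (ξ n)‖) atTop (𝓝 0)

/-- the vectors `ξ n` are asymptotically invariant under `Ad u` up to the second leg -/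
structure Inv {G : Type} [Group G] (ξ : ℕ → L2 (G × G)) (u : B G) : Prop where
  ex : ∃ Q : B (G × G), star Q * Q = 1 ∧ (∀ T : B G, Q * a1 T = a1 T * Q) ∧
    Tendsto (fun n => ‖a1 u (ξ n) - a1 (Rm u) (Q (ξ n))‖) atTop (𝓝 0)

/-- WC: weak compactness. -/
def S_WC : Prop :=
  ∀ (G : Type) [Group G] [Countable G], CMAP G → ∀ A : VonNeumannAlgebra (L2 G), Am A → Dif A →
    ∃ ξ : ℕ → L2 (G × G), Vec ξ ∧ ∀ u, Nor A u → Inv ξ u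

/-- BAS: first properties of `cj`, `a1`, `a2`, `Rm`. -/
structure Bas (G : Type) [Group G] : Prop where
  cj_add : ∀ x y : B G, cj (x + y) = cj x + cj y
  cj_smul : ∀ (c : ℂ) (x : B G), cj (c • x) = (starRingEnd ℂ) c • cj x
  cj_mul : ∀ x y : B G, cj (x * y) = cj x * cj y
  cj_one : cj (1 : B G) = 1
  cj_star : ∀ x : B G, cj (star x) = star (cj x)
  cj_cj : ∀ x : B G, cj (cj x) = x
  cj_norm : ∀ x : B G, ‖cj x‖ = ‖x‖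
  cj_lam : ∀ g : G, cj (lam g) = lam g
  cj_ent : ∀ (x : B G) (s t : G), ⟪dl s, cj x (dl t)⟫_ℂ = (starRingEnd ℂ) ⟪dl s, x (dl t)⟫_ℂ
  cj_mem : ∀ x ∈ LG G, cj x ∈ LG G
  a1_add : ∀ x y : B G, a1 (x + y) = a1 x + a1 y
  a1_smul : ∀ (c : ℂ) (x : B G), a1 (c • x) = c • a1 x
  a1_mul : ∀ x y : B G, a1 (x * y) = a1 x * a1 y
  a1_one : a1 (1 : B G) = 1
  a1_star : ∀ x : B G, a1 (star x) = star (a1 x)
  a1_norm : ∀ x : B G, ‖a1 x‖ ≤ ‖x‖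
  a1_ent : ∀ (x : B G) (s t s' t' : G), ⟪dl (s, s'), a1 x (dl (t, t'))⟫_ℂ =
    ⟪dl s, x (dl t)⟫_ℂ * ⟪dl s', dl t'⟫_ℂ
  a2_add : ∀ x y : B G, a2 (x + y) = a2 x + a2 y
  a2_smul : ∀ (c : ℂ) (x : B G), a2 (c • x) = c • a2 x
  a2_mul : ∀ x y : B G, a2 (x * y) = a2 x * a2 y
  a2_one : a2 (1 : B G) = 1
  a2_star : ∀ x : B G, a2 (star x) = star (a2 x)
  a2_norm : ∀ x : B G, ‖a2 x‖ ≤ ‖x‖
  a2_ent : ∀ (x : B G) (s t s' t' : G), ⟪dl (s, s'), a2 x (dl (t, t'))⟫_ℂ =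
    ⟪dl s, dl t⟫_ℂ * ⟪dl s', x (dl t')⟫_ℂ
  comm : ∀ x y : B G, a1 x * a2 y = a2 y * a1 x
  a12_ent : ∀ (x y : B G) (s t s' t' : G), ⟪dl (s, s'), (a1 x * a2 y) (dl (t, t'))⟫_ℂ =
    ⟪dl s, x (dl t)⟫_ℂ * ⟪dl s', y (dl t')⟫_ℂ
  a1_mem : ∀ x ∈ LG G, a1 x ∈ LG (G × G)
  a2_mem : ∀ x ∈ LG G, a2 x ∈ LG (G × G)
  Rm_add : ∀ x y : B G, Rm (x + y) = Rm x + Rm y
  Rm_smul : ∀ (c : ℂ) (x : B G), Rm (c • x) = c • Rm x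
  Rm_mul : ∀ x y : B G, Rm (x * y) = Rm y * Rm x
  Rm_one : Rm (1 : B G) = 1
  Rm_star : ∀ x : B G, Rm (star x) = star (Rm x)
  Rm_norm : ∀ x : B G, ‖Rm x‖ = ‖x‖
  Rm_lam : ∀ g : G, Rm (lam g) = rgt g
  Rm_comm : ∀ x ∈ LG G, ∀ y ∈ LG G, Rm x * y = y * Rm x
  Rm_dl : ∀ x ∈ LG G, Rm x (dl 1) = x (dl 1)

/-- BAS -/
def S_BAS : Prop := ∀ (G : Type) [Group G], Bas G

/-- FIN: the final limit argument. -/
def S_FIN : Prop :=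
  ∀ (G : Type) [Group G] [Countable G], BiExact G → CMAP G → ∀ ξ : ℕ → L2 (G × G), Vec ξ →
    ∃ φ : B G →ₗ[ℂ] ℂ, St φ ∧ ∀ u ∈ LG G, Un u → Inv ξ u → Inv ξ (star u) → u ∈ Cen φ

/-- CEN: the centralizer is a von Neumann algebra. -/
def S_CEN : Prop :=
  ∀ (G : Type) [Group G] (φ : B G →ₗ[ℂ] ℂ), St φ → ∀ S : Set (B G), 1 ∈ S →
    (∀ u ∈ S, u ∈ Cen φ ∧ star u ∈ S) → (∀ u ∈ S, ∀ v ∈ S, u * v ∈ S) →
    ∃ P : VonNeumannAlgebra (L2 G), (∀ x ∈ P, x ∈ Cen φ) ∧ (∀ u ∈ S, u ∈ P) ∧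
      ∀ P' : VonNeumannAlgebra (L2 G), (∀ u ∈ S, u ∈ P') → ∀ x ∈ P, x ∈ P'

end

/-! ### Strong solidity -/

section

variable {H : Type} [NormedAddCommGroup H] [InnerProductSpace ℂ H] [CompleteSpace H]

/-- The von Neumann subalgebra `A ⊆ N` is amenable: there is an `A`-central state on `B(H)` which
extends the trace of `N`. -/
structure Amen (A N : VonNeumannAlgebra H) (Ω : H) : Prop where
  ex : ∃ φ : (H →L[ℂ] H) →ₗ[ℂ] ℂ, (∀ T, 0 ≤ φ (star T * T)) ∧ (∀ x ∈ N, φ x = ⟪Ω, x Ω⟫_ℂ) ∧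
    ∀ x ∈ A, ∀ T, φ (x * T) = φ (T * x)

/-- `P` is the von Neumann algebra generated by the normalizer of `A` in `N`. -/
structure GenNor (A N P : VonNeumannAlgebra H) : Prop where
  mem : ∀ u ∈ N, star u * u = 1 → u * star u = 1 → (∀ a ∈ A, u * a * star u ∈ A) →
    (∀ a ∈ A, star u * a * u ∈ A) → u ∈ P
  least : ∀ P' : VonNeumannAlgebra H,
    (∀ u ∈ N, star u * u = 1 → u * star u = 1 → (∀ a ∈ A, u * a * star u ∈ A) →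
      (∀ a ∈ A, star u * a * u ∈ A) → u ∈ P') → ∀ x ∈ P, x ∈ P'

/-- `N` is strongly solid: the normalizer of every diffuse amenable subalgebra generates an amenable
algebra. -/
structure StronglySolid (N : VonNeumannAlgebra H) (Ω : H) : Prop where
  solid : ∀ A : VonNeumannAlgebra H, (∀ x ∈ A, x ∈ N) → Dif A → Amen A N Ω →
    ∃ P : VonNeumannAlgebra H, GenNor A N P ∧ Amen P N Ω

end

/-- TRN: transport from `ℓ²(Γ)` to `ℓ²(Z/2 ≀ Γ)`. -/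
def S_TRN : Prop :=
  ∀ (Γ : Type) [Group Γ], StronglySolid (LG Γ) (dl (1 : Γ)) →
    StronglySolid (LK (emb Γ).range) (dl (1 : WR Γ))

/-- HYP: in the definition of amenability, it is enough that the state extends the trace of `A`. -/
def S_HYP : Prop :=
  ∀ (G : Type) [Group G] (A : VonNeumannAlgebra (L2 G)), (∀ x ∈ A, x ∈ LG G) →
    (∃ φ, Hypertrace A (dl (1 : G)) φ) → Am A

end Pool.Agent.N571.SS.D
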