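import Pool.Agent.N571.SS.D.Stm

/-!
# Project SS/D: strong solidity, further statements
-/

set_option autoImplicit false

namespace Pool.Agent.N571.SS.D

open Filter Topology
open scoped InnerProductSpace ComplexOrder
open Pool.Agent.H494R3.GT (L2 dl)
open Pool.Agent.N557.QW (lam rgt LG LK cf rc)

noncomputable section

/-- the C*-algebra generated by `a ⊗ b̄`, `a, b ∈ A` -/
def CA {G : Type} (A : VonNeumannAlgebra (L2 G)) : StarSubalgebra ℂ (B (G × G)) :=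
  (StarAlgebra.adjoin ℂ {Z : B (G × G) | ∃ a ∈ A, ∃ b ∈ A, Z = a1 a * a2 (cj b)}).topologicalClosure

/-- the functionals of the weak compactness property -/
structure Fun {G : Type} [Group G] (A : VonNeumannAlgebra (L2 G)) (K : ℕ → B (G × G))
    (ε : ℕ → ℝ) : Prop where
  mem : ∀ n, K n ∈ CA A
  pos : ∀ n, 0 < ε n ∧ ε n ≤ 1
  lim : Tendsto ε atTop (𝓝 0)
  bound : ∀ n, ∀ Z ∈ CA A, ‖tau (Z * star (K n))‖ ≤ (1 + ε n) * ‖Z‖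
  one : ∀ n, ‖tau (star (K n)) - 1‖ ≤ ε n
  nor : ∀ u, Nor A u → ∃ δ : ℕ → ℝ, Tendsto δ atTop (𝓝 0) ∧ ∀ n, ∀ Z ∈ CA A,
    ‖tau (star (a1 u * a2 (cj u)) * Z * (a1 u * a2 (cj u)) * star (K n)) -
      tau (Z * star (K n))‖ ≤ δ n * ‖Z‖
  left : ∀ a ∈ A, Tendsto (fun n => tau (a1 a * star (K n))) atTop (𝓝 (tau a))
  unit : ∀ u ∈ A, Un u → Tendsto (fun n => tau (a1 u * a2 (cj u) * star (K n))) atTop (𝓝 1)

/-- WF: weak compactness, the functionals. -/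
def S_WF : Prop :=
  ∀ (G : Type) [Group G] [Countable G], CMAP G → ∀ A : VonNeumannAlgebra (L2 G), Am A →
    ∃ (K : ℕ → B (G × G)) (ε : ℕ → ℝ), Fun A K ε

/-- WV: weak compactness, the vectors. -/
def S_WV : Prop :=
  ∀ (G : Type) [Group G] (A : VonNeumannAlgebra (L2 G)), (∀ x ∈ A, x ∈ LG G) → Dif A →
    ∀ (K : ℕ → B (G × G)) (ε : ℕ → ℝ), Fun A K ε →
    ∃ ξ : ℕ → L2 (G × G), Vec ξ ∧ ∀ u, Nor A u → Inv ξ u

/-- VIS: the isometry of a bi-exact group. -/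
def S_VIS : Prop :=
  ∀ (G : Type) [Group G] [Countable G], BiExact G → ∃ V : L2 G →L[ℂ] L2 (G × G),
    (∀ ζ, ‖V ζ‖ = ‖ζ‖) ∧ ∀ (s t : G) (ε : ℝ), 0 < ε → ∃ F : Finset G, ∀ ζ : L2 G,
      (∀ x ∈ F, ⟪dl x, ζ⟫_ℂ = 0) →
      ‖V (lam s (rgt t ζ)) - a1 (lam s) (a2 (rgt t) (V ζ))‖ ≤ ε * ‖ζ‖

/-- PKG: the limit argument for one multiplier. -/
def S_PKG : Prop :=
  ∀ (G : Type) [Group G] [Countable G], BiExact G → ∀ ξ : ℕ → L2 (G × G), Vec ξ →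
    ∀ (f : G → ℝ) (s : Finset G) (C : ℝ), (∀ g, g ∉ s → f g = 0) → HS f C →
    ∃ (K : Type) (_ : NormedAddCommGroup K) (_ : InnerProductSpace ℂ K) (_ : CompleteSpace K)
      (π : B G →⋆ₐ[ℂ] (K →L[ℂ] K)) (V W : L2 (G × G) →L[ℂ] K), ‖V‖ ^ 2 ≤ C ∧ ‖W‖ ^ 2 ≤ C ∧
      (∀ x ∈ LG G, ∃ y ∈ LG G, (∀ g, cf y g = (f g : ℂ) * cf x g) ∧ ‖y‖ ≤ C * ‖x‖ ∧
        ∀ a ∈ LG G, ∀ b ∈ LG G,
          Tendsto (fun n => ⟪W (a1 b (ξ n)), π x (V (a1 a (ξ n)))⟫_ℂ) atTop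
            (𝓝 (tau (star b * y * a)))) ∧
      ∀ p ∈ Submodule.span ℂ (Set.range (lam : G → B G)), ∀ Q : B (G × G), star Q * Q = 1 →
        (∀ T : B G, Q * a1 T = a1 T * Q) →
        ∃ R : K →L[ℂ] K, ‖R‖ ≤ ‖p‖ ∧ (∀ T : B G, R * π T = π T * R) ∧
          ∀ a ∈ LG G, Tendsto
            (fun n => ‖V (a1 (Rm p) (Q (a1 a (ξ n)))) - R (V (a1 a (ξ n)))‖) atTop (𝓝 0)

end

end Pool.Agent.N571.SS.D
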