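import Pool.Agent.N571.SS.D.Stm
import Pool.Agent.N571.EX.TR

/-!
# Project SS/D: transport of strong solidity from `ℓ²(Γ)` to `ℓ²(Z/2 ≀ Γ)` (helper67)
-/

set_option autoImplicit false

namespace Pool.Agent.N571.SS.D

open scoped InnerProductSpace ComplexOrder
open Pool.Agent.H494R3.GT (L2 dl)
open Pool.Agent.N557.QW (lam rgt LG LK cf rc mem_LG_iff)

namespace TRN

open Pool.Agent.H812R3.KP (pull push amp ent ent_ext amp_inj push_dl pull_apply ent_amp amp_mul
  amp_star amp_one amp_apply ent_star ent_one)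

noncomputable section

theorem dl_eq {X : Type} (x : X) : (dl x : L2 X) = Pool.Agent.H812R3.KP.dl x := by
  classical
  rw [← Pool.Agent.H812R3.KP.dl_eq_single]
  unfold dl
  congr 1

theorem ent_eq {X : Type} (T : B X) (x y : X) : ⟪dl x, T (dl y)⟫_ℂ = ent T x y := by
  rw [dl_eq, dl_eq, Pool.Agent.H812R3.KP.ent_eq_inner]

/-! ### von Neumann algebras -/

section vn

variable {H : Type} [NormedAddCommGroup H] [InnerProductSpace ℂ H] [CompleteSpace H]

/-- the commutant of a set as a von Neumann algebra -/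
def cm (S : Set (H →L[ℂ] H)) : VonNeumannAlgebra H where
  toStarSubalgebra := StarSubalgebra.centralizer ℂ S
  centralizer_centralizer' := by
    change Set.centralizer (Set.centralizer (Set.centralizer _)) = Set.centralizer _
    exact Set.centralizer_centralizer_centralizer _

theorem mem_cm {S : Set (H →L[ℂ] H)} (hS : ∀ s ∈ S, star s ∈ S) {x : H →L[ℂ] H} :
    x ∈ cm S ↔ ∀ s ∈ S, s * x = x * s := by
  change x ∈ Set.centralizer _ ↔ _
  rw [Set.mem_centralizer_iff]
  constructor
  · intro h s hs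
    exact h _ (Or.inl hs)
  · rintro h m (hm | hm)
    · exact h m hm
    · have : star m ∈ S := hm
      have := hS _ this
      rw [star_star] at this
      exact h m this

theorem mem_of_comm (Q : VonNeumannAlgebra H) {x : H →L[ℂ] H}
    (h : ∀ y : H →L[ℂ] H, (∀ q ∈ Q, q * y = y * q) → y * x = x * y) : x ∈ Q := by
  have h1 : x ∈ Set.centralizer (Set.centralizer (Q : Set (H →L[ℂ] H))) := by
    rw [Set.mem_centralizer_iff]
    intro m hm
    rw [Set.mem_centralizer_iff] at hm
    exact h m fun q hq => hm q hq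
  rw [VonNeumannAlgebra.centralizer_centralizer] at h1
  exact h1

theorem exists_sq {T : H →L[ℂ] H} (h : 0 ≤ T) : ∃ b : H →L[ℂ] H, T = star b * b :=
  CStarAlgebra.nonneg_iff_eq_star_mul_self.1 h

end vn

/-! ### blocks -/

section blocks

variable {X Z Y : Type} (e : X × Z ≃ Y)

/-- the block of an operator -/
def blk (z z' : Z) : B Y →ₗ[ℂ] B X where
  toFun T := (pull (fun x => e (x, z)) (amp_inj e z)).comp
    (T.comp (push (fun x => e (x, z')) (amp_inj e z')))
  map_add' S T := by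
    ext v x
    simp
  map_smul' c T := by
    ext v x
    simp

theorem ent_blk (z z' : Z) (T : B Y) (x x' : X) :
    ent (blk e z z' T) x x' = ent T (e (x, z)) (e (x', z')) := by
  change ent ((pull (fun x => e (x, z)) (amp_inj e z)).comp
    (T.comp (push (fun x => e (x, z')) (amp_inj e z')))) x x' = _
  simp only [ent, ContinuousLinearMap.comp_apply, push_dl, pull_apply]

theorem blk_ext {S T : B Y} (h : ∀ z z', blk e z z' S = blk e z z' T) : S = T := by
  apply ent_ext
  intro a b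
  obtain ⟨⟨x, z⟩, rfl⟩ := e.surjective a
  obtain ⟨⟨x', z'⟩, rfl⟩ := e.surjective b
  rw [← ent_blk, ← ent_blk, h]

theorem pull_amp (z : Z) (T : B X) :
    (pull (fun x => e (x, z)) (amp_inj e z)).comp (amp e T) =
      T.comp (pull (fun x => e (x, z)) (amp_inj e z)) := by
  ext ξ x
  rw [ContinuousLinearMap.comp_apply, pull_apply, amp_apply, ContinuousLinearMap.comp_apply]

theorem amp_push (z : Z) (T : B X) :
    (amp e T).comp (push (fun x => e (x, z)) (amp_inj e z)) =
      (push (fun x => e (x, z)) (amp_inj e z)).comp T := by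
  have h := congrArg ContinuousLinearMap.adjoint (pull_amp e z (star T))
  rw [ContinuousLinearMap.adjoint_comp, ContinuousLinearMap.adjoint_comp, amp_star,
    ContinuousLinearMap.star_eq_adjoint, ContinuousLinearMap.star_eq_adjoint,
    ContinuousLinearMap.adjoint_adjoint, ContinuousLinearMap.adjoint_adjoint] at h
  exact h

theorem blk_amp_mul (z z' : Z) (S : B X) (T : B Y) :
    blk e z z' (amp e S * T) = S * blk e z z' T := by
  change (pull (fun x => e (x, z)) (amp_inj e z)).comp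
    (((amp e S).comp T).comp (push (fun x => e (x, z')) (amp_inj e z'))) = S.comp ((pull (fun x => e (x, z)) (amp_inj e z)).comp
    (T.comp (push (fun x => e (x, z')) (amp_inj e z'))))
  rw [ContinuousLinearMap.comp_assoc, ← ContinuousLinearMap.comp_assoc, pull_amp]
  rfl

theorem blk_mul_amp (z z' : Z) (S : B X) (T : B Y) :
    blk e z z' (T * amp e S) = blk e z z' T * S := by
  change (pull (fun x => e (x, z)) (amp_inj e z)).comp
    ((T.comp (amp e S)).comp (push (fun x => e (x, z')) (amp_inj e z'))) =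
      ((pull (fun x => e (x, z)) (amp_inj e z)).comp
    (T.comp (push (fun x => e (x, z')) (amp_inj e z')))).comp S
  rw [ContinuousLinearMap.comp_assoc T, amp_push]
  rfl

theorem star_blk (z z' : Z) (T : B Y) : star (blk e z z' T) = blk e z' z (star T) := by
  apply ent_ext
  intro x y
  rw [ent_star, ent_blk, ent_blk, ent_star]

open Classical in
theorem blk_amp (z z' : Z) (T : B X) : blk e z z' (amp e T) = if z = z' then T else 0 := by
  apply ent_ext
  intro x y
  rw [ent_blk, ent_amp]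
  split_ifs <;> simp

theorem amp_injective (z : Z) {S T : B X} (h : amp e S = amp e T) : S = T := by
  have := congrArg (blk e z z) h
  rw [blk_amp, blk_amp, if_pos rfl, if_pos rfl] at this
  exact this

/-- the matrix unit -/
def mu (z z' : Z) : B Y :=
  (push (fun x => e (x, z)) (amp_inj e z)).comp (pull (fun x => e (x, z')) (amp_inj e z'))

open Classical in
theorem pull_push (z z' : Z) :
    (pull (fun x => e (x, z)) (amp_inj e z)).comp (push (fun x => e (x, z')) (amp_inj e z')) =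
      if z = z' then 1 else 0 := by
  have h := blk_amp e z z' (1 : B X)
  rw [amp_one] at h
  rw [← h]
  rfl

open Classical in
theorem blk_mu (a b z z' : Z) : blk e z z' (mu e a b) = if z = a ∧ b = z' then 1 else 0 := by
  change (pull (fun x => e (x, z)) (amp_inj e z)).comp
    (((push (fun x => e (x, a)) (amp_inj e a)).comp (pull (fun x => e (x, b)) (amp_inj e b))).comp
      (push (fun x => e (x, z')) (amp_inj e z'))) = _
  rw [ContinuousLinearMap.comp_assoc, pull_push, ← ContinuousLinearMap.comp_assoc, pull_push]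
  by_cases h1 : z = a
  · by_cases h2 : b = z'
    · rw [if_pos h1, if_pos h2, if_pos (show z = a ∧ b = z' from ⟨h1, h2⟩)]; rfl
    · rw [if_neg h2, if_neg (show ¬ (z = a ∧ b = z') from fun h => h2 h.2)]; ext; simp
  · rw [if_neg h1, if_neg (show ¬ (z = a ∧ b = z') from fun h => h1 h.1)]; ext; simp

/-- PULL: the preimage of a von Neumann algebra -/
theorem exists_pull (Q : VonNeumannAlgebra (L2 Y)) :
    ∃ Q0 : VonNeumannAlgebra (L2 X), ∀ T, T ∈ Q0 ↔ amp e T ∈ Q := by
  let S : Set (B X) := {s | ∃ z z', ∃ y : B Y, (∀ q ∈ Q, q * y = y * q) ∧ s = blk e z z' y}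
  have hS : ∀ s ∈ S, star s ∈ S := by
    rintro _ ⟨z, z', y, hy, rfl⟩
    refine ⟨z', z, star y, ?_, star_blk e z z' y⟩
    intro q hq
    have h1 := hy (star q) (star_mem hq)
    have h2 := congrArg star h1
    rw [star_mul, star_mul, star_star] at h2
    exact h2.symm
  refine ⟨cm S, fun T => ?_⟩
  rw [mem_cm hS]
  constructor
  · intro h
    apply mem_of_comm
    intro y hy
    apply blk_ext e
    intro z z'
    rw [blk_amp_mul, blk_mul_amp]
    exact h _ ⟨z, z', y, hy, rfl⟩
  · rintro h _ ⟨z, z', y, hy, rfl⟩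
    rw [← blk_amp_mul, ← blk_mul_amp, hy _ h]

/-- PUSH: the amplification of a von Neumann algebra -/
theorem exists_push (z0 : Z) (Q0 : VonNeumannAlgebra (L2 X)) :
    ∃ Q : VonNeumannAlgebra (L2 Y), ∀ x, x ∈ Q ↔ ∃ T ∈ Q0, x = amp e T := by
  classical
  let S : Set (B Y) := {y | ∀ z z', ∀ q ∈ Q0, q * blk e z z' y = blk e z z' y * q}
  have hS : ∀ s ∈ S, star s ∈ S := by
    intro y hy z z' q hq
    have h1 := hy z' z (star q) (star_mem hq)
    have h2 := congrArg star h1
    rw [star_mul, star_mul, star_star, star_blk] at h2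
    exact h2.symm
  refine ⟨cm S, fun x => ?_⟩
  rw [mem_cm hS]
  constructor
  · intro h
    have hmu : ∀ a b, mu e a b ∈ S := by
      intro a b z z' q _
      rw [blk_mu]
      split_ifs <;> simp
    have hx : x = amp e (blk e z0 z0 x) := by
      apply blk_ext e
      intro z z'
      rw [blk_amp]
      have h1 := h _ (hmu z' z0)
      have h2 : blk e z z0 (mu e z' z0 * x) = (if z = z' then 1 else 0) * blk e z0 z0 x := by
        change (pull (fun x => e (x, z)) (amp_inj e z)).comp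
          ((((push (fun x => e (x, z')) (amp_inj e z')).comp
            (pull (fun x => e (x, z0)) (amp_inj e z0))).comp x).comp
            (push (fun x => e (x, z0)) (amp_inj e z0))) = _
        rw [← pull_push e z z']
        rfl
      have h3 : blk e z z0 (x * mu e z' z0) = blk e z z' x := by
        change ((pull (fun x => e (x, z)) (amp_inj e z)).comp
          (x.comp (push (fun x => e (x, z')) (amp_inj e z')))).comp
            ((pull (fun x => e (x, z0)) (amp_inj e z0)).comp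
            (push (fun x => e (x, z0)) (amp_inj e z0))) = _
        rw [pull_push, if_pos rfl]
        rfl
      rw [← h3, ← h1, h2]
      split_ifs <;> simp
    refine ⟨blk e z0 z0 x, ?_, hx⟩
    apply mem_of_comm
    intro y hy
    have hy2 : amp e y ∈ S := by
      intro z z' q hq
      rw [blk_amp]
      split_ifs
      · exact hy q hq
      · simp
    have h1 := h _ hy2
    rw [hx, ← amp_mul, ← amp_mul] at h1
    have h2 := amp_injective e z0 h1
    exact h2
  · rintro ⟨T, hT, rfl⟩ y hy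
    apply blk_ext e
    intro z z'
    rw [blk_amp_mul, blk_mul_amp]
    exact (hy z z' T hT).symm

/-- the abstract transport theorem -/
theorem transport (x0 : X) (z0 : Z) (N0 : VonNeumannAlgebra (L2 X)) (N : VonNeumannAlgebra (L2 Y))
    (hN : ∀ x, x ∈ N ↔ ∃ T ∈ N0, x = amp e T) (h0 : StronglySolid N0 (dl x0)) :
    StronglySolid N (dl (e (x0, z0))) := by
  classical
  have inj : ∀ {S T : B X}, amp e S = amp e T → S = T := fun {S T} h => amp_injective e z0 h
  have amp0 : amp e (0 : B X) = 0 := map_zero _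
  have hN' : ∀ T, amp e T ∈ N ↔ T ∈ N0 := by
    intro T
    rw [hN]
    constructor
    · rintro ⟨T', hT', h⟩
      rw [inj h]; exact hT'
    · intro hT
      exact ⟨T, hT, rfl⟩
  have tr0 : ∀ T : B X, ⟪dl (e (x0, z0)), (amp e T) (dl (e (x0, z0)))⟫_ℂ = ⟪dl x0, T (dl x0)⟫_ℂ := by
    intro T
    rw [ent_eq, ent_eq, ent_amp, if_pos rfl]
  refine ⟨fun A hA hD hAm => ?_⟩
  obtain ⟨A0, hA0⟩ := exists_pull e A
  have hA0N : ∀ x ∈ A0, x ∈ N0 := fun x hx => (hN' x).1 (hA _ ((hA0 x).1 hx))
  have surj : ∀ a ∈ A, ∃ a0 ∈ A0, a = amp e a0 := by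
    intro a ha
    obtain ⟨T, _, rfl⟩ := (hN a).1 (hA a ha)
    exact ⟨T, (hA0 T).2 ha, rfl⟩
  have hD0 : Dif A0 := by
    refine ⟨fun p hp h1 h2 h3 => ?_⟩
    obtain ⟨q, hq, g1, g2, g3, g4, g5⟩ := hD.split (amp e p) ((hA0 p).1 hp)
      (by rw [← amp_star, h1]) (by rw [← amp_mul, h2]) (fun h => h3 (inj (h.trans amp0.symm)))
    obtain ⟨q0, hq0, rfl⟩ := surj q hq
    refine ⟨q0, hq0, inj (by rw [amp_star, g1]), inj (by rw [amp_mul, g2]),
      inj (by rw [amp_mul, g3]), ?_, ?_⟩
    · rintro rfl; exact g4 amp0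
    · rintro rfl; exact g5 rfl
  obtain ⟨φ, f1, f2, f3⟩ := hAm.ex
  have hAm0 : Amen A0 N0 (dl x0) := by
    refine ⟨φ.comp (amp e).toLinearMap, ?_, ?_, ?_⟩
    · intro T
      change 0 ≤ φ (amp e (star T * T))
      rw [amp_mul, amp_star]
      exact f1 _
    · intro x hx
      change φ (amp e x) = _
      rw [f2 _ ((hN' x).2 hx), tr0]
    · intro x hx T
      change φ (amp e (x * T)) = φ (amp e (T * x))
      rw [amp_mul, amp_mul]
      exact f3 _ ((hA0 x).1 hx) _
  obtain ⟨P0, hP0, hP0a⟩ := h0.solid A0 hA0N hD0 hAm0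
  obtain ⟨P, hP⟩ := exists_push e z0 P0
  obtain ⟨ψ, p1, p2, p3⟩ := hP0a.ex
  refine ⟨P, ⟨?_, ?_⟩, ⟨ψ.comp (blk e z0 z0), ?_, ?_, ?_⟩⟩
  · intro u hu h1 h2 h3 h4
    obtain ⟨u0, hu0, rfl⟩ := (hN u).1 hu
    rw [hP]
    refine ⟨u0, hP0.mem u0 hu0 ?_ ?_ ?_ ?_, rfl⟩
    · apply inj; rw [amp_mul, amp_star, amp_one]; exact h1
    · apply inj; rw [amp_mul, amp_star, amp_one]; exact h2
    · intro a ha
      rw [hA0, amp_mul, amp_mul, amp_star]
      exact h3 _ ((hA0 a).1 ha)
    · intro a ha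
      rw [hA0, amp_mul, amp_mul, amp_star]
      exact h4 _ ((hA0 a).1 ha)
  · intro P' hP' x hx
    obtain ⟨P0', hP0'⟩ := exists_pull e P'
    obtain ⟨T, hT, rfl⟩ := (hP x).1 hx
    rw [← hP0']
    refine hP0.least P0' ?_ T hT
    intro u hu h1 h2 h3 h4
    rw [hP0']
    refine hP' _ ((hN' u).2 hu) ?_ ?_ ?_ ?_
    · rw [← amp_star, ← amp_mul, h1, amp_one]
    · rw [← amp_star, ← amp_mul, h2, amp_one]
    · intro a ha
      obtain ⟨a0, ha0, rfl⟩ := surj a ha
      rw [← amp_star, ← amp_mul, ← amp_mul]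
      exact (hA0 _).1 (h3 _ ha0)
    · intro a ha
      obtain ⟨a0, ha0, rfl⟩ := surj a ha
      rw [← amp_star, ← amp_mul, ← amp_mul]
      exact (hA0 _).1 (h4 _ ha0)
  · intro T
    change 0 ≤ ψ (blk e z0 z0 (star T * T))
    have hpos : 0 ≤ blk e z0 z0 (star T * T) := by
      rw [ContinuousLinearMap.nonneg_iff_isPositive]
      have h1 : blk e z0 z0 (star T * T) =
          (ContinuousLinearMap.adjoint (T.comp (push (fun x => e (x, z0)) (amp_inj e z0)))).comp
            (T.comp (push (fun x => e (x, z0)) (amp_inj e z0))) := by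
        rw [ContinuousLinearMap.adjoint_comp, push, ContinuousLinearMap.adjoint_adjoint,
          ← ContinuousLinearMap.star_eq_adjoint T]
        rfl
      rw [h1]
      exact ContinuousLinearMap.isPositive_adjoint_comp_self _
    obtain ⟨b, hb⟩ := exists_sq hpos
    rw [hb]
    exact p1 b
  · intro x hx
    obtain ⟨T, hT, rfl⟩ := (hN x).1 hx
    change ψ (blk e z0 z0 (amp e T)) = _
    rw [blk_amp, if_pos rfl, tr0, p2 T hT]
  · intro x hx T
    obtain ⟨S, hS, rfl⟩ := (hP x).1 hx
    change ψ (blk e z0 z0 (amp e S * T)) = ψ (blk e z0 z0 (T * amp e S))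
    rw [blk_amp_mul, blk_mul_amp]
    exact p3 S hS _

end blocks

/-! ### the lamplighter group -/

section wr

variable {Γ : Type} [Group Γ]

/-- `emb g * (S, 1)` -/
def mk (g : Γ) (S : Finset Γ) : WR Γ := emb Γ g * ⟨S, 1⟩

theorem mk_pos (g : Γ) (S : Finset Γ) : (mk g S).pos = g := mul_one g

theorem mem_mk (g : Γ) (S : Finset Γ) (h : Γ) : h ∈ (mk g S).lamp ↔ g⁻¹ * h ∈ S := by
  unfold mk
  rw [WR.mem_mul]
  have h1 : (emb Γ g).lamp = ∅ := rfl
  have h2 : (emb Γ g).pos = g := rfl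
  rw [h1, h2]
  simp

theorem mk_inj {g g' : Γ} {S S' : Finset Γ} (h : mk g S = mk g' S') : g = g' ∧ S = S' := by
  have h1 : g = g' := by
    have := congrArg WR.pos h
    rwa [mk_pos, mk_pos] at this
  subst h1
  refine ⟨rfl, ?_⟩
  ext k
  have h2 : g * k ∈ (mk g S).lamp ↔ g * k ∈ (mk g S').lamp := by rw [h]
  rw [mem_mk, mem_mk] at h2
  simpa using h2

theorem mk_surj (w : WR Γ) : ∃ g S, mk g S = w := by
  refine ⟨w.pos, ((emb Γ w.pos)⁻¹ * w).lamp, ?_⟩
  unfold mk
  have : (⟨((emb Γ w.pos)⁻¹ * w).lamp, 1⟩ : WR Γ) = (emb Γ w.pos)⁻¹ * w := by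
    ext k
    · rfl
    · have : ((emb Γ w.pos)⁻¹ * w).pos = w.pos⁻¹ * w.pos := rfl
      rw [this, inv_mul_cancel]
  rw [this, mul_inv_cancel_left]

/-- the bijection -/
def eW (Γ : Type) [Group Γ] : Γ × Finset Γ ≃ WR Γ :=
  Equiv.ofBijective (fun p => mk p.1 p.2) ⟨fun a b h => Prod.ext (mk_inj h).1 (mk_inj h).2,
    fun w => by obtain ⟨g, S, h⟩ := mk_surj w; exact ⟨(g, S), h⟩⟩

theorem eW_apply (g : Γ) (S : Finset Γ) : eW Γ (g, S) = mk g S := rfl

theorem mk_empty (g : Γ) : mk g ∅ = emb Γ g := by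
  unfold mk
  have : (⟨∅, 1⟩ : WR Γ) = 1 := rfl
  rw [this, mul_one]

theorem mk_div (g g' : Γ) (S : Finset Γ) : mk g S * (mk g' S)⁻¹ = emb Γ (g * g'⁻¹) := by
  unfold mk
  rw [mul_inv_rev, map_mul, map_inv]
  group

theorem mk_mem {g : Γ} {S : Finset Γ} (h : mk g S ∈ (emb Γ).range) : S = ∅ := by
  obtain ⟨k, hk⟩ := h
  rw [← mk_empty] at hk
  exact (mk_inj hk).2.symm

theorem mk_div_mem {g g' : Γ} {S S' : Finset Γ} (h : mk g S * (mk g' S')⁻¹ ∈ (emb Γ).range) :
    S = S' := by
  obtain ⟨k, hk⟩ := h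
  have h1 : mk g S = mk (k * g') S' := by
    have : mk g S = emb Γ k * mk g' S' := by rw [hk]; group
    rw [this]
    unfold mk
    rw [map_mul, mul_assoc]
  exact (mk_inj h1).2

theorem cf_eq {G : Type} [Group G] (x : B G) (g : G) : cf x g = ent x g 1 := by
  rw [← ent_eq]; rfl

theorem mem_LK_iff (x : B (WR Γ)) :
    x ∈ LK (emb Γ).range ↔ ∃ T ∈ LG Γ, x = amp (eW Γ) T := by
  classical
  rw [(Pool.Agent.N571.EX.t_tr (WR Γ) (emb Γ).range).1 x, mem_LG_iff]
  have e1 : (1 : WR Γ) = eW Γ (1, ∅) := by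
    rw [eW_apply, mk_empty, map_one]
  constructor
  · rintro ⟨h1, h2⟩
    have h1' : ∀ s t : WR Γ, ent x t s = cf x (t * s⁻¹) := by
      intro s t
      rw [← ent_eq]; exact h1 s t
    have key : ∀ g g' : Γ, ∀ S : Finset Γ, ent x (eW Γ (g, S)) (eW Γ (g', S)) =
        cf x (emb Γ (g * g'⁻¹)) := by
      intro g g' S
      rw [h1', eW_apply, eW_apply, mk_div]
    refine ⟨blk (eW Γ) ∅ ∅ x, ?_, ?_⟩
    · rw [mem_LG_iff]
      intro s t
      rw [cf_eq, ent_eq, ent_blk, ent_blk, key, key, inv_one, mul_one]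
    · apply ent_ext
      intro a b
      obtain ⟨⟨g, S⟩, rfl⟩ := (eW Γ).surjective a
      obtain ⟨⟨g', S'⟩, rfl⟩ := (eW Γ).surjective b
      rw [ent_amp]
      by_cases h : S = S'
      · subst h
        rw [if_pos rfl, ent_blk, key, key]
      · rw [if_neg h, h1']
        apply h2
        intro hm
        exact h (mk_div_mem hm)
  · rintro ⟨T, hT, rfl⟩
    rw [mem_LG_iff] at hT
    have hT' : ∀ s t : Γ, ent T t s = cf T (t * s⁻¹) := by
      intro s t
      rw [← ent_eq]; exact hT s t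
    have key : ∀ w : WR Γ, w ∉ (emb Γ).range → cf (amp (eW Γ) T) w = 0 := by
      intro w hw
      obtain ⟨⟨g, S⟩, rfl⟩ := (eW Γ).surjective w
      rw [cf_eq, e1, ent_amp, if_neg]
      rintro rfl
      apply hw
      rw [eW_apply, mk_empty]
      exact ⟨g, rfl⟩
    refine ⟨?_, key⟩
    intro s t
    obtain ⟨⟨g, S⟩, rfl⟩ := (eW Γ).surjective t
    obtain ⟨⟨g', S'⟩, rfl⟩ := (eW Γ).surjective s
    rw [ent_eq, ent_amp]
    by_cases h : S = S'
    · subst h
      have h3 : eW Γ (g, S) * (eW Γ (g', S))⁻¹ = eW Γ (g * g'⁻¹, ∅) := by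
        rw [eW_apply, eW_apply, eW_apply, mk_div, mk_empty]
      rw [if_pos rfl, h3, cf_eq, e1, ent_amp, if_pos rfl, hT', cf_eq]
    · rw [if_neg h, key]
      intro hm
      exact h (mk_div_mem hm)

end wr

end

end TRN

/-- TRN: transport from `ℓ²(Γ)` to `ℓ²(Z/2 ≀ Γ)`. -/
theorem t_trn : S_TRN := by
  intro Γ _ h
  have h1 := TRN.transport (TRN.eW Γ) (1 : Γ) (∅ : Finset Γ) (LG Γ) (LK (emb Γ).range)
    TRN.mem_LK_iff h
  have e1 : TRN.eW Γ (1, ∅) = (1 : WR Γ) := by
    rw [TRN.eW_apply, TRN.mk_empty, map_one]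
  rw [e1] at h1
  exact h1

end Pool.Agent.N571.SS.D
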