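import Pool.Agent.N571.SS.D.Stm2

/-!
# Project SS/D (helper571), VIS (helper681): the isometry of a bi-exact group
-/

set_option autoImplicit false
set_option linter.unusedSectionVars false

namespace Pool.Agent.N571.SS.D

namespace VIS

open Filter Topology
open scoped InnerProductSpace ComplexOrder
open Pool.Agent.H494R3.GT (L2 dl UU UU_dl UU_apply dl_inner inner_dl op_ext op_ext_inner vec_ext
  mul_ap)
open Pool.Agent.N557.QW (lam rgt LG LK cf rc lam_dl rgt_dl)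
open Pool.Agent.H812R3

noncomputable section

variable {G : Type} [Group G]

/-- sums over the pairs, through a bijection -/
theorem sums (e : G × G ≃ G × G) {f : G × G → ℂ} {w : G → G → ℝ} {ζ : L2 G} {c : ℝ}
    (hf : ∀ y h, f (e (y, h)) = ((w y h : ℝ) : ℂ) * ζ y) (hw : ∀ y, Summable fun h => w y h ^ 2)
    (hb : ∀ y, (∑' h, w y h ^ 2) * ‖ζ y‖ ^ 2 ≤ c * ‖ζ y‖ ^ 2) :
    Summable (fun p => ‖f p‖ ^ 2) ∧
      ∑' p, ‖f p‖ ^ 2 = ∑' y, (∑' h, w y h ^ 2) * ‖ζ y‖ ^ 2 := by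
  have h1 : ∀ y h, ‖f (e (y, h))‖ ^ 2 = w y h ^ 2 * ‖ζ y‖ ^ 2 := by
    intro y h
    rw [hf, norm_mul, mul_pow, Complex.norm_real, Real.norm_eq_abs, sq_abs]
  have h2 : Summable fun q : G × G => ‖f (e q)‖ ^ 2 := by
    rw [summable_prod_of_nonneg (fun q => by positivity)]
    constructor
    · intro y
      simp only [h1]
      exact (hw y).mul_right _
    · simp only [h1, tsum_mul_right]
      refine Summable.of_nonneg_of_le (fun y => ?_) hb ((KP.summable_sq ζ).mul_left c)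
      have : 0 ≤ ∑' h, w y h ^ 2 := tsum_nonneg fun h => sq_nonneg _
      positivity
  have h3 : Summable fun p => ‖f p‖ ^ 2 := by
    rw [← e.summable_iff]
    exact h2
  refine ⟨h3, ?_⟩
  rw [← e.tsum_eq, h2.tsum_prod]
  simp only [h1, tsum_mul_right]

/-- the bijection `(x, h) ↦ (h, h⁻¹ x)` -/
def E (s t : G) : G × G ≃ G × G where
  toFun p := (p.2, p.2⁻¹ * (s * p.1 * t))
  invFun p := (s⁻¹ * (p.1 * p.2) * t⁻¹, p.1)
  left_inv p := by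
    rcases p with ⟨x, h⟩
    simp [mul_assoc]
  right_inv p := by
    rcases p with ⟨x, h⟩
    simp [mul_assoc]

/-- the values of the isometry -/
def V0 (μ : G → (G →₀ ℝ)) (ζ : L2 G) (p : G × G) : ℂ :=
  ((√(μ (p.1 * p.2) p.1) : ℝ) : ℂ) * ζ (p.1 * p.2)

theorem V0_E (μ : G → (G →₀ ℝ)) (ζ : L2 G) (y h : G) :
    V0 μ ζ (E 1 1 (y, h)) = ((√(μ y h) : ℝ) : ℂ) * ζ y := by
  have h1 : h * (h⁻¹ * (1 * y * 1)) = y := by group
  change ((√(μ (h * (h⁻¹ * (1 * y * 1))) h) : ℝ) : ℂ) * ζ (h * (h⁻¹ * (1 * y * 1))) = _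
  rw [h1]

theorem hasSum_sqrt {p : G →₀ ℝ} (hp : Pr p) : HasSum (fun h => √(p h) ^ 2) 1 := by
  have h1 : (fun h => √(p h) ^ 2) = fun h => p h := funext fun h => Real.sq_sqrt (hp.nonneg h)
  rw [h1, ← hp.one, Finsupp.sum]
  exact hasSum_sum_of_ne_finset_zero fun h hh => Finsupp.notMem_support_iff.1 hh

theorem V0_sums {μ : G → (G →₀ ℝ)} (hμ : ∀ x, Pr (μ x)) (ζ : L2 G) :
    Summable (fun p => ‖V0 μ ζ p‖ ^ 2) ∧ ∑' p, ‖V0 μ ζ p‖ ^ 2 = ‖ζ‖ ^ 2 := by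
  have h1 : ∀ y, ∑' h, √(μ y h) ^ 2 = 1 := fun y => (hasSum_sqrt (hμ y)).tsum_eq
  obtain ⟨h2, h3⟩ := sums (E 1 1) (f := V0 μ ζ) (w := fun y h => √(μ y h)) (ζ := ζ) (c := 1)
    (V0_E μ ζ) (fun y => (hasSum_sqrt (hμ y)).summable) (fun y => by rw [h1 y])
  refine ⟨h2, ?_⟩
  rw [h3, KP.norm_sq_eq]
  refine tsum_congr fun y => ?_
  rw [h1, one_mul]

/-- the isometry, linear map -/
def VL {μ : G → (G →₀ ℝ)} (hμ : ∀ x, Pr (μ x)) : L2 G →ₗ[ℂ] L2 (G × G) where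
  toFun ζ := ⟨V0 μ ζ, KP.mem_of_summable (V0_sums hμ ζ).1⟩
  map_add' ζ η := by
    ext p
    change V0 μ (ζ + η) p = V0 μ ζ p + V0 μ η p
    unfold V0
    rw [← mul_add]
    rfl
  map_smul' c ζ := by
    ext p
    change V0 μ (c • ζ) p = c • V0 μ ζ p
    unfold V0
    rw [smul_eq_mul, mul_left_comm]
    rfl

theorem VL_apply {μ : G → (G →₀ ℝ)} (hμ : ∀ x, Pr (μ x)) (ζ : L2 G) (p : G × G) :
    VL hμ ζ p = V0 μ ζ p := rfl

theorem VL_norm {μ : G → (G →₀ ℝ)} (hμ : ∀ x, Pr (μ x)) (ζ : L2 G) : ‖VL hμ ζ‖ = ‖ζ‖ := by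
  have h1 : ‖VL hμ ζ‖ ^ 2 = ‖ζ‖ ^ 2 := by
    rw [KP.norm_sq_eq]
    exact (V0_sums hμ ζ).2
  exact (pow_left_inj₀ (norm_nonneg _) (norm_nonneg _) two_ne_zero).1 h1

/-- the isometry -/
def VV {μ : G → (G →₀ ℝ)} (hμ : ∀ x, Pr (μ x)) : L2 G →L[ℂ] L2 (G × G) :=
  (VL hμ).mkContinuous 1 fun ζ => by rw [VL_norm, one_mul]

theorem VV_apply {μ : G → (G →₀ ℝ)} (hμ : ∀ x, Pr (μ x)) (ζ : L2 G) (p : G × G) :
    VV hμ ζ p = ((√(μ (p.1 * p.2) p.1) : ℝ) : ℂ) * ζ (p.1 * p.2) := rfl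

/-- the two-sided translation of pairs -/
def pq (s t : G) : Equiv.Perm (G × G) where
  toFun p := (s * p.1, p.2 * t)
  invFun p := (s⁻¹ * p.1, p.2 * t⁻¹)
  left_inv p := by simp
  right_inv p := by simp

theorem a12_eq (hB : Bas G) (s t : G) : a1 (lam s) * a2 (rgt t) = UU (pq s t) := by
  classical
  apply op_ext_inner
  rintro ⟨x, x'⟩ ⟨y, y'⟩
  rw [hB.a12_ent, lam_dl, rgt_dl, UU_dl]
  change _ = ⟪dl (x, x'), dl (s * y, y' * t)⟫_ℂ
  rw [dl_inner, dl_inner, dl_inner]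
  by_cases h1 : x = s * y
  · by_cases h2 : x' = y' * t
    · rw [if_pos h1, if_pos h2, if_pos (Prod.ext h1 h2), one_mul]
    · rw [if_neg h2, if_neg fun h3 => h2 (congrArg Prod.snd h3), mul_zero]
  · rw [if_neg h1, if_neg fun h3 => h1 (congrArg Prod.fst h3), zero_mul]

theorem lam_apply (s : G) (v : L2 G) (x : G) : lam s v x = v (s⁻¹ * x) := by
  rw [lam, UU_apply]
  rfl

theorem rgt_apply (t : G) (v : L2 G) (x : G) : rgt t v x = v (x * t⁻¹) := by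
  rw [rgt, UU_apply]
  rfl

theorem sq_sub_le {a b : ℝ} (ha : 0 ≤ a) (hb : 0 ≤ b) : (√a - √b) ^ 2 ≤ |a - b| := by
  have h1 : |√a - √b| ≤ √a + √b := by
    rw [abs_le]
    constructor <;> linarith [Real.sqrt_nonneg a, Real.sqrt_nonneg b]
  have h2 : a - b = (√a - √b) * (√a + √b) := by
    have h3 := Real.sq_sqrt ha
    have h4 := Real.sq_sqrt hb
    nlinarith
  rw [h2, abs_mul, ← sq_abs, sq, abs_of_nonneg (by positivity : 0 ≤ √a + √b)]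
  exact mul_le_mul_of_nonneg_left h1 (abs_nonneg _)

theorem tr_apply (s : G) (p : G →₀ ℝ) (h : G) : tr s p h = p (s⁻¹ * h) := by
  have h1 : h = s * (s⁻¹ * h) := by group
  unfold tr
  conv_lhs => rw [h1]
  exact Finsupp.mapDomain_apply (mul_right_injective s) p (s⁻¹ * h)

theorem sum_le {p q : G →₀ ℝ} (hp : ∀ h, 0 ≤ p h) (hq : ∀ h, 0 ≤ q h) :
    Summable (fun h => (√(p h) - √(q h)) ^ 2) ∧ ∑' h, (√(p h) - √(q h)) ^ 2 ≤ l1 (p - q) := by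
  have h1 : ∀ h, h ∉ (p - q).support → (√(p h) - √(q h)) ^ 2 = 0 := by
    intro h hh
    rw [Finsupp.notMem_support_iff, Finsupp.sub_apply, sub_eq_zero] at hh
    rw [hh]
    ring
  have h2 : HasSum (fun h => (√(p h) - √(q h)) ^ 2)
      (∑ h ∈ (p - q).support, (√(p h) - √(q h)) ^ 2) := hasSum_sum_of_ne_finset_zero h1
  refine ⟨h2.summable, ?_⟩
  rw [h2.tsum_eq, l1, Finsupp.sum]
  apply Finset.sum_le_sum
  intro h _
  rw [Finsupp.sub_apply]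
  exact sq_sub_le (hp h) (hq h)

end

end VIS

open VIS in
theorem t_vis (h0 : S_BAS) : S_VIS := by
  intro G _ _ hG
  obtain ⟨μ, hμ, hlim⟩ := hG.ex
  refine ⟨VV hμ, VL_norm hμ, ?_⟩
  intro s t ε hε
  have h1 : ∀ᶠ x in Filter.cofinite, l1 (μ (s * x * t) - tr s (μ x)) < ε ^ 2 :=
    (hlim s t).eventually (gt_mem_nhds (by positivity))
  rw [Filter.eventually_cofinite] at h1
  refine ⟨h1.toFinset, ?_⟩
  intro ζ hζ
  have hζ' : ∀ x, ζ x ≠ 0 → l1 (μ (s * x * t) - tr s (μ x)) < ε ^ 2 := by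
    intro x hx
    by_contra hcon
    apply hx
    have h2 := hζ x (by rw [Set.Finite.mem_toFinset]; exact hcon)
    rwa [Pool.Agent.H494R3.GT.inner_dl] at h2
  have h3 : Pool.Agent.N571.SS.D.a1 (Pool.Agent.N557.QW.lam s)
      (Pool.Agent.N571.SS.D.a2 (Pool.Agent.N557.QW.rgt t) (VV hμ ζ)) =
      Pool.Agent.H494R3.GT.UU (pq s t) (VV hμ ζ) := by
    rw [← a12_eq (h0 G) s t]
    rfl
  rw [h3]
  set D := VV hμ (Pool.Agent.N557.QW.lam s (Pool.Agent.N557.QW.rgt t ζ)) -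
    Pool.Agent.H494R3.GT.UU (pq s t) (VV hμ ζ) with hD
  have h4 : ∀ y h, D (E s t (y, h)) =
      ((√(μ (s * y * t) h) - √(tr s (μ y) h) : ℝ) : ℂ) * ζ y := by
    intro y h
    have e1 : h * (h⁻¹ * (s * y * t)) = s * y * t := by group
    have e2 : (s⁻¹ * h) * (h⁻¹ * (s * y * t) * t⁻¹) = y := by group
    have e3 : s⁻¹ * (s * y * t) * t⁻¹ = y := by group
    have e4 : VV hμ (Pool.Agent.N557.QW.lam s (Pool.Agent.N557.QW.rgt t ζ)) (E s t (y, h)) =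
        ((√(μ (s * y * t) h) : ℝ) : ℂ) * ζ y := by
      rw [VV_apply]
      change ((√(μ (h * (h⁻¹ * (s * y * t))) h) : ℝ) : ℂ) *
        (Pool.Agent.N557.QW.lam s (Pool.Agent.N557.QW.rgt t ζ)) (h * (h⁻¹ * (s * y * t))) = _
      rw [e1, lam_apply, rgt_apply, e3]
    have e5 : Pool.Agent.H494R3.GT.UU (pq s t) (VV hμ ζ) (E s t (y, h)) =
        ((√(tr s (μ y) h) : ℝ) : ℂ) * ζ y := by
      rw [Pool.Agent.H494R3.GT.UU_apply, VV_apply]
      change ((√(μ ((s⁻¹ * h) * (h⁻¹ * (s * y * t) * t⁻¹)) (s⁻¹ * h)) : ℝ) : ℂ) *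
        ζ ((s⁻¹ * h) * (h⁻¹ * (s * y * t) * t⁻¹)) = _
      rw [e2, tr_apply]
    rw [hD]
    change VV hμ (Pool.Agent.N557.QW.lam s (Pool.Agent.N557.QW.rgt t ζ)) (E s t (y, h)) -
      Pool.Agent.H494R3.GT.UU (pq s t) (VV hμ ζ) (E s t (y, h)) = _
    rw [e4, e5, Complex.ofReal_sub, sub_mul]
  have h5 : ∀ y, Summable (fun h => (√(μ (s * y * t) h) - √(tr s (μ y) h)) ^ 2) ∧
      ∑' h, (√(μ (s * y * t) h) - √(tr s (μ y) h)) ^ 2 ≤ l1 (μ (s * y * t) - tr s (μ y)) := by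
    intro y
    refine sum_le (hμ _).nonneg ?_
    intro h
    rw [tr_apply]
    exact (hμ _).nonneg _
  have h6 : ∀ y, (∑' h, (√(μ (s * y * t) h) - √(tr s (μ y) h)) ^ 2) * ‖ζ y‖ ^ 2 ≤
      ε ^ 2 * ‖ζ y‖ ^ 2 := by
    intro y
    by_cases hy : ζ y = 0
    · rw [hy, norm_zero]
      simp
    · exact mul_le_mul_of_nonneg_right ((h5 y).2.trans (hζ' y hy).le) (sq_nonneg _)
  obtain ⟨h7, h8⟩ := sums (E s t) (f := fun p => D p) (ζ := ζ) (c := ε ^ 2)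
    (w := fun y h => √(μ (s * y * t) h) - √(tr s (μ y) h)) h4 (fun y => (h5 y).1) h6
  have h9 : ‖D‖ ^ 2 ≤ (ε * ‖ζ‖) ^ 2 := by
    rw [Pool.Agent.H812R3.KP.norm_sq_eq, h8, mul_pow, Pool.Agent.H812R3.KP.norm_sq_eq ζ,
      ← tsum_mul_left]
    refine Summable.tsum_le_tsum h6 ?_ ((Pool.Agent.H812R3.KP.summable_sq ζ).mul_left _)
    refine Summable.of_nonneg_of_le (fun y => ?_) h6
      ((Pool.Agent.H812R3.KP.summable_sq ζ).mul_left _)
    have : 0 ≤ ∑' h, (√(μ (s * y * t) h) - √(tr s (μ y) h)) ^ 2 :=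
      tsum_nonneg fun h => sq_nonneg _
    positivity
  exact (sq_le_sq₀ (norm_nonneg _) (by positivity)).1 h9

end Pool.Agent.N571.SS.D
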